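import Pool.Agent.H38.RT.Df

/-!
Definitions: primary elements at a place above two (no row).
-/

set_option autoImplicit false

open WithZero

namespace H38RT

section

variable {K : Type*} [Field K] (V : Valuation K (WithZero (Multiplicative ℤ)))

/-- `y` is a square times an element `z^2 - 4c` with `z` a unit and `c` integral. -/
def Prm (y : K) : Prop := ∃ t z c : K, t ≠ 0 ∧ V z = 1 ∧ V c ≤ 1 ∧ y = t ^ 2 * (z ^ 2 - 4 * c)

open scoped Classical in
/-- The class of a primary element: zero if the form `nf z c` is isotropic. -/
noncomputable def kp (y : K) : ZMod 2 :=
  if h : Prm V y then kap V h.choose_spec.choose h.choose_spec.choose_spec.choose else 0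

end

end H38RT
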