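import Pool.Agent.H38.RT.Ps

/-!
Row Rs. (about 90 lines): the local data at a place v of a number field. Uniformizer: v.valuation_exists_uniformizer K (value exp (-1)). The index of ball 1 = {V x < 1} in ball 0 = {V x <= 1}: the map 𝓞 K -> (ball 0)/(ball 1) has kernel v.asIdeal (valuation_lt_one_iff_mem) and is
 surjective (x with V x <= 1: x = a/b with b not in v (strip: v.valuation x <= 1 implies x = a/b, b outside v: IsDedekindDomain valuation and localization, or: choose s as in Ps (1)), c b = 1 mod v, then x - a c has valuation < 1). So the index is card (𝓞 K / v) = Ideal.absNorm, finite.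
-/

set_option autoImplicit false

open WithZero

namespace H38RT

open NumberField IsDedekindDomain

theorem Rs_lt (x : WithZero (Multiplicative ℤ)) : x ≤ exp (-1) ↔ x < 1 := by
  rcases eq_or_ne x 0 with rfl | hx
  · simp
  · rw [← log_le_iff_le_exp hx, ← exp_zero, ← log_lt_iff_lt_exp hx]
    omega

theorem Rs_card {K : Type} [Field K] [NumberField K] (v : HeightOneSpectrum (𝓞 K)) :
    (ball (v.valuation K) 1).relIndex (ball (v.valuation K) 0) = Ideal.absNorm v.asIdeal := by
  set V := v.valuation K with hV
  let g : 𝓞 K →+ ball V 0 :=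
    { toFun := fun a => ⟨algebraMap (𝓞 K) K a, by
        rw [mem_ball, neg_zero, exp_zero]
        exact v.valuation_le_one a⟩
      map_zero' := Subtype.ext (map_zero _)
      map_add' := fun a b => Subtype.ext (map_add _ a b) }
  have hg : ∀ a, ((g a : ball V 0) : K) = algebraMap (𝓞 K) K a := fun a => rfl
  let f : 𝓞 K →+ ball V 0 ⧸ (ball V 1).addSubgroupOf (ball V 0) :=
    (QuotientAddGroup.mk' ((ball V 1).addSubgroupOf (ball V 0))).comp g
  have hf : Function.Surjective f := by
    intro q
    obtain ⟨x, rfl⟩ := QuotientAddGroup.mk'_surjective _ q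
    have hx : V (x : K) ≤ 1 := by
      have h1 := x.2
      rw [mem_ball, neg_zero, exp_zero] at h1
      exact h1
    obtain ⟨a, ha⟩ := v.exists_valuation_sub_lt_of_integer hx 1
    refine ⟨a, ?_⟩
    change ((g a : ball V 0) : ball V 0 ⧸ (ball V 1).addSubgroupOf (ball V 0)) = (x : ball V 0)
    rw [QuotientAddGroup.eq, AddSubgroup.mem_addSubgroupOf, mem_ball, Rs_lt]
    have h2 : ((-(g a) + x : ball V 0) : K) = -(algebraMap (𝓞 K) K a - x) := by
      push_cast
      rw [hg]
      ring
    rw [h2, Valuation.map_neg]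
    simpa using ha
  have hker : f.ker = (Submodule.toAddSubgroup v.asIdeal) := by
    ext a
    rw [AddMonoidHom.mem_ker]
    change ((g a : ball V 0) : ball V 0 ⧸ (ball V 1).addSubgroupOf (ball V 0)) = 0 ↔ a ∈ v.asIdeal
    rw [QuotientAddGroup.eq_zero_iff, AddSubgroup.mem_addSubgroupOf, mem_ball, Rs_lt, hg, hV,
      v.valuation_lt_one_iff_mem]
  have h1 : f.ker.index = Nat.card f.range := AddSubgroup.index_ker f
  rw [AddMonoidHom.range_eq_top_of_surjective f hf, AddSubgroup.card_top, hker] at h1
  change ((ball V 1).addSubgroupOf (ball V 0)).index = Submodule.cardQuot v.asIdeal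
  exact h1.symm

theorem exists_loc {K : Type} [Field K] [NumberField K]
    {ψ : HeightOneSpectrum (𝓞 K) → AddChar K Circle} {d : HeightOneSpectrum (𝓞 K) → ℤ}
    (h : Psi K ψ d) (v : HeightOneSpectrum (𝓞 K)) {π : K} (hπ : v.valuation K π = exp (-1)) :
    Loc (v.valuation K) π (Ideal.absNorm v.asIdeal) (d v) (ψ v) := by
  exact ⟨hπ, Rs_card v, fun h0 => v.ne_bot (Ideal.absNorm_eq_zero_iff.1 h0), h.cond v⟩

end H38RT
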