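import Pool.Agent.H38.RT.Dp
import Pool.Agent.H38.RT.Rs

/-!
Row Pr. (about 160 lines): a primary element in integral form.
PROOF. The places with v 2 < 1 are finitely many (they contain 2). For each such v: y = t_v^2 (z_v^2 - 4 c_v). Approximation: there is s in K, s <> 0, with v (s t_v - 1) < v 4 for all these v (weak approximation: clear denominators: write t_v^-1 = a/b with a, b in 𝓞 K;
 for instance choose via strong approximation / Chinese remainder in 𝓞 K (IsDedekindDomain.exists_forall_sub_mem_ideal) after multiplying all t_v^-1 by one common element m of 𝓞 K divisible enough: find s' in 𝓞 K with v (s' - m t_v^-1) very small, s = s'/m).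
 Then s^2 y = (s t_v)^2 (z_v^2 - 4 c_v) with s t_v = 1 mod 4 at v, so v (s^2 y - z_v^2) <= v 4, in particular s^2 y is a unit at v. There is an odd integer m0 with m0^2 s^2 y in 𝓞 K (denominators prime to 2: the norm of the denominator ideal, or: s^2 y = a/n with n a nonzero integer,
 n = 2^k n0; 2^k divides a at every v|2 and everywhere, so a/2^k in 𝓞 K; m0 = n0). m0^2 = 1 mod 8, so v (m0^2 s^2 y - z_v^2) <= v 4 still. z in 𝓞 K with v (z - z_v) <= v 4 for all v|2 (z_v is integral at v: Chinese remainder; first replace z_v by an element of 𝓞 K close to it). Then m0^2 s^2 y - z^2 in 𝓞 K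
 is divisible by 4 at all v|2, and 4 is a unit at the other places, so it is - 4 c0 with c0 in 𝓞 K (HeightOneSpectrum.mem_integers_of_valuation_le_one). v z = 1.
-/

set_option autoImplicit false

open WithZero

namespace H38RT

open NumberField IsDedekindDomain

section aux

variable {K : Type} [Field K] [NumberField K]

lemma Pr_small {γ : WithZero (Multiplicative ℤ)} (hγ : γ ≠ 0) : ∃ n : ℕ, exp (-(n : ℤ)) < γ := by
  refine ⟨(-(log γ)).toNat + 1, ?_⟩
  conv_rhs => rw [← exp_log hγ]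
  rw [exp_lt_exp]
  push_cast
  have := Int.self_le_toNat (-(log γ))
  omega

lemma Pr_crt (S : Finset (HeightOneSpectrum (𝓞 K))) (x : HeightOneSpectrum (𝓞 K) → 𝓞 K)
    (γ : HeightOneSpectrum (𝓞 K) → WithZero (Multiplicative ℤ)) (hγ : ∀ v ∈ S, γ v ≠ 0) :
    ∃ y : 𝓞 K, ∀ v ∈ S, v.valuation K ((y : K) - (x v : K)) < γ v := by
  have hex : ∀ v ∈ S, ∃ n : ℕ, exp (-(n : ℤ)) < γ v := fun v hv => Pr_small (hγ v hv)
  choose! e he using hex
  obtain ⟨y, hy⟩ := IsDedekindDomain.exists_forall_sub_mem_ideal (s := S)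
    (fun v : HeightOneSpectrum (𝓞 K) => v.asIdeal) e (fun v _ => v.prime)
    (fun v _ w _ hvw h => hvw (HeightOneSpectrum.ext h)) (fun v => x v.1)
  refine ⟨y, fun v hv => ?_⟩
  have h := hy v hv
  rw [← map_sub, HeightOneSpectrum.valuation_of_algebraMap]
  exact ((v.intValuation_le_pow_iff_mem _ _).2 h).trans_lt (he v hv)

lemma Pr_app (S : Finset (HeightOneSpectrum (𝓞 K))) (x : HeightOneSpectrum (𝓞 K) → K)
    (hx : ∀ v ∈ S, v.valuation K (x v) ≤ 1)
    (γ : HeightOneSpectrum (𝓞 K) → WithZero (Multiplicative ℤ)) (hγ : ∀ v ∈ S, γ v ≠ 0) :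
    ∃ y : 𝓞 K, ∀ v ∈ S, v.valuation K ((y : K) - x v) < γ v := by
  have hex : ∀ v ∈ S, ∃ a : 𝓞 K, v.valuation K (algebraMap (𝓞 K) K a - x v) < γ v := by
    intro v hv
    obtain ⟨a, ha⟩ := v.exists_valuation_sub_lt_of_integer (hx v hv) (Units.mk0 (γ v) (hγ v hv))
    exact ⟨a, ha⟩
  choose! a ha using hex
  obtain ⟨y, hy⟩ := Pr_crt S a γ hγ
  refine ⟨y, fun v hv => ?_⟩
  have e1 : (y : K) - x v = ((y : K) - (a v : K)) + ((a v : K) - x v) := by ring
  rw [e1]
  exact (Valuation.map_add _ _ _).trans_lt (max_lt (hy v hv) (ha v hv))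

lemma Pr_int (S : Finset (HeightOneSpectrum (𝓞 K))) (a : HeightOneSpectrum (𝓞 K) → 𝓞 K)
    (ha : ∀ v ∈ S, a v ≠ 0) :
    ∃ y : 𝓞 K, y ≠ 0 ∧ ∀ v ∈ S, v.valuation K (y : K) = v.valuation K (a v : K) := by
  rcases S.eq_empty_or_nonempty with rfl | ⟨v₀, hv₀⟩
  · exact ⟨1, one_ne_zero, fun v hv => absurd hv (Finset.notMem_empty v)⟩
  have h0 : ∀ v ∈ S, v.valuation K (a v : K) ≠ 0 := by
    intro v hv
    rw [Valuation.ne_zero_iff]
    intro h
    exact ha v hv ((FaithfulSMul.algebraMap_eq_zero_iff (𝓞 K) K).1 h)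
  obtain ⟨y, hy⟩ := Pr_crt S a (fun v => v.valuation K (a v : K)) h0
  have key : ∀ v ∈ S, v.valuation K (y : K) = v.valuation K (a v : K) := by
    intro v hv
    have h1 : (y : K) = ((y : K) - (a v : K)) + (a v : K) := by ring
    rw [h1, Valuation.map_add_eq_of_lt_right _ (hy v hv)]
  refine ⟨y, ?_, key⟩
  rintro rfl
  have h := key v₀ hv₀
  have hz : ((0 : 𝓞 K) : K) = 0 := map_zero (algebraMap (𝓞 K) K)
  rw [hz, map_zero] at h
  exact h0 v₀ hv₀ h.symm

lemma Pr_match (S : Finset (HeightOneSpectrum (𝓞 K))) (t : HeightOneSpectrum (𝓞 K) → K)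
    (ht : ∀ v ∈ S, t v ≠ 0) : ∃ s : K, s ≠ 0 ∧ ∀ v ∈ S, v.valuation K (s * t v) = 1 := by
  have hex : ∀ v : HeightOneSpectrum (𝓞 K), ∃ n d : 𝓞 K, d ≠ 0 ∧
      t v = algebraMap (𝓞 K) K n / algebraMap (𝓞 K) K d := by
    intro v
    obtain ⟨n, d, hd, h⟩ := IsFractionRing.div_surjective (A := 𝓞 K) (t v)
    exact ⟨n, d, nonZeroDivisors.ne_zero hd, h.symm⟩
  choose n d hd hnd using hex
  have inj : ∀ x : 𝓞 K, x ≠ 0 → (x : K) ≠ 0 := fun x hx h =>
    hx ((FaithfulSMul.algebraMap_eq_zero_iff (𝓞 K) K).1 h)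
  have hn : ∀ v ∈ S, n v ≠ 0 := by
    intro v hv h
    apply ht v hv
    rw [hnd, h, map_zero, zero_div]
  obtain ⟨α, hα0, hα⟩ := Pr_int S d (fun v _ => hd v)
  obtain ⟨β, hβ0, hβ⟩ := Pr_int S n hn
  refine ⟨(α : K) / (β : K), div_ne_zero (inj _ hα0) (inj _ hβ0), fun v hv => ?_⟩
  have h1 : v.valuation K (n v : K) ≠ 0 := (Valuation.ne_zero_iff _).2 (inj _ (hn v hv))
  have h2 : v.valuation K (d v : K) ≠ 0 := (Valuation.ne_zero_iff _).2 (inj _ (hd v))
  rw [hnd, map_mul, map_div₀, map_div₀, hα v hv, hβ v hv, div_mul_div_comm, mul_comm]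
  exact div_self (mul_ne_zero h1 h2)

lemma Pr_nat (v : HeightOneSpectrum (𝓞 K)) (n : ℕ) : v.valuation K (n : K) ≤ 1 := by
  have h := v.valuation_le_one (K := K) (n : 𝓞 K)
  change v.valuation K (algebraMap (𝓞 K) K (n : 𝓞 K)) ≤ 1 at h
  rwa [map_natCast] at h

lemma Pr_odd (v : HeightOneSpectrum (𝓞 K)) (hv : v.valuation K 2 < 1) {n : ℕ} (hn : Odd n) :
    v.valuation K (n : K) = 1 := by
  obtain ⟨m, rfl⟩ := hn
  have e : ((2 * m + 1 : ℕ) : K) = 1 + 2 * (m : K) := by push_cast; ring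
  rw [e]
  refine Valuation.map_one_add_of_lt _ ?_
  rw [map_mul]
  exact mul_lt_one_of_lt_of_le hv (Pr_nat v m)

lemma Pr_den {w : K} (hw : ∀ v : HeightOneSpectrum (𝓞 K), v.valuation K 2 < 1 →
    v.valuation K w ≤ 1) : ∃ (n : ℕ) (b : 𝓞 K), Odd n ∧ (n : K) * w = b := by
  obtain ⟨a, d, hd, h⟩ := IsFractionRing.div_surjective (A := 𝓞 K) w
  have hd0 : d ≠ 0 := nonZeroDivisors.ne_zero hd
  have hdK : (d : K) ≠ 0 := fun h => hd0 ((FaithfulSMul.algebraMap_eq_zero_iff (𝓞 K) K).1 h)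
  -- an integer multiple
  have hN0 : Ideal.absNorm (Ideal.span {d}) ≠ 0 := by
    rw [Ne, Ideal.absNorm_eq_zero_iff, Ideal.span_singleton_eq_bot]
    exact hd0
  have hmem := Ideal.absNorm_mem (Ideal.span {d})
  rw [Ideal.mem_span_singleton] at hmem
  obtain ⟨r, hr⟩ := hmem
  obtain ⟨k, n, hn, hkn⟩ := Nat.exists_eq_two_pow_mul_odd hN0
  refine ⟨n, ?_⟩
  have hall : ∀ v : HeightOneSpectrum (𝓞 K), v.valuation K ((n : K) * w) ≤ 1 := by
    intro v
    by_cases hv : v.valuation K 2 < 1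
    · rw [map_mul]
      exact mul_le_one' (Pr_nat v n) (hw v hv)
    · have h2 : v.valuation K (2 : K) = 1 := by
        have h3 := Pr_nat v 2
        rw [Nat.cast_ofNat] at h3
        exact le_antisymm h3 (not_lt.1 hv)
      have h3 : (2 : K) ^ k * ((n : K) * w) = ((r * a : 𝓞 K) : K) := by
        have h4 : ((Ideal.absNorm (Ideal.span {d}) : ℕ) : K) = (d : K) * (r : K) := by
          have h6 := congrArg (algebraMap (𝓞 K) K) hr
          rw [map_natCast, map_mul] at h6
          exact h6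
        rw [hkn] at h4
        push_cast at h4
        have h5 : ((r * a : 𝓞 K) : K) = (r : K) * (a : K) := map_mul (algebraMap (𝓞 K) K) r a
        rw [← mul_assoc, h4, ← h, h5]
        change (d : K) * (r : K) * ((a : K) / (d : K)) = _
        field_simp
      have h4 : v.valuation K ((2 : K) ^ k * ((n : K) * w)) ≤ 1 := by
        rw [h3]
        exact v.valuation_le_one _
      rwa [map_mul, map_pow, h2, one_pow, one_mul] at h4
  obtain ⟨b, hb⟩ := HeightOneSpectrum.mem_integers_of_valuation_le_one K _ hall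
  exact ⟨b, hn, hb.symm⟩

end aux

theorem exists_int_form {K : Type} [Field K] [NumberField K] {y : K} (hy : y ≠ 0)
    (hp : ∀ v : HeightOneSpectrum (𝓞 K), v.valuation K 2 < 1 → Prm (v.valuation K) y) :
    ∃ (s : K) (z c₀ : 𝓞 K), s ≠ 0 ∧ s ^ 2 * y = (z : K) ^ 2 - 4 * c₀ ∧
      ∀ v : HeightOneSpectrum (𝓞 K), v.valuation K 2 < 1 → v.valuation K (z : K) = 1 := by
  have hfin : {v : HeightOneSpectrum (𝓞 K) | v.valuation K 2 < 1}.Finite := by
    have h2 : (Ideal.span {(2 : 𝓞 K)}) ≠ 0 := by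
      rw [Ne, Ideal.zero_eq_bot, Ideal.span_singleton_eq_bot]
      exact two_ne_zero
    refine (Ideal.finite_factors h2).subset ?_
    intro v hv
    have h3 := (v.valuation_lt_one_iff_dvd (K := K) (2 : 𝓞 K)).1
    change v.valuation K (algebraMap (𝓞 K) K 2) < 1 → _ at h3
    rw [map_ofNat] at h3
    exact h3 hv
  set S := hfin.toFinset with hS
  have hmem : ∀ v, v ∈ S ↔ v.valuation K 2 < 1 := by
    intro v
    rw [hS, Set.Finite.mem_toFinset]
    rfl
  unfold Prm at hp
  choose! t z c ht hz hc hyv using hp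
  obtain ⟨s, hs0, hs⟩ := Pr_match S t (fun v hv => ht v ((hmem v).1 hv))
  have hw : ∀ v : HeightOneSpectrum (𝓞 K), v.valuation K 2 < 1 →
      v.valuation K (s ^ 2 * y) ≤ 1 := by
    intro v hv
    have e : s ^ 2 * y = (s * t v) ^ 2 * (z v ^ 2 - 4 * c v) := by
      conv_lhs => rw [hyv v hv]
      ring
    have h4 : v.valuation K (4 : K) ≤ 1 := by
      have := Pr_nat v 4
      rwa [Nat.cast_ofNat] at this
    rw [e, map_mul, map_pow, hs v ((hmem v).2 hv), one_pow, one_mul]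
    refine (Valuation.map_sub _ _ _).trans (max_le ?_ ?_)
    · rw [map_pow, hz v hv, one_pow]
    · rw [map_mul]
      exact mul_le_one' h4 (hc v hv)
  obtain ⟨n, b, hn, hb⟩ := Pr_den hw
  have hn0 : (n : K) ≠ 0 := by
    rw [Nat.cast_ne_zero]
    rintro rfl
    exact absurd hn (by decide)
  set z' : HeightOneSpectrum (𝓞 K) → K := fun v => (n : K) * (s * t v) * z v with hz'
  have hz'1 : ∀ v ∈ S, v.valuation K (z' v) = 1 := by
    intro v hv
    rw [hz']
    simp only [map_mul]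
    rw [← map_mul, hs v hv, hz v ((hmem v).1 hv), Pr_odd v ((hmem v).1 hv) hn, one_mul, one_mul]
  have h20 : ∀ v ∈ S, v.valuation K (2 : K) ≠ 0 := fun v _ =>
    (Valuation.ne_zero_iff _).2 two_ne_zero
  obtain ⟨Z, hZ⟩ := Pr_app S z' (fun v hv => (hz'1 v hv).le) (fun v => v.valuation K 2) h20
  have hZ1 : ∀ v ∈ S, v.valuation K (Z : K) = 1 := by
    intro v hv
    have e : (Z : K) = ((Z : K) - z' v) + z' v := by ring
    rw [e, Valuation.map_add_eq_of_lt_right, hz'1 v hv]
    rw [hz'1 v hv]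
    exact (hZ v hv).trans ((hmem v).1 hv)
  have hint : ∀ v : HeightOneSpectrum (𝓞 K),
      v.valuation K (((Z : K) ^ 2 - ((n : K) * s) ^ 2 * y) / 4) ≤ 1 := by
    intro v
    have h40 : v.valuation K (4 : K) ≠ 0 := (Valuation.ne_zero_iff _).2 (by norm_num)
    have h4 : v.valuation K (4 : K) = v.valuation K 2 * v.valuation K 2 := by
      rw [← map_mul]
      norm_num
    rw [map_div₀, div_le_one₀ (zero_lt_iff.2 h40)]
    by_cases hv : v.valuation K 2 < 1
    · have hvS := (hmem v).2 hv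
      have e : (Z : K) ^ 2 - ((n : K) * s) ^ 2 * y =
          ((Z : K) - z' v) * (((Z : K) - z' v) + 2 * z' v) +
            4 * (((n : K) * (s * t v)) ^ 2 * c v) := by
        conv_lhs => rw [hyv v hv]
        rw [hz']
        ring
      rw [e]
      refine (Valuation.map_add _ _ _).trans (max_le ?_ ?_)
      · rw [map_mul, h4]
        refine mul_le_mul' (hZ v hvS).le ((Valuation.map_add _ _ _).trans (max_le (hZ v hvS).le ?_))
        rw [map_mul, hz'1 v hvS, mul_one]
      · rw [map_mul]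
        refine mul_le_of_le_one_right' ?_
        rw [map_mul, map_pow, map_mul, hs v hvS, mul_one]
        exact mul_le_one' (pow_le_one' (Pr_nat v n) 2) (hc v hv)
    · have h2 : v.valuation K (2 : K) = 1 := by
        have h3 := Pr_nat v 2
        rw [Nat.cast_ofNat] at h3
        exact le_antisymm h3 (not_lt.1 hv)
      rw [h4, h2, mul_one]
      have e : (Z : K) ^ 2 - ((n : K) * s) ^ 2 * y = (Z : K) ^ 2 - (n : K) * (b : K) := by
        rw [← hb]
        ring
      rw [e]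
      refine (Valuation.map_sub _ _ _).trans (max_le ?_ ?_)
      · rw [map_pow]
        exact pow_le_one' (v.valuation_le_one Z) 2
      · rw [map_mul]
        exact mul_le_one' (Pr_nat v n) (v.valuation_le_one b)
  obtain ⟨c₀, hc₀⟩ := HeightOneSpectrum.mem_integers_of_valuation_le_one K _ hint
  refine ⟨(n : K) * s, Z, c₀, mul_ne_zero hn0 hs0, ?_, fun v hv => hZ1 v ((hmem v).2 hv)⟩
  have hc₁ : (c₀ : K) = ((Z : K) ^ 2 - ((n : K) * s) ^ 2 * y) / 4 := hc₀
  rw [hc₁]
  field_simp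
  ring

end H38RT
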