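import Pool.Agent.H38.RT.Df

/-!
Row Ba. (about 200 lines): balls.
 V_eq: V x <> 0 for x <> 0, exp_log. ord_mul: log_mul. ball_scale: V (x y) = V x V y, exp_add, multiply the inequality by V x <> 0.
 ball_index: induction on n with AddSubgroup.relIndex_mul_relIndex; one step: multiplication by pi^j (j in Z, zpow) maps ball 0 onto ball j and ball 1 onto ball (j+1) (ball_scale), so the relative index is q (h.card);
   use AddSubgroup.relIndex and an additive equivalence K = K (AddEquiv of multiplication by a nonzero element: AddSubgroup.relIndex_map_map_of_injective or similar).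
 perp_ub: V 2 = 1. If x in the ball then for y in ball j: V (2 c x y) <= exp d (2 is a unit), so psi (1 * (2 c x y)) = 1 by h.cond (backward direction, t = 1). Conversely, put y = t * pi^j, V t <= 1: psi (t * (2 c x pi^j)) = 1 for all such t,
   so V (2 c x pi^j) <= exp d by h.cond, i.e. V x <= exp (d + j + ord c) = exp (- (-d - j - ord c)).
 perp_nb_two: V 2 < 1, V z = 1, V c0 <= 1. (x1,x2) pairs with (y1,0) to u (2 x1 + z x2) y1 and with (0,y2) to u (z x1 + 2 c0 x2) y2; as above the condition is V (u (2 x1 + z x2)) <= exp (d+j) and V (u (z x1 + 2 c0 x2)) <= exp (d+j).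
   If V x2 <= V x1, x1 <> 0: V (2 c0 x2) < V x1 so V (z x1 + 2 c0 x2) = V x1 (Valuation.map_add_eq_of_lt_left/right). If V x1 < V x2: V (2 x1 + z x2) = V x2. Hence both V x1, V x2 <= exp (d + j + ord u). The other inclusion is clear.
-/

set_option autoImplicit false

open WithZero

namespace H38RT

variable {K : Type*} [Field K] {V : Valuation K (WithZero (Multiplicative ℤ))} {π : K} {q : ℕ}
  {d : ℤ} {ψ : AddChar K Circle}

theorem V_eq {x : K} (hx : x ≠ 0) : V x = exp (- ord V x) := by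
  unfold ord
  rw [neg_neg, exp_log ((Valuation.ne_zero_iff V).2 hx)]

theorem ord_mul {x y : K} (hx : x ≠ 0) (hy : y ≠ 0) : ord V (x * y) = ord V x + ord V y := by
  unfold ord
  rw [map_mul, log_mul ((Valuation.ne_zero_iff V).2 hx) ((Valuation.ne_zero_iff V).2 hy)]
  ring

theorem ord_pi (h : Loc V π q d ψ) (j : ℤ) : ord V (π ^ j) = j ∧ π ^ j ≠ 0 := by
  have h0 : π ≠ 0 := by
    intro h0
    have h1 := h.pi
    rw [h0, map_zero] at h1
    exact exp_ne_zero h1.symm
  refine ⟨?_, zpow_ne_zero j h0⟩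
  unfold ord
  rw [map_zpow₀, h.pi, log_zpow, log_exp]
  simp

theorem ball_anti {i j : ℤ} (h : i ≤ j) : ball V j ≤ ball V i := by
  intro x hx
  rw [mem_ball] at hx ⊢
  exact hx.trans (exp_le_exp.2 (neg_le_neg h))

private theorem Ba_div {u : K} (hu : u ≠ 0) (w : K) (e : ℤ) :
    V (u * w) ≤ exp e ↔ V w ≤ exp (e + ord V u) := by
  have h0 : (0 : WithZero (Multiplicative ℤ)) < V u := by
    rw [zero_lt_iff]
    exact (Valuation.ne_zero_iff V).2 hu
  have h1 : exp e = V u * exp (e + ord V u) := by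
    rw [V_eq hu, ← exp_add]
    congr 1
    unfold ord
    ring
  rw [map_mul, h1, mul_le_mul_iff_right₀ h0]

theorem ball_scale {x : K} (hx : x ≠ 0) (j : ℤ) (y : K) :
    x * y ∈ ball V (j + ord V x) ↔ y ∈ ball V j := by
  rw [mem_ball, mem_ball, Ba_div hx]
  have h1 : -(j + ord V x) + ord V x = -j := by ring
  rw [h1]

private theorem Ba_map {x : K} (hx : x ≠ 0) (j : ℤ) :
    ball V (j + ord V x) = (ball V j).map (AddMonoidHom.mulLeft x) := by
  ext y
  rw [AddSubgroup.mem_map]
  constructor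
  · intro hy
    have h1 : x * (x⁻¹ * y) = y := by rw [← mul_assoc, mul_inv_cancel₀ hx, one_mul]
    refine ⟨x⁻¹ * y, ?_, h1⟩
    rw [← ball_scale hx, h1]
    exact hy
  · rintro ⟨z, hz, rfl⟩
    exact (ball_scale hx j z).2 hz

private theorem Ba_step (h : Loc V π q d ψ) (j : ℤ) :
    (ball V (j + 1)).relIndex (ball V j) = q := by
  obtain ⟨h1, h2⟩ := ord_pi h j
  have h3 : ball V (j + 1) = (ball V 1).map (AddMonoidHom.mulLeft (π ^ j)) := by
    rw [← Ba_map h2, h1, add_comm]
  have h4 : ball V j = (ball V 0).map (AddMonoidHom.mulLeft (π ^ j)) := by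
    rw [← Ba_map h2, h1, zero_add]
  have hinj : Function.Injective (AddMonoidHom.mulLeft (π ^ j)) := fun a b hab =>
    mul_left_cancel₀ h2 hab
  rw [h3]
  conv_lhs => rw [h4]
  rw [AddSubgroup.relIndex_map_map_of_injective _ _ hinj, h.card]

theorem ball_index (h : Loc V π q d ψ) (n : ℕ) (j : ℤ) :
    (ball V (j + n)).relIndex (ball V j) = q ^ n := by
  induction n with
  | zero =>
    rw [Nat.cast_zero, add_zero, pow_zero]
    exact AddSubgroup.relIndex_self _
  | succ n ih =>
    have h1 : j + ((n + 1 : ℕ) : ℤ) = (j + n) + 1 := by push_cast; ring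
    rw [h1, ← AddSubgroup.relIndex_mul_relIndex _ _ _
      (ball_anti (by omega : j + (n : ℤ) ≤ j + n + 1)) (ball_anti (by omega : j ≤ j + n)), Ba_step h, ih, pow_succ, mul_comm]

private theorem Ba_dual (h : Loc V π q d ψ) (A : K) (j : ℤ) :
    (∀ y ∈ ball V j, ψ (A * y) = 1) ↔ V A ≤ exp (d + j) := by
  obtain ⟨h1, h2⟩ := ord_pi h j
  have hV : V (π ^ j) = exp (-j) := by rw [V_eq h2, h1]
  constructor
  · intro hy
    have h3 : ∀ t : K, V t ≤ 1 → ψ (t * (π ^ j * A)) = 1 := by
      intro t ht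
      have h4 : t * (π ^ j * A) = A * (t * π ^ j) := by ring
      rw [h4]
      apply hy
      rw [mem_ball, map_mul, hV]
      exact mul_le_of_le_one_left' ht
    have h5 := (h.cond _).1 h3
    rw [Ba_div h2, h1] at h5
    exact h5
  · intro hA y hy
    have h3 : V (A * y) ≤ exp d := by
      rw [mem_ball] at hy
      rw [map_mul]
      calc V A * V y ≤ exp (d + j) * exp (-j) := mul_le_mul' hA hy
        _ = exp d := by
            rw [← exp_add]
            congr 1
            ring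
    have h4 := (h.cond _).2 h3 1 (by simp)
    rwa [one_mul] at h4

theorem perp_ub (h : Loc V π q d ψ) (h2 : V 2 = 1) {c : K} (hc : c ≠ 0) (j : ℤ) :
    perp ψ (ub c) (ball V j) = ball V (-d - j - ord V c) := by
  ext x
  rw [mem_perp]
  simp_rw [ub_apply]
  rw [Ba_dual h, mem_ball]
  have h3 : V (2 * c * x) = V (c * x) := by
    rw [mul_assoc, map_mul, h2, one_mul]
  rw [h3, Ba_div hc]
  have h4 : d + j + ord V c = -(-d - j - ord V c) := by ring
  rw [h4]

private theorem Ba_pair (h2 : V 2 < 1) {z c₀ : K} (hz : V z = 1) (hc : V c₀ ≤ 1)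
    (B : WithZero (Multiplicative ℤ)) (x₁ x₂ : K) :
    (V (2 * x₁ + z * x₂) ≤ B ∧ V (z * x₁ + 2 * c₀ * x₂) ≤ B) ↔ V x₁ ≤ B ∧ V x₂ ≤ B := by
  have a1 : V (2 * x₁) ≤ V x₁ := by
    rw [map_mul]
    exact mul_le_of_le_one_left' h2.le
  have a2 : V (z * x₂) = V x₂ := by rw [map_mul, hz, one_mul]
  have a3 : V (z * x₁) = V x₁ := by rw [map_mul, hz, one_mul]
  have a4 : V (2 * c₀ * x₂) ≤ V 2 * V x₂ := by
    rw [map_mul, map_mul]
    exact mul_le_mul' (mul_le_of_le_one_right' hc) le_rfl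
  have a5 : V (2 * c₀ * x₂) ≤ V x₂ := a4.trans (mul_le_of_le_one_left' h2.le)
  constructor
  · rintro ⟨b1, b2⟩
    rcases le_or_gt (V x₂) (V x₁) with h3 | h3
    · rcases eq_or_ne x₁ 0 with h0 | h0
      · rw [h0, map_zero] at h3 ⊢
        exact ⟨zero_le, h3.trans zero_le⟩
      · have h4 : (0 : WithZero (Multiplicative ℤ)) < V x₁ := by
          rw [zero_lt_iff]
          exact (Valuation.ne_zero_iff V).2 h0
        have h5 : V (2 * c₀ * x₂) < V (z * x₁) := by
          rw [a3]
          calc V (2 * c₀ * x₂) ≤ V 2 * V x₁ := a4.trans (mul_le_mul' le_rfl h3)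
            _ < 1 * V x₁ := mul_lt_mul_of_pos_right h2 h4
            _ = V x₁ := one_mul _
        rw [Valuation.map_add_eq_of_lt_left V h5, a3] at b2
        exact ⟨b2, h3.trans b2⟩
    · have h5 : V (2 * x₁) < V (z * x₂) := by
        rw [a2]
        exact lt_of_le_of_lt a1 h3
      rw [Valuation.map_add_eq_of_lt_right V h5, a2] at b1
      exact ⟨h3.le.trans b1, b1⟩
  · rintro ⟨b1, b2⟩
    exact ⟨(V.map_add _ _).trans (max_le (a1.trans b1) (a2.le.trans b2)),
      (V.map_add _ _).trans (max_le (a3.le.trans b1) (a5.trans b2))⟩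

theorem perp_nb_two (h : Loc V π q d ψ) (h2 : V 2 < 1) {u z c₀ : K} (hu : u ≠ 0) (hz : V z = 1)
    (hc : V c₀ ≤ 1) (j : ℤ) :
    perp ψ (nb u z c₀) ((ball V j).prod (ball V j)) =
      (ball V (-d - j - ord V u)).prod (ball V (-d - j - ord V u)) := by
  ext x
  obtain ⟨x₁, x₂⟩ := x
  rw [mem_perp, AddSubgroup.mem_prod, mem_ball, mem_ball]
  have h4 : -(-d - j - ord V u) = d + j + ord V u := by ring
  rw [h4, ← Ba_pair h2 hz hc, ← Ba_div hu, ← Ba_div hu, ← Ba_dual h, ← Ba_dual h]
  constructor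
  · intro hx
    constructor
    · intro y hy
      have h5 := hx (y, 0) (AddSubgroup.mem_prod.2 ⟨hy, (ball V j).zero_mem⟩)
      rw [nb_apply] at h5
      rw [← h5]
      congr 1
      ring
    · intro y hy
      have h5 := hx (0, y) (AddSubgroup.mem_prod.2 ⟨(ball V j).zero_mem, hy⟩)
      rw [nb_apply] at h5
      rw [← h5]
      congr 1
      ring
  · rintro ⟨b1, b2⟩ ⟨y₁, y₂⟩ hy
    obtain ⟨hy1, hy2⟩ := AddSubgroup.mem_prod.1 hy
    have h5 : nb u z c₀ (x₁, x₂) (y₁, y₂) =
        u * (2 * x₁ + z * x₂) * y₁ + u * (z * x₁ + 2 * c₀ * x₂) * y₂ := by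
      rw [nb_apply]
      ring
    rw [h5, AddChar.map_add_eq_mul, b1 y₁ hy1, b2 y₂ hy2, one_mul]

end H38RT
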