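import Pool.Agent.H38.RT.Qa

/-!
Row Qc. (about 130 lines): products.
qs_mul: sections r of A1/B and s of A2/B; r i + s j is a section of (A1 sup A2)/B: existence: x = a1 + a2, a1 - r i in B, a2 - s j in B. Uniqueness: if r i + s j - r i' - s j' in B then
 r i - r i' in A1 and it is s j' - s j + element of B, in A2; so in B (h), i = i', similarly j. f (r i + s j) = f (r i) f (s j). Invariance of f on A1 sup A2: f (a1 + a2 + b) = f a1 * f (a2 + b).
qs_prod: sections (r i, s j). qs_pi: by induction on the finite index type, or directly with sections (choice functions): for sections r_k of A_k/B_k the family x -> (fun k => r_k (x k)), x in Pi of Fin, is a section;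
 Finset.prod_univ_sum / Fintype.piFinset gives the product of the sums.
-/

set_option autoImplicit false

open WithZero

namespace H38RT

variable {V V' : Type*} [AddCommGroup V] [AddCommGroup V']

theorem qs_mul {A₁ A₂ B : AddSubgroup V} (h1 : B ≤ A₁) (h2 : B ≤ A₂) (h : A₁ ⊓ A₂ ≤ B)
    (f1 : B.relIndex A₁ ≠ 0) (f2 : B.relIndex A₂ ≠ 0) {f : V → ℂ}
    (hm : ∀ x ∈ A₁, ∀ y ∈ A₂, f (x + y) = f x * f y) (hf1 : Inva A₁ B f) (hf2 : Inva A₂ B f) :
    qs (A₁ ⊔ A₂) B f = qs A₁ B f * qs A₂ B f ∧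
      B.relIndex (A₁ ⊔ A₂) = B.relIndex A₁ * B.relIndex A₂ := by
  obtain ⟨r, hr, hur⟩ := exists_sec f1
  obtain ⟨s, hs, hus⟩ := exists_sec f2
  have hinv : Inva (A₁ ⊔ A₂) B f := by
    intro x hx b hb
    obtain ⟨a, ha, c, hc, rfl⟩ := AddSubgroup.mem_sup.1 hx
    rw [add_assoc, hm a ha (c + b) (add_mem hc (h2 hb)), hf2 c hc b hb, hm a ha c hc]
  have ht : ∀ q : Fin (B.relIndex A₁) × Fin (B.relIndex A₂), r q.1 + s q.2 ∈ A₁ ⊔ A₂ := fun q =>
    AddSubgroup.add_mem_sup (hr q.1) (hs q.2)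
  have hu : ∀ x ∈ A₁ ⊔ A₂, ∃! q : Fin (B.relIndex A₁) × Fin (B.relIndex A₂),
      x - (r q.1 + s q.2) ∈ B := by
    intro x hx
    obtain ⟨a, ha, c, hc, rfl⟩ := AddSubgroup.mem_sup.1 hx
    obtain ⟨i, hi, -⟩ := hur a ha
    obtain ⟨j, hj, -⟩ := hus c hc
    have hi' : a - r i ∈ B := hi
    have hj' : c - s j ∈ B := hj
    have hsum : a + c - (r i + s j) ∈ B := by
      have h3 := add_mem hi' hj'
      have h4 : a + c - (r i + s j) = a - r i + (c - s j) := by abel
      rw [h4]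
      exact h3
    refine ⟨(i, j), hsum, ?_⟩
    rintro ⟨i', j'⟩ h'
    have h'' : a + c - (r i' + s j') ∈ B := h'
    have hd : (r i - r i') + (s j - s j') ∈ B := by
      have h3 := sub_mem h'' hsum
      have h4 : a + c - (r i' + s j') - (a + c - (r i + s j)) =
          (r i - r i') + (s j - s j') := by abel
      rwa [h4] at h3
    have hr1 : r i - r i' ∈ A₁ := sub_mem (hr i) (hr i')
    have hs1 : s j - s j' ∈ A₂ := sub_mem (hs j) (hs j')
    have hr2 : r i - r i' ∈ A₂ := by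
      have h3 := sub_mem (h2 hd) hs1
      have h4 : (r i - r i') + (s j - s j') - (s j - s j') = r i - r i' := by abel
      rwa [h4] at h3
    have hr3 : r i - r i' ∈ B := h (AddSubgroup.mem_inf.2 ⟨hr1, hr2⟩)
    have hs3 : s j - s j' ∈ B := by
      have h3 := sub_mem hd hr3
      have h4 : (r i - r i') + (s j - s j') - (r i - r i') = s j - s j' := by abel
      rwa [h4] at h3
    have e1 : i' = i := (hur (r i) (hr i)).unique hr3 (by rw [sub_self]; exact zero_mem B)
    have e2 : j' = j := (hus (s j) (hs j)).unique hs3 (by rw [sub_self]; exact zero_mem B)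
    rw [e1, e2]
  refine ⟨?_, ?_⟩
  · rw [qs_eq_sum hinv (fun q : Fin (B.relIndex A₁) × Fin (B.relIndex A₂) => r q.1 + s q.2) ht hu,
      qs_eq_sum hf1 r hr hur, qs_eq_sum hf2 s hs hus, Fintype.sum_prod_type, Finset.sum_mul_sum]
    exact Finset.sum_congr rfl fun i _ => Finset.sum_congr rfl fun j _ => hm _ (hr i) _ (hs j)
  · rw [relIndex_of_sec (fun q : Fin (B.relIndex A₁) × Fin (B.relIndex A₂) => r q.1 + s q.2) ht hu,
      Fintype.card_prod, Fintype.card_fin, Fintype.card_fin]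

theorem qs_prod {A B : AddSubgroup V} {A' B' : AddSubgroup V'} (f1 : B.relIndex A ≠ 0)
    (f2 : B'.relIndex A' ≠ 0) {f : V → ℂ} {g : V' → ℂ} (hf : Inva A B f) (hg : Inva A' B' g) :
    qs (A.prod A') (B.prod B') (fun p => f p.1 * g p.2) = qs A B f * qs A' B' g ∧
      (B.prod B').relIndex (A.prod A') = B.relIndex A * B'.relIndex A' := by
  obtain ⟨r, hr, hur⟩ := exists_sec f1
  obtain ⟨s, hs, hus⟩ := exists_sec f2
  have hinv : Inva (A.prod A') (B.prod B') (fun p => f p.1 * g p.2) := by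
    intro x hx b hb
    rw [AddSubgroup.mem_prod] at hx hb
    change f (x.1 + b.1) * g (x.2 + b.2) = f x.1 * g x.2
    rw [hf _ hx.1 _ hb.1, hg _ hx.2 _ hb.2]
  have ht : ∀ q : Fin (B.relIndex A) × Fin (B'.relIndex A'), (r q.1, s q.2) ∈ A.prod A' := fun q =>
    AddSubgroup.mem_prod.2 ⟨hr q.1, hs q.2⟩
  have hu : ∀ x ∈ A.prod A', ∃! q : Fin (B.relIndex A) × Fin (B'.relIndex A'),
      x - (r q.1, s q.2) ∈ B.prod B' := by
    rintro ⟨a, c⟩ hx
    obtain ⟨ha, hc⟩ := AddSubgroup.mem_prod.1 hx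
    obtain ⟨i, hi, hi2⟩ := hur a ha
    obtain ⟨j, hj, hj2⟩ := hus c hc
    refine ⟨(i, j), AddSubgroup.mem_prod.2 ⟨hi, hj⟩, ?_⟩
    rintro ⟨i', j'⟩ h'
    obtain ⟨h3, h4⟩ := AddSubgroup.mem_prod.1 h'
    have e1 : i' = i := hi2 i' h3
    have e2 : j' = j := hj2 j' h4
    rw [e1, e2]
  refine ⟨?_, ?_⟩
  · rw [qs_eq_sum hinv (fun q : Fin (B.relIndex A) × Fin (B'.relIndex A') => (r q.1, s q.2)) ht hu,
      qs_eq_sum hf r hr hur, qs_eq_sum hg s hs hus, Fintype.sum_prod_type, Finset.sum_mul_sum]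
  · rw [relIndex_of_sec (fun q : Fin (B.relIndex A) × Fin (B'.relIndex A') => (r q.1, s q.2)) ht hu,
      Fintype.card_prod, Fintype.card_fin, Fintype.card_fin]

theorem qs_pi {ι : Type} [Fintype ι] {W : ι → Type} [∀ i, AddCommGroup (W i)]
    {A B : ∀ i, AddSubgroup (W i)} (f1 : ∀ i, (B i).relIndex (A i) ≠ 0) {f : ∀ i, W i → ℂ}
    (hf : ∀ i, Inva (A i) (B i) (f i)) :
    qs (AddSubgroup.pi Set.univ A) (AddSubgroup.pi Set.univ B) (fun p => ∏ i, f i (p i)) =
        ∏ i, qs (A i) (B i) (f i) ∧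
      (AddSubgroup.pi Set.univ B).relIndex (AddSubgroup.pi Set.univ A) =
        ∏ i, (B i).relIndex (A i) := by
  classical
  choose r hr hur using fun i => exists_sec (f1 i)
  have hinv : Inva (AddSubgroup.pi Set.univ A) (AddSubgroup.pi Set.univ B)
      (fun p => ∏ i, f i (p i)) := by
    intro x hx b hb
    rw [AddSubgroup.mem_pi] at hx hb
    refine Finset.prod_congr rfl fun i _ => ?_
    exact hf i _ (hx i (Set.mem_univ i)) _ (hb i (Set.mem_univ i))
  have ht : ∀ q : (∀ i, Fin ((B i).relIndex (A i))), (fun i => r i (q i)) ∈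
      AddSubgroup.pi Set.univ A := fun q => (AddSubgroup.mem_pi Set.univ).2 fun i _ => hr i (q i)
  have hu : ∀ x ∈ AddSubgroup.pi Set.univ A, ∃! q : (∀ i, Fin ((B i).relIndex (A i))),
      x - (fun i => r i (q i)) ∈ AddSubgroup.pi Set.univ B := by
    intro x hx
    rw [AddSubgroup.mem_pi] at hx
    choose q hq hq2 using fun i => hur i (x i) (hx i (Set.mem_univ i))
    refine ⟨q, (AddSubgroup.mem_pi Set.univ).2 fun i _ => hq i, ?_⟩
    intro q' h'
    have h3 := (AddSubgroup.mem_pi Set.univ).1 h'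
    funext i
    exact hq2 i (q' i) (h3 i (Set.mem_univ i))
  refine ⟨?_, ?_⟩
  · rw [qs_eq_sum hinv (fun q : (∀ i, Fin ((B i).relIndex (A i))) => fun i => r i (q i)) ht hu]
    have h3 : ∀ i ∈ (Finset.univ : Finset ι), qs (A i) (B i) (f i) = ∑ j, f i (r i j) :=
      fun i _ => qs_eq_sum (hf i) (r i) (hr i) (hur i)
    rw [Finset.prod_congr rfl h3, Finset.prod_univ_sum, Fintype.piFinset_univ]
  · rw [relIndex_of_sec (fun q : (∀ i, Fin ((B i).relIndex (A i))) => fun i => r i (q i)) ht hu,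
      Fintype.card_pi]
    exact Finset.prod_congr rfl fun i _ => Fintype.card_fin _

end H38RT
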