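import Pool.Agent.H38.RT.Rs
import Pool.Agent.H38.RT.Qc

/-!
Row Dc. (about 300 lines): the global Gauss sum is the product of the local ones. Write B v = (ball (v.valuation K) 0)^2, P v = perp (psi v) (nb u z c0) (B v), Lam = (OK K)^2, PP = perp (gch K) (nb u z c0) Lam in K x K; b = nb u z c0, D = z^2 - 4 c0.
 (a) x in PP iff x in P v for all v. If x in P v for all v and y in Lam: choose T' finite with b x y integral outside T' (finitely many bad places of an element); gch (b x y) = prod psi v (b x y) = 1 (h.prod; y in B v). Conversely, x in PP, y in B v: there is y' in Lam with v (y - y') as small as we like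
   and b x y' integral at all w <> v: (approximation: choose s in 𝓞 K, s = 1 mod v^N, s = 0 modulo a high power of the finitely many w <> v where x is not integral; then modify y by strong approximation (Ps (1)): y'' in K with v (y - y'') <= 1 ..; simplest: y = a/b' coordinatewise with b' outside v,
   c b' = 1 mod v^N, y' = a c s). Then psi v (b x y') = gch (b x y') = 1 and psi v (b x (y - y')) = 1 since b x (y - y') is integral at v (N large; integral implies trivial by h.cond, h.nonneg).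
 (b) for v not in T: P v = B v: psi v (b x y) = 1 for all y in B v iff u (2 x1 + z x2), u (z x1 + 2 c0 x2) integral at v (h.cond with d v = 0) iff x1, x2 integral: the matrix has determinant - D, u, D units at v.
 (c) A S := {x in PP : x in B v for all v not in S}; A empty = Lam (integral everywhere; Lam is contained in PP since b and the trace are integral), A T = PP by (b). For v not in S: A (insert v S) = A S sup A {v}, A S inf A {v} = A empty: x in A (insert v S): by Ps (1) coordinatewise there is y with x - y in B v and y in B w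
   for w <> v; then y in P v (as B v <= P v: psi v trivial on integral elements) and y in B w <= P w, so y in A {v}, x - y in A S. gch (Q (x+y)) = gch (Q x) gch (Q y) for x in A S, y in A {v}, Q = u nf: gch (b x y) = prod psi w (b x y) = 1: w = v: x in B v, y in P v; w <> v: x in P w, y in B w (b symmetric).
 (d) A {v} / Lam -> P v / B v (identity) is a bijection: injective (x in A {v} with x in B v is in Lam), surjective by strong approximation as in (c). gch (Q x) = psi v (Q x) for x in A {v} (Q x is integral at w <> v; h.loc). So by qs_map (identity map) qs (A {v}) Lam (gch Q) = GS (psi v) u z c0 (ball 0) and the index is that of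
   B v in P v, nonzero by hypothesis for v in T. Induction on the finset with qs_mul.
-/

set_option autoImplicit false

open WithZero

namespace H38RT

open NumberField IsDedekindDomain

section

variable {K : Type} [Field K] [NumberField K]

private lemma Dc_int (x : 𝓞 K) (v : HeightOneSpectrum (𝓞 K)) : v.valuation K (x : K) ≤ 1 :=
  v.valuation_le_one x

private lemma Dc_factor (v : HeightOneSpectrum (𝓞 K)) {δ : 𝓞 K} (hδ : δ ≠ 0) :
    ∃ (k : ℕ) (s : 𝓞 K), v.valuation K (δ : K) = exp (-(k : ℤ)) ∧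
      v.valuation K ((1 - s : 𝓞 K) : K) ≤ exp (-(k : ℤ)) ∧
      ∀ w : HeightOneSpectrum (𝓞 K), w ≠ v → w.valuation K (s : K) ≤ w.valuation K (δ : K) := by
  obtain ⟨k, hk⟩ : ∃ k : ℕ, v.intValuation δ = exp (-(k : ℤ)) := ⟨_, v.intValuation_if_neg hδ⟩
  have hdvd : v.asIdeal ^ k ∣ Ideal.span {δ} := by
    rw [← v.intValuation_le_pow_iff_dvd, hk]
  obtain ⟨J, hJ⟩ := hdvd
  have hvJ : ¬ v.asIdeal ∣ J := by
    rintro ⟨J', rfl⟩
    have h1 : v.asIdeal ^ (k + 1) ∣ Ideal.span {δ} := ⟨J', by rw [hJ, pow_succ, mul_assoc]⟩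
    rw [← v.intValuation_le_pow_iff_dvd, hk, exp_le_exp] at h1
    push_cast at h1
    omega
  have hcop : IsCoprime (v.asIdeal ^ k) J := by
    apply IsCoprime.pow_left
    rw [Ideal.isCoprime_iff_sup_eq]
    have hm : v.asIdeal.IsMaximal := v.isMaximal
    by_contra hne
    have h1 := hm.eq_of_le hne le_sup_left
    apply hvJ
    rw [Ideal.dvd_iff_le, h1]
    exact le_sup_right
  obtain ⟨i, hi, s, hs, his⟩ := Ideal.isCoprime_iff_exists.mp hcop
  refine ⟨k, s, ?_, ?_, ?_⟩
  · rw [v.valuation_of_algebraMap]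
    exact hk
  · have e : 1 - s = i := by rw [← his]; ring
    rw [e, v.valuation_of_algebraMap, v.intValuation_le_pow_iff_mem]
    exact hi
  · intro w hw
    rw [w.valuation_of_algebraMap, w.valuation_of_algebraMap]
    obtain ⟨n, hn⟩ : ∃ n : ℕ, w.intValuation δ = exp (-(n : ℤ)) := ⟨_, w.intValuation_if_neg hδ⟩
    rw [hn, w.intValuation_le_pow_iff_mem]
    have h1 : w.asIdeal ^ n ∣ v.asIdeal ^ k * J := by
      rw [← hJ, ← w.intValuation_le_pow_iff_dvd, hn]
    have hc : IsCoprime (w.asIdeal ^ n) (v.asIdeal ^ k) := by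
      apply IsCoprime.pow
      have hm : w.asIdeal.IsMaximal := w.isMaximal
      have hm' : v.asIdeal.IsMaximal := v.isMaximal
      rw [Ideal.isCoprime_iff_sup_eq]
      exact hm.coprime_of_ne hm' (fun h => hw (HeightOneSpectrum.ext h))
    have h2 := hc.dvd_of_dvd_mul_left h1
    exact (Ideal.dvd_iff_le.mp h2) hs

/-- Approximation for two elements. -/
private lemma Dc_approx (v : HeightOneSpectrum (𝓞 K)) (x : K × K) :
    ∃ (k : ℕ) (s : 𝓞 K), v.valuation K x.1 ≤ exp (k : ℤ) ∧ v.valuation K x.2 ≤ exp (k : ℤ) ∧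
      v.valuation K ((1 - s : 𝓞 K) : K) ≤ exp (-(k : ℤ)) ∧
      ∀ w : HeightOneSpectrum (𝓞 K), w ≠ v → w.valuation K ((s : K) * x.1) ≤ 1 ∧
        w.valuation K ((s : K) * x.2) ≤ 1 := by
  obtain ⟨a, δ₁, hδ₁, h1⟩ := IsFractionRing.div_surjective (A := 𝓞 K) x.1
  obtain ⟨b, δ₂, hδ₂, h2⟩ := IsFractionRing.div_surjective (A := 𝓞 K) x.2
  have n1 : δ₁ ≠ 0 := nonZeroDivisors.ne_zero hδ₁
  have n2 : δ₂ ≠ 0 := nonZeroDivisors.ne_zero hδ₂
  have n1' : (δ₁ : K) ≠ 0 := by exact_mod_cast n1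
  have n2' : (δ₂ : K) ≠ 0 := by exact_mod_cast n2
  have hδ : δ₁ * δ₂ ≠ 0 := mul_ne_zero n1 n2
  obtain ⟨k, s, hk, hs, hw⟩ := Dc_factor v hδ
  have e1 : ((δ₁ * δ₂ : 𝓞 K) : K) * x.1 = ((a * δ₂ : 𝓞 K) : K) := by
    rw [← h1]
    push_cast
    field_simp
  have e2 : ((δ₁ * δ₂ : 𝓞 K) : K) * x.2 = ((b * δ₁ : 𝓞 K) : K) := by
    rw [← h2]
    push_cast
    field_simp
  have key : ∀ (y : K) (c : 𝓞 K), ((δ₁ * δ₂ : 𝓞 K) : K) * y = (c : K) →
      v.valuation K y ≤ exp (k : ℤ) ∧ ∀ w : HeightOneSpectrum (𝓞 K), w ≠ v →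
        w.valuation K ((s : K) * y) ≤ 1 := by
    intro y c hc
    constructor
    · have h3 := Dc_int c v
      rw [← hc, map_mul, hk] at h3
      have h4 : exp (k : ℤ) * (exp (-(k : ℤ)) * v.valuation K y) ≤ exp (k : ℤ) * 1 :=
        mul_le_mul_right h3 _
      rwa [← mul_assoc, ← exp_add, add_neg_cancel, exp_zero, one_mul, mul_one] at h4
    · intro w hwv
      have h3 := Dc_int c w
      rw [← hc, map_mul] at h3
      rw [map_mul]
      exact (mul_le_mul_left (hw w hwv) _).trans h3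
  obtain ⟨g1, g2⟩ := key x.1 _ e1
  obtain ⟨g3, g4⟩ := key x.2 _ e2
  exact ⟨k, s, g1, g3, hs, fun w hwv => ⟨g2 w hwv, g4 w hwv⟩⟩


private lemma Dc_fin (x : K) :
    ∃ T : Finset (HeightOneSpectrum (𝓞 K)), ∀ v, v ∉ T → v.valuation K x ≤ 1 := by
  classical
  obtain ⟨a, δ, hδ, h1⟩ := IsFractionRing.div_surjective (A := 𝓞 K) x
  have n1 : δ ≠ 0 := nonZeroDivisors.ne_zero hδ
  have h0 : Ideal.span {δ} ≠ 0 := by
    rw [Ne, Ideal.zero_eq_bot, Ideal.span_singleton_eq_bot]
    exact n1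
  refine ⟨(Ideal.finite_factors h0).toFinset, ?_⟩
  intro v hv
  rw [Set.Finite.mem_toFinset] at hv
  have hv' : ¬ v.asIdeal ∣ Ideal.span {δ} := hv
  have h2 : v.valuation K (δ : K) = 1 := by
    apply le_antisymm (Dc_int δ v)
    by_contra h3
    apply hv'
    rw [not_le] at h3
    exact (v.valuation_lt_one_iff_dvd δ).mp h3
  have h3 : v.valuation K x = v.valuation K (a : K) := by
    rw [← h1, map_div₀]
    change v.valuation K (a : K) / v.valuation K (δ : K) = _
    rw [h2, div_one]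
  rw [h3]
  exact Dc_int a v

omit [NumberField K] in
private lemma Dc_nb_symm (u z c₀ : K) (x y : K × K) : nb u z c₀ x y = nb u z c₀ y x := by
  rw [nb_apply, nb_apply]
  ring

private lemma Dc_nb_le (w : HeightOneSpectrum (𝓞 K)) (u z c₀ : 𝓞 K) {x c : K × K}
    {A C : WithZero (Multiplicative ℤ)} (h1 : w.valuation K x.1 ≤ A) (h2 : w.valuation K x.2 ≤ A)
    (h3 : w.valuation K c.1 ≤ C) (h4 : w.valuation K c.2 ≤ C) :
    w.valuation K (nb (u : K) (z : K) (c₀ : K) x c) ≤ A * C := by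
  have hm : ∀ (a : 𝓞 K) (t : K), w.valuation K t ≤ A * C → w.valuation K ((a : K) * t) ≤ A * C := by
    intro a t ht
    rw [map_mul]
    calc w.valuation K (a : K) * w.valuation K t ≤ 1 * (A * C) := mul_le_mul' (Dc_int a w) ht
      _ = _ := one_mul _
  have hp : ∀ s t : K, w.valuation K s ≤ A → w.valuation K t ≤ C → w.valuation K (s * t) ≤ A * C := by
    intro s t hs ht
    rw [map_mul]
    exact mul_le_mul' hs ht
  have ha : ∀ s t : K, w.valuation K s ≤ A * C → w.valuation K t ≤ A * C →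
      w.valuation K (s + t) ≤ A * C := fun s t hs ht => (Valuation.map_add _ s t).trans (max_le hs ht)
  rw [nb_apply]
  have e : (u : K) * (2 * x.1 * c.1 + z * (x.1 * c.2 + x.2 * c.1) + 2 * c₀ * x.2 * c.2) =
      (u : K) * (((2 : 𝓞 K) : K) * (x.1 * c.1) + ((z : K) * (x.1 * c.2 + x.2 * c.1) +
        ((2 : 𝓞 K) : K) * ((c₀ : K) * (x.2 * c.2)))) := by
    have h2 : ((2 : 𝓞 K) : K) = 2 := map_ofNat (algebraMap (𝓞 K) K) 2
    rw [h2]
    ring
  rw [e]
  refine hm _ _ (ha _ _ (hm _ _ (hp _ _ h1 h3)) (ha _ _ (hm _ _ (ha _ _ (hp _ _ h1 h4)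
    (hp _ _ h2 h3))) (hm _ _ (hm _ _ (hp _ _ h2 h4)))))

private lemma Dc_nf_le (w : HeightOneSpectrum (𝓞 K)) (u z c₀ : 𝓞 K) {x : K × K}
    (h1 : w.valuation K x.1 ≤ 1) (h2 : w.valuation K x.2 ≤ 1) :
    w.valuation K ((u : K) * nf (z : K) (c₀ : K) x) ≤ 1 := by
  have hm : ∀ s t : K, w.valuation K s ≤ 1 → w.valuation K t ≤ 1 → w.valuation K (s * t) ≤ 1 := by
    intro s t hs ht
    rw [map_mul]
    exact mul_le_one' hs ht
  have ha : ∀ s t : K, w.valuation K s ≤ 1 → w.valuation K t ≤ 1 →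
      w.valuation K (s + t) ≤ 1 := fun s t hs ht => (Valuation.map_add _ s t).trans (max_le hs ht)
  unfold nf
  rw [pow_two, pow_two]
  exact hm _ _ (Dc_int u w) (ha _ _ (ha _ _ (hm _ _ h1 h1) (hm _ _ (hm _ _ (Dc_int z w) h1) h2))
    (hm _ _ (Dc_int c₀ w) (hm _ _ h2 h2)))

variable {ψ : HeightOneSpectrum (𝓞 K) → AddChar K Circle} {d : HeightOneSpectrum (𝓞 K) → ℤ}

private lemma Dc_gch (h : Psi K ψ d) {x : K} (hx : ∀ v : HeightOneSpectrum (𝓞 K), v.valuation K x ≤ 1) :
    gch K x = 1 := by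
  have := h.prod x ∅ (fun v _ => hx v)
  rw [this, Finset.prod_empty]

private lemma Dc_psi (h : Psi K ψ d) {v : HeightOneSpectrum (𝓞 K)} {x : K}
    (hx : v.valuation K x ≤ 1) : ψ v x = 1 := by
  have h1 : v.valuation K x ≤ exp (d v) := by
    refine hx.trans ?_
    rw [← exp_zero, exp_le_exp]
    exact h.nonneg v
  have h2 := (h.cond v x).mpr h1 1 (by rw [map_one])
  rwa [one_mul] at h2

private lemma Dc_mem_ball {v : HeightOneSpectrum (𝓞 K)} {x : K} :
    x ∈ ball (v.valuation K) 0 ↔ v.valuation K x ≤ 1 := by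
  rw [mem_ball, neg_zero, exp_zero]

private lemma Dc_mem_OK {x : K} : x ∈ OK K ↔ ∀ v : HeightOneSpectrum (𝓞 K), v.valuation K x ≤ 1 := by
  constructor
  · rintro ⟨a, rfl⟩ v
    exact Dc_int a v
  · intro hx
    obtain ⟨a, ha⟩ := HeightOneSpectrum.mem_integers_of_valuation_le_one K x hx
    exact ⟨a, ha⟩

private lemma Dc_prod_mem {v : HeightOneSpectrum (𝓞 K)} {x : K × K} :
    x ∈ (ball (v.valuation K) 0).prod (ball (v.valuation K) 0) ↔
      v.valuation K x.1 ≤ 1 ∧ v.valuation K x.2 ≤ 1 := by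
  rw [AddSubgroup.mem_prod, Dc_mem_ball, Dc_mem_ball]

private lemma Dc_Lam_mem {x : K × K} : x ∈ (OK K).prod (OK K) ↔
    ∀ v : HeightOneSpectrum (𝓞 K), v.valuation K x.1 ≤ 1 ∧ v.valuation K x.2 ≤ 1 := by
  rw [AddSubgroup.mem_prod, Dc_mem_OK, Dc_mem_OK]
  constructor
  · rintro ⟨h1, h2⟩ v
    exact ⟨h1 v, h2 v⟩
  · intro h
    exact ⟨fun v => (h v).1, fun v => (h v).2⟩

private lemma Dc_global (h : Psi K ψ d) {x : K}
    (hx : ∀ v : HeightOneSpectrum (𝓞 K), ψ v x = 1) : gch K x = 1 := by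
  obtain ⟨T, hT⟩ := Dc_fin x
  rw [h.prod x T hT]
  exact Finset.prod_eq_one fun v _ => hx v

private lemma Dc_B_le (h : Psi K ψ d) (u z c₀ : 𝓞 K) (v : HeightOneSpectrum (𝓞 K)) {x : K × K}
    (hx : x ∈ (ball (v.valuation K) 0).prod (ball (v.valuation K) 0)) :
    x ∈ perp (ψ v) (nb (u : K) (z : K) (c₀ : K))
      ((ball (v.valuation K) 0).prod (ball (v.valuation K) 0)) := by
  rw [mem_perp]
  intro c hc
  rw [Dc_prod_mem] at hx hc
  apply Dc_psi h
  have := Dc_nb_le v u z c₀ hx.1 hx.2 hc.1 hc.2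
  rwa [one_mul] at this

private lemma Dc_PP (h : Psi K ψ d) (u z c₀ : 𝓞 K) (x : K × K) :
    x ∈ perp (gch K) (nb (u : K) (z : K) (c₀ : K)) ((OK K).prod (OK K)) ↔
      ∀ v : HeightOneSpectrum (𝓞 K), x ∈ perp (ψ v) (nb (u : K) (z : K) (c₀ : K))
        ((ball (v.valuation K) 0).prod (ball (v.valuation K) 0)) := by
  constructor
  · intro hx v
    rw [mem_perp] at hx ⊢
    intro y hy
    rw [Dc_prod_mem] at hy
    obtain ⟨k, s, g1, g2, g3, g4⟩ := Dc_approx v x
    obtain ⟨a₁, ha₁⟩ := v.exists_valuation_sub_lt_of_integer hy.1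
      (Units.mk0 (exp (-(k : ℤ))) exp_ne_zero)
    obtain ⟨a₂, ha₂⟩ := v.exists_valuation_sub_lt_of_integer hy.2
      (Units.mk0 (exp (-(k : ℤ))) exp_ne_zero)
    have ha₁ : v.valuation K ((a₁ : K) - y.1) < exp (-(k : ℤ)) := ha₁
    have ha₂ : v.valuation K ((a₂ : K) - y.2) < exp (-(k : ℤ)) := ha₂
    set y' : K × K := (((s * a₁ : 𝓞 K) : K), ((s * a₂ : 𝓞 K) : K)) with hy'
    have hy'L : y' ∈ (OK K).prod (OK K) := by
      rw [Dc_Lam_mem]
      intro w
      exact ⟨Dc_int _ w, Dc_int _ w⟩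
    have e1 : nb (u : K) (z : K) (c₀ : K) x y' =
        nb (u : K) (z : K) (c₀ : K) ((s : K) * x.1, (s : K) * x.2) ((a₁ : K), (a₂ : K)) := by
      rw [nb_apply, nb_apply, hy']
      push_cast
      ring
    have h1 : ψ v (nb (u : K) (z : K) (c₀ : K) x y') = 1 := by
      rw [h.loc v _ ?_]
      · exact hx y' hy'L
      · intro w hw
        rw [e1]
        obtain ⟨q1, q2⟩ := g4 w hw
        have := Dc_nb_le w u z c₀ (x := ((s : K) * x.1, (s : K) * x.2))
          (c := ((a₁ : K), (a₂ : K))) q1 q2 (Dc_int a₁ w) (Dc_int a₂ w)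
        rwa [one_mul] at this
    have hsub : ∀ (t : K) (a : 𝓞 K), v.valuation K ((a : K) - t) < exp (-(k : ℤ)) →
        v.valuation K (t - ((s * a : 𝓞 K) : K)) ≤ exp (-(k : ℤ)) := by
      intro t a ha
      have e : t - ((s * a : 𝓞 K) : K) = -((a : K) - t) + ((1 - s : 𝓞 K) : K) * (a : K) := by
        push_cast
        ring
      rw [e]
      refine (Valuation.map_add _ _ _).trans (max_le ?_ ?_)
      · rw [Valuation.map_neg]
        exact ha.le
      · rw [map_mul]
        calc _ ≤ exp (-(k : ℤ)) * 1 := mul_le_mul' g3 (Dc_int a v)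
          _ = _ := mul_one _
    have h2 : ψ v (nb (u : K) (z : K) (c₀ : K) x (y - y')) = 1 := by
      apply Dc_psi h
      have := Dc_nb_le v u z c₀ g1 g2 (c := y - y') (hsub y.1 a₁ ha₁) (hsub y.2 a₂ ha₂)
      rwa [← exp_add, add_neg_cancel, exp_zero] at this
    have e2 : nb (u : K) (z : K) (c₀ : K) x y = nb (u : K) (z : K) (c₀ : K) x (y - y') +
        nb (u : K) (z : K) (c₀ : K) x y' := by
      rw [← map_add, sub_add_cancel]
    rw [e2, AddChar.map_add_eq_mul, h1, h2, one_mul]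
  · intro hx
    rw [mem_perp]
    intro y hy
    apply Dc_global h
    intro v
    apply mem_perp.mp (hx v)
    rw [Dc_Lam_mem] at hy
    rw [Dc_prod_mem]
    exact hy v

/-- The elements of the dual lattice which are integral outside `S`. -/
private def Dc_A (u z c₀ : 𝓞 K) (S : Finset (HeightOneSpectrum (𝓞 K))) : AddSubgroup (K × K) where
  carrier := {x | x ∈ perp (gch K) (nb (u : K) (z : K) (c₀ : K)) ((OK K).prod (OK K)) ∧
    ∀ v, v ∉ S → v.valuation K x.1 ≤ 1 ∧ v.valuation K x.2 ≤ 1}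
  zero_mem' := by
    refine ⟨zero_mem _, fun v _ => ?_⟩
    simp
  add_mem' := by
    rintro x y ⟨hx, hx'⟩ ⟨hy, hy'⟩
    refine ⟨add_mem hx hy, fun v hv => ⟨?_, ?_⟩⟩
    · exact (Valuation.map_add _ _ _).trans (max_le (hx' v hv).1 (hy' v hv).1)
    · exact (Valuation.map_add _ _ _).trans (max_le (hx' v hv).2 (hy' v hv).2)
  neg_mem' := by
    rintro x ⟨hx, hx'⟩
    refine ⟨neg_mem hx, fun v hv => ⟨?_, ?_⟩⟩
    · change v.valuation K (-x.1) ≤ 1
      rw [Valuation.map_neg]
      exact (hx' v hv).1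
    · change v.valuation K (-x.2) ≤ 1
      rw [Valuation.map_neg]
      exact (hx' v hv).2

private lemma Dc_mem_A {u z c₀ : 𝓞 K} {S : Finset (HeightOneSpectrum (𝓞 K))} {x : K × K} :
    x ∈ Dc_A u z c₀ S ↔
      x ∈ perp (gch K) (nb (u : K) (z : K) (c₀ : K)) ((OK K).prod (OK K)) ∧
        ∀ v, v ∉ S → v.valuation K x.1 ≤ 1 ∧ v.valuation K x.2 ≤ 1 := Iff.rfl

private lemma Dc_Lam_le (h : Psi K ψ d) (u z c₀ : 𝓞 K) (S : Finset (HeightOneSpectrum (𝓞 K))) :
    (OK K).prod (OK K) ≤ Dc_A u z c₀ S := by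
  intro x hx
  rw [Dc_Lam_mem] at hx
  refine ⟨?_, fun v _ => hx v⟩
  rw [Dc_PP h]
  intro v
  exact Dc_B_le h u z c₀ v (Dc_prod_mem.mpr (hx v))

private lemma Dc_empty (h : Psi K ψ d) (u z c₀ : 𝓞 K) :
    Dc_A u z c₀ ∅ = (OK K).prod (OK K) := by
  apply le_antisymm
  · intro x hx
    rw [Dc_Lam_mem]
    intro v
    exact hx.2 v (Finset.notMem_empty v)
  · exact Dc_Lam_le h u z c₀ ∅

private lemma Dc_strong (v : HeightOneSpectrum (𝓞 K)) (y : K × K) :
    ∃ x : K × K, (v.valuation K (y - x).1 ≤ 1 ∧ v.valuation K (y - x).2 ≤ 1) ∧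
      ∀ w : HeightOneSpectrum (𝓞 K), w ≠ v → w.valuation K x.1 ≤ 1 ∧ w.valuation K x.2 ≤ 1 := by
  obtain ⟨k, s, g1, g2, g3, g4⟩ := Dc_approx v y
  refine ⟨((s : K) * y.1, (s : K) * y.2), ⟨?_, ?_⟩, g4⟩
  · have e : (y - ((s : K) * y.1, (s : K) * y.2)).1 = ((1 - s : 𝓞 K) : K) * y.1 := by
      simp only [Prod.fst_sub]
      push_cast
      ring
    rw [e, map_mul]
    calc _ ≤ exp (-(k : ℤ)) * exp (k : ℤ) := mul_le_mul' g3 g1
      _ = 1 := by rw [← exp_add, neg_add_cancel, exp_zero]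
  · have e : (y - ((s : K) * y.1, (s : K) * y.2)).2 = ((1 - s : 𝓞 K) : K) * y.2 := by
      simp only [Prod.snd_sub]
      push_cast
      ring
    rw [e, map_mul]
    calc _ ≤ exp (-(k : ℤ)) * exp (k : ℤ) := mul_le_mul' g3 g2
      _ = 1 := by rw [← exp_add, neg_add_cancel, exp_zero]

/-- Strong approximation in the dual lattice. -/
private lemma Dc_lift (h : Psi K ψ d) (u z c₀ : 𝓞 K) (v : HeightOneSpectrum (𝓞 K)) {y : K × K}
    (hy : y ∈ perp (ψ v) (nb (u : K) (z : K) (c₀ : K))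
      ((ball (v.valuation K) 0).prod (ball (v.valuation K) 0))) :
    ∃ x ∈ Dc_A u z c₀ {v}, y - x ∈ (ball (v.valuation K) 0).prod (ball (v.valuation K) 0) := by
  obtain ⟨x, hx, hx'⟩ := Dc_strong v y
  have hB : y - x ∈ (ball (v.valuation K) 0).prod (ball (v.valuation K) 0) :=
    Dc_prod_mem.mpr hx
  refine ⟨x, ⟨?_, ?_⟩, hB⟩
  · rw [Dc_PP h]
    intro w
    by_cases hw : w = v
    · subst hw
      have e : x = y - (y - x) := by abel
      rw [e]
      exact sub_mem hy (Dc_B_le h u z c₀ w hB)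
    · exact Dc_B_le h u z c₀ w (Dc_prod_mem.mpr (hx' w hw))
  · intro w hw
    exact hx' w (fun he => hw (Finset.mem_singleton.mpr he))

private lemma Dc_insert (h : Psi K ψ d) (u z c₀ : 𝓞 K) (v : HeightOneSpectrum (𝓞 K))
    (S : Finset (HeightOneSpectrum (𝓞 K))) [DecidableEq (HeightOneSpectrum (𝓞 K))] :
    Dc_A u z c₀ (insert v S) = Dc_A u z c₀ S ⊔ Dc_A u z c₀ {v} := by
  apply le_antisymm
  · intro x hx
    have hxP := (Dc_PP h u z c₀ x).mp hx.1
    obtain ⟨y, hy, hB⟩ := Dc_lift h u z c₀ v (hxP v)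
    have e : x = (x - y) + y := by abel
    rw [e]
    refine AddSubgroup.add_mem_sup ⟨sub_mem hx.1 hy.1, ?_⟩ hy
    intro w hw
    by_cases hwv : w = v
    · subst hwv
      exact Dc_prod_mem.mp hB
    · have h1 := hx.2 w (by
        rw [Finset.mem_insert, not_or]
        exact ⟨hwv, hw⟩)
      have h2 := hy.2 w (by rw [Finset.mem_singleton]; exact hwv)
      exact ⟨(Valuation.map_sub _ _ _).trans (max_le h1.1 h2.1),
        (Valuation.map_sub _ _ _).trans (max_le h1.2 h2.2)⟩
  · apply sup_le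
    · rintro x ⟨hx, hx'⟩
      exact ⟨hx, fun w hw => hx' w (fun h => hw (Finset.mem_insert_of_mem h))⟩
    · rintro x ⟨hx, hx'⟩
      refine ⟨hx, fun w hw => hx' w (fun h => hw ?_)⟩
      rw [Finset.mem_singleton] at h
      subst h
      exact Finset.mem_insert_self _ _

omit [NumberField K] in
private lemma Dc_Q (u z c₀ : K) (χ : AddChar K Circle) (x y : K × K) :
    (χ (u * nf z c₀ (x + y)) : ℂ) =
      (χ (u * nf z c₀ x) : ℂ) * (χ (u * nf z c₀ y) : ℂ) * (χ (nb u z c₀ x y) : ℂ) := by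
  rw [nf_add, AddChar.map_add_eq_mul, AddChar.map_add_eq_mul, Circle.coe_mul, Circle.coe_mul]

private lemma Dc_inv (h : Psi K ψ d) (u z c₀ : 𝓞 K) (S : Finset (HeightOneSpectrum (𝓞 K))) :
    Inva (Dc_A u z c₀ S) ((OK K).prod (OK K))
      (fun x => (gch K ((u : K) * nf (z : K) (c₀ : K) x) : ℂ)) := by
  intro x hx c hc
  simp only
  rw [Dc_Q, mem_perp.mp hx.1 c hc]
  rw [Dc_Lam_mem] at hc
  rw [Dc_gch h (x := (u : K) * nf (z : K) (c₀ : K) c) (fun v => Dc_nf_le v u z c₀ (hc v).1 (hc v).2)]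
  simp

private lemma Dc_local (h : Psi K ψ d) (u z c₀ : 𝓞 K) (v : HeightOneSpectrum (𝓞 K)) :
    qs (Dc_A u z c₀ {v}) ((OK K).prod (OK K))
        (fun x => (gch K ((u : K) * nf (z : K) (c₀ : K) x) : ℂ)) =
      GS (ψ v) (u : K) (z : K) (c₀ : K) (ball (v.valuation K) 0) ∧
    ((OK K).prod (OK K)).relIndex (Dc_A u z c₀ {v}) =
      ((ball (v.valuation K) 0).prod (ball (v.valuation K) 0)).relIndex
      (perp (ψ v) (nb (u : K) (z : K) (c₀ : K))
        ((ball (v.valuation K) 0).prod (ball (v.valuation K) 0))) := by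
  have key := qs_map (AddMonoidHom.id (K × K)) (A := Dc_A u z c₀ {v})
    (B := (OK K).prod (OK K))
    (A' := perp (ψ v) (nb (u : K) (z : K) (c₀ : K))
      ((ball (v.valuation K) 0).prod (ball (v.valuation K) 0)))
    (B' := (ball (v.valuation K) 0).prod (ball (v.valuation K) 0))
    (f := fun x => (ψ v ((u : K) * nf (z : K) (c₀ : K) x) : ℂ))
    (fun x hx => (Dc_PP h u z c₀ x).mp hx.1 v)
    (by
      intro x hx
      change x ∈ _ ↔ x ∈ _
      constructor
      · intro hxB
        rw [Dc_Lam_mem]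
        intro w
        by_cases hw : w = v
        · subst hw
          exact Dc_prod_mem.mp hxB
        · exact hx.2 w (by rw [Finset.mem_singleton]; exact hw)
      · intro hxL
        rw [Dc_prod_mem]
        exact Dc_Lam_mem.mp hxL v)
    (by
      intro y hy
      obtain ⟨x, hx, hB⟩ := Dc_lift h u z c₀ v hy
      exact ⟨x, hx, hB⟩)
    (by
      intro x hx c hc
      simp only
      rw [Dc_Q, mem_perp.mp hx c hc]
      rw [Dc_prod_mem] at hc
      rw [Dc_psi h (Dc_nf_le v u z c₀ hc.1 hc.2)]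
      simp)
  refine ⟨?_, key.2⟩
  rw [GS, ← key.1]
  apply qs_congr
  intro x hx
  change _ = (ψ v ((u : K) * nf (z : K) (c₀ : K) x) : ℂ)
  rw [h.loc v _ ?_]
  intro w hw
  have h2 := hx.2 w (by rw [Finset.mem_singleton]; exact hw)
  exact Dc_nf_le w u z c₀ h2.1 h2.2

end

theorem decomp {K : Type} [Field K] [NumberField K]
    {ψ : HeightOneSpectrum (𝓞 K) → AddChar K Circle} {d : HeightOneSpectrum (𝓞 K) → ℤ}
    (h : Psi K ψ d) {u z c₀ : 𝓞 K} (hu : u ≠ 0) (hD : z ^ 2 - 4 * c₀ ≠ 0)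
    (T : Finset (HeightOneSpectrum (𝓞 K))) (hT : ∀ v, v ∉ T → v.valuation K (u : K) = 1 ∧
      v.valuation K ((z : K) ^ 2 - 4 * c₀) = 1 ∧ d v = 0)
    (hfin : ∀ v ∈ T, ((ball (v.valuation K) 0).prod (ball (v.valuation K) 0)).relIndex
      (perp (ψ v) (nb (u : K) (z : K) (c₀ : K))
        ((ball (v.valuation K) 0).prod (ball (v.valuation K) 0))) ≠ 0) :
    GS (gch K) (u : K) (z : K) (c₀ : K) (OK K) =
      ∏ v ∈ T, GS (ψ v) (u : K) (z : K) (c₀ : K) (ball (v.valuation K) 0) := by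
  classical
  have hind : ∀ S : Finset (HeightOneSpectrum (𝓞 K)), S ⊆ T →
      qs (Dc_A u z c₀ S) ((OK K).prod (OK K))
          (fun x => (gch K ((u : K) * nf (z : K) (c₀ : K) x) : ℂ)) =
        ∏ v ∈ S, GS (ψ v) (u : K) (z : K) (c₀ : K) (ball (v.valuation K) 0) ∧
      ((OK K).prod (OK K)).relIndex (Dc_A u z c₀ S) ≠ 0 := by
    intro S
    induction S using Finset.induction_on with
    | empty =>
      intro _
      have hi := Dc_inv h u z c₀ ∅
      rw [Dc_empty h] at hi ⊢
      constructor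
      · rw [qs_self hi, Finset.prod_empty]
        have e : (u : K) * nf (z : K) (c₀ : K) 0 = 0 := by
          unfold nf
          simp
        rw [e, AddChar.map_zero_eq_one]
        rfl
      · rw [AddSubgroup.relIndex_self]
        exact one_ne_zero
    | insert v S hv ih =>
      intro hS
      obtain ⟨ih1, ih2⟩ := ih (fun x hx => hS (Finset.mem_insert_of_mem hx))
      obtain ⟨l1, l2⟩ := Dc_local h u z c₀ v
      have hfv := hfin v (hS (Finset.mem_insert_self _ _))
      rw [← l2] at hfv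
      have key := qs_mul (A₁ := Dc_A u z c₀ S) (A₂ := Dc_A u z c₀ {v})
        (B := (OK K).prod (OK K)) (Dc_Lam_le h u z c₀ S) (Dc_Lam_le h u z c₀ {v})
        (by
          rintro x ⟨hx, hx'⟩
          rw [Dc_Lam_mem]
          intro w
          by_cases hw : w ∈ S
          · refine hx'.2 w ?_
            rw [Finset.mem_singleton]
            rintro rfl
            exact hv hw
          · exact hx.2 w hw) ih2 hfv
        (f := fun x => (gch K ((u : K) * nf (z : K) (c₀ : K) x) : ℂ))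
        (by
          intro x hx y hy
          rw [Dc_Q]
          have hb : gch K (nb (u : K) (z : K) (c₀ : K) x y) = 1 := by
            apply Dc_global h
            intro w
            by_cases hw : w = v
            · subst hw
              rw [Dc_nb_symm]
              exact mem_perp.mp ((Dc_PP h u z c₀ y).mp hy.1 w) x (Dc_prod_mem.mpr (hx.2 w hv))
            · exact mem_perp.mp ((Dc_PP h u z c₀ x).mp hx.1 w) y
                (Dc_prod_mem.mpr (hy.2 w (by rw [Finset.mem_singleton]; exact hw)))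
          rw [hb]
          simp) (Dc_inv h u z c₀ S) (Dc_inv h u z c₀ {v})
      rw [Dc_insert h]
      refine ⟨?_, ?_⟩
      · rw [key.1, ih1, l1, Finset.prod_insert hv, mul_comm]
      · rw [key.2]
        exact mul_ne_zero ih2 hfv
  have hfinal := (hind T (Finset.Subset.refl T)).1
  have hAT : Dc_A u z c₀ T =
      perp (gch K) (nb (u : K) (z : K) (c₀ : K)) ((OK K).prod (OK K)) := by
    apply le_antisymm
    · exact fun x hx => hx.1
    · intro x hx
      refine ⟨hx, ?_⟩
      intro v hv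
      obtain ⟨t1, t2, t3⟩ := hT v hv
      have hxP := mem_perp.mp ((Dc_PP h u z c₀ x).mp hx v)
      have c1 : v.valuation K ((u : K) * (2 * x.1 + z * x.2)) ≤ 1 := by
        have := (h.cond v ((u : K) * (2 * x.1 + z * x.2))).mp (by
          intro t ht
          have h1 := hxP (t, 0) (Dc_prod_mem.mpr ⟨ht, by simp⟩)
          have e : nb (u : K) (z : K) (c₀ : K) x (t, 0) = t * ((u : K) * (2 * x.1 + z * x.2)) := by
            rw [nb_apply]
            ring
          rwa [e] at h1)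
        rwa [t3, exp_zero] at this
      have c2 : v.valuation K ((u : K) * (z * x.1 + 2 * c₀ * x.2)) ≤ 1 := by
        have := (h.cond v ((u : K) * (z * x.1 + 2 * c₀ * x.2))).mp (by
          intro t ht
          have h1 := hxP (0, t) (Dc_prod_mem.mpr ⟨by simp, ht⟩)
          have e : nb (u : K) (z : K) (c₀ : K) x (0, t) =
              t * ((u : K) * (z * x.1 + 2 * c₀ * x.2)) := by
            rw [nb_apply]
            ring
          rwa [e] at h1)
        rwa [t3, exp_zero] at this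
      rw [map_mul, t1, one_mul] at c1 c2
      have h2i : v.valuation K 2 ≤ 1 := by
        have h2 : ((2 : 𝓞 K) : K) = 2 := map_ofNat (algebraMap (𝓞 K) K) 2
        rw [← h2]
        exact Dc_int 2 v
      have hm : ∀ s t : K, v.valuation K s ≤ 1 → v.valuation K t ≤ 1 →
          v.valuation K (s * t) ≤ 1 := by
        intro s t hs ht
        rw [map_mul]
        exact mul_le_one' hs ht
      constructor
      · have e : ((z : K) ^ 2 - 4 * c₀) * x.1 =
            z * (z * x.1 + 2 * c₀ * x.2) - 2 * (c₀ * (2 * x.1 + z * x.2)) := by ring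
        have h3 : v.valuation K (((z : K) ^ 2 - 4 * c₀) * x.1) ≤ 1 := by
          rw [e]
          exact (Valuation.map_sub _ _ _).trans (max_le (hm _ _ (Dc_int z v) c2)
            (hm _ _ h2i (hm _ _ (Dc_int c₀ v) c1)))
        rwa [map_mul, t2, one_mul] at h3
      · have e : ((z : K) ^ 2 - 4 * c₀) * x.2 =
            z * (2 * x.1 + z * x.2) - 2 * (z * x.1 + 2 * c₀ * x.2) := by ring
        have h3 : v.valuation K (((z : K) ^ 2 - 4 * c₀) * x.2) ≤ 1 := by
          rw [e]
          exact (Valuation.map_sub _ _ _).trans (max_le (hm _ _ (Dc_int z v) c1) (hm _ _ h2i c2))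
        rwa [map_mul, t2, one_mul] at h3
  rw [hAT] at hfinal
  exact hfinal

end H38RT
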