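import Mathlib

/-!
Definitions for the reciprocity theorem over totally real fields (no row).
-/

set_option autoImplicit false

open WithZero

namespace H38RT

/-- Sum of `f` over the quotient `A / B`; `f` should be invariant under `B` on `A`. -/
noncomputable def qs {V : Type*} [AddCommGroup V] (A B : AddSubgroup V) (f : V → ℂ) : ℂ :=
  ∑ᶠ q : A ⧸ B.addSubgroupOf A, f ((q.out : A) : V)

/-- `f` is invariant on `A` under translations by `B`. -/
def Inva {V : Type*} [AddCommGroup V] (A B : AddSubgroup V) (f : V → ℂ) : Prop :=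
  ∀ x ∈ A, ∀ b ∈ B, f (x + b) = f x

/-- The elements orthogonal to `C` for the pairing `ψ (b x y)`. -/
def perp {K V : Type*} [AddCommGroup K] [AddCommGroup V] (ψ : AddChar K Circle)
    (b : V →+ V →+ K) (C : AddSubgroup V) : AddSubgroup V where
  carrier := {x | ∀ c ∈ C, ψ (b x c) = 1}
  zero_mem' := by
    intro c _
    rw [map_zero, AddMonoidHom.zero_apply, AddChar.map_zero_eq_one]
  add_mem' := by
    intro x y hx hy c hc
    rw [map_add, AddMonoidHom.add_apply, AddChar.map_add_eq_mul, hx c hc, hy c hc, one_mul]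
  neg_mem' := by
    intro x hx c hc
    rw [map_neg, AddMonoidHom.neg_apply, AddChar.map_neg_eq_inv, hx c hc, inv_one]

lemma mem_perp {K V : Type*} [AddCommGroup K] [AddCommGroup V] {ψ : AddChar K Circle}
    {b : V →+ V →+ K} {C : AddSubgroup V} {x : V} :
    x ∈ perp ψ b C ↔ ∀ c ∈ C, ψ (b x c) = 1 := Iff.rfl

/-- The bilinear form `2 c x y`. -/
def ub {K : Type*} [Field K] (c : K) : K →+ K →+ K :=
  AddMonoidHom.mk' (fun x => AddMonoidHom.mulLeft (2 * c * x)) (by
    intro x y
    ext t
    simp only [AddMonoidHom.coe_mulLeft, AddMonoidHom.add_apply]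
    ring)

lemma ub_apply {K : Type*} [Field K] (c x y : K) : ub c x y = 2 * c * x * y := rfl

/-- The form `x^2 + z x y + c₀ y^2` on `K × K`. -/
def nf {K : Type*} [Field K] (z c₀ : K) (x : K × K) : K := x.1 ^ 2 + z * x.1 * x.2 + c₀ * x.2 ^ 2

/-- The polar form of `u * nf z c₀`. -/
def nb {K : Type*} [Field K] (u z c₀ : K) : K × K →+ K × K →+ K :=
  AddMonoidHom.mk' (fun x => AddMonoidHom.mk' (fun y => u * (2 * x.1 * y.1 +
    z * (x.1 * y.2 + x.2 * y.1) + 2 * c₀ * x.2 * y.2)) (by
      intro y y'
      simp only [Prod.fst_add, Prod.snd_add]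
      ring)) (by
    intro x x'
    refine AddMonoidHom.ext fun y => ?_
    rw [AddMonoidHom.add_apply]
    simp only [AddMonoidHom.mk'_apply, Prod.fst_add, Prod.snd_add]
    ring)

lemma nb_apply {K : Type*} [Field K] (u z c₀ : K) (x y : K × K) :
    nb u z c₀ x y = u * (2 * x.1 * y.1 + z * (x.1 * y.2 + x.2 * y.1) + 2 * c₀ * x.2 * y.2) := rfl

lemma nf_add {K : Type*} [Field K] (u z c₀ : K) (x y : K × K) :
    u * nf z c₀ (x + y) = u * nf z c₀ x + u * nf z c₀ y + nb u z c₀ x y := by
  rw [nb_apply]
  unfold nf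
  simp only [Prod.fst_add, Prod.snd_add]
  ring

/-- The Gauss sum of `u * nf z c₀` for the lattice `L × L` and the character `ψ`. -/
noncomputable def GS {K : Type*} [Field K] (ψ : AddChar K Circle) (u z c₀ : K)
    (L : AddSubgroup K) : ℂ :=
  qs (perp ψ (nb u z c₀) (L.prod L)) (L.prod L) (fun x => (ψ (u * nf z c₀ x) : ℂ))

section Local

variable {K : Type*} [Field K] (V : Valuation K (WithZero (Multiplicative ℤ)))

/-- The elements of order at least `j`. -/
def ball (j : ℤ) : AddSubgroup K where
  carrier := {x | V x ≤ exp (-j)}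
  zero_mem' := by simp
  add_mem' := by
    intro x y hx hy
    exact (V.map_add x y).trans (max_le hx hy)
  neg_mem' := by
    intro x hx
    simpa [Valuation.map_neg] using hx

lemma mem_ball {V : Valuation K (WithZero (Multiplicative ℤ))} {j : ℤ} {x : K} :
    x ∈ ball V j ↔ V x ≤ exp (-j) := Iff.rfl

/-- The order of a nonzero element. -/
def ord (x : K) : ℤ := - log (V x)

/-- Local data: `π` a uniformizer, `q` elements in the residue field, `ψ` a character whose
conductor is the ball of radius `-d`. -/
structure Loc (π : K) (q : ℕ) (d : ℤ) (ψ : AddChar K Circle) : Prop where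
  pi : V π = exp (-1)
  card : (ball V 1).relIndex (ball V 0) = q
  pos : q ≠ 0
  cond : ∀ x : K, (∀ t : K, V t ≤ 1 → ψ (t * x) = 1) ↔ V x ≤ exp d

/-- The Gauss sum of `c x^2` for the lattice `ball V j`. -/
noncomputable def gU (ψ : AddChar K Circle) (c : K) (j : ℤ) : ℂ :=
  qs (perp ψ (ub c) (ball V j)) (ball V j) (fun x => (ψ (c * x ^ 2) : ℂ))

/-- The element (of order zero) is a square modulo the maximal ideal. -/
def Sq (x : K) : Prop := ∃ t : K, V (x - t ^ 2) < 1

open scoped Classical in
/-- The Legendre class of `x / π ^ ord x`. -/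
noncomputable def lam (π x : K) : ZMod 2 := if Sq V (x * π ^ (-ord V x)) then 0 else 1

/-- The tame symbol. -/
noncomputable def tm (π x y : K) : ZMod 2 :=
  (ord V x : ZMod 2) * lam V π y + (ord V y : ZMod 2) * lam V π x +
    (ord V x : ZMod 2) * (ord V y : ZMod 2) * lam V π (-1)

open scoped Classical in
/-- The class of the form `nf z c₀` modulo the maximal ideal: zero if it is isotropic. -/
noncomputable def kap (z c₀ : K) : ZMod 2 := if ∃ t : K, V (t ^ 2 + z * t + c₀) < 1 then 0 else 1

end Local

/-- `(-1)^k` as a complex number. -/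
noncomputable def sgn2 (k : ZMod 2) : ℂ := if k = 0 then 1 else -1

/-- `exp (2 π i t)`. -/
noncomputable def ee (t : ℝ) : Circle := Circle.exp (2 * Real.pi * t)

/-- `x ↦ exp (2 π i Tr x)`. -/
noncomputable def gch (K : Type) [Field K] [NumberField K] : AddChar K Circle where
  toFun x := ee (Algebra.trace ℚ K x : ℚ)
  map_zero_eq_one' := by
    unfold ee
    simp
  map_add_eq_mul' := by
    intro x y
    unfold ee
    rw [map_add, Rat.cast_add, mul_add, Circle.exp_add]

/-- The ring of integers as an additive subgroup of `K`. -/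
def OK (K : Type) [Field K] [NumberField K] : AddSubgroup K :=
  (algebraMap (NumberField.RingOfIntegers K) K).toAddMonoidHom.range

end H38RT
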