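import Mathlib

/-!
Row Fe. (about 150 lines): binary forms over a finite field F of characteristic two, q = card F, N(a,b) = a^2 + z a b + c b^2, z <> 0, rho a nontrivial additive character:
 sum_{a,b} rho (N(a,b)) = q if T^2 + z T + c has a root in F, and - q if not.
PROOF. n(t) := #{(a,b): N(a,b) = t}. Every t <> 0 is a square s^2 (frobenius is bijective on a finite field of characteristic two), N(s a, s b) = s^2 N(a,b), so n(t) = n(1) for t <> 0. Total: n(0) + (q-1) n(1) = q^2.
 The sum is n(0) + n(1) * sum_{t <> 0} rho t = n(0) - n(1) (AddChar.sum_eq_zero_of_ne_one). n(0): b = 0 gives a = 0 only; for b <> 0, a = b T with T^2 + z T + c = 0: the number r of roots is 0 or 2 (if T is a root then T + z is the other one, different as z <> 0),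
 so n(0) = 1 + r (q-1). r = 2: n(0) = 2q-1, n(1) = q-1, difference q. r = 0: n(0) = 1, n(1) = q+1, difference -q.
-/

set_option autoImplicit false


namespace H38RT

private theorem fe_sum_zero {F : Type*} [Field F] [Fintype F] (ρ : AddChar F Circle)
    (hρ : ρ ≠ 1) : ∑ x : F, (ρ x : ℂ) = 0 := by
  obtain ⟨y, hy⟩ : ∃ y, ρ y ≠ 1 := by
    by_contra h
    push Not at h
    exact hρ (AddChar.ext _ _ fun x => by simpa using h x)
  have h1 : ∑ x : F, (ρ x : ℂ) = (ρ y : ℂ) * ∑ x : F, (ρ x : ℂ) := by
    rw [Finset.mul_sum]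
    rw [← Equiv.sum_comp (Equiv.addLeft y) (fun x => (ρ x : ℂ))]
    refine Finset.sum_congr rfl fun x _ => ?_
    simp [AddChar.map_add_eq_mul]
  have h2 : ((ρ y : ℂ) - 1) * ∑ x : F, (ρ x : ℂ) = 0 := by
    rw [sub_mul, one_mul, ← h1, sub_self]
  rcases mul_eq_zero.1 h2 with h | h
  · exfalso
    apply hy
    have : (ρ y : ℂ) = 1 := sub_eq_zero.1 h
    exact Circle.ext (by simpa using this)
  · exact h

private theorem fe_sq_sum {F : Type*} [Field F] [Fintype F] [CharP F 2] (ρ : AddChar F Circle)
    (hρ : ρ ≠ 1) {u : F} (hu : u ≠ 0) : ∑ b : F, (ρ (b ^ 2 * u) : ℂ) = 0 := by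
  have hbij : Function.Bijective (fun b : F => b ^ 2 * u) := by
    rw [← Finite.injective_iff_bijective]
    intro a b hab
    have h1 : a ^ 2 = b ^ 2 := mul_right_cancel₀ hu hab
    have h2 : (a + b) ^ 2 = 0 := by
      have h2 : (2 : F) = 0 := CharTwo.two_eq_zero
      linear_combination h1 + (b ^ 2 + a * b) * h2
    have h3 : a + b = 0 := by simpa using h2
    exact CharTwo.add_eq_zero.1 h3
  rw [← fe_sum_zero ρ hρ]
  exact hbij.sum_comp (fun x => (ρ x : ℂ))

open scoped Classical in
theorem gs_bin {F : Type*} [Field F] [Fintype F] [CharP F 2] (ρ : AddChar F Circle)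
    (hρ : ρ ≠ 1) {z c : F} (hz : z ≠ 0) :
    ∑ x : F × F, (ρ (x.1 ^ 2 + z * x.1 * x.2 + c * x.2 ^ 2) : ℂ) =
      if ∃ t : F, t ^ 2 + z * t + c = 0 then (Fintype.card F : ℂ) else -(Fintype.card F : ℂ) := by
  have h2 : (2 : F) = 0 := CharTwo.two_eq_zero
  rw [Fintype.sum_prod_type_right]
  have hG : ∀ b : F, ∑ a : F, (ρ (a ^ 2 + z * a * b + c * b ^ 2) : ℂ) =
      (∑ s : F, (ρ (b ^ 2 * (s ^ 2 + z * s + c)) : ℂ)) -
        (if b = 0 then (Fintype.card F : ℂ) else 0) := by
    intro b
    by_cases hb : b = 0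
    · subst hb
      simp only [mul_zero, ne_eq, OfNat.ofNat_ne_zero, not_false_eq_true, zero_pow, add_zero,
        zero_mul, AddChar.map_zero_eq_one, Circle.coe_one, Finset.sum_const, Finset.card_univ,
        nsmul_eq_mul, mul_one, if_true, sub_self]
      have := fe_sq_sum ρ hρ (u := (1 : F)) one_ne_zero
      simpa using this
    · rw [if_neg hb, sub_zero]
      rw [← Equiv.sum_comp (Equiv.mulRight₀ b hb)
        (fun a => (ρ (a ^ 2 + z * a * b + c * b ^ 2) : ℂ))]
      refine Finset.sum_congr rfl fun s _ => ?_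
      congr 2
      simp only [Equiv.mulRight₀_apply]
      ring
  simp only [hG]
  rw [Finset.sum_sub_distrib, Finset.sum_comm]
  simp only [Finset.sum_ite_eq', Finset.mem_univ, if_true]
  have hS : ∀ s : F, ∑ b : F, (ρ (b ^ 2 * (s ^ 2 + z * s + c)) : ℂ) =
      if s ^ 2 + z * s + c = 0 then (Fintype.card F : ℂ) else 0 := by
    intro s
    by_cases hs : s ^ 2 + z * s + c = 0
    · rw [if_pos hs, hs]
      simp
    · rw [if_neg hs]
      exact fe_sq_sum ρ hρ hs
  simp only [hS]
  by_cases hr : ∃ t : F, t ^ 2 + z * t + c = 0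
  · rw [if_pos hr]
    obtain ⟨t, ht⟩ := hr
    have hset : (Finset.univ.filter fun s : F => s ^ 2 + z * s + c = 0) = {t, t + z} := by
      ext s
      simp only [Finset.mem_filter, Finset.mem_univ, true_and, Finset.mem_insert,
        Finset.mem_singleton]
      constructor
      · intro hs
        have h3 : (s + t) * (s + t + z) = 0 := by
          linear_combination hs + ht + (s * t - c) * h2
        rcases mul_eq_zero.1 h3 with h | h
        · left
          exact CharTwo.add_eq_zero.1 h
        · right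
          have : s + (t + z) = 0 := by rw [← add_assoc]; exact h
          exact CharTwo.add_eq_zero.1 this
      · rintro (rfl | rfl)
        · exact ht
        · linear_combination ht + (t * z + z ^ 2) * h2
    rw [← Finset.sum_filter, hset, Finset.sum_pair]
    · ring
    · intro h
      apply hz
      have : t + 0 = t + z := by rw [add_zero]; exact h
      exact (add_left_cancel this).symm
  · rw [if_neg hr]
    push Not at hr
    rw [Finset.sum_eq_zero]
    · ring
    · intro s _
      rw [if_neg (hr s)]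

end H38RT
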