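import Mathlib

/-!
Row Fo. (about 130 lines): quadratic Gauss sums over a finite field of odd characteristic (F finite field, rho a nontrivial additive character).
 gs_sq: if e = t^2, t <> 0: substitute x -> t x.
 gs_nsq: e a nonsquare: sum_x rho (x^2) + sum_x rho (e x^2) = 2 sum_t rho t = 0: for every t in F the number of x with x^2 = t plus the number of x with e x^2 = t is 2 (t = 0: 1 + 1; t <> 0: exactly one of t, t/e is a square,
   because e is not a square and the quadratic character is multiplicative, quadraticChar, and a nonzero square has two roots as 2 <> 0; quadraticChar_card_sqrts). sum_t rho t = 0: AddChar.sum_eq_zero_of_ne_one.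
 gs_ne: S = sum rho (x^2): S * conj S = sum_{x,y} rho (x^2 - y^2) = sum_{a,b} rho (a b) (a = x - y, b = x + y, a bijection as 2 is invertible) = card F (the inner sum over b is zero for a <> 0: rho (a b) is nontrivial), nonzero.
-/

set_option autoImplicit false


namespace H38RT

theorem gs_sq {F : Type*} [Field F] [Fintype F] (ρ : AddChar F Circle) {e t : F}
    (ht : t ≠ 0) (he : e = t ^ 2) : ∑ x : F, (ρ (e * x ^ 2) : ℂ) = ∑ x : F, (ρ (x ^ 2) : ℂ) := by
  refine Fintype.sum_equiv (Equiv.mulLeft₀ t ht) _ _ ?_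
  intro x
  rw [he, Equiv.mulLeft₀_apply, mul_pow]

/-- The complex valued character of `ρ`. -/
noncomputable def Fo_psi {F : Type*} [Field F] (ρ : AddChar F Circle) : AddChar F ℂ :=
  Circle.coeHom.compAddChar ρ

theorem Fo_psi_apply {F : Type*} [Field F] (ρ : AddChar F Circle) (t : F) :
    Fo_psi ρ t = (ρ t : ℂ) := rfl

theorem Fo_psi_ne {F : Type*} [Field F] (ρ : AddChar F Circle) (hρ : ρ ≠ 1) : Fo_psi ρ ≠ 1 := by
  intro h
  apply hρ
  ext t
  have h1 : Fo_psi ρ t = 1 := by rw [h]; rfl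
  rw [Fo_psi_apply] at h1
  simpa using h1

/-- The complex valued quadratic character. -/
noncomputable def Fo_chi (F : Type*) [Field F] [Fintype F] [DecidableEq F] : MulChar F ℂ :=
  (quadraticChar F).ringHomComp (Int.castRingHom ℂ)

theorem Fo_chi_apply (F : Type*) [Field F] [Fintype F] [DecidableEq F] (t : F) :
    Fo_chi F t = ((quadraticChar F t : ℤ) : ℂ) := rfl

theorem Fo_ringChar {F : Type*} [Field F] (hF : (2 : F) ≠ 0) : ringChar F ≠ 2 := by
  intro h
  apply hF
  have h1 := ringChar.Nat.cast_ringChar (R := F)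
  rw [h] at h1
  exact_mod_cast h1

theorem Fo_key {F : Type*} [Field F] [Fintype F] [DecidableEq F] (hF : (2 : F) ≠ 0)
    (ρ : AddChar F Circle) (hρ : ρ ≠ 1) {e : F} (he : e ≠ 0) :
    ∑ x : F, (ρ (e * x ^ 2) : ℂ) = gaussSum (Fo_chi F) (AddChar.mulShift (Fo_psi ρ) e) := by
  have hsum : ∑ t : F, (ρ (e * t) : ℂ) = 0 := by
    have h1 : ∑ t : F, (ρ (e * t) : ℂ) = ∑ t : F, Fo_psi ρ t := by
      refine Fintype.sum_equiv (Equiv.mulLeft₀ e he) _ _ ?_
      intro x
      rw [Equiv.mulLeft₀_apply, Fo_psi_apply]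
    rw [h1]
    exact AddChar.sum_eq_zero_of_ne_one (Fo_psi_ne ρ hρ)
  have h2 : ∑ x : F, (ρ (e * x ^ 2) : ℂ)
      = ∑ t : F, ((quadraticChar F t : ℤ) + 1 : ℂ) * (ρ (e * t) : ℂ) := by
    rw [← Finset.sum_fiberwise Finset.univ (fun x : F => x ^ 2)]
    refine Finset.sum_congr rfl fun t _ => ?_
    have h3 : ∑ x ∈ Finset.univ.filter (fun x : F => x ^ 2 = t), (ρ (e * x ^ 2) : ℂ)
        = ∑ x ∈ Finset.univ.filter (fun x : F => x ^ 2 = t), (ρ (e * t) : ℂ) := by
      refine Finset.sum_congr rfl fun x hx => ?_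
      rw [(Finset.mem_filter.1 hx).2]
    have h4 := quadraticChar_card_sqrts (Fo_ringChar hF) t
    have h5 : {x : F | x ^ 2 = t}.toFinset = Finset.univ.filter (fun x : F => x ^ 2 = t) := by
      ext x
      simp
    rw [h5] at h4
    rw [h3, Finset.sum_const, nsmul_eq_mul]
    have h6 : (((Finset.univ.filter (fun x : F => x ^ 2 = t)).card : ℤ) : ℂ)
        = ((quadraticChar F t + 1 : ℤ) : ℂ) := by rw [h4]
    rw [Int.cast_natCast] at h6
    rw [h6]
    push_cast
    rfl
  rw [h2, gaussSum]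
  have h3 : ∀ t : F, ((quadraticChar F t : ℤ) + 1 : ℂ) * (ρ (e * t) : ℂ)
      = Fo_chi F t * AddChar.mulShift (Fo_psi ρ) e t + (ρ (e * t) : ℂ) := by
    intro t
    rw [Fo_chi_apply, AddChar.mulShift_apply, Fo_psi_apply]
    ring
  simp only [h3]
  rw [Finset.sum_add_distrib, hsum, add_zero]

theorem gs_nsq {F : Type*} [Field F] [Fintype F] (hF : (2 : F) ≠ 0) (ρ : AddChar F Circle)
    (hρ : ρ ≠ 1) {e : F} (he : ¬ IsSquare e) :
    ∑ x : F, (ρ (e * x ^ 2) : ℂ) = - ∑ x : F, (ρ (x ^ 2) : ℂ) := by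
  classical
  have he0 : e ≠ 0 := by
    rintro rfl
    exact he (IsSquare.zero)
  have h1 := Fo_key hF ρ hρ he0
  have h2 := Fo_key hF ρ hρ (one_ne_zero (α := F))
  simp only [one_mul, AddChar.mulShift_one] at h2
  have h3 := gaussSum_mulShift (Fo_chi F) (Fo_psi ρ) (Units.mk0 e he0)
  rw [Units.val_mk0] at h3
  have h4 : Fo_chi F e = -1 := by
    rw [Fo_chi_apply, (quadraticChar_neg_one_iff_not_isSquare).2 he]
    simp
  rw [h4] at h3
  rw [h1, h2, ← h3]
  ring

theorem gs_ne {F : Type*} [Field F] [Fintype F] (hF : (2 : F) ≠ 0) (ρ : AddChar F Circle)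
    (hρ : ρ ≠ 1) : ∑ x : F, (ρ (x ^ 2) : ℂ) ≠ 0 := by
  classical
  have h2 := Fo_key hF ρ hρ (one_ne_zero (α := F))
  simp only [one_mul, AddChar.mulShift_one] at h2
  rw [h2]
  intro h0
  have hinj : Function.Injective (Int.castRingHom ℂ) := by
    intro a b hab
    simpa using hab
  have hχ1 : Fo_chi F ≠ 1 := by
    rw [Fo_chi, ne_eq, MulChar.ringHomComp_eq_one_iff hinj]
    exact quadraticChar_ne_one (Fo_ringChar hF)
  have hχ2 : (Fo_chi F).IsQuadratic := (quadraticChar_isQuadratic F).comp _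
  have h3 := gaussSum_sq hχ1 hχ2 (AddChar.IsPrimitive.of_ne_one (Fo_psi_ne ρ hρ))
  rw [h0] at h3
  have h4 : Fo_chi F (-1) ≠ 0 := by
    have h5 : IsUnit (-1 : F) := isUnit_one.neg
    exact (h5.map (Fo_chi F)).ne_zero
  have h5 : ((Fintype.card F : ℕ) : ℂ) ≠ 0 := by
    exact_mod_cast Fintype.card_ne_zero
  apply mul_ne_zero h4 h5
  rw [← h3]
  simp

end H38RT
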