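import Pool.Agent.H38.RT.Df

/-!
Row Ga. (about 230 lines): the quadratic Gauss sum with its sign: sum_{x mod 2a} e(x^2/(4a)) = sqrt(2a) e(1/8), e(t) = exp(2 pi i t).
PROOF (theta function). For Re z > 0 put Th(z) = sum_{n in Z} exp(-pi z n^2). Mathlib: Complex.tsum_exp_neg_mul_int_sq: Th(z) = z^(-1/2) Th(1/z); Complex.tsum_exp_neg_quadratic for shifted sums.
 Let t > 0 real, z = t - i/(2a). exp(-pi z n^2) = exp(-pi t n^2) e(n^2/(4a)) and e(n^2/(4a)) depends only on n mod 2a ((n+2a)^2/(4a) = n^2/(4a) + n + a). For a residue r: sum_{n = r mod 2a} exp(-pi t n^2) =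
   exp(-pi t r^2) sum_k exp(-pi (4a^2 t) k^2 + 2 pi (-2 a r t) k) = (1/(2a sqrt t)) sum_k exp(-pi k^2/(4a^2 t)) exp(i pi r k/a) by tsum_exp_neg_quadratic, and the last sum tends to 1 as t -> 0+ (dominated: terms k <> 0 are at most exp(-pi |k|/(4a^2t))).
   So sqrt t Th(t - i/(2a)) -> (1/(2a)) S, S the Gauss sum.
 On the other side 1/z = 2 a i + w with w = 1/z - 2 a i = 1/(t - i/(2a)) - 2ai = -2 a i t/(t - i/(2a)) = 4a^2 t/(1 + 2 a i t); exp(-pi (2ai) n^2) = 1, so Th(1/z) = Th(w), Re w > 0, w/t -> 4a^2. Th(w) = w^(-1/2) Th(1/w), Re (1/w) -> infinity so Th(1/w) -> 1.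
   sqrt t Th(1/z) -> (4a^2)^(-1/2) = 1/(2a). z^(-1/2) -> (-i/(2a))^(-1/2) = sqrt(2a) e(1/8). Hence S/(2a) = sqrt(2a) e(1/8)/(2a).
 (Any other proof is fine.)
-/

set_option autoImplicit false

namespace H38RT

open Complex Filter Topology HurwitzZeta

theorem Ga_cos (a : UnitAddCircle) : Tendsto (cosKernel a) atTop (𝓝 1) := by
  obtain ⟨p, hp, h⟩ := isBigO_atTop_cosKernel_sub a
  have h1 : Tendsto (fun x : ℝ => Real.exp (-p * x)) atTop (𝓝 0) := by
    have : Tendsto (fun x : ℝ => -p * x) atTop atBot :=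
      tendsto_id.const_mul_atTop_of_neg (by linarith)
    exact Real.tendsto_exp_atBot.comp this
  have h2 := h.trans_tendsto h1
  have h3 := h2.add_const 1
  simpa using h3

/-- `N^2 t` and its inverse -/
theorem Ga_inv {N : ℝ} (hN : 0 < N) :
    Tendsto (fun t : ℝ => 1 / (N ^ 2 * t)) (𝓝[>] 0) atTop := by
  have h1 : Tendsto (fun t : ℝ => t⁻¹) (𝓝[>] 0) atTop := tendsto_inv_nhdsGT_zero
  have h2 := h1.const_mul_atTop (r := (N ^ 2)⁻¹) (by positivity)
  refine h2.congr fun t => ?_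
  rw [one_div, mul_inv]

theorem Ga_even (a : UnitAddCircle) {N : ℝ} (hN : 0 < N) :
    Tendsto (fun t : ℝ => √t * evenKernel a (N ^ 2 * t)) (𝓝[>] 0) (𝓝 (1 / N)) := by
  have h1 := ((Ga_cos a).comp (Ga_inv hN)).const_mul (1 / N)
  rw [mul_one] at h1
  refine h1.congr' ?_
  filter_upwards [self_mem_nhdsWithin] with t ht
  have ht' : 0 < t := ht
  rw [evenKernel_functional_equation, Function.comp_apply]
  have e1 : (N ^ 2 * t) ^ (1 / 2 : ℝ) = N * √t := by
    rw [← Real.sqrt_eq_rpow, Real.sqrt_mul (by positivity), Real.sqrt_sq hN.le]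
  rw [e1]
  have : √t ≠ 0 := (Real.sqrt_pos.2 ht').ne'
  field_simp

/-- the term of the theta series -/
noncomputable def Ga_g (a : ℕ) (t : ℝ) (n : ℤ) : ℂ :=
  cexp (-Real.pi * ((t : ℂ) - I / (2 * a)) * (n : ℂ) ^ 2)

/-- the coefficient -/
noncomputable def Ga_c (a r : ℕ) : ℂ := cexp (2 * Real.pi * I * ((r : ℂ) ^ 2 / (4 * a)))

theorem Ga_gk (a : ℕ) (ha : 0 < a) (t : ℝ) (r : ℕ) (k : ℤ) :
    Ga_g a t (2 * a * k + r) = Ga_c a r *
      ((Real.exp (-Real.pi * (k + ((r : ℝ) / (2 * a))) ^ 2 * ((2 * a) ^ 2 * t)) : ℝ) : ℂ) := by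
  have ha' : (a : ℂ) ≠ 0 := by exact_mod_cast ha.ne'
  unfold Ga_g Ga_c
  rw [Complex.ofReal_exp, ← Complex.exp_add]
  have e : -(Real.pi : ℂ) * ((t : ℂ) - I / (2 * a)) * (((2 * a * k + r : ℤ) : ℂ)) ^ 2 =
      (2 * Real.pi * I * ((r : ℂ) ^ 2 / (4 * a)) +
      ((-Real.pi * (k + ((r : ℝ) / (2 * a))) ^ 2 * ((2 * a) ^ 2 * t) : ℝ) : ℂ)) +
      ((a * k ^ 2 + k * r : ℤ) : ℂ) * (2 * Real.pi * I) := by
    push_cast
    field_simp
    ring
  rw [e, Complex.exp_add _ (((a * k ^ 2 + k * r : ℤ) : ℂ) * (2 * Real.pi * I)),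
    Complex.exp_int_mul_two_pi_mul_I, mul_one]

theorem Ga_lhs (a : ℕ) (ha : 0 < a) (t : ℝ) (ht : 0 < t) :
    HasSum (Ga_g a t) (∑ r ∈ Finset.range (2 * a), Ga_c a r *
      ((evenKernel (((r : ℝ) / (2 * a) : ℝ) : UnitAddCircle) ((2 * a) ^ 2 * t) : ℝ) : ℂ)) := by
  have hN : (0 : ℤ) < 2 * a := by positivity
  have h1 : ∀ r ∈ Finset.range (2 * a), HasSum
      (fun n : ℤ => if n % (2 * a) = r then Ga_g a t n else 0) (Ga_c a r *
      ((evenKernel (((r : ℝ) / (2 * a) : ℝ) : UnitAddCircle) ((2 * a) ^ 2 * t) : ℝ) : ℂ)) := by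
    intro r hr
    rw [Finset.mem_range] at hr
    have h2 := hasSum_int_evenKernel ((r : ℝ) / (2 * a)) (t := (2 * a) ^ 2 * t) (by positivity)
    have h3 := (Complex.hasSum_ofReal.2 h2).mul_left (Ga_c a r)
    have h4 : HasSum (fun k : ℤ => Ga_g a t (2 * a * k + r)) (Ga_c a r *
      ((evenKernel (((r : ℝ) / (2 * a) : ℝ) : UnitAddCircle) ((2 * a) ^ 2 * t) : ℝ) : ℂ)) := by
      have e : (fun k : ℤ => Ga_g a t (2 * a * k + r)) = fun k : ℤ => Ga_c a r *
          ((Real.exp (-Real.pi * (k + ((r : ℝ) / (2 * a))) ^ 2 * ((2 * a) ^ 2 * t)) : ℝ) : ℂ) := by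
        funext k
        exact Ga_gk a ha t r k
      rw [e]
      exact h3
    have hinj : Function.Injective (fun k : ℤ => 2 * (a : ℤ) * k + r) := by
      intro k k' h
      have : 2 * (a : ℤ) * k = 2 * a * k' := by simpa using h
      exact mul_left_cancel₀ hN.ne' this
    rw [← hinj.hasSum_iff]
    · have e : ((fun n : ℤ => if n % (2 * a) = r then Ga_g a t n else 0) ∘
          fun k : ℤ => 2 * (a : ℤ) * k + r) = fun k : ℤ => Ga_g a t (2 * a * k + r) := by
        funext k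
        simp only [Function.comp_apply]
        rw [if_pos]
        rw [add_comm, Int.add_mul_emod_self_left]
        exact Int.emod_eq_of_lt (by positivity) (by exact_mod_cast hr)
      rw [e]
      exact h4
    · intro n hn
      rw [if_neg]
      intro h
      apply hn
      refine ⟨n / (2 * a), ?_⟩
      have := Int.mul_ediv_add_emod n (2 * a)
      simp only
      rw [← h]
      exact this
  have h2 := hasSum_sum h1
  have e : (fun n : ℤ => ∑ r ∈ Finset.range (2 * a), if n % (2 * a) = (r : ℤ) then Ga_g a t n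
      else 0) = Ga_g a t := by
    funext n
    have hn1 := Int.emod_nonneg n hN.ne'
    have hn2 := Int.emod_lt_of_pos n hN
    rw [Finset.sum_eq_single (n % (2 * a)).toNat]
    · rw [if_pos (Int.toNat_of_nonneg hn1).symm]
    · intro b _ hb
      rw [if_neg]
      intro h
      apply hb
      rw [h]
      simp
    · intro h
      exfalso
      apply h
      rw [Finset.mem_range]
      omega
  rw [e] at h2
  exact h2

theorem Ga_left (a : ℕ) (ha : 0 < a) :
    Tendsto (fun t : ℝ => (√t : ℂ) * ∑' n, Ga_g a t n) (𝓝[>] 0)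
      (𝓝 ((1 / (2 * a)) * ∑ r ∈ Finset.range (2 * a), Ga_c a r)) := by
  have ha' : (0 : ℝ) < 2 * a := by positivity
  have h1 : Tendsto (fun t : ℝ => ∑ r ∈ Finset.range (2 * a), Ga_c a r *
      ((√t * evenKernel (((r : ℝ) / (2 * a) : ℝ) : UnitAddCircle) ((2 * a) ^ 2 * t) : ℝ) : ℂ))
      (𝓝[>] 0) (𝓝 (∑ r ∈ Finset.range (2 * a), Ga_c a r * (((1 / (2 * a) : ℝ)) : ℂ))) := by
    refine tendsto_finsetSum _ fun r _ => ?_
    refine Tendsto.const_mul _ ?_
    exact (Complex.continuous_ofReal.tendsto _).comp (Ga_even _ ha')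
  have e : (1 / (2 * a) : ℂ) * ∑ r ∈ Finset.range (2 * a), Ga_c a r =
      ∑ r ∈ Finset.range (2 * a), Ga_c a r * (((1 / (2 * a) : ℝ)) : ℂ) := by
    rw [Finset.mul_sum]
    refine Finset.sum_congr rfl fun r _ => ?_
    push_cast
    ring
  rw [e]
  refine h1.congr' ?_
  filter_upwards [self_mem_nhdsWithin] with t ht
  rw [(Ga_lhs a ha t ht).tsum_eq, Finset.mul_sum]
  refine Finset.sum_congr rfl fun r _ => ?_
  push_cast
  ring

/-- the theta function tends to one -/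
theorem Ga_theta {f : ℝ → ℂ} {l : Filter ℝ} (h : Tendsto (fun t => (f t).im) l atTop) :
    Tendsto (fun t => jacobiTheta (f t)) l (𝓝 1) := by
  rw [tendsto_iff_norm_sub_tendsto_zero]
  have h1 : Tendsto (fun t => Real.exp (-Real.pi * (f t).im)) l (𝓝 0) := by
    have : Tendsto (fun t => -Real.pi * (f t).im) l atBot :=
      h.const_mul_atTop_of_neg (by linarith [Real.pi_pos])
    exact Real.tendsto_exp_atBot.comp this
  have h2 : Tendsto (fun t => 2 / (1 - Real.exp (-Real.pi * (f t).im)) *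
      Real.exp (-Real.pi * (f t).im)) l (𝓝 (2 / (1 - 0) * 0)) := by
    refine Tendsto.mul (Tendsto.div tendsto_const_nhds (tendsto_const_nhds.sub h1) (by norm_num))
      h1
  rw [mul_zero] at h2
  refine squeeze_zero' (Eventually.of_forall fun t => norm_nonneg _) ?_ h2
  filter_upwards [h.eventually_gt_atTop 0] with t ht
  exact norm_jacobiTheta_sub_one_le ht

theorem Ga_cpow {x : ℝ} (hx : 0 < x) {y : ℂ} (hy : y ≠ 0) (s : ℂ) :
    ((x : ℂ) * y) ^ s = (x : ℂ) ^ s * y ^ s := by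
  have hx' : (x : ℂ) ≠ 0 := by exact_mod_cast hx.ne'
  rw [Complex.cpow_def_of_ne_zero (mul_ne_zero hx' hy), Complex.cpow_def_of_ne_zero hx',
    Complex.cpow_def_of_ne_zero hy, Complex.log_ofReal_mul hx hy, ← Complex.exp_add,
    Complex.ofReal_log hx.le]
  congr 1
  ring

/-- the other side -/
theorem Ga_rhs (a : ℕ) (ha : 0 < a) (t : ℝ) (ht : 0 < t) :
    (√t : ℂ) * ∑' n, Ga_g a t n = 1 / ((t : ℂ) - I / (2 * a)) ^ (1 / 2 : ℂ) *
      (1 / (2 * a) * (1 / (1 / (1 + I * (2 * a * t))) ^ (1 / 2 : ℂ)) *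
        jacobiTheta (I / (((2 * a) ^ 2 * t : ℝ) * (1 / (1 + I * (2 * a * t)))))) := by
  have ha' : (a : ℂ) ≠ 0 := by exact_mod_cast ha.ne'
  have haR : (0 : ℝ) < a := by exact_mod_cast ha
  have ht' : (t : ℂ) ≠ 0 := by exact_mod_cast ht.ne'
  set y : ℂ := 1 / (1 + I * (2 * a * t)) with hy
  have hden : (1 : ℂ) + I * (2 * a * t) ≠ 0 := by
    intro h
    have := congrArg Complex.re h
    simp at this
  have hy0 : y ≠ 0 := one_div_ne_zero hden
  set w : ℂ := ((2 * a) ^ 2 * t : ℝ) * y with hw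
  have hz0 : (t : ℂ) - I / (2 * a) ≠ 0 := by
    intro h
    have h1 := congrArg Complex.re h
    have h2 : (I / (2 * (a : ℂ))).re = 0 := by
      rw [show (2 * (a : ℂ)) = ((2 * a : ℝ) : ℂ) by push_cast; ring, Complex.div_ofReal_re]
      simp
    rw [Complex.sub_re, h2, Complex.ofReal_re, Complex.zero_re, sub_zero] at h1
    exact ht.ne' h1
  have hzre : 0 < ((t : ℂ) - I / (2 * a)).re := by
    have h2 : (I / (2 * (a : ℂ))).re = 0 := by
      rw [show (2 * (a : ℂ)) = ((2 * a : ℝ) : ℂ) by push_cast; ring, Complex.div_ofReal_re]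
      simp
    rw [Complex.sub_re, h2, Complex.ofReal_re, sub_zero]
    exact ht
  have hzw : 1 / ((t : ℂ) - I / (2 * a)) = w + I * (2 * a) := by
    have h3 : (t : ℂ) - I / (2 * a) = (1 + I * (2 * a * t)) / (I * (2 * a)) := by
      field_simp
      ring_nf
      rw [Complex.I_sq]
      ring
    have h4 : w = ((2 * (a : ℂ)) ^ 2 * t) / (1 + I * (2 * a * t)) := by
      rw [hw, hy]
      push_cast
      ring
    rw [h3, one_div_div, h4, div_eq_iff hden, add_mul, div_mul_cancel₀ _ hden]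
    linear_combination (-(4 * (a : ℂ) ^ 2 * t)) * Complex.I_sq
  have hyre : 0 < y.re := by
    rw [hy, one_div, Complex.inv_re]
    apply div_pos
    · simp
    · exact Complex.normSq_pos.2 hden
  have hwre : 0 < w.re := by
    rw [hw, Complex.re_ofReal_mul]
    positivity
  have h1 := Complex.tsum_exp_neg_mul_int_sq hzre
  have e1 : ∑' n : ℤ, cexp (-Real.pi / ((t : ℂ) - I / (2 * a)) * (n : ℂ) ^ 2) =
      ∑' n : ℤ, cexp (-Real.pi * w * (n : ℂ) ^ 2) := by
    refine tsum_congr fun n => ?_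
    have e2 : -(Real.pi : ℂ) / ((t : ℂ) - I / (2 * a)) * (n : ℂ) ^ 2 =
        -Real.pi * w * (n : ℂ) ^ 2 + ((-(a * n ^ 2) : ℤ) : ℂ) * (2 * Real.pi * I) := by
      rw [div_eq_mul_one_div, hzw]
      push_cast
      ring
    rw [e2, Complex.exp_add _ ((_ : ℤ) * (2 * Real.pi * I)), Complex.exp_int_mul_two_pi_mul_I,
      mul_one]
  have h2 := Complex.tsum_exp_neg_mul_int_sq hwre
  have e3 : ∑' n : ℤ, cexp (-Real.pi / w * (n : ℂ) ^ 2) = jacobiTheta (I / w) := by
    unfold jacobiTheta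
    refine tsum_congr fun n => ?_
    congr 1
    have : (Real.pi : ℂ) * I * (n : ℂ) ^ 2 * (I / w) = Real.pi * (I * I) * (n : ℂ) ^ 2 / w := by
      ring
    rw [this, Complex.I_mul_I]
    ring
  have e4 : ∑' n, Ga_g a t n = ∑' n : ℤ, cexp (-Real.pi * ((t : ℂ) - I / (2 * a)) * (n : ℂ) ^ 2) :=
    rfl
  rw [e4, h1, e1, h2, e3]
  have e5 : w ^ (1 / 2 : ℂ) = (2 * a * √t : ℂ) * y ^ (1 / 2 : ℂ) := by
    rw [hw, Ga_cpow (by positivity) hy0]
    congr 1
    have : (1 / 2 : ℂ) = ((1 / 2 : ℝ) : ℂ) := by push_cast; ring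
    rw [this, ← Complex.ofReal_cpow (by positivity), ← Real.sqrt_eq_rpow,
      Real.sqrt_mul (by positivity), Real.sqrt_sq (by positivity)]
    push_cast
    ring
  have hst : (√t : ℂ) ≠ 0 := by
    exact_mod_cast (Real.sqrt_pos.2 ht).ne'
  have hyc : y ^ (1 / 2 : ℂ) ≠ 0 := by
    rw [Complex.cpow_def_of_ne_zero hy0]
    exact Complex.exp_ne_zero _
  rw [e5]
  field_simp

theorem Ga_right (a : ℕ) (ha : 0 < a) :
    Tendsto (fun t : ℝ => (√t : ℂ) * ∑' n, Ga_g a t n) (𝓝[>] 0)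
      (𝓝 (1 / (-I / (2 * a)) ^ (1 / 2 : ℂ) * (1 / (2 * a) * (1 / 1) * 1))) := by
  have ha' : (a : ℂ) ≠ 0 := by exact_mod_cast ha.ne'
  have haR : (0 : ℝ) < a := by exact_mod_cast ha
  have h0 : Tendsto (fun t : ℝ => (t : ℂ)) (𝓝[>] 0) (𝓝 0) := by
    have := Complex.continuous_ofReal.tendsto (0 : ℝ)
    rw [Complex.ofReal_zero] at this
    exact this.mono_left nhdsWithin_le_nhds
  have hs1 : (-I / (2 * a) : ℂ) ∈ Complex.slitPlane := by
    rw [Complex.mem_slitPlane_iff]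
    right
    rw [show (2 * (a : ℂ)) = ((2 * a : ℝ) : ℂ) by push_cast; ring, Complex.div_ofReal_im]
    simp only [Complex.neg_im, Complex.I_im]
    have : (0 : ℝ) < 2 * a := by positivity
    exact (div_neg_of_neg_of_pos (by norm_num) this).ne
  have h1 : Tendsto (fun t : ℝ => 1 / ((t : ℂ) - I / (2 * a)) ^ (1 / 2 : ℂ)) (𝓝[>] 0)
      (𝓝 (1 / (-I / (2 * a)) ^ (1 / 2 : ℂ))) := by
    refine Tendsto.div tendsto_const_nhds ?_ ?_
    · have hc : ContinuousAt (fun z : ℂ => z ^ (1 / 2 : ℂ)) (-I / (2 * a)) :=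
        continuousAt_cpow_const hs1
      refine hc.tendsto.comp ?_
      have := h0.sub_const (I / (2 * a))
      have e : (0 : ℂ) - I / (2 * a) = -I / (2 * a) := by ring
      rw [e] at this
      exact this
    · rw [Complex.cpow_def_of_ne_zero (Complex.slitPlane_ne_zero hs1)]
      exact Complex.exp_ne_zero _
  have hy : Tendsto (fun t : ℝ => (1 : ℂ) / (1 + I * (2 * a * t))) (𝓝[>] 0) (𝓝 1) := by
    have h2 : Tendsto (fun t : ℝ => (1 : ℂ) + I * (2 * a * t)) (𝓝[>] 0) (𝓝 1) := by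
      have h3 := ((h0.const_mul (2 * (a : ℂ))).const_mul I).const_add 1
      rw [mul_zero, mul_zero, add_zero] at h3
      exact h3
    have h3 := tendsto_const_nhds (x := (1 : ℂ)) (f := 𝓝[>] (0 : ℝ)) |>.div h2 one_ne_zero
    rw [div_one] at h3
    exact h3
  have h2 : Tendsto (fun t : ℝ => 1 / (1 / (1 + I * (2 * a * t))) ^ (1 / 2 : ℂ)) (𝓝[>] 0)
      (𝓝 (1 / 1)) := by
    refine Tendsto.div tendsto_const_nhds ?_ one_ne_zero
    have hc : ContinuousAt (fun z : ℂ => z ^ (1 / 2 : ℂ)) 1 :=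
      continuousAt_cpow_const Complex.one_mem_slitPlane
    have h3 := hc.tendsto.comp hy
    simp only [Complex.one_cpow] at h3
    exact h3
  have h3 : Tendsto (fun t : ℝ => jacobiTheta
      (I / (((2 * a) ^ 2 * t : ℝ) * (1 / (1 + I * (2 * a * t)))))) (𝓝[>] 0) (𝓝 1) := by
    apply Ga_theta
    have h4 := Ga_inv (N := 2 * a) (by positivity)
    refine h4.congr' ?_
    filter_upwards [self_mem_nhdsWithin] with t ht
    have ht' : 0 < t := ht
    have e : I / (((2 * a) ^ 2 * t : ℝ) * (1 / (1 + I * (2 * a * t)))) =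
        ((1 / ((2 * a) ^ 2 * t) : ℝ) : ℂ) * (I + I * I * (2 * a * t)) := by
      have hden : (1 : ℂ) + I * (2 * a * t) ≠ 0 := by
        intro h
        have := congrArg Complex.re h
        simp at this
      have ht'' : (t : ℂ) ≠ 0 := by exact_mod_cast ht'.ne'
      push_cast
      field_simp
    rw [e, Complex.I_mul_I, Complex.im_ofReal_mul]
    have e2 : (I + -1 * (2 * (a : ℂ) * t)).im = 1 := by
      have : (-1 * (2 * (a : ℂ) * t)) = ((-(2 * a * t) : ℝ) : ℂ) := by push_cast; ring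
      rw [this, Complex.add_im, Complex.I_im, Complex.ofReal_im, add_zero]
    rw [e2, mul_one]
  have h4 := h1.mul (((tendsto_const_nhds (x := (1 / (2 * a) : ℂ))).mul h2).mul h3)
  refine h4.congr' ?_
  filter_upwards [self_mem_nhdsWithin] with t ht
  exact (Ga_rhs a ha t ht).symm

theorem gauss (a : ℕ) (ha : 0 < a) :
    ∑ x ∈ Finset.range (2 * a), (ee ((x : ℝ) ^ 2 / (4 * a)) : ℂ) =
      (Real.sqrt (2 * a) : ℂ) * (ee (1 / 8) : ℂ) := by
  have ha' : (a : ℂ) ≠ 0 := by exact_mod_cast ha.ne'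
  have haR : (0 : ℝ) < 2 * a := by positivity
  have h := tendsto_nhds_unique (Ga_left a ha) (Ga_right a ha)
  have e1 : ∑ x ∈ Finset.range (2 * a), (ee ((x : ℝ) ^ 2 / (4 * a)) : ℂ) =
      ∑ r ∈ Finset.range (2 * a), Ga_c a r := by
    refine Finset.sum_congr rfl fun r _ => ?_
    unfold ee Ga_c
    rw [Circle.coe_exp]
    congr 1
    push_cast
    ring
  rw [e1]
  have h2 : ∑ r ∈ Finset.range (2 * a), Ga_c a r = 1 / (-I / (2 * a)) ^ (1 / 2 : ℂ) := by
    have h3 := congrArg (fun z => (2 * (a : ℂ)) * z) h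
    rw [← mul_assoc, mul_one_div_cancel (by simpa using ha'), one_mul] at h3
    rw [h3]
    field_simp
  rw [h2]
  have e2 : (-I / (2 * a) : ℂ) = ((1 / (2 * a) : ℝ) : ℂ) * (-I) := by
    push_cast
    ring
  rw [e2, Ga_cpow (by positivity) (neg_ne_zero.2 Complex.I_ne_zero)]
  have e3 : (((1 / (2 * a) : ℝ)) : ℂ) ^ (1 / 2 : ℂ) = ((√(2 * a))⁻¹ : ℝ) := by
    have : (1 / 2 : ℂ) = ((1 / 2 : ℝ) : ℂ) := by push_cast; ring
    rw [this, ← Complex.ofReal_cpow (by positivity), ← Real.sqrt_eq_rpow, one_div,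
      Real.sqrt_inv]
  have e4 : (-I : ℂ) ^ (1 / 2 : ℂ) = cexp (-(2 * Real.pi * (1 / 8)) * I) := by
    rw [Complex.cpow_def_of_ne_zero (neg_ne_zero.2 Complex.I_ne_zero), Complex.log_neg_I]
    congr 1
    ring
  rw [e3, e4]
  unfold ee
  rw [Circle.coe_exp]
  have e5 : (√(2 * a) : ℂ) ≠ 0 := by
    exact_mod_cast (Real.sqrt_pos.2 haR).ne'
  rw [one_div, mul_inv, ← Complex.exp_neg]
  push_cast
  rw [inv_inv]
  congr 2
  ring

end H38RT
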