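import Pool.Agent.H38.RT.Df

/-!
Row Sy. (about 180 lines): signs of the trace form Tr(c x^2) over a totally real field (Sylvester).
 Existence of an orthogonal basis: LinearMap.BilinForm.exists_orthogonal_basis for the symmetric form (x,y) -> Tr(c x y), nondegenerate (Tr form nondegenerate, c <> 0), so Tr(c f_i^2) <> 0. n = finrank.
 For w : K ->+* R the numbers: Tr x = sum_w w x (totally real: every complex embedding is real; NumberField.trace_eq_sum_embeddings / Algebra.trace_eq_sum_embeddings over C, IsTotallyReal). card (K ->+* R) = n.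
 Let p = number of i with Tr(c f_i^2) > 0, p' = number of w with w c > 0. Claim p <= p' and n - p <= n - p': the vectors F_i := (w f_i)_w in R^(K ->+* R) are an R-basis (the matrix (w f_i) has nonzero determinant: Algebra.discr_not_zero_of_basis, discr = det^2; or
   linear independence from nondegeneracy: if sum t_i F_i = 0, pair with F_j: sum_w w c * w f_j * (sum t_i w f_i) = t_j Tr(c f_j^2) = 0). The form q(X) = sum_w (w c) X_w^2 satisfies q (sum t_i F_i) = sum t_i^2 Tr(c f_i^2) (orthogonality).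
   The span of the F_i with positive sign meets N := {X : X_w = 0 if w c > 0} only in zero (q >= 0 on the first with equality only at 0, q <= 0 on N). dim: p + (n - p') <= n. Replacing c by -c: n - p <= n - p'. So p = p'.
 Both products are e(1/8)^p e(-1/8)^(n-p).
-/

set_option autoImplicit false


namespace H38RT

open Finset in
lemma Sy_prod {ι : Type*} [Fintype ι] (a : ι → ℝ) (ha : ∀ i, a i ≠ 0) :
    ∏ i, (ee ((SignType.sign (a i) : ℝ) / 8) : ℂ) =
      (ee (1 / 8) : ℂ) ^ (univ.filter fun i => 0 < a i).card *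
        (ee (-1 / 8) : ℂ) ^ (univ.filter fun i => ¬ 0 < a i).card := by
  classical
  have h : ∀ i, (ee ((SignType.sign (a i) : ℝ) / 8) : ℂ) =
      if 0 < a i then (ee (1 / 8) : ℂ) else (ee (-1 / 8) : ℂ) := by
    intro i
    split_ifs with hi
    · rw [sign_pos hi]
      norm_num
    · have hneg : a i < 0 := lt_of_le_of_ne (not_lt.1 hi) (ha i)
      rw [sign_neg hneg]
      norm_num
  rw [Finset.prod_congr rfl fun i _ => h i, Finset.prod_ite, Finset.prod_const, Finset.prod_const]

section

variable (K : Type) [Field K] [NumberField K] [NumberField.IsTotallyReal K]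

/-- Real embeddings and complex embeddings of a totally real field. -/
noncomputable def SyE : (K →+* ℝ) ≃ (K →ₐ[ℚ] ℂ) :=
  (Equiv.ofBijective (fun w : K →+* ℝ => (Complex.ofRealHom.comp w : K →+* ℂ)) (by
    constructor
    · intro w w' h
      ext x
      have := RingHom.congr_fun h x
      simpa using this
    · intro φ
      have hφ := NumberField.IsTotallyReal.complexEmbedding_isReal φ
      refine ⟨hφ.embedding, ?_⟩
      ext x
      simp [NumberField.ComplexEmbedding.IsReal.coe_embedding_apply])).trans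
    (RingHom.equivRatAlgHom (R := K) (S := ℂ))

lemma SyE_apply (w : K →+* ℝ) (x : K) : SyE K w x = ((w x : ℝ) : ℂ) := rfl

lemma Sy_trace (x : K) : ((Algebra.trace ℚ K x : ℚ) : ℝ) = ∑ w : K →+* ℝ, w x := by
  have h := trace_eq_sum_embeddings (K := ℚ) (L := K) ℂ (x := x)
  rw [← (SyE K).sum_comp] at h
  simp only [SyE_apply] at h
  have h2 : (((Algebra.trace ℚ K x : ℚ) : ℝ) : ℂ) = ((∑ w : K →+* ℝ, w x : ℝ) : ℂ) := by
    rw [Complex.ofReal_sum, ← h]
    simp
  exact_mod_cast h2

lemma Sy_card : Fintype.card (K →+* ℝ) = Module.finrank ℚ K := by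
  rw [Fintype.card_congr (SyE K)]
  exact AlgHom.card ℚ K ℂ

variable {K}

lemma Sy_form {c : K} {f : Fin (Module.finrank ℚ K) → K}
    (hf : ∀ i j, i ≠ j → Algebra.trace ℚ K (c * f i * f j) = 0)
    (t : Fin (Module.finrank ℚ K) → ℝ) :
    ∑ w : K →+* ℝ, w c * (∑ i, t i * w (f i)) ^ 2 =
      ∑ i, t i ^ 2 * ((Algebra.trace ℚ K (c * f i ^ 2) : ℚ) : ℝ) := by
  have h1 : ∀ w : K →+* ℝ, w c * (∑ i, t i * w (f i)) ^ 2 =
      ∑ i, ∑ j, t i * t j * w (c * f i * f j) := by
    intro w
    rw [sq, Finset.sum_mul_sum, Finset.mul_sum]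
    refine Finset.sum_congr rfl fun i _ => ?_
    rw [Finset.mul_sum]
    refine Finset.sum_congr rfl fun j _ => ?_
    rw [map_mul, map_mul]
    ring
  rw [Finset.sum_congr rfl fun w _ => h1 w, Finset.sum_comm]
  refine Finset.sum_congr rfl fun i _ => ?_
  rw [Finset.sum_comm, Finset.sum_eq_single i]
  · rw [Sy_trace, Finset.mul_sum]
    refine Finset.sum_congr rfl fun w _ => ?_
    rw [show c * f i * f i = c * f i ^ 2 by ring]
    ring
  · intro j _ hj
    rw [← Finset.mul_sum, ← Sy_trace, hf i j hj.symm]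
    simp
  · intro h
    exact absurd (Finset.mem_univ i) h

lemma Sy_le {c : K} {f : Fin (Module.finrank ℚ K) → K}
    (hf : ∀ i j, i ≠ j → Algebra.trace ℚ K (c * f i * f j) = 0) :
    Fintype.card {i // 0 < ((Algebra.trace ℚ K (c * f i ^ 2) : ℚ) : ℝ)} ≤
      Fintype.card {w : K →+* ℝ // 0 < w c} := by
  classical
  set S := {i // 0 < ((Algebra.trace ℚ K (c * f i ^ 2) : ℚ) : ℝ)}
  set W := {w : K →+* ℝ // 0 < w c}
  let Φ : (S → ℝ) →ₗ[ℝ] (W → ℝ) :=
    { toFun := fun t w => ∑ i : S, t i * w.1 (f i.1)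
      map_add' := by
        intro t t'
        funext w
        simp only [Pi.add_apply, add_mul, Finset.sum_add_distrib]
      map_smul' := by
        intro r t
        funext w
        simp only [Pi.smul_apply, smul_eq_mul, RingHom.id_apply, Finset.mul_sum, mul_assoc] }
  have hΦ : Function.Injective Φ := by
    rw [← LinearMap.ker_eq_bot, LinearMap.ker_eq_bot']
    intro t ht
    -- extend by zero
    let T : Fin (Module.finrank ℚ K) → ℝ := fun i =>
      if h : 0 < ((Algebra.trace ℚ K (c * f i ^ 2) : ℚ) : ℝ) then t ⟨i, h⟩ else 0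
    have hTS : ∀ i : S, T i.1 = t i := by
      intro i
      exact dif_pos i.2
    have hTn : ∀ i, ¬ 0 < ((Algebra.trace ℚ K (c * f i ^ 2) : ℚ) : ℝ) → T i = 0 := by
      intro i hi
      exact dif_neg hi
    have hT : ∀ w : K →+* ℝ, ∑ i, T i * w (f i) = ∑ i : S, t i * w (f i.1) := by
      intro w
      have h1 : ∑ i : S, t i * w (f i.1) = ∑ i : S, T i.1 * w (f i.1) := by
        refine Finset.sum_congr rfl fun i _ => ?_
        rw [hTS]
      have h2 : ∑ i : S, T i.1 * w (f i.1) = ∑ i ∈ Finset.univ.filter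
          (fun i => 0 < ((Algebra.trace ℚ K (c * f i ^ 2) : ℚ) : ℝ)), T i * w (f i) :=
        (Finset.sum_subtype (Finset.univ.filter
          (fun i => 0 < ((Algebra.trace ℚ K (c * f i ^ 2) : ℚ) : ℝ)))
          (p := fun i => 0 < ((Algebra.trace ℚ K (c * f i ^ 2) : ℚ) : ℝ))
          (fun x => by simp only [Finset.mem_filter, Finset.mem_univ, true_and])
          (fun i => T i * w (f i))).symm
      rw [h1, h2, Finset.sum_filter_of_ne]
      intro i _ hi
      by_contra hn
      exact hi (by rw [hTn i hn, zero_mul])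
    have hle : ∑ w : K →+* ℝ, w c * (∑ i, T i * w (f i)) ^ 2 ≤ 0 := by
      refine Finset.sum_nonpos fun w _ => ?_
      by_cases hw : 0 < w c
      · have h3 : ∑ i : S, t i * w (f i.1) = 0 := congrFun ht ⟨w, hw⟩
        rw [hT, h3]
        simp
      · exact mul_nonpos_of_nonpos_of_nonneg (not_lt.1 hw) (sq_nonneg _)
    rw [Sy_form hf T] at hle
    have hnn : ∀ i ∈ (Finset.univ : Finset (Fin (Module.finrank ℚ K))),
        0 ≤ T i ^ 2 * ((Algebra.trace ℚ K (c * f i ^ 2) : ℚ) : ℝ) := by
      intro i _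
      by_cases hi : 0 < ((Algebra.trace ℚ K (c * f i ^ 2) : ℚ) : ℝ)
      · positivity
      · rw [hTn i hi]
        simp
    have hz := (Finset.sum_eq_zero_iff_of_nonneg hnn).1 (le_antisymm hle (Finset.sum_nonneg hnn))
    funext i
    have hzi := hz i.1 (Finset.mem_univ _)
    have h0 : T i.1 ^ 2 = 0 := by
      rcases mul_eq_zero.1 hzi with h | h
      · exact h
      · exact absurd h i.2.ne'
    have h0' : T i.1 = 0 := pow_eq_zero_iff (two_ne_zero) |>.1 h0
    rw [hTS] at h0'
    exact h0'
  have := LinearMap.finrank_le_finrank_of_injective hΦ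
  rw [Module.finrank_pi, Module.finrank_pi] at this
  exact this

omit [NumberField.IsTotallyReal K] in
lemma Sy_basis {c : K} (hc : c ≠ 0) : ∃ f : Module.Basis (Fin (Module.finrank ℚ K)) ℚ K,
    (∀ i j, i ≠ j → Algebra.trace ℚ K (c * f i * f j) = 0) ∧
    (∀ i, Algebra.trace ℚ K (c * f i ^ 2) ≠ 0) := by
  classical
  let B : LinearMap.BilinForm ℚ K := LinearMap.mk₂ ℚ (fun x y => Algebra.trace ℚ K (c * x * y))
    (by
      intro x x' y
      rw [mul_add, add_mul, map_add])
    (by
      intro r x y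
      rw [← map_smul, mul_smul_comm, smul_mul_assoc])
    (by
      intro x y y'
      rw [mul_add, map_add])
    (by
      intro r x y
      rw [← map_smul, mul_smul_comm])
  have hB : ∀ x y, B x y = Algebra.trace ℚ K (c * x * y) := fun x y => rfl
  have hsymm : LinearMap.IsSymm B := by
    refine ⟨fun x y => ?_⟩
    change B x y = B y x
    rw [hB, hB, show c * x * y = c * y * x by ring]
  obtain ⟨f, hf⟩ := LinearMap.BilinForm.exists_orthogonal_basis (B := B) hsymm
  have hf' : ∀ i j, i ≠ j → Algebra.trace ℚ K (c * f i * f j) = 0 := by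
    intro i j hij
    exact hf hij
  refine ⟨f, hf', fun i hi => ?_⟩
  -- then `c * f i` is orthogonal to everything
  have h1 : ∀ y, Algebra.trace ℚ K (c * f i * y) = 0 := by
    intro y
    have h2 : B (f i) = 0 := by
      refine f.ext fun j => ?_
      by_cases hij : i = j
      · subst hij
        rw [hB, show c * f i * f i = c * f i ^ 2 by ring, hi, LinearMap.zero_apply]
      · rw [hB, hf' i j hij, LinearMap.zero_apply]
    have h3 := LinearMap.congr_fun h2 y
    rw [hB, LinearMap.zero_apply] at h3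
    exact h3
  have h4 := traceForm_nondegenerate ℚ K
  have h5 : c * f i = 0 := by
    apply h4.1
    intro y
    rw [Algebra.traceForm_apply]
    exact h1 y
  rcases mul_eq_zero.1 h5 with h | h
  · exact hc h
  · exact f.ne_zero i h

end

theorem syl (K : Type) [Field K] [NumberField K] [NumberField.IsTotallyReal K] {c : K}
    (hc : c ≠ 0) : ∃ f : Module.Basis (Fin (Module.finrank ℚ K)) ℚ K,
    (∀ i j, i ≠ j → Algebra.trace ℚ K (c * f i * f j) = 0) ∧
    (∀ i, Algebra.trace ℚ K (c * f i ^ 2) ≠ 0) ∧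
    ∏ i, (ee ((SignType.sign ((Algebra.trace ℚ K (c * f i ^ 2) : ℚ) : ℝ) : ℝ) / 8) : ℂ) =
      ∏ w : K →+* ℝ, (ee ((SignType.sign (w c) : ℝ) / 8) : ℂ) := by
  classical
  obtain ⟨f, hf, hf0⟩ := Sy_basis (K := K) hc
  refine ⟨f, hf, hf0, ?_⟩
  rw [Sy_prod _ (fun i => Rat.cast_ne_zero.2 (hf0 i)),
    Sy_prod (fun w : K →+* ℝ => w c) (fun w => (map_ne_zero w).2 hc)]
  have h1 := Sy_le (c := c) (f := f) hf
  have hfneg : ∀ i j, i ≠ j → Algebra.trace ℚ K (-c * f i * f j) = 0 := by
    intro i j hij
    rw [show -c * f i * f j = -(c * f i * f j) by ring, map_neg, hf i j hij, neg_zero]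
  have h2 := Sy_le (c := -c) (f := f) hfneg
  rw [Fintype.card_subtype, Fintype.card_subtype] at h1 h2
  have h3 : (Finset.univ.filter fun i => 0 < ((Algebra.trace ℚ K (-c * f i ^ 2) : ℚ) : ℝ)) =
      Finset.univ.filter fun i => ¬ 0 < ((Algebra.trace ℚ K (c * f i ^ 2) : ℚ) : ℝ) := by
    refine Finset.filter_congr fun i _ => ?_
    rw [neg_mul, map_neg, Rat.cast_neg, Left.neg_pos_iff, not_lt]
    exact ⟨fun h => h.le, fun h => lt_of_le_of_ne h (Rat.cast_ne_zero.2 (hf0 i))⟩
  have h4 : (Finset.univ.filter fun w : K →+* ℝ => 0 < w (-c)) =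
      Finset.univ.filter fun w : K →+* ℝ => ¬ 0 < w c := by
    refine Finset.filter_congr fun w _ => ?_
    rw [map_neg, Left.neg_pos_iff, not_lt]
    exact ⟨fun h => h.le, fun h => lt_of_le_of_ne h ((map_ne_zero w).2 hc)⟩
  rw [h3, h4] at h2
  have h5 := Finset.card_filter_add_card_filter_not (s := Finset.univ)
    (fun i => 0 < ((Algebra.trace ℚ K (c * f i ^ 2) : ℚ) : ℝ))
  have h6 := Finset.card_filter_add_card_filter_not (s := Finset.univ)
    (fun w : K →+* ℝ => 0 < w c)
  rw [Finset.card_univ, Fintype.card_fin] at h5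
  rw [Finset.card_univ, Sy_card] at h6
  have h7 : (Finset.univ.filter fun i => 0 < ((Algebra.trace ℚ K (c * f i ^ 2) : ℚ) : ℝ)).card =
      (Finset.univ.filter fun w : K →+* ℝ => 0 < w c).card := by omega
  have h8 : (Finset.univ.filter fun i => ¬ 0 < ((Algebra.trace ℚ K (c * f i ^ 2) : ℚ) : ℝ)).card =
      (Finset.univ.filter fun w : K →+* ℝ => ¬ 0 < w c).card := by omega
  rw [h7, h8]

end H38RT
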