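import Pool.Agent.H38.RT.Mi
import Pool.Agent.H38.RT.Sy

/-!
Row Gl. (about 150 lines): Milgram's formula for the lattice OK x OK with the form Tr (u nf z c0). D = z^2 - 4 c0.
 milgram with V = K x K (a Q-vector space), Q x = Tr (u nf z c0 x), beta x y = Tr (nb u z c0 x y) (compose nb with the additive map Tr), L = (OK K).prod (OK K). L is finitely generated (NumberField.RingOfIntegers is a free Z-module of finite rank) and spans K x K
 (every x in K is a/m with a in OK, m a nonzero integer). Q is integral on L (u nf z c0 x is an algebraic integer, its trace is an integer: Algebra.isInt_trace or NumberField.RingOfIntegers trace map Algebra.trace Z).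
 Basis of K x K: f, g from syl for c = u and c = -(u D); the vectors (f_i, 0) and (- z g_i, 2 g_i): u nf = u f_i^2 and -(u D) g_i^2; orthogonal: nb u z c0 (f_i,0) (- z g, 2 g) = u (2 f_i (- z g) + z f_i 2 g) = 0,
   nb u z c0 (-z g, 2 g) (-z g', 2 g') = -2 u D g g'. It is a basis (image of the product basis under an invertible linear map (x, y) -> (x - z y, 2 y)); reindex by finSumFinEquiv.
 chQ (Tr x) = gch K x by definition, so perp chQ beta L = perp (gch K) (nb u z c0) L and the sums agree.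
-/

set_option autoImplicit false


namespace H38RT

/-- the form on the rational vector space -/
noncomputable def Gl_b {K : Type} [Field K] [NumberField K] (u z c₀ : K) :
    K × K →+ K × K →+ ℚ :=
  AddMonoidHom.mk' (fun x => (Algebra.trace ℚ K).toAddMonoidHom.comp (nb u z c₀ x)) (by
    intro x x'
    ext y
    simp [map_add])

theorem Gl_b_apply {K : Type} [Field K] [NumberField K] (u z c₀ : K) (x y : K × K) :
    Gl_b u z c₀ x y = Algebra.trace ℚ K (nb u z c₀ x y) := rfl

/-- the change of coordinates -/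
noncomputable def Gl_e {K : Type} [Field K] [NumberField K] (z : K) : (K × K) ≃ₗ[ℚ] (K × K) where
  toFun x := (x.1 - z * x.2, 2 * x.2)
  map_add' x y := by
    ext
    · simp only [Prod.fst_add, Prod.snd_add]; ring
    · simp only [Prod.snd_add]; ring
  map_smul' c x := by
    ext
    · simp only [Prod.smul_fst, Prod.smul_snd, RingHom.id_apply, smul_sub, mul_smul_comm]
    · simp only [Prod.smul_snd, RingHom.id_apply, mul_smul_comm]
  invFun x := (x.1 + z * (x.2 / 2), x.2 / 2)
  left_inv x := by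
    ext
    · show x.1 - z * x.2 + z * (2 * x.2 / 2) = x.1
      have h : (2 : K) * x.2 / 2 = x.2 := by field_simp
      rw [h]; ring
    · show (2 : K) * x.2 / 2 = x.2
      field_simp
  right_inv x := by
    ext
    · show x.1 + z * (x.2 / 2) - z * (x.2 / 2) = x.1
      ring
    · show (2 : K) * (x.2 / 2) = x.2
      field_simp

theorem Gl_e_apply {K : Type} [Field K] [NumberField K] (z : K) (x : K × K) :
    Gl_e z x = (x.1 - z * x.2, 2 * x.2) := rfl

theorem Gl_mem {K : Type} [Field K] [NumberField K] {x : K} (hx : IsIntegral ℤ x) :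
    x ∈ OK K := ⟨⟨x, hx⟩, rfl⟩

theorem Gl_span {K : Type} [Field K] [NumberField K] :
    Submodule.span ℚ (((OK K).prod (OK K) : AddSubgroup (K × K)) : Set (K × K)) = ⊤ := by
  have key : ∀ x : K, ∃ m : ℤ, m ≠ 0 ∧ (m : K) * x ∈ OK K := by
    intro x
    have h1 : IsAlgebraic ℤ x :=
      (IsFractionRing.isAlgebraic_iff ℤ ℚ K).mpr (Algebra.IsAlgebraic.isAlgebraic x)
    obtain ⟨m, hm, hi⟩ := h1.exists_integral_multiple
    refine ⟨m, hm, ?_⟩
    rw [zsmul_eq_mul] at hi
    exact Gl_mem hi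
  have h0 : (0 : K) ∈ OK K := (OK K).zero_mem
  have key2 : ∀ v : K × K, (∃ m : ℤ, m ≠ 0 ∧ (((m : K) * v.1, (m : K) * v.2) : K × K) ∈
      (OK K).prod (OK K)) → v ∈ Submodule.span ℚ
      (((OK K).prod (OK K) : AddSubgroup (K × K)) : Set (K × K)) := by
    rintro v ⟨m, hm, hv⟩
    have h1 : v = ((m : ℚ)⁻¹) • (((m : K) * v.1, (m : K) * v.2) : K × K) := by
      have hmq : (m : ℚ) ≠ 0 := by exact_mod_cast hm
      ext
      · rw [Prod.smul_fst]
        show v.1 = (m : ℚ)⁻¹ • ((m : K) * v.1)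
        have h2 : (m : K) * v.1 = (m : ℚ) • v.1 := by
          rw [Rat.smul_def, Rat.cast_intCast]
        rw [h2, smul_smul, inv_mul_cancel₀ hmq, one_smul]
      · rw [Prod.smul_snd]
        show v.2 = (m : ℚ)⁻¹ • ((m : K) * v.2)
        have h2 : (m : K) * v.2 = (m : ℚ) • v.2 := by
          rw [Rat.smul_def, Rat.cast_intCast]
        rw [h2, smul_smul, inv_mul_cancel₀ hmq, one_smul]
    rw [h1]
    exact Submodule.smul_mem _ _ (Submodule.subset_span hv)
  rw [Submodule.eq_top_iff']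
  rintro ⟨x, y⟩
  have h1 : ((x, y) : K × K) = (x, 0) + (0, y) := by simp
  rw [h1]
  refine Submodule.add_mem _ (key2 _ ?_) (key2 _ ?_)
  · obtain ⟨m, hm, hx⟩ := key x
    refine ⟨m, hm, ?_⟩
    rw [AddSubgroup.mem_prod]
    exact ⟨hx, by simp⟩
  · obtain ⟨m, hm, hx⟩ := key y
    refine ⟨m, hm, ?_⟩
    rw [AddSubgroup.mem_prod]
    exact ⟨by simp, hx⟩

theorem Gl_fg {K : Type} [Field K] [NumberField K] : ((OK K).prod (OK K)).FG := by
  have h1 : (AddSubgroup.toIntSubmodule ((OK K).prod (OK K))).FG := by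
    have h2 : AddSubgroup.toIntSubmodule ((OK K).prod (OK K)) =
        LinearMap.range (((algebraMap (NumberField.RingOfIntegers K)
          K).toAddMonoidHom.toIntLinearMap).prodMap ((algebraMap (NumberField.RingOfIntegers K)
          K).toAddMonoidHom.toIntLinearMap)) := by
      ext ⟨x, y⟩
      constructor
      · rintro ⟨⟨a, ha⟩, ⟨b, hb⟩⟩
        exact ⟨(a, b), Prod.ext ha hb⟩
      · rintro ⟨⟨a, b⟩, hab⟩
        exact ⟨⟨a, congrArg Prod.fst hab⟩, ⟨b, congrArg Prod.snd hab⟩⟩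
    rw [h2, LinearMap.range_eq_map]
    exact Submodule.FG.map _ Module.Finite.fg_top
  rw [Submodule.fg_iff_addSubgroup_fg] at h1
  exact h1

open NumberField in
theorem glob (K : Type) [Field K] [NumberField K] [IsTotallyReal K] {u z c₀ : 𝓞 K} (hu : u ≠ 0)
    (hD : z ^ 2 - 4 * c₀ ≠ 0) :
    ∃ r : ℝ, 0 < r ∧ GS (gch K) (u : K) (z : K) (c₀ : K) (OK K) =
      r * ((∏ w : K →+* ℝ, (ee ((SignType.sign (w (u : K)) : ℝ) / 8) : ℂ)) *
        ∏ w : K →+* ℝ, (ee ((SignType.sign (w (-((u : K) * ((z : K) ^ 2 - 4 * c₀)))) : ℝ) / 8) :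
          ℂ)) := by
  have huK : (u : K) ≠ 0 := RingOfIntegers.coe_ne_zero_iff.mpr hu
  have hDK : (z : K) ^ 2 - 4 * (c₀ : K) ≠ 0 := by
    have h1 : ((z ^ 2 - 4 * c₀ : 𝓞 K) : K) ≠ 0 := RingOfIntegers.coe_ne_zero_iff.mpr hD
    have h2 : ((z ^ 2 - 4 * c₀ : 𝓞 K) : K) = (z : K) ^ 2 - 4 * (c₀ : K) := by
      show algebraMap (𝓞 K) K (z ^ 2 - 4 * c₀) =
        (algebraMap (𝓞 K) K z) ^ 2 - 4 * algebraMap (𝓞 K) K c₀
      rw [map_sub, map_pow, map_mul, map_ofNat]
    rwa [h2] at h1
  obtain ⟨f, f1, f2, f3⟩ := syl K huK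
  obtain ⟨g, g1, g2, g3⟩ := syl K (neg_ne_zero.mpr (mul_ne_zero huK hDK))
  obtain ⟨b', hb'⟩ : ∃ b' : Module.Basis (Fin (Module.finrank ℚ K) ⊕ Fin (Module.finrank ℚ K)) ℚ
    (K × K), b' = (f.prod g).map (Gl_e (z : K)) := ⟨_, rfl⟩
  have bl : ∀ i, b' (Sum.inl i) = (f i, 0) := by
    intro i
    rw [hb', Module.Basis.map_apply, Gl_e_apply, Module.Basis.prod_apply_inl_fst,
      Module.Basis.prod_apply_inl_snd]
    ext <;> simp
  have br : ∀ i, b' (Sum.inr i) = (-((z : K) * g i), 2 * g i) := by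
    intro i
    rw [hb', Module.Basis.map_apply, Gl_e_apply, Module.Basis.prod_apply_inr_fst,
      Module.Basis.prod_apply_inr_snd]
    ext <;> simp
  have tr2 : ∀ x : K, Algebra.trace ℚ K (2 * x) = 2 * Algebra.trace ℚ K x := by
    intro x
    rw [two_mul, map_add, two_mul]
  have ho : ∀ s t, s ≠ t → Gl_b (u : K) z c₀ (b' s) (b' t) = 0 := by
    intro s t hst
    rw [Gl_b_apply, nb_apply]
    rcases s with i | i <;> rcases t with j | j
    · have hij : i ≠ j := fun h => hst (by rw [h])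
      rw [bl, bl]
      have h1 : (u : K) * (2 * f i * f j + (z : K) * (f i * 0 + 0 * f j) +
          2 * (c₀ : K) * 0 * 0) = 2 * ((u : K) * f i * f j) := by ring
      show Algebra.trace ℚ K ((u : K) * (2 * f i * f j + (z : K) * (f i * 0 + 0 * f j) +
          2 * (c₀ : K) * 0 * 0)) = 0
      rw [h1, tr2, f1 i j hij, mul_zero]
    · rw [bl, br]
      have h1 : (u : K) * (2 * f i * (-((z : K) * g j)) + (z : K) * (f i * (2 * g j) +
          0 * (-((z : K) * g j))) + 2 * (c₀ : K) * 0 * (2 * g j)) = 0 := by ring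
      show Algebra.trace ℚ K ((u : K) * (2 * f i * (-((z : K) * g j)) +
        (z : K) * (f i * (2 * g j) + 0 * (-((z : K) * g j))) + 2 * (c₀ : K) * 0 * (2 * g j))) = 0
      rw [h1, map_zero]
    · rw [bl, br]
      have h1 : (u : K) * (2 * (-((z : K) * g i)) * f j + (z : K) * (-((z : K) * g i) * 0 +
          2 * g i * f j) + 2 * (c₀ : K) * (2 * g i) * 0) = 0 := by ring
      show Algebra.trace ℚ K ((u : K) * (2 * (-((z : K) * g i)) * f j +
        (z : K) * (-((z : K) * g i) * 0 + 2 * g i * f j) + 2 * (c₀ : K) * (2 * g i) * 0)) = 0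
      rw [h1, map_zero]
    · have hij : i ≠ j := fun h => hst (by rw [h])
      rw [br, br]
      have h1 : (u : K) * (2 * (-((z : K) * g i)) * (-((z : K) * g j)) +
          (z : K) * (-((z : K) * g i) * (2 * g j) + 2 * g i * (-((z : K) * g j))) +
          2 * (c₀ : K) * (2 * g i) * (2 * g j)) =
          2 * (-((u : K) * ((z : K) ^ 2 - 4 * (c₀ : K))) * g i * g j) := by ring
      show Algebra.trace ℚ K ((u : K) * (2 * (-((z : K) * g i)) * (-((z : K) * g j)) +
          (z : K) * (-((z : K) * g i) * (2 * g j) + 2 * g i * (-((z : K) * g j))) +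
          2 * (c₀ : K) * (2 * g i) * (2 * g j))) = 0
      rw [h1, tr2, g1 i j hij, mul_zero]
  have ql : ∀ i, Algebra.trace ℚ K ((u : K) * nf (z : K) c₀ (b' (Sum.inl i))) =
      Algebra.trace ℚ K ((u : K) * f i ^ 2) := by
    intro i
    rw [bl]
    congr 1
    show (u : K) * (f i ^ 2 + (z : K) * f i * 0 + (c₀ : K) * 0 ^ 2) = _
    ring
  have qr : ∀ i, Algebra.trace ℚ K ((u : K) * nf (z : K) c₀ (b' (Sum.inr i))) =
      Algebra.trace ℚ K (-((u : K) * ((z : K) ^ 2 - 4 * (c₀ : K))) * g i ^ 2) := by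
    intro i
    rw [br]
    congr 1
    show (u : K) * ((-((z : K) * g i)) ^ 2 + (z : K) * (-((z : K) * g i)) * (2 * g i) +
      (c₀ : K) * (2 * g i) ^ 2) = _
    ring
  have h := milgram (V := K × K) (fun x => Algebra.trace ℚ K ((u : K) * nf (z : K) c₀ x))
    (Gl_b (u : K) z c₀) (fun x y => by
      show Algebra.trace ℚ K _ = _
      rw [nf_add, map_add, map_add, Gl_b_apply]) (fun c x => by
      show Algebra.trace ℚ K ((u : K) * nf (z : K) c₀ (c • x)) =
        c ^ 2 * Algebra.trace ℚ K ((u : K) * nf (z : K) c₀ x)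
      have h1 : (u : K) * nf (z : K) c₀ (c • x) = (c ^ 2) • ((u : K) * nf (z : K) c₀ x) := by
        unfold nf
        rw [Prod.smul_fst, Prod.smul_snd, Rat.smul_def, Rat.smul_def, Rat.smul_def, Rat.cast_pow]
        ring
      rw [h1, map_smul, smul_eq_mul]) (b'.reindex finSumFinEquiv) (fun i j hij => by
      rw [Module.Basis.reindex_apply, Module.Basis.reindex_apply]
      exact ho _ _ (fun h => hij (finSumFinEquiv.symm.injective h))) (fun i => by
      show Algebra.trace ℚ K ((u : K) * nf (z : K) c₀ (b'.reindex finSumFinEquiv i)) ≠ 0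
      rw [Module.Basis.reindex_apply]
      rcases finSumFinEquiv.symm i with s | s
      · rw [ql]; exact f2 s
      · rw [qr]; exact g2 s) ((OK K).prod (OK K)) Gl_fg Gl_span (by
      rintro ⟨x, y⟩ hxy
      rw [AddSubgroup.mem_prod] at hxy
      obtain ⟨⟨a, ha⟩, ⟨b, hb⟩⟩ := hxy
      refine ⟨Algebra.trace ℤ (𝓞 K) (u * (a ^ 2 + z * a * b + c₀ * b ^ 2)), ?_⟩
      rw [Algebra.coe_trace_int]
      show Algebra.trace ℚ K ((u : K) * nf (z : K) c₀ (x, y)) = _
      congr 1
      have ha' : (a : K) = x := ha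
      have hb' : (b : K) = y := hb
      show (u : K) * (x ^ 2 + (z : K) * x * y + (c₀ : K) * y ^ 2) = _
      rw [← ha', ← hb']
      simp only [map_mul, map_add, map_pow])
  obtain ⟨r, hr, h⟩ := h
  refine ⟨r, hr, ?_⟩
  have hGS : GS (gch K) (u : K) (z : K) (c₀ : K) (OK K) =
      qs (perp chQ (Gl_b (u : K) z c₀) ((OK K).prod (OK K))) ((OK K).prod (OK K))
        (fun x => (chQ (Algebra.trace ℚ K ((u : K) * nf (z : K) c₀ x)) : ℂ)) := rfl
  rw [hGS, h, ← f3, ← g3]
  congr 1
  rw [← Equiv.prod_comp finSumFinEquiv, Fintype.prod_sum_type]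
  congr 1
  · refine Finset.prod_congr rfl fun i _ => ?_
    rw [Module.Basis.reindex_apply, Equiv.symm_apply_apply, ql]
  · refine Finset.prod_congr rfl fun i _ => ?_
    rw [Module.Basis.reindex_apply, Equiv.symm_apply_apply, qr]

end H38RT
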