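import Pool.Agent.H38.RT.Rf

/-!
Row Kp. (about 130 lines): the class kap at a place above two (V 2 < 1). F, r the residue field, F of characteristic two (2 = 0 in F). For V z = 1, V c <= 1: kap V z c = 0 iff T^2 + r(z) T + r(c) has a root in F iff W^2 + W = r(c)/r(z)^2 has a solution (T = r(z) W).
 P := image of the additive map W -> W^2 + W of F; its kernel is {0,1}, so P has index two in F. So kap V z c = class of r(c)/r(z)^2 in F/P = Z/2, additive.
 kap_mul: (z^2 - 4c)(z'^2 - 4c') = (z z')^2 - 4 C, C = c z'^2 + c' z^2 - 4 c c', r(C)/(r(z) r(z'))^2 = r(c)/r(z)^2 + r(c')/r(z')^2.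
 kap_indep: z^2 - 4c = s^2 (z'^2 - 4c'). Then V s = 1 and (z - s z')(z + s z') = 4 (c - s^2 c'), the two factors differ by 2 s z' of valuation V 2: so both have valuation <= V 2 (if V (z - s z') > V 2 then V (z + s z') = V (z - s z') > V 2, product > V 4, contradiction),
   z = s z' + 2 e, V e <= 1; then 4 c = z^2 - s^2 (z'^2 - 4 c') = 4 e s z' + 4 e^2 + 4 s^2 c', c = s^2 c' + e s z' + e^2 (V 2 <> 0: K has 2 <> 0, hypothesis). r z = r s r z'. r(c)/r(z)^2 = r(c')/r(z')^2 + W + W^2 with W = r(e)/(r(s) r(z')). (r(z) = r(s) r(z'), 2 = 0.)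
-/

set_option autoImplicit false

open WithZero

namespace H38RT

variable {K : Type*} [Field K] {V : Valuation K (WithZero (Multiplicative ℤ))} {π : K} {q : ℕ}
  {d : ℤ} {ψ : AddChar K Circle}

/-- the additive map `w ↦ w ^ 2 + w` in characteristic two -/
def Kp_as {F : Type*} [Field F] (h2 : (2 : F) = 0) : F →+ F :=
  AddMonoidHom.mk' (fun w => w ^ 2 + w) (by
    intro a b
    linear_combination (a * b) * h2)

lemma Kp_as_apply {F : Type*} [Field F] (h2 : (2 : F) = 0) (w : F) :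
    Kp_as h2 w = w ^ 2 + w := rfl

lemma Kp_index {F : Type*} [Field F] [Fintype F] (h2 : (2 : F) = 0) :
    (Kp_as h2).range.index = 2 := by
  have h1 : Nat.card (Kp_as h2).ker * (Kp_as h2).ker.index = Nat.card F :=
    AddSubgroup.card_mul_index _
  have h3 : Nat.card (Kp_as h2).range * (Kp_as h2).range.index = Nat.card F :=
    AddSubgroup.card_mul_index _
  have h4 : (Kp_as h2).ker.index = Nat.card (Kp_as h2).range := AddSubgroup.index_ker _
  have h5 : 0 < Nat.card (Kp_as h2).range := Nat.card_pos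
  have h6 : Nat.card (Kp_as h2).ker = 2 := by
    have h7 : ((Kp_as h2).ker : Set F) = {0, 1} := by
      ext w
      rw [SetLike.mem_coe, AddMonoidHom.mem_ker, Kp_as_apply, Set.mem_insert_iff,
        Set.mem_singleton_iff]
      have h8 : w ^ 2 + w = w * (w - 1) := by linear_combination w * h2
      rw [h8, mul_eq_zero, sub_eq_zero]
    have h9 : Nat.card (Kp_as h2).ker = Nat.card (((Kp_as h2).ker : Set F) : Set F) := rfl
    rw [h9, h7, Nat.card_coe_set_eq, Set.ncard_pair zero_ne_one]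
  rw [h6, h4] at h1
  have h7 : Nat.card (Kp_as h2).range * (Kp_as h2).range.index =
      Nat.card (Kp_as h2).range * 2 := by rw [h3, ← h1, mul_comm]
  exact Nat.eq_of_mul_eq_mul_left h5 h7

open scoped Classical in
/-- the class modulo the image of `w ^ 2 + w` -/
noncomputable def Kp_k {F : Type*} [Field F] (a : F) : ZMod 2 :=
  if ∃ w : F, w ^ 2 + w = a then 0 else 1

lemma Kp_k_add {F : Type*} [Field F] [Fintype F] (h2 : (2 : F) = 0) (a b : F) :
    Kp_k (a + b) = Kp_k a + Kp_k b := by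
  have h1 : ∀ x : F, (∃ w : F, w ^ 2 + w = x) ↔ x ∈ (Kp_as h2).range := by
    intro x
    rw [AddMonoidHom.mem_range]
    rfl
  have h3 := AddSubgroup.add_mem_iff_of_index_two (Kp_index h2) (a := a) (b := b)
  have hp : ∀ x : F, x ∈ (Kp_as h2).range → Kp_k x = 0 := fun x hx => if_pos ((h1 x).2 hx)
  have hn : ∀ x : F, x ∉ (Kp_as h2).range → Kp_k x = 1 :=
    fun x hx => if_neg (fun h => hx ((h1 x).1 h))
  by_cases ha : a ∈ (Kp_as h2).range <;> by_cases hb : b ∈ (Kp_as h2).range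
  · rw [hp _ (h3.2 (iff_of_true ha hb)), hp _ ha, hp _ hb, add_zero]
  · rw [hn _ (fun h => hb ((h3.1 h).1 ha)), hp _ ha, hn _ hb, zero_add]
  · rw [hn _ (fun h => ha ((h3.1 h).2 hb)), hn _ ha, hp _ hb, add_zero]
  · rw [hp _ (h3.2 (iff_of_false ha hb)), hn _ ha, hn _ hb]
    decide

lemma Kp_k_zero {F : Type*} [Field F] (w : F) : Kp_k (w ^ 2 + w) = 0 := by
  unfold Kp_k
  exact if_pos ⟨w, rfl⟩

/-- the properties of the reduction map -/
structure Kp_R (V : Valuation K (WithZero (Multiplicative ℤ))) {F : Type*} [Field F]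
    (r : K → F) : Prop where
  one : r 1 = 1
  am : ∀ x y, V x ≤ 1 → V y ≤ 1 → r (x + y) = r x + r y ∧ r (x * y) = r x * r y
  zer : ∀ x, V x ≤ 1 → (r x = 0 ↔ V x < 1)
  sur : ∀ a : F, ∃ x, V x ≤ 1 ∧ r x = a

lemma Kp_two {F : Type*} [Field F] {r : K → F} (hr : Kp_R V r) (h2 : V 2 < 1) :
    (2 : F) = 0 := by
  have h1 : r 2 = 0 := (hr.zer 2 h2.le).2 h2
  have h3 : r (1 + 1) = r 1 + r 1 := (hr.am 1 1 (by rw [map_one]) (by rw [map_one])).1
  rw [one_add_one_eq_two, h1, hr.one] at h3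
  rw [h3, one_add_one_eq_two]

lemma Kp_kap {F : Type*} [Field F] {r : K → F} (hr : Kp_R V r) (h2 : V 2 < 1) {z c : K}
    (hz : V z = 1) (hc : V c ≤ 1) : kap V z c = Kp_k (r c / r z ^ 2) := by
  have hF := Kp_two hr h2
  have hrz : r z ≠ 0 := fun h => by
    have := (hr.zer z hz.le).1 h
    rw [hz] at this
    exact lt_irrefl _ this
  have hexp : ∀ t : K, V t ≤ 1 → V (t ^ 2 + z * t + c) ≤ 1 ∧
      r (t ^ 2 + z * t + c) = r t ^ 2 + r z * r t + r c := by
    intro t ht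
    have ht2 : V (t ^ 2) ≤ 1 := by rw [map_pow]; exact pow_le_one' ht 2
    have hzt : V (z * t) ≤ 1 := by rw [map_mul, hz, one_mul]; exact ht
    have h3 : V (t ^ 2 + z * t) ≤ 1 := (V.map_add _ _).trans (max_le ht2 hzt)
    refine ⟨(V.map_add _ _).trans (max_le h3 hc), ?_⟩
    rw [(hr.am _ _ h3 hc).1, (hr.am _ _ ht2 hzt).1, pow_two, (hr.am _ _ ht ht).2,
      (hr.am _ _ hz.le ht).2, pow_two]
  have hiff : (∃ t : K, V (t ^ 2 + z * t + c) < 1) ↔ ∃ w : F, w ^ 2 + w = r c / r z ^ 2 := by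
    constructor
    · rintro ⟨t, ht⟩
      have ht1 : V t ≤ 1 := by
        by_contra hcon
        rw [not_le] at hcon
        have hzt : V (z * t + c) < V (t ^ 2) := by
          refine lt_of_le_of_lt (V.map_add _ _) (max_lt ?_ ?_)
          · rw [map_mul, hz, one_mul, map_pow, pow_two]
            exact lt_mul_of_one_lt_left (zero_lt_one.trans hcon) hcon
          · rw [map_pow]
            exact lt_of_le_of_lt hc (one_lt_pow₀ hcon two_ne_zero)
        have h4 : V (t ^ 2 + (z * t + c)) = V (t ^ 2) := V.map_add_eq_of_lt_left hzt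
        rw [← add_assoc] at h4
        rw [h4, map_pow] at ht
        exact absurd (one_lt_pow₀ hcon two_ne_zero) (not_lt.2 ht.le)
      obtain ⟨h5, h6⟩ := hexp t ht1
      have h7 := (hr.zer _ h5).2 ht
      rw [h6] at h7
      refine ⟨r t / r z, ?_⟩
      field_simp
      linear_combination h7 - (r c) * hF
    · rintro ⟨w, hw⟩
      obtain ⟨t, ht, htr⟩ := hr.sur (r z * w)
      refine ⟨t, ?_⟩
      obtain ⟨h5, h6⟩ := hexp t ht
      refine (hr.zer _ h5).1 ?_
      rw [h6, htr]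
      have h8 : r z ^ 2 * (w ^ 2 + w) = r c := by
        rw [hw, mul_div_cancel₀ _ (pow_ne_zero 2 hrz)]
      linear_combination h8 + (r c) * hF
  unfold kap Kp_k
  by_cases h : ∃ w : F, w ^ 2 + w = r c / r z ^ 2
  · rw [if_pos h, if_pos (hiff.2 h)]
  · rw [if_neg h, if_neg (fun h' => h (hiff.1 h'))]

universe u

lemma Kp_mul_aux (hex : ∃ (F : Type u) (_ : Field F) (_ : Fintype F) (r : K → F),
    Fintype.card F = q ∧ r 1 = 1 ∧
    (∀ x y, V x ≤ 1 → V y ≤ 1 → r (x + y) = r x + r y ∧ r (x * y) = r x * r y) ∧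
    (∀ x, V x ≤ 1 → (r x = 0 ↔ V x < 1)) ∧ (∀ a : F, ∃ x, V x ≤ 1 ∧ r x = a)) (h2 : V 2 < 1) {z c z' c' : K} (hz : V z = 1) (hc : V c ≤ 1)
    (hz' : V z' = 1) (hc' : V c' ≤ 1) :
    kap V (z * z') (c * z' ^ 2 + c' * z ^ 2 - 4 * c * c') = kap V z c + kap V z' c' := by
  obtain ⟨F, _, _, r, _, h1, h3, h4, h5⟩ := hex
  have hr : Kp_R V r := ⟨h1, h3, h4, h5⟩
  have hF := Kp_two hr h2
  have hrz : r z ≠ 0 := fun h => by
    have := (hr.zer z hz.le).1 h
    rw [hz] at this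
    exact lt_irrefl _ this
  have hrz' : r z' ≠ 0 := fun h => by
    have := (hr.zer z' hz'.le).1 h
    rw [hz'] at this
    exact lt_irrefl _ this
  have hz2 : V (z ^ 2) = 1 := by rw [map_pow, hz, one_pow]
  have hz2' : V (z' ^ 2) = 1 := by rw [map_pow, hz', one_pow]
  have ha : V (c * z' ^ 2) ≤ 1 := by rw [map_mul, hz2', mul_one]; exact hc
  have hb : V (c' * z ^ 2) ≤ 1 := by rw [map_mul, hz2, mul_one]; exact hc'
  have h4' : V (-(4 * c * c')) < 1 := by
    have h44 : (4 : K) = 2 * 2 := by norm_num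
    rw [Valuation.map_neg, map_mul, map_mul, h44, map_mul]
    have h22 : V 2 * V 2 < 1 := mul_lt_one_of_lt_of_le h2 h2.le
    exact mul_lt_one_of_lt_of_le (mul_lt_one_of_lt_of_le h22 hc) hc'
  have hab : V (c * z' ^ 2 + c' * z ^ 2) ≤ 1 := (V.map_add _ _).trans (max_le ha hb)
  have hC : V (c * z' ^ 2 + c' * z ^ 2 - 4 * c * c') ≤ 1 := by
    rw [sub_eq_add_neg]
    exact (V.map_add _ _).trans (max_le hab h4'.le)
  have hzz : V (z * z') = 1 := by rw [map_mul, hz, hz', one_mul]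
  have hrC : r (c * z' ^ 2 + c' * z ^ 2 - 4 * c * c') = r c * r z' ^ 2 + r c' * r z ^ 2 := by
    rw [sub_eq_add_neg, (hr.am _ _ hab h4'.le).1, (hr.zer _ h4'.le).2 h4', add_zero,
      (hr.am _ _ ha hb).1, (hr.am _ _ hc hz2'.le).2, (hr.am _ _ hc' hz2.le).2, pow_two z',
      (hr.am _ _ hz'.le hz'.le).2, pow_two z, (hr.am _ _ hz.le hz.le).2, pow_two, pow_two]
  rw [Kp_kap hr h2 hzz hC, Kp_kap hr h2 hz hc, Kp_kap hr h2 hz' hc', ← Kp_k_add hF, hrC,
    (hr.am _ _ hz.le hz'.le).2]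
  congr 1
  field_simp

lemma Kp_indep_aux (hex : ∃ (F : Type u) (_ : Field F) (_ : Fintype F) (r : K → F),
    Fintype.card F = q ∧ r 1 = 1 ∧
    (∀ x y, V x ≤ 1 → V y ≤ 1 → r (x + y) = r x + r y ∧ r (x * y) = r x * r y) ∧
    (∀ x, V x ≤ 1 → (r x = 0 ↔ V x < 1)) ∧ (∀ a : F, ∃ x, V x ≤ 1 ∧ r x = a)) (h2 : V 2 < 1) (h20 : (2 : K) ≠ 0) {z c z' c' s : K}
    (hz : V z = 1) (hc : V c ≤ 1) (hz' : V z' = 1) (hc' : V c' ≤ 1)
    (he : z ^ 2 - 4 * c = s ^ 2 * (z' ^ 2 - 4 * c')) : kap V z c = kap V z' c' := by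
  obtain ⟨F, _, _, r, _, h1, h3, h4, h5⟩ := hex
  have hr : Kp_R V r := ⟨h1, h3, h4, h5⟩
  have hF := Kp_two hr h2
  have h44 : (4 : K) = 2 * 2 := by norm_num
  have hdisc : ∀ x y : K, V x = 1 → V y ≤ 1 → V (x ^ 2 - 4 * y) = 1 := by
    intro x y hx hy
    have h6 : V (-(4 * y)) < 1 := by
      rw [Valuation.map_neg, map_mul, h44, map_mul]
      exact mul_lt_one_of_lt_of_le (mul_lt_one_of_lt_of_le h2 h2.le) hy
    have h7 : V (x ^ 2) = 1 := by rw [map_pow, hx, one_pow]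
    rw [sub_eq_add_neg, V.map_add_eq_of_lt_left (by rw [h7]; exact h6), h7]
  have hs : V s = 1 := by
    have h6 := congrArg V he
    rw [map_mul, hdisc z c hz hc, hdisc z' c' hz' hc', mul_one, map_pow] at h6
    rcases pow_eq_one_iff.1 h6.symm with h7 | h7
    · exact h7
    · exact absurd h7 two_ne_zero
  obtain ⟨e, hee⟩ : ∃ e : K, z = s * z' + 2 * e := ⟨(z - s * z') / 2, by field_simp; ring⟩
  have h40 : (4 : K) ≠ 0 := by rw [h44]; exact mul_ne_zero h20 h20
  have hce : c = s ^ 2 * c' + e * (s * z') + e ^ 2 := by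
    have h6 : 4 * c = 4 * (s ^ 2 * c' + e * (s * z') + e ^ 2) := by
      rw [hee] at he
      linear_combination -he
    exact mul_left_cancel₀ h40 h6
  have hsz : V (s * z') = 1 := by rw [map_mul, hs, hz', one_mul]
  have hsc : V (s ^ 2 * c') ≤ 1 := by rw [map_mul, map_pow, hs, one_pow, one_mul]; exact hc'
  have hVe : V e ≤ 1 := by
    by_contra hcon
    rw [not_le] at hcon
    have h6 : V (e + s * z') = V e := V.map_add_eq_of_lt_left (by rw [hsz]; exact hcon)
    have h7 : V (e * (e + s * z')) ≤ 1 := by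
      have h8 : e * (e + s * z') = c + -(s ^ 2 * c') := by
        rw [hce]
        ring
      rw [h8]
      exact (V.map_add _ _).trans (max_le hc (by rw [Valuation.map_neg]; exact hsc))
    rw [map_mul, h6] at h7
    exact absurd h7 (not_le.2 (one_lt_mul'' hcon hcon))
  have hrz' : r z' ≠ 0 := fun h => by
    have := (hr.zer z' hz'.le).1 h
    rw [hz'] at this
    exact lt_irrefl _ this
  have hrs : r s ≠ 0 := fun h => by
    have := (hr.zer s hs.le).1 h
    rw [hs] at this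
    exact lt_irrefl _ this
  have h2e : V (2 * e) < 1 := by
    rw [map_mul]
    exact mul_lt_one_of_lt_of_le h2 hVe
  have hrz : r z = r s * r z' := by
    rw [hee, (hr.am _ _ hsz.le h2e.le).1, (hr.zer _ h2e.le).2 h2e, add_zero,
      (hr.am _ _ hs.le hz'.le).2]
  have hes : V (e * (s * z')) ≤ 1 := by rw [map_mul, hsz, mul_one]; exact hVe
  have hrc : r c = r s ^ 2 * r c' + r e * (r s * r z') + r e ^ 2 := by
    have h9 : V (s ^ 2) ≤ 1 := by rw [map_pow, hs, one_pow]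
    have h10 : V (e ^ 2) ≤ 1 := by rw [map_pow]; exact pow_le_one' hVe 2
    rw [hce, (hr.am _ _ ((V.map_add _ _).trans (max_le hsc hes)) h10).1, (hr.am _ _ hsc hes).1,
      (hr.am _ _ h9 hc').2, (hr.am _ _ hVe hsz.le).2, (hr.am _ _ hs.le hz'.le).2, pow_two s,
      (hr.am _ _ hs.le hs.le).2, pow_two e, (hr.am _ _ hVe hVe).2, pow_two, pow_two]
  rw [Kp_kap hr h2 hz hc, Kp_kap hr h2 hz' hc', hrc, hrz]
  have h11 : (r s ^ 2 * r c' + r e * (r s * r z') + r e ^ 2) / (r s * r z') ^ 2 =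
      r c' / r z' ^ 2 + ((r e / (r s * r z')) ^ 2 + r e / (r s * r z')) := by
    field_simp
    ring
  rw [h11, Kp_k_add hF, Kp_k_zero, add_zero]

theorem kap_mul (h : Loc V π q d ψ) (h2 : V 2 < 1) {z c z' c' : K} (hz : V z = 1) (hc : V c ≤ 1)
    (hz' : V z' = 1) (hc' : V c' ≤ 1) :
    kap V (z * z') (c * z' ^ 2 + c' * z ^ 2 - 4 * c * c') = kap V z c + kap V z' c' := by
  first
  | exact Kp_mul_aux (exists_res.{_, 0} h) h2 hz hc hz' hc'
  | exact Kp_mul_aux (exists_res h) h2 hz hc hz' hc'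

theorem kap_indep (h : Loc V π q d ψ) (h2 : V 2 < 1) (h20 : (2 : K) ≠ 0) {z c z' c' s : K}
    (hz : V z = 1) (hc : V c ≤ 1) (hz' : V z' = 1) (hc' : V c' ≤ 1)
    (he : z ^ 2 - 4 * c = s ^ 2 * (z' ^ 2 - 4 * c')) : kap V z c = kap V z' c' := by
  first
  | exact Kp_indep_aux (exists_res.{_, 0} h) h2 h20 hz hc hz' hc' he
  | exact Kp_indep_aux (exists_res h) h2 h20 hz hc hz' hc' he

end H38RT
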