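import Pool.Agent.H38.RT.Kp
import Pool.Agent.H38.RT.Dp

/-!
Row Kq. (about 100 lines): primary elements. kp_eq: the chosen representation y = t'^2 (z'^2 - 4c') and the given one: z'^2 - 4c' = (t/t')^2 (z^2 - 4c), kap_indep. (t' <> 0 from the definition.)
 Prm_mul: (t t')^2 ((z z')^2 - 4 C), C = c z'^2 + c' z^2 - 4 c c', V C <= 1; kp by kp_eq and kap_mul. Prm_sq: y^2 = y^2 (1^2 - 4 * 0), kap V 1 0 = 0 (t = 0). kp_sq_mul: from these. Prm_even: V (z^2 - 4c) = 1 (V 4 < 1), so ord y = 2 ord t.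
-/

set_option autoImplicit false

open WithZero

namespace H38RT

variable {K : Type*} [Field K] {V : Valuation K (WithZero (Multiplicative ℤ))} {π : K} {q : ℕ}
  {d : ℤ} {ψ : AddChar K Circle}

theorem kp_eq (h : Loc V π q d ψ) (h2 : V 2 < 1) (h20 : (2 : K) ≠ 0) {y t z c : K} (ht : t ≠ 0)
    (hz : V z = 1) (hc : V c ≤ 1) (hy : y = t ^ 2 * (z ^ 2 - 4 * c)) : kp V y = kap V z c := by
  have p : Prm V y := ⟨t, z, c, ht, hz, hc, hy⟩
  have hk : kp V y = kap V p.choose_spec.choose p.choose_spec.choose_spec.choose := by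
    rw [kp, dif_pos p]
  rw [hk]
  obtain ⟨h1, h3, h4, h5⟩ := p.choose_spec.choose_spec.choose_spec
  refine kap_indep h h2 h20 (s := t / p.choose) h3 h4 hz hc ?_
  have h6 : p.choose ^ 2 * (p.choose_spec.choose ^ 2 - 4 * p.choose_spec.choose_spec.choose)
      = t ^ 2 * (z ^ 2 - 4 * c) := by rw [← h5, hy]
  rw [div_pow, div_mul_eq_mul_div, eq_div_iff (pow_ne_zero 2 h1), ← h6]
  ring

theorem Kq_four (h2 : V 2 < 1) : V 4 < 1 := by
  have h4 : (4 : K) = 2 * 2 := by norm_num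
  rw [h4, map_mul]
  exact mul_lt_one_of_nonneg_of_lt_one_left zero_le h2 h2.le

theorem Prm_mul (h : Loc V π q d ψ) (h2 : V 2 < 1) (h20 : (2 : K) ≠ 0) {y y' : K} (hy : Prm V y)
    (hy' : Prm V y') : Prm V (y * y') ∧ kp V (y * y') = kp V y + kp V y' := by
  obtain ⟨t, z, c, ht, hz, hc, he⟩ := hy
  obtain ⟨t', z', c', ht', hz', hc', he'⟩ := hy'
  have e1 : V (z * z') = 1 := by rw [map_mul, hz, hz', one_mul]
  have e2 : V (c * z' ^ 2 + c' * z ^ 2 - 4 * c * c') ≤ 1 := by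
    refine (V.map_sub _ _).trans (max_le ((V.map_add _ _).trans (max_le ?_ ?_)) ?_)
    · rw [map_mul, map_pow, hz', one_pow, mul_one]
      exact hc
    · rw [map_mul, map_pow, hz, one_pow, mul_one]
      exact hc'
    · rw [map_mul, map_mul]
      exact mul_le_one' (mul_le_one' (Kq_four h2).le hc) hc'
  have e3 : y * y' = (t * t') ^ 2 *
      ((z * z') ^ 2 - 4 * (c * z' ^ 2 + c' * z ^ 2 - 4 * c * c')) := by
    rw [he, he']
    ring
  refine ⟨⟨t * t', z * z', _, mul_ne_zero ht ht', e1, e2, e3⟩, ?_⟩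
  rw [kp_eq h h2 h20 (mul_ne_zero ht ht') e1 e2 e3, kp_eq h h2 h20 ht hz hc he,
    kp_eq h h2 h20 ht' hz' hc' he']
  exact kap_mul h h2 hz hc hz' hc'

theorem Prm_sq (h : Loc V π q d ψ) (h2 : V 2 < 1) (h20 : (2 : K) ≠ 0) {y : K} (hy : y ≠ 0) :
    Prm V (y ^ 2) ∧ kp V (y ^ 2) = 0 := by
  have e1 : V (1 : K) = 1 := map_one V
  have e2 : V (0 : K) ≤ 1 := by rw [map_zero]; exact zero_le
  have e3 : y ^ 2 = y ^ 2 * (1 ^ 2 - 4 * 0) := by ring
  refine ⟨⟨y, 1, 0, hy, e1, e2, e3⟩, ?_⟩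
  rw [kp_eq h h2 h20 hy e1 e2 e3, kap, if_pos]
  refine ⟨0, ?_⟩
  have e4 : (0 : K) ^ 2 + 1 * 0 + 0 = 0 := by ring
  rw [e4, map_zero]
  exact zero_lt_one

theorem Prm_even (h : Loc V π q d ψ) (h2 : V 2 < 1) {y : K} (hy : Prm V y) :
    y ≠ 0 ∧ Even (ord V y) := by
  obtain ⟨t, z, c, ht, hz, hc, he⟩ := hy
  have e1 : V (z ^ 2 - 4 * c) = 1 := by
    have e2 : V (4 * c) < V (z ^ 2) := by
      rw [map_pow, hz, one_pow, map_mul]
      exact mul_lt_one_of_nonneg_of_lt_one_left zero_le (Kq_four h2) hc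
    rw [Valuation.map_sub_eq_of_lt_left V e2, map_pow, hz, one_pow]
  have e3 : V y = V t ^ 2 := by rw [he, map_mul, map_pow, e1, mul_one]
  refine ⟨?_, ?_⟩
  · rintro rfl
    rw [map_zero] at e3
    exact pow_ne_zero 2 ((V.ne_zero_iff).2 ht) e3.symm
  · refine ⟨ord V t, ?_⟩
    rw [ord, ord, e3, WithZero.log_pow]
    simp only [nsmul_eq_mul]
    push_cast
    ring

end H38RT
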