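import Pool.Agent.H38.RT.Qa

/-!
Row Qb. (about 110 lines): reduction of a Gauss sum to a bigger lattice.
PROOF. Q 0 = 0 (put x = y = 0 in hQ, b 0 0 = 0). For c, c' in C: psi (b c c') = 1 because psi (Q (c + c')) = psi (Q c) psi (Q c') psi (b c c'); so C <= perp psi b C, and C <= A inf perp.
The function F x = psi (Q x) satisfies F (x + c) = F x * psi (Q c) * psi (b x c). It is invariant under B on A (B <= C, hB), and under C on A inf perp psi b C.
Sections (exists_sec): r of A/C, s of C/B; r i + s j is a section of A/B. LHS = sum_i F (r i) sum_j psi (b (r i) (s j)) (hC). The inner sum is the sum over C/B of the character c -> psi (b (r i) c), trivial on B: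
 if r i lies in perp psi b C it is B.relIndex C, otherwise choose c0 in C with psi (b (r i) c0) <> 1: the inner sum S (= qs C B of that function, qs_eq_sum) satisfies S = psi (b (r i) c0) * S
 (s j + c0 is again a section), so S = 0. The r i in perp psi b C form a section of (A inf perp)/C (x in A inf perp, x - r i in C implies r i in perp since C <= perp).
-/

set_option autoImplicit false

open WithZero

namespace H38RT

theorem Qb_char_sum {V K : Type*} [AddCommGroup K] [AddCommGroup V] (ψ : AddChar K Circle)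
    (g : V →+ K) {C B : AddSubgroup V} (hg : ∀ c ∈ B, ψ (g c) = 1) {ι : Type*} [Fintype ι]
    (s : ι → V) (hs : ∀ j, s j ∈ C) (hu : ∀ x ∈ C, ∃! j, x - s j ∈ B) {c₀ : V} (hc₀ : c₀ ∈ C)
    (hne : ψ (g c₀) ≠ 1) : ∑ j, (ψ (g (s j)) : ℂ) = 0 := by
  have hI : Inva C B (fun c => (ψ (g c) : ℂ)) := by
    intro x _ c hc
    simp only [map_add, AddChar.map_add_eq_mul, hg c hc, mul_one]
  have h1 := qs_eq_sum hI s hs hu
  have h2 := qs_eq_sum hI (fun j => s j + c₀) (fun j => C.add_mem (hs j) hc₀) (by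
    intro x hx
    obtain ⟨j, hj, hj2⟩ := hu (x - c₀) (C.sub_mem hx hc₀)
    refine ⟨j, ?_, ?_⟩
    · have e : x - (s j + c₀) = x - c₀ - s j := by abel
      simp only [e]
      exact hj
    · intro j' hj'
      refine hj2 j' ?_
      have e : x - c₀ - s j' = x - (s j' + c₀) := by abel
      simp only [e]
      exact hj')
  have h3 : ∑ j, (ψ (g (s j + c₀)) : ℂ) = (∑ j, (ψ (g (s j)) : ℂ)) * (ψ (g c₀) : ℂ) := by
    rw [Finset.sum_mul]
    refine Finset.sum_congr rfl fun j _ => ?_
    rw [map_add, AddChar.map_add_eq_mul, Circle.coe_mul]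
  have h4 : (∑ j, (ψ (g (s j)) : ℂ)) = (∑ j, (ψ (g (s j)) : ℂ)) * (ψ (g c₀) : ℂ) := by
    rw [← h3, ← h2, ← h1]
  have h5 : (∑ j, (ψ (g (s j)) : ℂ)) * (1 - (ψ (g c₀) : ℂ)) = 0 := by
    rw [mul_sub, mul_one, ← h4, sub_self]
  rcases mul_eq_zero.1 h5 with h | h
  · exact h
  · exfalso
    apply hne
    rw [sub_eq_zero] at h
    exact Circle.ext h.symm

theorem qs_red {K V : Type*} [AddCommGroup K] [AddCommGroup V] (ψ : AddChar K Circle) (Q : V → K)
    (b : V →+ V →+ K) (hQ : ∀ x y, Q (x + y) = Q x + Q y + b x y) {A B C : AddSubgroup V}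
    (hBC : B ≤ C) (hCA : C ≤ A) (h : B.relIndex A ≠ 0) (hC : ∀ c ∈ C, ψ (Q c) = 1)
    (hB : ∀ x ∈ A, ∀ c ∈ B, ψ (b x c) = 1) :
    qs A B (fun x => (ψ (Q x) : ℂ)) =
      (B.relIndex C : ℂ) * qs (A ⊓ perp ψ b C) C (fun x => (ψ (Q x) : ℂ)) := by
  classical
  have hadd : ∀ x c, ψ (Q (x + c)) = ψ (Q x) * ψ (Q c) * ψ (b x c) := by
    intro x c
    rw [hQ, AddChar.map_add_eq_mul, AddChar.map_add_eq_mul]
  have hCC : C ≤ perp ψ b C := by
    intro c hc
    rw [mem_perp]
    intro c' hc'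
    have h1 := hadd c c'
    rw [hC _ (C.add_mem hc hc'), hC c hc, hC c' hc', one_mul, one_mul] at h1
    exact h1.symm
  have hIA : Inva A B (fun x => (ψ (Q x) : ℂ)) := by
    intro x hx c hc
    simp only [hadd, hC c (hBC hc), hB x hx c hc, mul_one]
  have hIC : Inva (A ⊓ perp ψ b C) C (fun x => (ψ (Q x) : ℂ)) := by
    intro x hx c hc
    simp only [hadd, hC c hc, (mem_perp.1 (AddSubgroup.mem_inf.1 hx).2) c hc, mul_one]
  have hmul : B.relIndex C * C.relIndex A = B.relIndex A :=
    AddSubgroup.relIndex_mul_relIndex B C A hBC hCA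
  have h1 : C.relIndex A ≠ 0 := fun e => h (by rw [← hmul, e, mul_zero])
  have h2 : B.relIndex C ≠ 0 := fun e => h (by rw [← hmul, e, zero_mul])
  obtain ⟨r, hr, hru⟩ := exists_sec h1
  obtain ⟨s, hs, hsu⟩ := exists_sec h2
  -- the section of `A / B`
  have hsec : ∀ x ∈ A, ∃! p : Fin (C.relIndex A) × Fin (B.relIndex C),
      x - (r p.1 + s p.2) ∈ B := by
    intro x hx
    obtain ⟨i, hi, hi2⟩ := hru x hx
    obtain ⟨j, hj, hj2⟩ := hsu (x - r i) hi
    refine ⟨(i, j), ?_, ?_⟩
    · have e : x - (r i + s j) = x - r i - s j := by abel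
      simp only [e]
      exact hj
    · rintro ⟨i', j'⟩ hp
      simp only at hp
      have hi' : i' = i := by
        refine hi2 i' ?_
        have e : x - r i' = (x - (r i' + s j')) + s j' := by abel
        simp only [e]
        exact C.add_mem (hBC hp) (hs j')
      subst hi'
      have hj' : j' = j := by
        refine hj2 j' ?_
        have e : x - r i' - s j' = x - (r i' + s j') := by abel
        simp only [e]
        exact hp
      rw [hj']
  have hL := qs_eq_sum hIA (fun p : Fin (C.relIndex A) × Fin (B.relIndex C) => r p.1 + s p.2)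
    (fun p => A.add_mem (hr p.1) (hCA (hs p.2))) hsec
  have hR := qs_eq_sum hIC (fun i : {i : Fin (C.relIndex A) // r i ∈ perp ψ b C} => r i.1)
    (fun i => AddSubgroup.mem_inf.2 ⟨hr i.1, i.2⟩) (by
      intro x hx
      obtain ⟨hxA, hxp⟩ := AddSubgroup.mem_inf.1 hx
      obtain ⟨i, hi, hi2⟩ := hru x hxA
      have hip : r i ∈ perp ψ b C := by
        have e : r i = x - (x - r i) := by abel
        rw [e]
        exact (perp ψ b C).sub_mem hxp (hCC hi)
      refine ⟨⟨i, hip⟩, hi, ?_⟩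
      rintro ⟨i', hi'⟩ hp
      exact Subtype.ext (hi2 i' hp))
  rw [hL, hR, Fintype.sum_prod_type]
  have hinner : ∀ i, ∑ j, ((ψ (Q (r i + s j)) : Circle) : ℂ) =
      if r i ∈ perp ψ b C then (B.relIndex C : ℂ) * (ψ (Q (r i)) : ℂ) else 0 := by
    intro i
    have e1 : ∀ j, ((ψ (Q (r i + s j)) : Circle) : ℂ) =
        (ψ (Q (r i)) : ℂ) * (ψ (b (r i) (s j)) : ℂ) := by
      intro j
      rw [hadd, hC _ (hs j), mul_one, Circle.coe_mul]
    simp_rw [e1]
    rw [← Finset.mul_sum]
    split_ifs with hi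
    · have e2 : ∀ j, ((ψ (b (r i) (s j)) : Circle) : ℂ) = 1 := by
        intro j
        rw [(mem_perp.1 hi) _ (hs j), Circle.coe_one]
      simp_rw [e2]
      rw [Finset.sum_const, Finset.card_univ, Fintype.card_fin, nsmul_eq_mul, mul_one, mul_comm]
    · have hne : ∃ c₀ ∈ C, ψ (b (r i) c₀) ≠ 1 := by
        by_contra hcon
        push Not at hcon
        exact hi (mem_perp.2 hcon)
      obtain ⟨c₀, hc₀, hne⟩ := hne
      rw [Qb_char_sum ψ (b (r i)) (hB (r i) (hr i)) s hs hsu hc₀ hne, mul_zero]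
  simp_rw [hinner]
  rw [← Finset.sum_filter, Finset.mul_sum]
  refine (Finset.sum_subtype _ (fun i => ?_) _)
  simp

end H38RT
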