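import Pool.Agent.H38.RT.Mr
import Pool.Agent.H38.RT.Qb
import Pool.Agent.H38.RT.Qc

/-!
Row Mi. (about 220 lines): Milgram's formula.
PROOF. Q (c x) = c^2 Q x, 2 Q x = beta x x (put y = x: Q (2x) = 4 Q x = 2 Q x + beta x x), beta is Q-bilinear (additive maps between Q-vector spaces). Choose m > 0 with g_i := m f_i in L for all i (f_i is a rational combination of elements of L; Submodule.span / IsLocalization common denominator;
 or: the Q-span of L equals {x : exists m > 0, m x in L}). a_i := Q (g_i) = m^2 Q (f_i) is a nonzero integer with the sign of Q (f_i). L' := closure of the g_i = image of Z^n under phi : (Fin n -> Q) -> V, phi x = sum x_i g_i (an additive bijection). Q (phi x) = sum a_i x_i^2, beta (phi x)(phi y) = sum 2 a_i x_i y_i.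
 qs_map along phi: A = pi (perp chQ (ub a_i) ZQ), B = pi ZQ, A' = perp chQ beta L', B' = L'. x in A iff phi x in perp L' (test with the g_i). With qs_pi and rank_one: qs (perp L') L' = prod sqrt(2|a_i|) e(sign a_i/8), index nonzero.
 qs_red with A = perp L', B = L', C = L (L' <= L; L <= perp L' because beta is integral on L: beta x y = Q(x+y) - Q x - Q y; chQ (Q c) = 1 for c in L; perp L' inf perp L = perp L): the sum for L' is [L : L'] times the sum for L; [L:L'] = L'.relIndex L is nonzero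
 as L'.relIndex (perp L') <> 0 (relIndex_mul_relIndex). So r = prod sqrt(2|a_i|) / [L:L'].
-/

set_option autoImplicit false


namespace H38RT

section aux

variable {V : Type} [AddCommGroup V] [Module ℚ V]

theorem Mi_chQ_int (m : ℤ) : chQ (m : ℚ) = 1 := by
  show ee (((m : ℚ) : ℝ)) = 1
  unfold ee
  have h : 2 * Real.pi * (((m : ℚ) : ℝ)) = (m : ℝ) * (2 * Real.pi) := by
    push_cast
    ring
  rw [h]
  exact Circle.exp_int_mul_two_pi m

theorem Mi_sum {ι : Type*} (s : Finset ι) (u : ι → ℚ) :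
    chQ (∑ i ∈ s, u i) = ∏ i ∈ s, chQ (u i) := by
  classical
  induction s using Finset.induction_on with
  | empty => rw [Finset.sum_empty, Finset.prod_empty, AddChar.map_zero_eq_one]
  | insert a s ha ih =>
    rw [Finset.sum_insert ha, Finset.prod_insert ha, AddChar.map_add_eq_mul, ih]

theorem Mi_mem_ZQ {x : ℚ} : x ∈ ZQ ↔ ∃ m : ℤ, x = m := by
  unfold ZQ
  rw [AddMonoidHom.mem_range]
  constructor
  · rintro ⟨m, hm⟩
    exact ⟨m, hm.symm⟩
  · rintro ⟨m, hm⟩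
    exact ⟨m, hm.symm⟩

omit [Module ℚ V] in
theorem Mi_inva (Q : V → ℚ) (β : V →+ V →+ ℚ)
    (hQ : ∀ x y, Q (x + y) = Q x + Q y + β x y) (L : AddSubgroup V)
    (hint : ∀ x ∈ L, ∃ m : ℤ, Q x = m) :
    Inva (perp chQ β L) L (fun x => (chQ (Q x) : ℂ)) := by
  intro x hx b hb
  obtain ⟨m, hm⟩ := hint b hb
  have h1 : chQ (Q (x + b)) = chQ (Q x) := by
    rw [hQ, AddChar.map_add_eq_mul, AddChar.map_add_eq_mul, hx b hb, hm, Mi_chQ_int, mul_one,
      mul_one]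
  show ((chQ (Q (x + b)) : Circle) : ℂ) = ((chQ (Q x) : Circle) : ℂ)
  rw [h1]

theorem Mi_rank (a : ℤ) :
    Inva (perp chQ (ub (a : ℚ)) ZQ) ZQ (fun x => (chQ (a * x ^ 2) : ℂ)) := by
  intro x hx b hb
  obtain ⟨m, hm⟩ := Mi_mem_ZQ.1 hb
  have h0 : (a : ℚ) * (x + b) ^ 2 = a * x ^ 2 + ub (a : ℚ) x b + ((a * m ^ 2 : ℤ) : ℚ) := by
    rw [ub_apply, hm]
    push_cast
    ring
  have h1 : chQ ((a : ℚ) * (x + b) ^ 2) = chQ (a * x ^ 2) := by
    rw [h0, AddChar.map_add_eq_mul, AddChar.map_add_eq_mul, hx b hb, Mi_chQ_int, mul_one,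
      mul_one]
  show ((chQ (a * (x + b) ^ 2) : Circle) : ℂ) = ((chQ (a * x ^ 2) : Circle) : ℂ)
  rw [h1]

theorem Mi_two (Q : V → ℚ) (β : V →+ V →+ ℚ)
    (hQ : ∀ x y, Q (x + y) = Q x + Q y + β x y) (hs : ∀ (c : ℚ) (x : V), Q (c • x) = c ^ 2 * Q x)
    (x : V) : β x x = 2 * Q x := by
  have h1 := hQ x x
  have h2 := hs 2 x
  rw [two_smul] at h2
  rw [h2] at h1
  linarith

theorem Mi_smul_left (β : V →+ V →+ ℚ) (c : ℚ) (x y : V) : β (c • x) y = c * β x y := by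
  have h := map_rat_smul (β.flip y) c x
  rwa [AddMonoidHom.flip_apply, AddMonoidHom.flip_apply, smul_eq_mul] at h

theorem Mi_smul_right (β : V →+ V →+ ℚ) (c : ℚ) (x y : V) : β x (c • y) = c * β x y := by
  have h := map_rat_smul (β x) c y
  rwa [smul_eq_mul] at h

theorem Mi_beta (Q : V → ℚ) (β : V →+ V →+ ℚ)
    (hQ : ∀ x y, Q (x + y) = Q x + Q y + β x y) (hs : ∀ (c : ℚ) (x : V), Q (c • x) = c ^ 2 * Q x)
    {n : ℕ} (f : Module.Basis (Fin n) ℚ V) (ho : ∀ i j, i ≠ j → β (f i) (f j) = 0)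
    (x y : Fin n → ℚ) :
    β (f.equivFun.symm x) (f.equivFun.symm y) = ∑ i, 2 * Q (f i) * x i * y i := by
  rw [Module.Basis.equivFun_symm_apply, Module.Basis.equivFun_symm_apply, map_sum β,
    AddMonoidHom.finsetSum_apply]
  refine Finset.sum_congr rfl fun i _ => ?_
  rw [map_sum, Finset.sum_eq_single i]
  · rw [Mi_smul_left, Mi_smul_right, Mi_two Q β hQ hs]
    ring
  · intro j _ hj
    rw [Mi_smul_left, Mi_smul_right, ho i j (Ne.symm hj), mul_zero, mul_zero]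
  · intro h
    exact absurd (Finset.mem_univ i) h

theorem Mi_Q (Q : V → ℚ) (β : V →+ V →+ ℚ)
    (hQ : ∀ x y, Q (x + y) = Q x + Q y + β x y) (hs : ∀ (c : ℚ) (x : V), Q (c • x) = c ^ 2 * Q x)
    {n : ℕ} (f : Module.Basis (Fin n) ℚ V) (ho : ∀ i j, i ≠ j → β (f i) (f j) = 0)
    (x : Fin n → ℚ) :
    Q (f.equivFun.symm x) = ∑ i, Q (f i) * x i ^ 2 := by
  have h1 := Mi_beta Q β hQ hs f ho x x
  rw [Mi_two Q β hQ hs] at h1
  have h2 : ∑ i, 2 * Q (f i) * x i * x i = 2 * ∑ i, Q (f i) * x i ^ 2 := by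
    rw [Finset.mul_sum]
    exact Finset.sum_congr rfl fun i _ => by ring
  rw [h2] at h1
  linarith

/-- the case in which the basis lies in the lattice -/
theorem Mi_core (Q : V → ℚ) (β : V →+ V →+ ℚ)
    (hQ : ∀ x y, Q (x + y) = Q x + Q y + β x y) (hs : ∀ (c : ℚ) (x : V), Q (c • x) = c ^ 2 * Q x)
    {n : ℕ} (f : Module.Basis (Fin n) ℚ V) (ho : ∀ i j, i ≠ j → β (f i) (f j) = 0)
    (hne : ∀ i, Q (f i) ≠ 0) (L : AddSubgroup V)
    (hfL : ∀ i, f i ∈ L) (hint : ∀ x ∈ L, ∃ m : ℤ, Q x = m) :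
    ∃ r : ℝ, 0 < r ∧ qs (perp chQ β L) L (fun x => (chQ (Q x) : ℂ)) =
      r * ∏ i, (ee ((SignType.sign (Q (f i) : ℝ) : ℝ) / 8) : ℂ) := by
  choose a ha using fun i => hint (f i) (hfL i)
  have ha0 : ∀ i, a i ≠ 0 := by
    intro i h
    apply hne i
    rw [ha i, h, Int.cast_zero]
  obtain ⟨φ, hφ⟩ : ∃ φ : (Fin n → ℚ) →+ V, ∀ x, φ x = f.equivFun.symm x :=
    ⟨(f.equivFun.symm : (Fin n → ℚ) →ₗ[ℚ] V).toAddMonoidHom, fun x => rfl⟩
  have hinj : Function.Injective φ := by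
    intro x y hxy
    rw [hφ, hφ] at hxy
    exact f.equivFun.symm.injective hxy
  obtain ⟨B, hB⟩ : ∃ B : AddSubgroup (Fin n → ℚ),
      B = AddSubgroup.pi Set.univ (fun _ : Fin n => ZQ) := ⟨_, rfl⟩
  obtain ⟨A, hA⟩ : ∃ A : AddSubgroup (Fin n → ℚ),
      A = AddSubgroup.pi Set.univ (fun i : Fin n => perp chQ (ub (a i : ℚ)) ZQ) := ⟨_, rfl⟩
  have memB : ∀ x, x ∈ B ↔ ∀ i, x i ∈ ZQ := by
    intro x
    rw [hB, AddSubgroup.mem_pi]
    exact ⟨fun h i => h i (Set.mem_univ i), fun h i _ => h i⟩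
  have memA : ∀ x, x ∈ A ↔ ∀ i, x i ∈ perp chQ (ub (a i : ℚ)) ZQ := by
    intro x
    rw [hA, AddSubgroup.mem_pi]
    exact ⟨fun h i => h i (Set.mem_univ i), fun h i _ => h i⟩
  obtain ⟨L', hL'⟩ : ∃ L' : AddSubgroup V, L' = B.map φ := ⟨_, rfl⟩
  have hLL : L' ≤ L := by
    intro y hy
    rw [hL', AddSubgroup.mem_map] at hy
    obtain ⟨x, hx, rfl⟩ := hy
    rw [hφ, Module.Basis.equivFun_symm_apply]
    refine AddSubgroup.sum_mem _ fun i _ => ?_
    obtain ⟨m, hm⟩ := Mi_mem_ZQ.1 ((memB x).1 hx i)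
    rw [hm, Int.cast_smul_eq_zsmul]
    exact AddSubgroup.zsmul_mem _ (hfL i) m
  have hbeta : ∀ x y, chQ (β (φ x) (φ y)) = ∏ i, chQ (ub (a i : ℚ) (x i) (y i)) := by
    intro x y
    rw [hφ, hφ, Mi_beta Q β hQ hs f ho, Mi_sum]
    refine Finset.prod_congr rfl fun i _ => ?_
    rw [ub_apply, ha i]
  have h1 : ∀ x ∈ A, φ x ∈ perp chQ β L' := by
    intro x hx c hc
    rw [hL', AddSubgroup.mem_map] at hc
    obtain ⟨y, hy, rfl⟩ := hc
    rw [hbeta]
    exact Finset.prod_eq_one fun i _ => (memA x).1 hx i (y i) ((memB y).1 hy i)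
  have h2 : ∀ x ∈ A, (φ x ∈ L' ↔ x ∈ B) := by
    intro x _
    rw [hL', AddSubgroup.mem_map]
    constructor
    · rintro ⟨y, hy, hxy⟩
      rwa [← hinj hxy]
    · intro hx
      exact ⟨x, hx, rfl⟩
  have h3 : ∀ y ∈ perp chQ β L', ∃ x ∈ A, y - φ x ∈ L' := by
    intro y hy
    obtain ⟨x, rfl⟩ : ∃ x, φ x = y := ⟨f.equivFun y, by
      rw [hφ, LinearEquiv.symm_apply_apply]⟩
    refine ⟨x, ?_, by rw [sub_self]; exact zero_mem _⟩
    rw [memA]
    intro i c hc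
    have hmem : φ (Pi.single i c) ∈ L' := by
      rw [hL']
      refine AddSubgroup.mem_map_of_mem φ ?_
      rw [memB]
      intro j
      by_cases hij : j = i
      · subst hij
        rwa [Pi.single_eq_same]
      · rw [Pi.single_eq_of_ne hij]
        exact zero_mem _
    have h4 := hy _ hmem
    rw [hbeta, Finset.prod_eq_single i] at h4
    · rwa [Pi.single_eq_same] at h4
    · intro j _ hj
      rw [Pi.single_eq_of_ne hj, map_zero, AddChar.map_zero_eq_one]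
    · intro h
      exact absurd (Finset.mem_univ i) h
  have hint' : ∀ x ∈ L', ∃ m : ℤ, Q x = m := fun x hx => hint x (hLL hx)
  obtain ⟨e1, e2⟩ := qs_map φ h1 h2 h3 (Mi_inva Q β hQ L' hint')
  have hpi := qs_pi (ι := Fin n) (W := fun _ => ℚ)
    (A := fun i => perp chQ (ub (a i : ℚ)) ZQ) (B := fun _ => ZQ)
    (fun i => (rank_one (a i) (ha0 i)).2)
    (f := fun i x => (chQ ((a i : ℚ) * x ^ 2) : ℂ)) (fun i => Mi_rank (a i))
  rw [← hA, ← hB] at hpi
  obtain ⟨p1, p2⟩ := hpi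
  have hidx : L'.relIndex (perp chQ β L') ≠ 0 := by
    rw [← e2, p2]
    exact Finset.prod_ne_zero_iff.2 fun i _ => (rank_one (a i) (ha0 i)).2
  have e3 : qs A B (fun x => ((chQ (Q (φ x)) : Circle) : ℂ)) =
      qs A B (fun p => ∏ i, (chQ ((a i : ℚ) * p i ^ 2) : ℂ)) := by
    refine qs_congr fun x _ => ?_
    have h5 : chQ (Q (φ x)) = ∏ i, chQ ((a i : ℚ) * x i ^ 2) := by
      rw [hφ, Mi_Q Q β hQ hs f ho, Mi_sum]
      exact Finset.prod_congr rfl fun i _ => by rw [ha i]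
    rw [h5]
    exact map_prod Circle.coeHom _ _
  have hsum : qs (perp chQ β L') L' (fun x => ((chQ (Q x) : Circle) : ℂ)) =
      ∏ i, ((Real.sqrt (2 * |(a i : ℝ)|) : ℂ) *
        (ee ((SignType.sign (a i : ℝ) : ℝ) / 8) : ℂ)) := by
    rw [← e1, e3, p1]
    exact Finset.prod_congr rfl fun i _ => (rank_one (a i) (ha0 i)).1
  have hLp : L ≤ perp chQ β L' := by
    intro x hx c hc
    obtain ⟨m1, hm1⟩ := hint _ (add_mem hx (hLL hc))
    obtain ⟨m2, hm2⟩ := hint _ hx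
    obtain ⟨m3, hm3⟩ := hint _ (hLL hc)
    have h6 : β x c = ((m1 - m2 - m3 : ℤ) : ℚ) := by
      have h7 := hQ x c
      rw [hm1, hm2, hm3] at h7
      push_cast
      linarith
    rw [h6, Mi_chQ_int]
  have hred := qs_red chQ Q β hQ (A := perp chQ β L') (B := L') (C := L) hLL hLp hidx
    (fun c hc => by
      obtain ⟨m, hm⟩ := hint c hc
      rw [hm, Mi_chQ_int])
    (fun x hx c hc => hx c hc)
  have hinf : perp chQ β L' ⊓ perp chQ β L = perp chQ β L := by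
    refine inf_eq_right.2 ?_
    intro x hx c hc
    exact hx c (hLL hc)
  rw [hinf, hsum] at hred
  have hk : L'.relIndex L ≠ 0 := by
    intro h
    apply hidx
    rw [← AddSubgroup.relIndex_mul_relIndex L' L (perp chQ β L') hLL hLp, h, zero_mul]
  refine ⟨(∏ i, Real.sqrt (2 * |(a i : ℝ)|)) / (L'.relIndex L : ℝ), ?_, ?_⟩
  · refine div_pos (Finset.prod_pos fun i _ => ?_) (Nat.cast_pos.2 (Nat.pos_of_ne_zero hk))
    refine Real.sqrt_pos.2 (mul_pos two_pos (abs_pos.2 ?_))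
    exact Int.cast_ne_zero.2 (ha0 i)
  · have hk' : (L'.relIndex L : ℂ) ≠ 0 := Nat.cast_ne_zero.2 hk
    have hsg : ∀ i, ((Q (f i) : ℚ) : ℝ) = (a i : ℝ) := by
      intro i
      rw [ha i, Rat.cast_intCast]
    rw [Finset.prod_mul_distrib] at hred
    have h8 : qs (perp chQ β L) L (fun x => ((chQ (Q x) : Circle) : ℂ)) =
        ((∏ i, (Real.sqrt (2 * |(a i : ℝ)|) : ℂ)) *
          ∏ i, (ee ((SignType.sign (a i : ℝ) : ℝ) / 8) : ℂ)) / (L'.relIndex L : ℂ) := by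
      rw [hred, mul_div_assoc, mul_comm, div_mul_cancel₀ _ hk']
    rw [h8]
    have h9 : ∏ i, (ee ((SignType.sign (Q (f i) : ℝ) : ℝ) / 8) : ℂ) =
        ∏ i, (ee ((SignType.sign (a i : ℝ) : ℝ) / 8) : ℂ) :=
      Finset.prod_congr rfl fun i _ => by rw [hsg i]
    rw [h9]
    push_cast
    ring

theorem Mi_mult (L : AddSubgroup V) (hsp : Submodule.span ℚ (L : Set V) = ⊤) (x : V) :
    ∃ m : ℕ, 0 < m ∧ m • x ∈ L := by
  have hx : x ∈ Submodule.span ℚ (L : Set V) := by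
    rw [hsp]
    exact Submodule.mem_top
  induction hx using Submodule.span_induction with
  | mem x h => exact ⟨1, one_pos, by rwa [one_smul]⟩
  | zero => exact ⟨1, one_pos, by rw [smul_zero]; exact zero_mem _⟩
  | add x y _ _ hx hy =>
    obtain ⟨m, hm, hmx⟩ := hx
    obtain ⟨k, hk, hky⟩ := hy
    refine ⟨m * k, Nat.mul_pos hm hk, ?_⟩
    have h1 : (m * k) • (x + y) = k • m • x + m • k • y := by
      rw [smul_add, mul_smul, mul_smul, smul_comm m k x]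
    rw [h1]
    exact add_mem (nsmul_mem hmx k) (nsmul_mem hky m)
  | smul c x _ hx =>
    obtain ⟨m, hm, hmx⟩ := hx
    refine ⟨c.den * m, Nat.mul_pos c.den_pos hm, ?_⟩
    have h1 : (c.den * m) • c • x = c.num • m • x := by
      rw [← Nat.cast_smul_eq_nsmul ℚ, ← Int.cast_smul_eq_zsmul ℚ, ← Nat.cast_smul_eq_nsmul ℚ m x,
        smul_smul, smul_smul]
      congr 1
      push_cast
      have h2 := Rat.mul_den_eq_num c
      calc (c.den : ℚ) * m * c = (c * c.den) * m := by ring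
        _ = c.num * m := by rw [h2]
    rw [h1]
    exact zsmul_mem hmx c.num

end aux

theorem milgram {V : Type} [AddCommGroup V] [Module ℚ V] (Q : V → ℚ) (β : V →+ V →+ ℚ)
    (hQ : ∀ x y, Q (x + y) = Q x + Q y + β x y) (hs : ∀ (c : ℚ) (x : V), Q (c • x) = c ^ 2 * Q x)
    {n : ℕ} (f : Module.Basis (Fin n) ℚ V) (ho : ∀ i j, i ≠ j → β (f i) (f j) = 0)
    (hne : ∀ i, Q (f i) ≠ 0) (L : AddSubgroup V) (hL : L.FG)
    (hsp : Submodule.span ℚ (L : Set V) = ⊤) (hint : ∀ x ∈ L, ∃ m : ℤ, Q x = m) :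
    ∃ r : ℝ, 0 < r ∧ qs (perp chQ β L) L (fun x => (chQ (Q x) : ℂ)) =
      r * ∏ i, (ee ((SignType.sign (Q (f i) : ℝ) : ℝ) / 8) : ℂ) := by
  choose m hm hmL using fun i => Mi_mult L hsp (f i)
  obtain ⟨M, hM⟩ : ∃ M : ℕ, M = ∏ i, m i := ⟨_, rfl⟩
  have hM0 : 0 < M := by
    rw [hM]
    exact Finset.prod_pos fun i _ => hm i
  have hMq : (M : ℚ) ≠ 0 := Nat.cast_ne_zero.2 hM0.ne'
  have hML : ∀ i, (M : ℚ) • f i ∈ L := by
    intro i
    obtain ⟨k, hk⟩ : m i ∣ M := by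
      rw [hM]
      exact Finset.dvd_prod_of_mem m (Finset.mem_univ i)
    rw [Nat.cast_smul_eq_nsmul, hk, mul_comm, mul_smul]
    exact nsmul_mem (hmL i) k
  obtain ⟨g, hg⟩ : ∃ g : Module.Basis (Fin n) ℚ V, ∀ i, g i = (M : ℚ) • f i :=
    ⟨f.unitsSMul fun _ => Units.mk0 (M : ℚ) hMq, fun i => by
      rw [Module.Basis.unitsSMul_apply, Units.smul_def, Units.val_mk0]⟩
  have hog : ∀ i j, i ≠ j → β (g i) (g j) = 0 := by
    intro i j hij
    rw [hg, hg, Mi_smul_left, Mi_smul_right, ho i j hij, mul_zero, mul_zero]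
  have hQg : ∀ i, Q (g i) = (M : ℚ) ^ 2 * Q (f i) := fun i => by rw [hg, hs]
  obtain ⟨r, hr, he⟩ := Mi_core Q β hQ hs g hog
    (fun i => by rw [hQg]; exact mul_ne_zero (pow_ne_zero 2 hMq) (hne i)) L
    (fun i => by rw [hg]; exact hML i) hint
  refine ⟨r, hr, ?_⟩
  rw [he]
  congr 1
  refine Finset.prod_congr rfl fun i _ => ?_
  have h1 : SignType.sign ((Q (g i) : ℚ) : ℝ) = SignType.sign ((Q (f i) : ℚ) : ℝ) := by
    rw [hQg, Rat.cast_mul, sign_mul, sign_pos, one_mul]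
    exact Rat.cast_pos.2 (pow_pos (Nat.cast_pos.2 hM0) 2)
  rw [h1]

end H38RT
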