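import Pool.Agent.H38.RT.Qa
import Pool.Agent.H38.RT.Ga

/-!
Row Mr. (about 110 lines): the lattice of rank one with the form a x^2, a a nonzero integer.
 perp = {x : for all n in Z, e(2 a x n) = 1} = (1/(2a)) Z (e(t) = 1 iff t in Z: Circle.exp_eq_one or Complex.exp_eq_one_iff). The elements k/(2|a|), k < 2|a|, form a section of perp modulo Z; e(a (k/(2|a|))^2) = e(k^2/(4a)) (a = |a|: the sum of gauss; a < 0: its
 complex conjugate, ee (-t) = conj). So the sum is sqrt(2|a|) e(sign a/8) and the index is 2|a|.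
-/

set_option autoImplicit false


namespace H38RT

/-- `x ↦ exp (2 π i x)` on the rationals. -/
noncomputable def chQ : AddChar ℚ Circle where
  toFun x := ee (x : ℚ)
  map_zero_eq_one' := by
    unfold ee
    simp
  map_add_eq_mul' := by
    intro x y
    unfold ee
    rw [Rat.cast_add, mul_add, Circle.exp_add]

/-- The integers in the rationals. -/
def ZQ : AddSubgroup ℚ := (Int.castAddHom ℚ).range

theorem Mr_ee_eq_one (t : ℝ) : ee t = 1 ↔ ∃ k : ℤ, t = k := by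
  unfold ee
  rw [Circle.exp_eq_one]
  have hpi := Real.pi_pos
  constructor
  · rintro ⟨k, hk⟩
    refine ⟨k, ?_⟩
    have h1 : 2 * Real.pi * t = 2 * Real.pi * k := by rw [hk]; ring
    exact mul_left_cancel₀ (by positivity) h1
  · rintro ⟨k, rfl⟩
    exact ⟨k, by ring⟩

theorem Mr_ch_eq_one (x : ℚ) : chQ x = 1 ↔ ∃ k : ℤ, x = k := by
  have h1 : chQ x = ee (x : ℝ) := rfl
  rw [h1, Mr_ee_eq_one]
  constructor
  · rintro ⟨k, hk⟩
    exact ⟨k, by exact_mod_cast hk⟩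
  · rintro ⟨k, rfl⟩
    exact ⟨k, by push_cast; rfl⟩

theorem Mr_mem_ZQ (x : ℚ) : x ∈ ZQ ↔ ∃ k : ℤ, x = k := by
  unfold ZQ
  rw [AddMonoidHom.mem_range]
  constructor
  · rintro ⟨k, hk⟩
    exact ⟨k, hk.symm⟩
  · rintro ⟨k, rfl⟩
    exact ⟨k, rfl⟩

theorem Mr_mem_perp (a : ℤ) (x : ℚ) : x ∈ perp chQ (ub (a : ℚ)) ZQ ↔ ∃ k : ℤ, 2 * (a : ℚ) * x = k := by
  rw [mem_perp]
  constructor
  · intro h
    have h1 := h 1 ((Mr_mem_ZQ 1).2 ⟨1, by norm_num⟩)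
    rw [ub_apply, mul_one, Mr_ch_eq_one] at h1
    exact h1
  · rintro ⟨k, hk⟩ c hc
    obtain ⟨l, rfl⟩ := (Mr_mem_ZQ c).1 hc
    rw [ub_apply, Mr_ch_eq_one]
    exact ⟨k * l, by rw [hk]; push_cast; rfl⟩

theorem Mr_inva (a : ℤ) : Inva (perp chQ (ub (a : ℚ)) ZQ) ZQ (fun x => (chQ (a * x ^ 2) : ℂ)) := by
  intro x hx b hb
  obtain ⟨k, hk⟩ := (Mr_mem_perp a x).1 hx
  obtain ⟨l, rfl⟩ := (Mr_mem_ZQ b).1 hb
  have h1 : (a : ℚ) * (x + l) ^ 2 = a * x ^ 2 + (((k * l + a * l ^ 2 : ℤ)) : ℚ) := by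
    push_cast
    rw [← hk]
    ring
  have h2 : chQ ((((k * l + a * l ^ 2 : ℤ)) : ℚ)) = 1 := (Mr_ch_eq_one _).2 ⟨_, rfl⟩
  change ((chQ ((a : ℚ) * (x + l) ^ 2) : Circle) : ℂ) = _
  rw [h1, AddChar.map_add_eq_mul, h2, mul_one]

theorem Mr_sec (a : ℤ) (ε : ℤ) (n : ℕ) (hn : 0 < n) (hε : ε * ε = 1) (ha : a = ε * n) :
    (∀ i : Fin (2 * n), ((i : ℕ) : ℚ) / (2 * n : ℕ) ∈ perp chQ (ub (a : ℚ)) ZQ) ∧
    ∀ x ∈ perp chQ (ub (a : ℚ)) ZQ, ∃! i : Fin (2 * n), x - ((i : ℕ) : ℚ) / (2 * n : ℕ) ∈ ZQ := by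
  have hn0 : (n : ℚ) ≠ 0 := by exact_mod_cast hn.ne'
  have haq : (a : ℚ) = ε * n := by rw [ha]; push_cast; rfl
  have hεq : (ε : ℚ) * ε = 1 := by exact_mod_cast hε
  constructor
  · intro i
    rw [Mr_mem_perp]
    refine ⟨ε * (i : ℕ), ?_⟩
    rw [haq]
    push_cast
    field_simp
  · intro x hx
    obtain ⟨k, hk⟩ := (Mr_mem_perp a x).1 hx
    have hx1 : x = ((ε * k : ℤ) : ℚ) / (2 * n : ℕ) := by
      push_cast
      rw [eq_div_iff (by positivity), ← hk, haq]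
      linear_combination (-2 * x * n) * hεq
    have hNpos : (0 : ℤ) < (2 * n : ℕ) := by exact_mod_cast (by omega : 0 < 2 * n)
    have hN0 : ((2 * n : ℕ) : ℚ) ≠ 0 := by exact_mod_cast (by omega : 2 * n ≠ 0)
    have key : ∀ j : ℤ, (x - (j : ℚ) / (2 * n : ℕ) ∈ ZQ ↔ ((2 * n : ℕ) : ℤ) ∣ ε * k - j) := by
      intro j
      rw [Mr_mem_ZQ, hx1]
      constructor
      · rintro ⟨l, hl⟩
        refine ⟨l, ?_⟩
        have h1 : ((ε * k : ℤ) : ℚ) - j = (2 * n : ℕ) * l := by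
          rw [← hl]
          field_simp
        exact_mod_cast h1
      · rintro ⟨l, hl⟩
        refine ⟨l, ?_⟩
        have h1 : ((ε * k : ℤ) : ℚ) - j = (2 * n : ℕ) * l := by exact_mod_cast hl
        rw [← sub_div, h1]
        field_simp
    obtain ⟨t, ht⟩ : ∃ t : ℕ, (t : ℤ) = (ε * k) % (2 * n : ℕ) :=
      ⟨((ε * k) % (2 * n : ℕ)).toNat, Int.toNat_of_nonneg (Int.emod_nonneg _ hNpos.ne')⟩
    have htlt : t < 2 * n := by
      have h1 := Int.emod_lt_of_pos (ε * k) hNpos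
      rw [← ht] at h1
      exact_mod_cast h1
    refine ⟨⟨t, htlt⟩, ?_, ?_⟩
    · have h1 := (key t).2 (by
        rw [ht]
        exact Int.dvd_self_sub_emod)
      exact_mod_cast h1
    · intro i hi
      have h1 := (key (i : ℕ)).1 (by exact_mod_cast hi)
      have h2 : ((2 * n : ℕ) : ℤ) ∣ (t : ℤ) - (i : ℕ) := by
        have h3 : ((2 * n : ℕ) : ℤ) ∣ ε * k - (ε * k) % (2 * n : ℕ) := Int.dvd_self_sub_emod
        rw [← ht] at h3
        have h4 := dvd_sub h1 h3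
        have h5 : ε * k - (i : ℕ) - (ε * k - (t : ℤ)) = (t : ℤ) - (i : ℕ) := by ring
        rwa [h5] at h4
      apply Fin.ext
      have h6 := i.2
      have h7 : (t : ℤ) - (i : ℕ) = 0 := by
        apply Int.eq_zero_of_abs_lt_dvd h2
        rw [abs_lt]
        constructor
        · omega
        · omega
      change (i : ℕ) = t
      omega

theorem Mr_sum (a : ℤ) (ε : ℤ) (n : ℕ) (hn : 0 < n) (hε : ε * ε = 1) (ha : a = ε * n) :
    qs (perp chQ (ub (a : ℚ)) ZQ) ZQ (fun x => (chQ (a * x ^ 2) : ℂ)) =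
      ∑ x ∈ Finset.range (2 * n), (ee (ε * ((x : ℝ) ^ 2 / (4 * n))) : ℂ) ∧
    ZQ.relIndex (perp chQ (ub (a : ℚ)) ZQ) ≠ 0 := by
  obtain ⟨h1, h2⟩ := Mr_sec a ε n hn hε ha
  constructor
  · rw [qs_eq_sum (Mr_inva a) (fun i : Fin (2 * n) => ((i : ℕ) : ℚ) / (2 * n : ℕ)) h1 h2]
    rw [← Fin.sum_univ_eq_sum_range (fun x => (ee (ε * ((x : ℝ) ^ 2 / (4 * n))) : ℂ)) (2 * n)]
    refine Finset.sum_congr rfl fun i _ => ?_
    have h3 : ∀ x : ℚ, chQ x = ee (x : ℝ) := fun _ => rfl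
    rw [h3]
    congr 2
    have hn0 : (n : ℝ) ≠ 0 := by exact_mod_cast hn.ne'
    rw [ha]
    push_cast
    field_simp
    ring
  · rw [relIndex_of_sec (fun i : Fin (2 * n) => ((i : ℕ) : ℚ) / (2 * n : ℕ)) h1 h2, Fintype.card_fin]
    omega

theorem Mr_conj (t : ℝ) : (ee (-t) : ℂ) = (starRingEnd ℂ) (ee t : ℂ) := by
  unfold ee
  rw [mul_neg, Circle.exp_neg, Circle.coe_inv_eq_conj]

theorem rank_one (a : ℤ) (ha : a ≠ 0) :
    qs (perp chQ (ub (a : ℚ)) ZQ) ZQ (fun x => (chQ (a * x ^ 2) : ℂ)) =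
      (Real.sqrt (2 * |(a : ℝ)|) : ℂ) * (ee ((SignType.sign (a : ℝ) : ℝ) / 8) : ℂ) ∧
    ZQ.relIndex (perp chQ (ub (a : ℚ)) ZQ) ≠ 0 := by
  obtain ⟨n, hn⟩ : ∃ n : ℕ, n = a.natAbs := ⟨_, rfl⟩
  have hn0 : 0 < n := by
    rw [hn]
    exact Int.natAbs_pos.2 ha
  have hnr : (0 : ℝ) < n := by exact_mod_cast hn0
  rcases Int.natAbs_eq a with h | h
  · rw [← hn] at h
    obtain ⟨h1, h2⟩ := Mr_sum a 1 n hn0 (by norm_num) (by rw [one_mul]; exact h)
    refine ⟨?_, h2⟩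
    have har : (a : ℝ) = n := by rw [h]; push_cast; rfl
    rw [h1, har, abs_of_pos hnr, sign_pos hnr]
    have h3 := gauss n hn0
    simp only [Int.cast_one, one_mul]
    rw [h3]
    norm_num
  · rw [← hn] at h
    obtain ⟨h1, h2⟩ := Mr_sum a (-1) n hn0 (by norm_num) (by rw [neg_one_mul]; exact h)
    refine ⟨?_, h2⟩
    have har : (a : ℝ) = -n := by rw [h]; push_cast; rfl
    rw [h1, har, abs_neg, abs_of_pos hnr, sign_neg (neg_lt_zero.2 hnr)]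
    have h3 := congrArg (starRingEnd ℂ) (gauss n hn0)
    rw [map_sum, map_mul, ← Mr_conj, Complex.conj_ofReal] at h3
    simp only [← Mr_conj] at h3
    simp only [Int.cast_neg, Int.cast_one, neg_mul, one_mul]
    rw [h3]
    have h4 : ((SignType.cast (-1 : SignType) : ℝ)) / 8 = -(1 / 8) := by
      rw [SignType.coe_neg_one]
      norm_num
    rw [h4]

end H38RT
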