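import Pool.Agent.H38.RT.Rf

/-!
Row Ta. (about 150 lines): the tame symbol. F, r the residue field (exists_res), 2 <> 0 in F as V 2 = 1. For a unit x: Sq V x iff r x is a square in F. The nonzero squares of F have index two: for units x, y:
 [Sq (x y)] = [Sq x] + [Sq y] in ZMod 2 (quadraticChar is multiplicative). For x <> 0 the element x * pi^(-ord x) is a unit (V_eq, h.pi) and (x y) pi^(-ord (x y)) = (x pi^(-ord x)) (y pi^(-ord y)). So lam_mul. lam_unit: ord = 0, pi^0 = 1.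
 lam_sq: lam_mul and characteristic two. tm is bilinear by lam_mul, ord_mul. tm_neg: with v = ord x: v lam(-x) + v lam x + v v lam(-1) = v (lam x + lam(-1)) + v lam x + v^2 lam (-1) = 0 as v^2 = v and 2 = 0 in ZMod 2 (ord (-x) = ord x).
 tm_unit_left: ord = 0. exists_nonsq: F has a non-square (odd characteristic, FiniteField.exists_nonsquare), lift it.
-/


set_option autoImplicit false

open WithZero

namespace H38RT

variable {K : Type*} [Field K] {V : Valuation K (WithZero (Multiplicative ℤ))} {π : K} {q : ℕ}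
  {d : ℤ} {ψ : AddChar K Circle}

universe uu in
theorem Ta_res {K : Type uu} [Field K] {V : Valuation K (WithZero (Multiplicative ℤ))} {π : K}
    {q : ℕ} {d : ℤ} {ψ : AddChar K Circle} (h : Loc V π q d ψ) (h2 : V 2 = 1) :
    ∃ (F : Type uu) (_ : Field F) (_ : Fintype F) (r : K → F), ringChar F ≠ 2 ∧
    (∀ x y, V x ≤ 1 → V y ≤ 1 → r (x * y) = r x * r y) ∧
    (∀ x, V x = 1 → r x ≠ 0) ∧ (∀ x, V x ≤ 1 → (Sq V x ↔ IsSquare (r x))) ∧
    (∀ a : F, a ≠ 0 → ∃ x, V x = 1 ∧ r x = a) := by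
  obtain ⟨F, iF, iFt, r, hq, r1, hr, h0, hs⟩ := exists_res h
  have hr1 : V (1 : K) ≤ 1 := by rw [map_one]
  have hsub : ∀ x y, V x ≤ 1 → V y ≤ 1 → r (x - y) = r x - r y := by
    intro x y hx hy
    have h3 : V (x - y) ≤ 1 := (V.map_sub x y).trans (max_le hx hy)
    have h4 := (hr (x - y) y h3 hy).1
    rw [sub_add_cancel] at h4
    rw [h4, add_sub_cancel_right]
  have hiff : ∀ x y, V x ≤ 1 → V y ≤ 1 → (V (x - y) < 1 ↔ r x = r y) := by
    intro x y hx hy
    have h3 : V (x - y) ≤ 1 := (V.map_sub x y).trans (max_le hx hy)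
    rw [← h0 (x - y) h3, hsub x y hx hy, sub_eq_zero]
  refine ⟨F, iF, iFt, r, ?_, fun x y hx hy => (hr x y hx hy).2, ?_, ?_, ?_⟩
  · intro hc
    have h3 : (2 : F) = 0 := by
      have h4 : ((ringChar F : ℕ) : F) = 0 := ringChar.Nat.cast_ringChar
      rw [hc] at h4
      exact_mod_cast h4
    have h4 : r 2 = 2 := by
      have h5 := (hr 1 1 hr1 hr1).1
      rw [r1] at h5
      have h6 : (1 : K) + 1 = 2 := by norm_num
      rw [h6] at h5
      rw [h5]
      norm_num
    rw [h3] at h4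
    have h5 := (h0 2 h2.le).1 h4
    rw [h2] at h5
    exact lt_irrefl _ h5
  · intro x hx h3
    have h4 := (h0 x hx.le).1 h3
    rw [hx] at h4
    exact lt_irrefl _ h4
  · intro x hx
    constructor
    · rintro ⟨t, ht⟩
      have htV : V t ≤ 1 := by
        by_contra hcon
        push Not at hcon
        have h3 : V (t ^ 2) ≤ 1 := by
          have h4 : t ^ 2 = x - (x - t ^ 2) := by ring
          rw [h4]
          exact (V.map_sub _ _).trans (max_le hx ht.le)
        rw [map_pow] at h3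
        have h5 : 1 < V t ^ 2 := one_lt_pow₀ hcon two_ne_zero
        exact absurd h3 (not_le.2 h5)
      have ht2 : V (t ^ 2) ≤ 1 := by
        rw [map_pow]
        exact pow_le_one₀ zero_le' htV
      have h3 := (hiff x (t ^ 2) hx ht2).1 ht
      rw [h3, pow_two, (hr t t htV htV).2]
      exact ⟨r t, rfl⟩
    · rintro ⟨a, ha⟩
      obtain ⟨t, ht, rfl⟩ := hs a
      refine ⟨t, ?_⟩
      have ht2 : V (t ^ 2) ≤ 1 := by
        rw [map_pow]
        exact pow_le_one₀ zero_le' ht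
      rw [hiff x (t ^ 2) hx ht2, ha, pow_two, (hr t t ht ht).2]
  · intro a ha
    obtain ⟨x, hx, rfl⟩ := hs a
    refine ⟨x, ?_, rfl⟩
    rcases hx.lt_or_eq with h3 | h3
    · exact absurd ((h0 x hx).2 h3) ha
    · exact h3

theorem Ta_sq_mul (h : Loc V π q d ψ) (h2 : V 2 = 1) {x y : K} (hx : V x = 1) (hy : V y = 1) :
    Sq V (x * y) ↔ (Sq V x ↔ Sq V y) := by
  classical
  obtain ⟨F, iF, iFt, r, hc, hr, h0, hs, hsur⟩ := Ta_res h h2
  have hxy : V (x * y) ≤ 1 := by rw [map_mul, hx, hy, one_mul]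
  rw [hs _ hxy, hs _ hx.le, hs _ hy.le, hr _ _ hx.le hy.le]
  have hx0 := h0 x hx
  have hy0 := h0 y hy
  rw [← quadraticChar_one_iff_isSquare hx0, ← quadraticChar_one_iff_isSquare hy0,
    ← quadraticChar_one_iff_isSquare (mul_ne_zero hx0 hy0), map_mul]
  rcases quadraticChar_dichotomy hx0 with h1 | h1 <;>
    rcases quadraticChar_dichotomy hy0 with h3 | h3 <;> rw [h1, h3] <;> norm_num

theorem Ta_pi_ne (h : Loc V π q d ψ) : π ≠ 0 := by
  rintro rfl
  have h1 := h.pi
  rw [map_zero] at h1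
  exact WithZero.exp_ne_zero h1.symm

theorem Ta_V_eq {x : K} (hx : x ≠ 0) : V x = exp (-ord V x) := by
  unfold ord
  rw [neg_neg, WithZero.exp_log ((Valuation.ne_zero_iff _).2 hx)]

theorem Ta_ord_unit {x : K} (hx : V x = 1) : ord V x = 0 := by
  unfold ord
  rw [hx, WithZero.log_one, neg_zero]

theorem Ta_ord_mul {x y : K} (hx : x ≠ 0) (hy : y ≠ 0) : ord V (x * y) = ord V x + ord V y := by
  unfold ord
  rw [map_mul, WithZero.log_mul ((Valuation.ne_zero_iff _).2 hx) ((Valuation.ne_zero_iff _).2 hy)]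
  ring

theorem Ta_unit (h : Loc V π q d ψ) {x : K} (hx : x ≠ 0) : V (x * π ^ (-ord V x)) = 1 := by
  rw [map_mul, map_zpow₀, h.pi, Ta_V_eq (V := V) hx, ← WithZero.exp_zsmul, ← WithZero.exp_add]
  have h1 : -ord V x + -ord V x • (-1 : ℤ) = 0 := by
    rw [smul_eq_mul]
    ring
  rw [h1, WithZero.exp_zero]

theorem lam_mul (h : Loc V π q d ψ) (h2 : V 2 = 1) {x y : K} (hx : x ≠ 0) (hy : y ≠ 0) :
    lam V π (x * y) = lam V π x + lam V π y := by
  have h1 := Ta_unit h hx
  have h3 := Ta_unit h hy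
  have h4 : x * y * π ^ (-ord V (x * y)) = (x * π ^ (-ord V x)) * (y * π ^ (-ord V y)) := by
    rw [Ta_ord_mul hx hy, neg_add, zpow_add₀ (Ta_pi_ne h)]
    ring
  have h5 := Ta_sq_mul h h2 h1 h3
  unfold lam
  rw [h4]
  by_cases h6 : Sq V (x * π ^ (-ord V x)) <;> by_cases h7 : Sq V (y * π ^ (-ord V y)) <;>
    simp only [h5, h6, h7, if_true, if_false, iff_true, iff_false, not_true_eq_false,
      not_false_eq_true] <;> decide

open scoped Classical in
theorem lam_unit {x : K} (hx : V x = 1) : lam V π x = if Sq V x then 0 else 1 := by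
  unfold lam
  rw [Ta_ord_unit hx, neg_zero, zpow_zero, mul_one]

theorem lam_pi (h : Loc V π q d ψ) : lam V π π = 0 := by
  have h1 : ord V π = 1 := by
    unfold ord
    rw [h.pi, WithZero.log_exp, neg_neg]
  have h3 : Sq V (π * π ^ (-ord V π)) := by
    rw [h1, zpow_neg, zpow_one, mul_inv_cancel₀ (Ta_pi_ne h)]
    refine ⟨1, ?_⟩
    rw [one_pow, sub_self, map_zero]
    exact zero_lt_one
  unfold lam
  rw [if_pos h3]

theorem tm_mul_left (h : Loc V π q d ψ) (h2 : V 2 = 1) {x x' y : K} (hx : x ≠ 0) (hx' : x' ≠ 0) :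
    tm V π (x * x') y = tm V π x y + tm V π x' y := by
  unfold tm
  rw [lam_mul h h2 hx hx', Ta_ord_mul hx hx']
  push_cast
  ring

theorem tm_comm (x y : K) : tm V π x y = tm V π y x := by
  unfold tm
  ring

theorem tm_neg (h : Loc V π q d ψ) (h2 : V 2 = 1) {x : K} (hx : x ≠ 0) : tm V π x (-x) = 0 := by
  have h1 : (-1 : K) ≠ 0 := neg_ne_zero.2 one_ne_zero
  have h3 : lam V π (-x) = lam V π (-1) + lam V π x := by
    rw [← lam_mul h h2 h1 hx, neg_one_mul]
  have h4 : ord V (-x) = ord V x := by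
    unfold ord
    rw [Valuation.map_neg]
  unfold tm
  rw [h3, h4]
  generalize (ord V x : ZMod 2) = v
  generalize lam V π (-1) = a
  generalize lam V π x = b
  revert v a b
  decide

theorem tm_sq (h : Loc V π q d ψ) (h2 : V 2 = 1) {x y : K} (hx : x ≠ 0) :
    tm V π (x ^ 2) y = 0 := by
  rw [pow_two, tm_mul_left h h2 hx hx]
  generalize tm V π x y = a
  revert a
  decide

theorem tm_unit {x y : K} (hx : V x = 1) : tm V π x y = (ord V y : ZMod 2) * lam V π x := by
  unfold tm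
  rw [Ta_ord_unit hx, Int.cast_zero]
  ring

theorem exists_nonsq (h : Loc V π q d ψ) (h2 : V 2 = 1) : ∃ x : K, V x = 1 ∧ ¬ Sq V x := by
  classical
  obtain ⟨F, iF, iFt, r, hc, hr, h0, hs, hsur⟩ := Ta_res h h2
  obtain ⟨a, ha⟩ := FiniteField.exists_nonsquare hc
  have ha0 : a ≠ 0 := by
    rintro rfl
    exact ha (IsSquare.zero)
  obtain ⟨x, hx, rfl⟩ := hsur a ha0
  exact ⟨x, hx, fun hcon => ha ((hs x hx.le).1 hcon)⟩

end H38RT
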