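import Pool.Agent.H38.RT.Uc
import Pool.Agent.H38.RT.Ta
import Pool.Agent.H38.RT.Qc

/-!
Row Od. (about 230 lines): the local factor at an odd place. D := z^2 - 4 c0.
 gs_odd: qs_map with phi (a,b) = (a + z b/2, b/2) on K x K: u nf z c0 (a,b) = u A^2 - u D B^2 for (A,B) = phi (a,b), nb u z c0 x y = ub u (A x) (A y) + ub (-(u D)) (B x) (B y). phi maps (ball 0)^2 onto itself (V 2 = 1, V z <= 1).
   So x in perp psi (nb u z c0) ((ball 0)^2) iff A in perp psi (ub u) (ball 0) and B in perp psi (ub (-(u D))) (ball 0). Then qs_prod (fin_perp, gU_inva, triv_of; 0 <= ord u + d and 0 <= ord (u D) + d since V u, V D <= 1, d >= 0).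
 gs_odd_ratio: write g(c) for gU V psi c 0; claim g(u) g(-uD) = r * sgn2 (tm u D) * g(1) g(-D), r > 0, and g(1) g(-D) <> 0 (gU_ne). For unit e put [e] = lam V pi e; gU_twist: g(e c) = (-1)^([e] (ord c + d)) g(c) for ord c >= 0, and
   g(c t^2) = positive * g(c) for ord c, ord t >= 0 (gU_sq, gU_pos). Also g(-c) = conj g(c) (gU_neg), so g(c) g(-c) = |g(c)|^2 > 0.
   (i) ord u even: u = e t^2, t = pi^(ord u / 2), e a unit: g(u) = pos g(e) = pos (-1)^([e] d) g(1), g(-uD) = pos g(-e D) = pos (-1)^([e](ord D + d)) g(-D): the ratio has sign (-1)^([e] ord D); tm u D = ord D * lam u (ord u = 0 mod 2), lam u = [e].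
   (ii) ord D even: D = e t^2: g(-uD) = pos g(e (-u)) = pos (-1)^([e](ord u + d)) conj g(u); g(-D) = pos (-1)^([e] d) conj g(1); sign (-1)^([e] ord u) = sgn2 (tm u D).
   (iii) both odd: choose the unit e and t with u * t'^2 = - D e t^2 type relation: e := -(u/D) pi^(-(ord u - ord D)), t = pi^((ord u - ord D)/2) (an integer, possibly negative): u = - D e t^2. To stay with nonnegative orders compare
      g(u) with g(-D e): multiply by even powers of pi: g(u) = pos g(u pi^(2k)) for k >= 0, so g(u) = pos g(-D e) = pos (-1)^([e](ord D + d)) g(-D); -uD = D^2 e t^2, so g(-uD) = pos g(e) = pos (-1)^([e] d) g(1).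
      Sign (-1)^([e] ord D) = (-1)^[e]. tm u D = lam D + lam u + lam (-1) = lam (-(u D)) = lam (e D^2 t^2) = [e].
-/

set_option autoImplicit false

open WithZero

namespace H38RT

variable {K : Type*} [Field K] {V : Valuation K (WithZero (Multiplicative ℤ))} {π : K} {q : ℕ}
  {d : ℤ} {ψ : AddChar K Circle}

lemma Od_ord_nonneg {x : K} (hx : x ≠ 0) (h1 : V x ≤ 1) : 0 ≤ ord V x := by
  rw [V_eq hx, ← exp_zero, exp_le_exp] at h1
  omega

lemma Od_ord_one : ord V (1 : K) = 0 := by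
  simp [ord]

lemma Od_ord_neg (x : K) : ord V (-x) = ord V x := by
  simp [ord, Valuation.map_neg]

lemma Od_unit_of {x : K} (hx : x ≠ 0) (h1 : ord V x = 0) : V x = 1 := by
  rw [V_eq hx, h1, neg_zero, exp_zero]

lemma Od_V_four (h2 : V 2 = 1) : V 4 = 1 := by
  have : (4 : K) = 2 * 2 := by norm_num
  rw [this, map_mul, h2, one_mul]

lemma Od_V_D (h2 : V 2 = 1) {z c₀ : K} (hz : V z ≤ 1) (hc : V c₀ ≤ 1) :
    V (z ^ 2 - 4 * c₀) ≤ 1 := by
  refine (V.map_sub _ _).trans (max_le ?_ ?_)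
  · rw [map_pow]
    exact pow_le_one' hz 2
  · rw [map_mul, Od_V_four h2, one_mul]
    exact hc

/-- The diagonalising map. -/
def Od_phi (z : K) : K × K →+ K × K :=
  AddMonoidHom.mk' (fun x => (x.1 + z * x.2 / 2, x.2 / 2)) (by
    intro x y
    ext
    · simp only [Prod.fst_add, Prod.snd_add]
      ring
    · simp only [Prod.snd_add]
      ring)

lemma Od_phi_apply (z : K) (x : K × K) : Od_phi z x = (x.1 + z * x.2 / 2, x.2 / 2) := rfl

lemma Od_ball0 {x : K} : x ∈ ball V 0 ↔ V x ≤ 1 := by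
  rw [mem_ball, neg_zero, exp_zero]

lemma Od_phi_mem (h2 : V 2 = 1) {z : K} (hz : V z ≤ 1) (x : K × K) :
    Od_phi z x ∈ (ball V 0).prod (ball V 0) ↔ x ∈ (ball V 0).prod (ball V 0) := by
  rw [AddSubgroup.mem_prod, AddSubgroup.mem_prod, Od_phi_apply]
  simp only [Od_ball0]
  rw [map_div₀, h2, div_one]
  constructor
  · rintro ⟨h3, h4⟩
    refine ⟨?_, h4⟩
    have e : x.1 = (x.1 + z * x.2 / 2) - z * x.2 / 2 := by ring
    rw [e]
    refine (V.map_sub _ _).trans (max_le h3 ?_)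
    rw [map_div₀, h2, div_one, map_mul]
    exact mul_le_one' hz h4
  · rintro ⟨h3, h4⟩
    refine ⟨(V.map_add _ _).trans (max_le h3 ?_), h4⟩
    rw [map_div₀, h2, div_one, map_mul]
    exact mul_le_one' hz h4

lemma Od_two_ne (h2 : V 2 = 1) : (2 : K) ≠ 0 := by
  intro h0
  rw [h0, map_zero] at h2
  exact zero_ne_one h2

theorem gs_odd (h : Loc V π q d ψ) (h2 : V 2 = 1) (hd : 0 ≤ d) {u z c₀ : K} (hu : u ≠ 0)
    (hu1 : V u ≤ 1) (hz : V z ≤ 1) (hc : V c₀ ≤ 1) (hD : z ^ 2 - 4 * c₀ ≠ 0) :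
    GS ψ u z c₀ (ball V 0) = gU V ψ u 0 * gU V ψ (-(u * (z ^ 2 - 4 * c₀))) 0 ∧
      ((ball V 0).prod (ball V 0)).relIndex
        (perp ψ (nb u z c₀) ((ball V 0).prod (ball V 0))) ≠ 0 := by
  have hV2 := Od_V_D (V := V) h2 hz hc
  have h20 := Od_two_ne h2
  obtain ⟨D, hDd⟩ : ∃ D, D = z ^ 2 - 4 * c₀ := ⟨_, rfl⟩
  rw [← hDd] at hD hV2 ⊢
  have hw : -(u * D) ≠ 0 := neg_ne_zero.2 (mul_ne_zero hu hD)
  have hw1 : V (-(u * D)) ≤ 1 := by
    rw [Valuation.map_neg, map_mul]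
    exact mul_le_one' hu1 hV2
  have s1 : 0 ≤ ord V u + 2 * 0 + d := by
    have := Od_ord_nonneg hu hu1
    omega
  have s2 : 0 ≤ ord V (-(u * D)) + 2 * 0 + d := by
    have := Od_ord_nonneg hw hw1
    omega
  have hnb : ∀ x y : K × K, nb u z c₀ x y = ub u (Od_phi z x).1 (Od_phi z y).1 +
      ub (-(u * D)) (Od_phi z x).2 (Od_phi z y).2 := by
    intro x y
    rw [nb_apply, ub_apply, ub_apply, Od_phi_apply, Od_phi_apply, hDd]
    simp only []
    field_simp
    ring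
  have hinv1 := gU_inva u 0 (triv_of h hu s1)
  have hinv2 := gU_inva (-(u * D)) 0 (triv_of h hw s2)
  have hf : Inva ((perp ψ (ub u) (ball V 0)).prod (perp ψ (ub (-(u * D))) (ball V 0)))
      ((ball V 0).prod (ball V 0))
      (fun p : K × K => (ψ (u * p.1 ^ 2) : ℂ) * (ψ (-(u * D) * p.2 ^ 2) : ℂ)) := by
    intro x hx b hb
    rw [AddSubgroup.mem_prod] at hx hb
    have e1 := hinv1 x.1 hx.1 b.1 hb.1
    have e2 := hinv2 x.2 hx.2 b.2 hb.2
    simp only [Prod.fst_add, Prod.snd_add] at e1 e2 ⊢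
    rw [e1, e2]
  have hone : ∀ y ∈ ball V (0 : ℤ), ((y, 0) : K × K) ∈ (ball V 0).prod (ball V 0) := by
    intro y hy
    rw [AddSubgroup.mem_prod]
    exact ⟨hy, zero_mem _⟩
  have hmap := qs_map (Od_phi z) (A := perp ψ (nb u z c₀) ((ball V 0).prod (ball V 0)))
    (B := (ball V 0).prod (ball V 0))
    (A' := (perp ψ (ub u) (ball V 0)).prod (perp ψ (ub (-(u * D))) (ball V 0)))
    (B' := (ball V 0).prod (ball V 0))
    (by
      intro x hx
      rw [AddSubgroup.mem_prod]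
      constructor
      · intro c hcL
        have h3 := hx (c, 0) (hone c hcL)
        rw [hnb, Od_phi_apply z ((c, 0) : K × K)] at h3
        simpa using h3
      · intro c hcL
        have hmem : ((-(z * c), 2 * c) : K × K) ∈ (ball V 0).prod (ball V 0) := by
          rw [AddSubgroup.mem_prod]
          simp only [Od_ball0] at hcL ⊢
          rw [Valuation.map_neg, map_mul, map_mul, h2, one_mul]
          exact ⟨mul_le_one' hz hcL, hcL⟩
        have h3 := hx (-(z * c), 2 * c) hmem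
        rw [hnb, Od_phi_apply z ((-(z * c), 2 * c) : K × K)] at h3
        have e1 : -(z * c) + z * (2 * c) / 2 = 0 := by
          field_simp
          ring
        have e2 : 2 * c / 2 = c := by field_simp
        simp only [e1, e2, map_zero, zero_add] at h3
        exact h3)
    (fun x _ => Od_phi_mem h2 hz x)
    (by
      intro y hy
      rw [AddSubgroup.mem_prod] at hy
      have hphi : Od_phi z (y.1 - z * y.2, 2 * y.2) = y := by
        rw [Od_phi_apply]
        ext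
        · simp only []
          field_simp
          ring
        · simp only []
          field_simp
      refine ⟨(y.1 - z * y.2, 2 * y.2), ?_, ?_⟩
      · intro c hcL
        have hc2 := (Od_phi_mem h2 hz c).2 hcL
        rw [AddSubgroup.mem_prod] at hc2
        rw [hnb, hphi, AddChar.map_add_eq_mul, hy.1 _ hc2.1, hy.2 _ hc2.2, one_mul]
      · rw [hphi, sub_self]
        exact zero_mem _) hf
  have hprod := qs_prod (fin_perp h h2 hu s1) (fin_perp h h2 hw s2) hinv1 hinv2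
  refine ⟨?_, ?_⟩
  · unfold GS
    have e1 : qs (perp ψ (nb u z c₀) ((ball V 0).prod (ball V 0))) ((ball V 0).prod (ball V 0))
        (fun x => (ψ (u * nf z c₀ x) : ℂ)) =
        qs (perp ψ (nb u z c₀) ((ball V 0).prod (ball V 0))) ((ball V 0).prod (ball V 0))
        (fun x => (ψ (u * (Od_phi z x).1 ^ 2) : ℂ) *
          (ψ (-(u * D) * (Od_phi z x).2 ^ 2) : ℂ)) := by
      refine qs_congr fun x _ => ?_
      rw [← Circle.coe_mul, ← AddChar.map_add_eq_mul]
      congr 2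
      rw [Od_phi_apply, hDd]
      unfold nf
      simp only []
      field_simp
      ring
    rw [e1, hmap.1, hprod.1]
    rfl
  · rw [hmap.2, hprod.2]
    exact mul_ne_zero (fin_perp h h2 hu s1) (fin_perp h h2 hw s2)

lemma Od_sgn_add (a b : ZMod 2) : sgn2 (a + b) = sgn2 a * sgn2 b := by
  have h01 : ∀ a : ZMod 2, a = 0 ∨ a = 1 := by decide
  rcases h01 a with rfl | rfl <;> rcases h01 b with rfl | rfl <;>
    simp [sgn2, (by decide : (1 + 1 : ZMod 2) = 0)]

lemma Od_sgn_pow (n : ℤ) (hn : 0 ≤ n) : (-1 : ℂ) ^ n.toNat = sgn2 ((n : ℤ) : ZMod 2) := by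
  obtain ⟨m, rfl⟩ := Int.eq_ofNat_of_zero_le hn
  rw [Int.toNat_natCast, Int.cast_natCast]
  induction m with
  | zero => simp [sgn2]
  | succ m ih =>
    rw [pow_succ, ih (by omega), Nat.cast_succ, Od_sgn_add]
    simp [sgn2]

lemma Od_sgn_sq (a : ZMod 2) : sgn2 a * sgn2 a = 1 := by
  rw [← Od_sgn_add, CharTwo.add_self_eq_zero]
  simp [sgn2]

lemma Od_unit (h : Loc V π q d ψ) (h2 : V 2 = 1) {c e : K} (hc : c ≠ 0)
    (hs : 0 ≤ ord V c + d) (he : V e = 1) :
    gU V ψ (e * c) 0 = sgn2 (lam V π e * ((ord V c + d : ℤ) : ZMod 2)) * gU V ψ c 0 := by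
  have hs' : 0 ≤ ord V c + 2 * 0 + d := by omega
  have h3 := gU_twist h h2 hc hs' he
  rw [lam_unit he]
  by_cases hq : Sq V e
  · rw [if_pos hq, zero_mul, h3.1 hq]
    simp [sgn2]
  · rw [if_neg hq, one_mul, h3.2 hq, Od_sgn_pow _ hs']
    congr 3
    omega

lemma Od_sq (h : Loc V π q d ψ) (h2 : V 2 = 1) {c t : K} (hc : c ≠ 0)
    (hs : 0 ≤ ord V c + d) (ht : t ≠ 0) (h0 : 0 ≤ ord V t) :
    ∃ r : ℝ, 0 < r ∧ gU V ψ (c * t ^ 2) 0 = r * gU V ψ c 0 := by
  rw [gU_sq h hc ht (j := 0) (by omega)]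
  exact gU_pos h h2 hc (by omega) (by omega)

lemma Od_cast_even {n k : ℤ} (h : n = 2 * k) : ((n : ℤ) : ZMod 2) = 0 := by
  rw [h]
  push_cast
  rw [(by decide : (2 : ZMod 2) = 0), zero_mul]

lemma Od_core (h : Loc V π q d ψ) (h2 : V 2 = 1) (hd : 0 ≤ d) {u D : K} (hu : u ≠ 0)
    (hu1 : V u ≤ 1) (hD : D ≠ 0) (hD1 : V D ≤ 1) :
    ∃ r : ℝ, 0 < r ∧ gU V ψ u 0 * gU V ψ (-(u * D)) 0 =
      r * sgn2 (tm V π u D) * (gU V ψ 1 0 * gU V ψ (-(1 * D)) 0) := by
  have ou := Od_ord_nonneg hu hu1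
  have oD := Od_ord_nonneg hD hD1
  have hnD : -D ≠ 0 := neg_ne_zero.2 hD
  have hnu : -u ≠ 0 := neg_ne_zero.2 hu
  have oone : ord V (1 : K) = 0 := Od_ord_one
  have onD : ord V (-D) = ord V D := Od_ord_neg D
  have onu : ord V (-u) = ord V u := Od_ord_neg u
  have onone : ord V (-1 : K) = 0 := by rw [Od_ord_neg, oone]
  rw [one_mul]
  have hd2 : ((d : ℤ) : ZMod 2) + ((d : ℤ) : ZMod 2) = 0 := CharTwo.add_self_eq_zero _
  have lamsq : ∀ t : K, t ≠ 0 → lam V π (t ^ 2) = 0 := by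
    intro t ht
    rw [pow_two, lam_mul h h2 ht ht, CharTwo.add_self_eq_zero]
  have ordsq : ∀ t : K, t ≠ 0 → ord V (t ^ 2) = 2 * ord V t := by
    intro t ht
    rw [pow_two, ord_mul ht ht]
    ring
  rcases Int.even_or_odd' (ord V u) with ⟨k, hk | hk⟩
  · -- ord u even
    obtain ⟨ok, hpk⟩ := ord_pi h k
    obtain ⟨e, he⟩ : ∃ e, e = u / (π ^ k) ^ 2 := ⟨_, rfl⟩
    have hue : u = e * (π ^ k) ^ 2 := by
      rw [he]
      field_simp
    have he0 : e ≠ 0 := by
      rintro rfl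
      rw [zero_mul] at hue
      exact hu hue
    have oe : ord V e = 0 := by
      have h3 := ord_mul (V := V) he0 (pow_ne_zero 2 hpk)
      rw [← hue, ordsq _ hpk, ok, hk] at h3
      omega
    have hVe := Od_unit_of he0 oe
    obtain ⟨r1, hr1, e1⟩ := Od_sq h h2 he0 (by omega) hpk (by omega)
    rw [← hue] at e1
    have e2 := Od_unit h h2 (c := 1) one_ne_zero (by omega) hVe
    rw [mul_one, oone] at e2
    obtain ⟨r2, hr2, e3⟩ := Od_sq h h2 (c := e * -D) (mul_ne_zero he0 hnD)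
      (by rw [ord_mul he0 hnD]; omega) hpk (by omega)
    have hx : e * -D * (π ^ k) ^ 2 = -(u * D) := by
      linear_combination D * hue
    rw [hx] at e3
    have e4 := Od_unit h h2 (c := -D) hnD (by omega) hVe
    rw [onD] at e4
    refine ⟨r1 * r2, mul_pos hr1 hr2, ?_⟩
    have htm : tm V π u D = lam V π e * ((0 + d : ℤ) : ZMod 2) +
        lam V π e * ((ord V D + d : ℤ) : ZMod 2) := by
      unfold tm
      rw [Od_cast_even hk, zero_mul, zero_mul, zero_mul, zero_add, add_zero, hue,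
        lam_mul h h2 he0 (pow_ne_zero 2 hpk), lamsq _ hpk, add_zero]
      push_cast
      linear_combination (-(lam V π e)) * hd2
    rw [e1, e3, e2, e4, htm, Od_sgn_add]
    push_cast
    ring
  · rcases Int.even_or_odd' (ord V D) with ⟨l, hl | hl⟩
    · -- ord D even
      obtain ⟨ok, hpk⟩ := ord_pi h l
      obtain ⟨e, he⟩ : ∃ e, e = D / (π ^ l) ^ 2 := ⟨_, rfl⟩
      have hue : D = e * (π ^ l) ^ 2 := by
        rw [he]
        field_simp
      have he0 : e ≠ 0 := by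
        rintro rfl
        rw [zero_mul] at hue
        exact hD hue
      have oe : ord V e = 0 := by
        have h3 := ord_mul (V := V) he0 (pow_ne_zero 2 hpk)
        rw [← hue, ordsq _ hpk, ok, hl] at h3
        omega
      have hVe := Od_unit_of he0 oe
      have hn1 : (-1 : K) ≠ 0 := neg_ne_zero.2 one_ne_zero
      obtain ⟨r1, hr1, e1⟩ := Od_sq h h2 (c := e * -u) (mul_ne_zero he0 hnu)
        (by rw [ord_mul he0 hnu]; omega) hpk (by omega)
      have hx : e * -u * (π ^ l) ^ 2 = -(u * D) := by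
        linear_combination u * hue
      rw [hx] at e1
      have e2 := Od_unit h h2 (c := -u) hnu (by omega) hVe
      rw [onu] at e2
      obtain ⟨r2, hr2, e3⟩ := Od_sq h h2 (c := e * -1) (mul_ne_zero he0 hn1)
        (by rw [ord_mul he0 hn1]; omega) hpk (by omega)
      have hx2 : e * -1 * (π ^ l) ^ 2 = -D := by
        linear_combination hue
      rw [hx2] at e3
      have e4 := Od_unit h h2 (c := -1) hn1 (by omega) hVe
      rw [onone] at e4
      have n1 := gU_neg h h2 hu (j := 0) (by omega)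
      have n2 := gU_neg h h2 (c := (1 : K)) one_ne_zero (j := 0) (by omega)
      have p1 := gU_ne h h2 hu (j := 0) (by omega)
      have p2 := gU_ne h h2 (c := (1 : K)) one_ne_zero (j := 0) (by omega)
      rw [e1, e3, e2, e4, n1, n2]
      have m1 : gU V ψ u 0 * (starRingEnd ℂ) (gU V ψ u 0) = ((‖gU V ψ u 0‖ ^ 2 : ℝ) : ℂ) := by
        rw [Complex.mul_conj, Complex.normSq_eq_norm_sq]
      have m2 : gU V ψ 1 0 * (starRingEnd ℂ) (gU V ψ 1 0) = ((‖gU V ψ 1 0‖ ^ 2 : ℝ) : ℂ) := by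
        rw [Complex.mul_conj, Complex.normSq_eq_norm_sq]
      have q1 : 0 < ‖gU V ψ u 0‖ ^ 2 := by positivity
      have q2 : 0 < ‖gU V ψ 1 0‖ ^ 2 := by positivity
      refine ⟨r1 * ‖gU V ψ u 0‖ ^ 2 / (r2 * ‖gU V ψ 1 0‖ ^ 2), by positivity, ?_⟩
      have htm : tm V π u D = lam V π e * ((ord V u + d : ℤ) : ZMod 2) +
          lam V π e * ((0 + d : ℤ) : ZMod 2) := by
        unfold tm
        rw [Od_cast_even hl, zero_mul, mul_zero, zero_mul, add_zero, add_zero, hue,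
          lam_mul h h2 he0 (pow_ne_zero 2 hpk), lamsq _ hpk, add_zero]
        push_cast
        linear_combination (-(lam V π e)) * hd2
      have hs := Od_sgn_sq (lam V π e * ((0 + d : ℤ) : ZMod 2))
      have r2c : (r2 : ℂ) ≠ 0 := by exact_mod_cast hr2.ne'
      have q2c : ((‖gU V ψ 1 0‖ ^ 2 : ℝ) : ℂ) ≠ 0 := by exact_mod_cast q2.ne'
      obtain ⟨A, hA⟩ : ∃ A, A = sgn2 (lam V π e * ((ord V u + d : ℤ) : ZMod 2)) := ⟨_, rfl⟩
      obtain ⟨B, hB⟩ : ∃ B, B = sgn2 (lam V π e * ((0 + d : ℤ) : ZMod 2)) := ⟨_, rfl⟩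
      rw [htm, Od_sgn_add, ← hA, ← hB]
      rw [← hB] at hs
      obtain ⟨N1, hN1⟩ : ∃ x : ℝ, x = ‖gU V ψ u 0‖ ^ 2 := ⟨_, rfl⟩
      obtain ⟨N2, hN2⟩ : ∃ x : ℝ, x = ‖gU V ψ 1 0‖ ^ 2 := ⟨_, rfl⟩
      rw [← hN1] at m1 ⊢
      rw [← hN2] at m2 q2c ⊢
      calc gU V ψ u 0 * (r1 * (A * (starRingEnd ℂ) (gU V ψ u 0)))
          = r1 * A * (gU V ψ u 0 * (starRingEnd ℂ) (gU V ψ u 0)) := by ring
        _ = r1 * A * (N1 : ℂ) := by rw [m1]
        _ = ((r1 * N1 / (r2 * N2) : ℝ) : ℂ) * (A * B) * (r2 * B * (N2 : ℂ)) := by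
            push_cast
            field_simp
            linear_combination (-((r1 : ℂ) * A * N1)) * hs
        _ = ((r1 * N1 / (r2 * N2) : ℝ) : ℂ) * (A * B) * (r2 * B *
              (gU V ψ 1 0 * (starRingEnd ℂ) (gU V ψ 1 0))) := by rw [m2]
        _ = _ := by ring
    · -- both odd
      obtain ⟨m, hm⟩ : ∃ m, m = k - l := ⟨_, rfl⟩
      obtain ⟨ok, hpk⟩ := ord_pi h m
      obtain ⟨t, ht⟩ : ∃ t, t = π ^ m := ⟨_, rfl⟩
      rw [← ht] at ok hpk
      obtain ⟨e, he⟩ : ∃ e, e = -u / (D * t ^ 2) := ⟨_, rfl⟩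
      have hue : u = -D * e * t ^ 2 := by
        rw [he]
        field_simp
      have he0 : e ≠ 0 := by
        rintro rfl
        rw [mul_zero, zero_mul] at hue
        exact hu hue
      have oe : ord V e = 0 := by
        have h3 := ord_mul (V := V) (mul_ne_zero hnD he0) (pow_ne_zero 2 hpk)
        rw [← hue, ordsq _ hpk, ok, ord_mul hnD he0, onD, hk, hl] at h3
        omega
      have hVe := Od_unit_of he0 oe
      -- g u ~ g (-D e)
      obtain ⟨m', hm'⟩ : ∃ m' : ℤ, 0 ≤ m' ∧ 0 ≤ m + m' := ⟨max 0 (-m), by omega, by omega⟩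
      obtain ⟨ok', hpk'⟩ := ord_pi h m'
      obtain ⟨r1, hr1, e1⟩ := Od_sq h h2 hu (by omega) hpk' (by omega)
      obtain ⟨r2, hr2, e2⟩ := Od_sq h h2 (c := e * -D) (t := t * π ^ m') (mul_ne_zero he0 hnD)
        (by rw [ord_mul he0 hnD]; omega) (mul_ne_zero hpk hpk')
        (by rw [ord_mul hpk hpk']; omega)
      have hx : e * -D * (t * π ^ m') ^ 2 = u * (π ^ m') ^ 2 := by
        linear_combination (-(π ^ m') ^ 2) * hue
      rw [hx, e1] at e2
      have e3 := Od_unit h h2 (c := -D) hnD (by omega) hVe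
      rw [onD] at e3
      -- g (-(u D)) ~ g e
      obtain ⟨r3, hr3, e4⟩ := Od_sq h h2 (c := e) (t := D * t) he0 (by omega)
        (mul_ne_zero hD hpk) (by rw [ord_mul hD hpk]; omega)
      have hx2 : e * (D * t) ^ 2 = -(u * D) := by
        linear_combination D * hue
      rw [hx2] at e4
      have e5 := Od_unit h h2 (c := 1) one_ne_zero (by omega) hVe
      rw [mul_one, oone] at e5
      have htm : tm V π u D = lam V π e * ((ord V D + d : ℤ) : ZMod 2) +
          lam V π e * ((0 + d : ℤ) : ZMod 2) := by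
        have hn1 : (-1 : K) ≠ 0 := neg_ne_zero.2 one_ne_zero
        have c1 : ((ord V u : ℤ) : ZMod 2) = 1 := by
          rw [hk]
          push_cast
          rw [(by decide : (2 : ZMod 2) = 0), zero_mul, zero_add]
        have c2 : ((ord V D : ℤ) : ZMod 2) = 1 := by
          rw [hl]
          push_cast
          rw [(by decide : (2 : ZMod 2) = 0), zero_mul, zero_add]
        have h3 : lam V π (-(u * D)) = lam V π e := by
          rw [← hx2, lam_mul h h2 he0 (pow_ne_zero 2 (mul_ne_zero hD hpk)),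
            lamsq _ (mul_ne_zero hD hpk), add_zero]
        have h4 : lam V π (-(u * D)) = lam V π (-1) + (lam V π u + lam V π D) := by
          rw [← lam_mul h h2 hu hD, ← lam_mul h h2 hn1 (mul_ne_zero hu hD), neg_one_mul]
        unfold tm
        push_cast
        rw [c1, c2, ← h3]
        have e6 : lam V π (-(u * D)) * (1 + (d : ZMod 2)) +
            lam V π (-(u * D)) * (0 + (d : ZMod 2)) = lam V π (-(u * D)) := by
          linear_combination (lam V π (-(u * D))) * hd2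
        rw [e6, h4]
        ring
      refine ⟨r2 / r1 * r3, by positivity, ?_⟩
      have r1c : (r1 : ℂ) ≠ 0 := by exact_mod_cast hr1.ne'
      have e7 : gU V ψ u 0 = (r2 / r1 : ℂ) *
          (sgn2 (lam V π e * ((ord V D + d : ℤ) : ZMod 2)) * gU V ψ (-D) 0) := by
        rw [← e3, div_mul_eq_mul_div, eq_div_iff r1c]
        linear_combination e2
      rw [e7, e4, e5, htm, Od_sgn_add]
      push_cast
      ring

theorem gs_odd_ratio (h : Loc V π q d ψ) (h2 : V 2 = 1) (hd : 0 ≤ d) {u z c₀ : K} (hu : u ≠ 0)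
    (hu1 : V u ≤ 1) (hz : V z ≤ 1) (hc : V c₀ ≤ 1) (hD : z ^ 2 - 4 * c₀ ≠ 0) :
    GS ψ 1 z c₀ (ball V 0) ≠ 0 ∧ ∃ r : ℝ, 0 < r ∧ GS ψ u z c₀ (ball V 0) =
      r * sgn2 (tm V π u (z ^ 2 - 4 * c₀)) * GS ψ 1 z c₀ (ball V 0) := by
  have hV2 := Od_V_D (V := V) h2 hz hc
  have hone : V (1 : K) ≤ 1 := by rw [map_one]
  rw [(gs_odd h h2 hd hu hu1 hz hc hD).1, (gs_odd h h2 hd one_ne_zero hone hz hc hD).1]
  refine ⟨?_, Od_core h h2 hd hu hu1 hD hV2⟩
  have oD := Od_ord_nonneg hD hV2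
  refine mul_ne_zero (gU_ne h h2 one_ne_zero (by rw [Od_ord_one]; omega)) ?_
  rw [one_mul]
  exact gU_ne h h2 (neg_ne_zero.2 hD) (by rw [Od_ord_neg]; omega)

end H38RT
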