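import Pool.Agent.H38.RT.Df

/-!
Row Ps. (about 260 lines): local components of the character gch K.
 (0) gch K x = 1 for x in OK (trace is an integer). x is in the image of 𝓞 K iff v.valuation K x <= 1 for all v (IsDedekindDomain.HeightOneSpectrum.mem_integers_of_valuation_le_one).
 (1) For x in K and v there is y with v (x - y) <= 1 and w y <= 1 for w <> v: x = a/b; (b) = v^k J, J prime to v; s in J with 1 - s in v^k (Ideal.IsCoprime); y = x s: for w <> v: w s <= w b (s in J, J divisible by the w-part of b), so w y <= w a <= 1; v (x (1 - s)) <= v (1/b) v (v^k) <= 1.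
 (2) psi v x := gch K y for a chosen y; independent of the choice by (0) (the difference of two choices is integral everywhere). Additive. ->  field loc.
 (3) prod: x - sum_{v in T} y_v is integral everywhere.
 (4) The conductor. cd := {x in K : for all t in 𝓞 K, Tr (t x) in Z} = inverse of the different ideal DD (differentIdeal Z (𝓞 K), coeIdeal_differentIdeal, FractionalIdeal.mem_dual): x in cd iff x DD in 𝓞 K iff for all v, v x <= exp (d v), d v := multiplicity of v in DD >= 0 (zero for almost all v).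
   If v x <= exp (d v), v t <= 1: choose y for t x by (1): v y <= max (exp (d v)) 1, w y <= 1, so y in cd, Tr y in Z, psi v (t x) = 1. Conversely if not v x <= exp (d v): choose y for x: v y = v x, w y <= 1 for w <> v; y not in cd, so gch K (t y) <> 1 for some t in 𝓞 K (Tr (t y) not an integer),
   t y is integral at w <> v so psi v (t y) = gch K (t y), and psi v (t (x - y)) = 1 as v (t (x - y)) <= 1 <= exp (d v): psi v (t x) <> 1.
-/

set_option autoImplicit false

open WithZero

namespace H38RT

open NumberField IsDedekindDomain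

/-- Local components of `gch K`. -/
structure Psi (K : Type) [Field K] [NumberField K] (ψ : HeightOneSpectrum (𝓞 K) → AddChar K Circle)
    (d : HeightOneSpectrum (𝓞 K) → ℤ) : Prop where
  loc : ∀ v x, (∀ w, w ≠ v → w.valuation K x ≤ 1) → ψ v x = gch K x
  prod : ∀ (x : K) (T : Finset (HeightOneSpectrum (𝓞 K))), (∀ v, v ∉ T → v.valuation K x ≤ 1) →
    gch K x = ∏ v ∈ T, ψ v x
  nonneg : ∀ v, 0 ≤ d v
  fin : {v | d v ≠ 0}.Finite
  cond : ∀ v x, (∀ t : K, v.valuation K t ≤ 1 → ψ v (t * x) = 1) ↔ v.valuation K x ≤ exp (d v)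

theorem Ps_gch_iff (K : Type) [Field K] [NumberField K] (x : K) :
    gch K x = 1 ↔ ∃ n : ℤ, Algebra.trace ℚ K x = n := by
  change ee (Algebra.trace ℚ K x : ℚ) = 1 ↔ _
  unfold ee
  rw [Circle.exp_eq_one]
  have hpi : (2 * Real.pi : ℝ) ≠ 0 := by positivity
  constructor
  · rintro ⟨n, hn⟩
    refine ⟨n, ?_⟩
    have h1 : ((Algebra.trace ℚ K x : ℚ) : ℝ) = (n : ℝ) := by
      apply mul_left_cancel₀ hpi
      rw [hn]
      ring
    exact_mod_cast h1
  · rintro ⟨n, hn⟩
    refine ⟨n, ?_⟩
    rw [hn]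
    push_cast
    ring

/-- `gch` is trivial on integral elements. -/
theorem Ps_int (K : Type) [Field K] [NumberField K] (x : K)
    (hx : ∀ v : HeightOneSpectrum (𝓞 K), v.valuation K x ≤ 1) : gch K x = 1 := by
  obtain ⟨z, rfl⟩ := HeightOneSpectrum.mem_integers_of_valuation_le_one K x hx
  rw [Ps_gch_iff]
  have h1 : IsIntegral ℤ (Algebra.trace ℚ K (algebraMap (𝓞 K) K z)) :=
    Algebra.isIntegral_trace (RingOfIntegers.isIntegral_coe z)
  obtain ⟨n, hn⟩ := IsIntegrallyClosed.isIntegral_iff.1 h1
  exact ⟨n, by rw [← hn]; simp⟩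

theorem Ps_val (K : Type) [Field K] [NumberField K] (w : HeightOneSpectrum (𝓞 K))
    (a b s : 𝓞 K) (hb : b ≠ 0)
    (hs : s ∈ w.asIdeal ^ multiplicity w.asIdeal (Ideal.span {b})) :
    w.valuation K (algebraMap (𝓞 K) K a / algebraMap (𝓞 K) K b * algebraMap (𝓞 K) K s) ≤ 1 := by
  have h1 : w.intValuation s ≤ w.intValuation b := by
    rw [w.intValuation_eq_exp_neg_multiplicity hb]
    exact (w.intValuation_le_pow_iff_mem s _).2 hs
  have h2 : w.intValuation b ≠ 0 := w.intValuation_ne_zero b hb
  have h3 : w.intValuation a ≤ 1 := w.intValuation_le_one a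
  rw [map_mul, map_div₀]
  simp only [HeightOneSpectrum.valuation_of_algebraMap]
  calc w.intValuation a / w.intValuation b * w.intValuation s ≤
      w.intValuation a / w.intValuation b * w.intValuation b := by gcongr
    _ = w.intValuation a := div_mul_cancel₀ _ h2
    _ ≤ 1 := h3

/-- `y` approximates `x` at `v` and is integral elsewhere. -/
def PsA (K : Type) [Field K] [NumberField K] (v : HeightOneSpectrum (𝓞 K)) (x y : K) : Prop :=
  v.valuation K (x - y) ≤ 1 ∧ ∀ w : HeightOneSpectrum (𝓞 K), w ≠ v → w.valuation K y ≤ 1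

theorem Ps_approx (K : Type) [Field K] [NumberField K] (v : HeightOneSpectrum (𝓞 K)) (x : K) :
    ∃ y : K, PsA K v x y := by
  obtain ⟨a, b, hb, rfl⟩ := IsFractionRing.div_surjective (A := 𝓞 K) x
  have hb0 : b ≠ 0 := nonZeroDivisors.ne_zero hb
  have hb' : Ideal.span {b} ≠ (⊥ : Ideal (𝓞 K)) := by
    rwa [ne_eq, Ideal.span_singleton_eq_bot]
  have hfin : FiniteMultiplicity v.asIdeal (Ideal.span {b}) :=
    FiniteMultiplicity.of_prime_left v.prime hb'
  obtain ⟨J, hJ, hJv⟩ := hfin.exists_eq_pow_mul_and_not_dvd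
  have hcop : IsCoprime (v.asIdeal ^ multiplicity v.asIdeal (Ideal.span {b})) J := by
    apply IsCoprime.pow_left
    rw [Ideal.isCoprime_iff_sup_eq]
    refine v.isMaximal.out.2 _ (left_lt_sup.2 fun h => hJv (Ideal.dvd_iff_le.2 h))
  obtain ⟨e, he, s, hs, hes⟩ := Ideal.isCoprime_iff_exists.1 hcop
  refine ⟨algebraMap (𝓞 K) K a / algebraMap (𝓞 K) K b * algebraMap (𝓞 K) K s, ?_,
    fun w hw => ?_⟩
  · have h2 : algebraMap (𝓞 K) K e + algebraMap (𝓞 K) K s = 1 := by
      rw [← map_add, hes, map_one]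
    have h1 : algebraMap (𝓞 K) K a / algebraMap (𝓞 K) K b -
        algebraMap (𝓞 K) K a / algebraMap (𝓞 K) K b * algebraMap (𝓞 K) K s =
        algebraMap (𝓞 K) K a / algebraMap (𝓞 K) K b * algebraMap (𝓞 K) K e := by
      linear_combination (-(algebraMap (𝓞 K) K a / algebraMap (𝓞 K) K b)) * h2
    rw [h1]
    exact Ps_val K v a b e hb0 he
  · apply Ps_val K w a b s hb0
    have h1 : w.asIdeal ^ multiplicity w.asIdeal (Ideal.span {b}) ∣ Ideal.span {b} :=
      pow_multiplicity_dvd _ _
    have hwv : w.asIdeal ≠ v.asIdeal := fun h => hw (HeightOneSpectrum.ext h)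
    have hcop2 : IsCoprime (w.asIdeal ^ multiplicity w.asIdeal (Ideal.span {b}))
        (v.asIdeal ^ multiplicity v.asIdeal (Ideal.span {b})) := by
      apply IsCoprime.pow
      rw [Ideal.isCoprime_iff_sup_eq]
      exact w.isMaximal.coprime_of_ne v.isMaximal hwv
    have h2 : w.asIdeal ^ multiplicity w.asIdeal (Ideal.span {b}) ∣ J := by
      refine hcop2.dvd_of_dvd_mul_left ?_
      rw [← hJ]
      exact h1
    exact Ideal.dvd_iff_le.1 h2 hs

theorem Ps_indep (K : Type) [Field K] [NumberField K] (v : HeightOneSpectrum (𝓞 K))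
    (x y y' : K) (hy : PsA K v x y) (hy' : PsA K v x y') : gch K y = gch K y' := by
  have h1 : gch K (y - y') = 1 := by
    apply Ps_int
    intro w
    by_cases hw : w = v
    · subst hw
      have h2 : y - y' = (x - y') - (x - y) := by ring
      rw [h2]
      exact (w.valuation K).map_sub_le hy'.1 hy.1
    · exact (w.valuation K).map_sub_le (hy.2 w hw) (hy'.2 w hw)
  calc gch K y = gch K ((y - y') + y') := by rw [sub_add_cancel]
    _ = _ := by rw [AddChar.map_add_eq_mul, h1, one_mul]

theorem Ps_add (K : Type) [Field K] [NumberField K] (v : HeightOneSpectrum (𝓞 K))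
    (x x' y y' : K) (hy : PsA K v x y) (hy' : PsA K v x' y') : PsA K v (x + x') (y + y') := by
  refine ⟨?_, fun w hw => (w.valuation K).map_add_le (hy.2 w hw) (hy'.2 w hw)⟩
  have h2 : x + x' - (y + y') = (x - y) + (x' - y') := by ring
  rw [h2]
  exact (v.valuation K).map_add_le hy.1 hy'.1

theorem Ps_zero (K : Type) [Field K] [NumberField K] (v : HeightOneSpectrum (𝓞 K)) (x : K)
    (hx : v.valuation K x ≤ 1) : PsA K v x 0 :=
  ⟨by rwa [sub_zero], fun w _ => by rw [map_zero]; exact zero_le_one⟩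

theorem Ps_sum {K ι : Type} [Field K] (ψ : AddChar K Circle) (T : Finset ι) (f : ι → K) :
    ψ (∑ i ∈ T, f i) = ∏ i ∈ T, ψ (f i) := by
  classical
  induction T using Finset.induction_on with
  | empty => simp
  | insert a T ha ih => rw [Finset.sum_insert ha, Finset.prod_insert ha, AddChar.map_add_eq_mul, ih]

/-- The local component at `v`. -/
noncomputable def Ps_psi (K : Type) [Field K] [NumberField K] (v : HeightOneSpectrum (𝓞 K)) :
    AddChar K Circle where
  toFun x := gch K (Ps_approx K v x).choose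
  map_zero_eq_one' := by
    rw [Ps_indep K v 0 _ 0 (Ps_approx K v 0).choose_spec (Ps_zero K v 0 (by simp)),
      AddChar.map_zero_eq_one]
  map_add_eq_mul' x y := by
    rw [← AddChar.map_add_eq_mul]
    exact Ps_indep K v (x + y) _ _ (Ps_approx K v (x + y)).choose_spec
      (Ps_add K v x y _ _ (Ps_approx K v x).choose_spec (Ps_approx K v y).choose_spec)

theorem Ps_eq (K : Type) [Field K] [NumberField K] (v : HeightOneSpectrum (𝓞 K)) (x y : K)
    (h : PsA K v x y) : Ps_psi K v x = gch K y :=
  Ps_indep K v x _ y (Ps_approx K v x).choose_spec h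

/-- The elements of the inverse of an ideal. -/
theorem Ps_inv (K : Type) [Field K] [NumberField K] (I : Ideal (𝓞 K)) (hI : I ≠ ⊥) (x : K) :
    x ∈ ((I : FractionalIdeal (nonZeroDivisors (𝓞 K)) K))⁻¹ ↔
      ∀ v : HeightOneSpectrum (𝓞 K), v.valuation K x ≤
        exp ((multiplicity v.asIdeal I : ℕ) : ℤ) := by
  rw [FractionalIdeal.mem_inv_iff (FractionalIdeal.coeIdeal_ne_zero.2 hI)]
  constructor
  · intro h v
    have hfin : FiniteMultiplicity v.asIdeal I := FiniteMultiplicity.of_prime_left v.prime hI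
    obtain ⟨k, hk⟩ : ∃ k, multiplicity v.asIdeal I = k := ⟨_, rfl⟩
    have h1 : ¬ v.asIdeal ^ (k + 1) ∣ I :=
      hfin.not_pow_dvd_of_multiplicity_lt (by rw [hk]; exact Nat.lt_succ_self k)
    rw [Ideal.dvd_iff_le, SetLike.not_le_iff_exists] at h1
    obtain ⟨s, hs, hs'⟩ := h1
    have hs0 : s ≠ 0 := fun h0 => hs' (by rw [h0]; exact zero_mem _)
    have h2 : exp (-(k : ℤ)) ≤ v.intValuation s := by
      rw [← v.intValuation_le_pow_iff_mem, v.intValuation_eq_exp_neg_multiplicity hs0, exp_le_exp,
        not_le] at hs'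
      rw [v.intValuation_eq_exp_neg_multiplicity hs0, exp_le_exp]
      push_cast at hs'
      omega
    have h3 := h (algebraMap (𝓞 K) K s) (FractionalIdeal.mem_coeIdeal_of_mem _ hs)
    rw [FractionalIdeal.mem_one_iff] at h3
    obtain ⟨t, ht⟩ := h3
    have h4 : v.valuation K (x * algebraMap (𝓞 K) K s) ≤ 1 := by
      rw [← ht]
      exact v.valuation_le_one t
    rw [map_mul, HeightOneSpectrum.valuation_of_algebraMap] at h4
    rw [hk]
    calc v.valuation K x = v.valuation K x * exp (-(k : ℤ)) * exp (k : ℤ) := by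
          rw [mul_assoc, ← exp_add, neg_add_cancel, exp_zero, mul_one]
      _ ≤ v.valuation K x * v.intValuation s * exp (k : ℤ) := by gcongr
      _ ≤ 1 * exp (k : ℤ) := by gcongr
      _ = _ := one_mul _
  · intro h y hy
    obtain ⟨s, hs, rfl⟩ := (FractionalIdeal.mem_coeIdeal _).1 hy
    have h1 : ∀ v : HeightOneSpectrum (𝓞 K), v.valuation K (x * algebraMap (𝓞 K) K s) ≤ 1 := by
      intro v
      have h2 : v.intValuation s ≤ exp (-((multiplicity v.asIdeal I : ℕ) : ℤ)) :=
        (v.intValuation_le_pow_iff_mem s _).2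
          (Ideal.dvd_iff_le.1 (pow_multiplicity_dvd v.asIdeal I) hs)
      rw [map_mul, HeightOneSpectrum.valuation_of_algebraMap]
      calc v.valuation K x * v.intValuation s ≤
          exp ((multiplicity v.asIdeal I : ℕ) : ℤ) *
            exp (-((multiplicity v.asIdeal I : ℕ) : ℤ)) := mul_le_mul' (h v) h2
        _ = 1 := by rw [← exp_add, add_neg_cancel, exp_zero]
    obtain ⟨t, ht⟩ := HeightOneSpectrum.mem_integers_of_valuation_le_one K _ h1
    rw [← ht]
    exact (FractionalIdeal.mem_one_iff _).2 ⟨t, rfl⟩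

/-- The elements with integral traces. -/
theorem Ps_dual (K : Type) [Field K] [NumberField K] (x : K) :
    (∀ t : 𝓞 K, ∃ n : ℤ, Algebra.trace ℚ K (algebraMap (𝓞 K) K t * x) = n) ↔
      ∀ v : HeightOneSpectrum (𝓞 K), v.valuation K x ≤
        exp ((multiplicity v.asIdeal (differentIdeal ℤ (𝓞 K)) : ℕ) : ℤ) := by
  rw [← Ps_inv K _ differentIdeal_ne_bot, coeIdeal_differentIdeal (K := ℚ), inv_inv,
    FractionalIdeal.mem_dual (one_ne_zero : (1 : FractionalIdeal (nonZeroDivisors (𝓞 K)) K) ≠ 0)]
  constructor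
  · intro h a ha
    obtain ⟨t, rfl⟩ := (FractionalIdeal.mem_one_iff _).1 ha
    obtain ⟨n, hn⟩ := h t
    refine ⟨n, ?_⟩
    rw [Algebra.traceForm_apply, mul_comm, hn]
    simp
  · intro h t
    obtain ⟨n, hn⟩ := h (algebraMap (𝓞 K) K t) ((FractionalIdeal.mem_one_iff _).2 ⟨t, rfl⟩)
    refine ⟨n, ?_⟩
    rw [Algebra.traceForm_apply, mul_comm] at hn
    rw [← hn]
    simp

theorem exists_psi (K : Type) [Field K] [NumberField K] : ∃ ψ d, Psi K ψ d := by
  classical
  refine ⟨Ps_psi K, fun v => ((multiplicity v.asIdeal (differentIdeal ℤ (𝓞 K)) : ℕ) : ℤ),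
    ?_, ?_, fun v => Int.natCast_nonneg _, ?_, ?_⟩
  · intro v x hx
    exact Ps_eq K v x x ⟨by rw [sub_self, map_zero]; exact zero_le_one, hx⟩
  · intro x T hx
    obtain ⟨y, hy⟩ : ∃ y : HeightOneSpectrum (𝓞 K) → K, ∀ v, PsA K v x (y v) :=
      ⟨fun v => (Ps_approx K v x).choose, fun v => (Ps_approx K v x).choose_spec⟩
    have h1 : gch K (x - ∑ v ∈ T, y v) = 1 := by
      apply Ps_int
      intro w
      by_cases hw : w ∈ T
      · have h2 : x - ∑ v ∈ T, y v = (x - y w) - ∑ v ∈ T.erase w, y v := by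
          rw [← Finset.add_sum_erase T y hw]
          ring
        rw [h2]
        exact (w.valuation K).map_sub_le (hy w).1 ((w.valuation K).map_sum_le fun v hv =>
          (hy v).2 w (Finset.ne_of_mem_erase hv).symm)
      · exact (w.valuation K).map_sub_le (hx w hw) ((w.valuation K).map_sum_le fun v hv =>
          (hy v).2 w fun h => hw (h ▸ hv))
    calc gch K x = gch K ((x - ∑ v ∈ T, y v) + ∑ v ∈ T, y v) := by rw [sub_add_cancel]
      _ = ∏ v ∈ T, gch K (y v) := by
        rw [AddChar.map_add_eq_mul, h1, one_mul, Ps_sum]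
      _ = _ := Finset.prod_congr rfl fun v _ => (Ps_eq K v x _ (hy v)).symm
  · refine (Ideal.finite_factors (differentIdeal_ne_bot (A := ℤ) (B := 𝓞 K))).subset ?_
    intro v hv
    by_contra hdvd
    apply hv
    have h1 : multiplicity v.asIdeal (differentIdeal ℤ (𝓞 K)) = 0 :=
      multiplicity_eq_zero.2 hdvd
    simp only [h1, Nat.cast_zero]
  · intro v x
    obtain ⟨d, hd⟩ : ∃ d : HeightOneSpectrum (𝓞 K) → ℕ,
      ∀ v, d v = multiplicity v.asIdeal (differentIdeal ℤ (𝓞 K)) := ⟨_, fun _ => rfl⟩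
    have hdual := Ps_dual K
    simp only [← hd] at hdual ⊢
    have hge : ∀ w, (1 : WithZero (Multiplicative ℤ)) ≤ exp ((d w : ℕ) : ℤ) := by
      intro w
      rw [← exp_zero, exp_le_exp]
      exact Int.natCast_nonneg _
    constructor
    · intro h
      by_contra hx
      push Not at hx
      obtain ⟨y, hy⟩ := Ps_approx K v x
      have hvy : v.valuation K y = v.valuation K x := by
        have h1 : y = x - (x - y) := by ring
        rw [h1]
        exact Valuation.map_sub_eq_of_lt_left _
          (lt_of_le_of_lt hy.1 (lt_of_le_of_lt (hge v) hx))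
      have h2 : ¬ ∀ t : 𝓞 K, ∃ n : ℤ, Algebra.trace ℚ K (algebraMap (𝓞 K) K t * y) = n := by
        rw [hdual y]
        intro h3
        have h4 := h3 v
        rw [hvy] at h4
        exact absurd h4 (not_le.2 hx)
      push Not at h2
      obtain ⟨t, ht⟩ := h2
      have h5 : gch K (algebraMap (𝓞 K) K t * y) ≠ 1 := by
        rw [ne_eq, Ps_gch_iff]
        rintro ⟨n, hn⟩
        exact ht n hn
      apply h5
      have h6 : Ps_psi K v (algebraMap (𝓞 K) K t * y) = gch K (algebraMap (𝓞 K) K t * y) := by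
        refine Ps_eq K v _ _ ⟨by rw [sub_self, map_zero]; exact zero_le_one, fun w hw => ?_⟩
        rw [map_mul]
        exact mul_le_one' (w.valuation_le_one t) (hy.2 w hw)
      have h7 : Ps_psi K v (algebraMap (𝓞 K) K t * (x - y)) = 1 := by
        rw [Ps_eq K v _ 0 (Ps_zero K v _ ?_), AddChar.map_zero_eq_one]
        rw [map_mul]
        exact mul_le_one' (v.valuation_le_one t) hy.1
      rw [← h6]
      have h8 := h (algebraMap (𝓞 K) K t) (v.valuation_le_one t)
      have h9 : algebraMap (𝓞 K) K t * x = algebraMap (𝓞 K) K t * y +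
          algebraMap (𝓞 K) K t * (x - y) := by ring
      rw [h9, AddChar.map_add_eq_mul, h7, mul_one] at h8
      exact h8
    · intro hx t ht
      obtain ⟨y, hy⟩ := Ps_approx K v (t * x)
      rw [Ps_eq K v _ y hy, Ps_gch_iff]
      have h1 : ∀ w : HeightOneSpectrum (𝓞 K), w.valuation K y ≤ exp ((d w : ℕ) : ℤ) := by
        intro w
        by_cases hw : w = v
        · subst hw
          have h2 : y = t * x - (t * x - y) := by ring
          rw [h2]
          refine (w.valuation K).map_sub_le ?_ (hy.1.trans (hge w))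
          rw [map_mul]
          calc w.valuation K t * w.valuation K x ≤ 1 * exp ((d w : ℕ) : ℤ) := mul_le_mul' ht hx
            _ = _ := one_mul _
        · exact (hy.2 w hw).trans (hge w)
      have h3 := (hdual y).2 h1 1
      rw [map_one, one_mul] at h3
      exact h3

end H38RT
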