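import Pool.Agent.H38.RT.Df

/-!
Row Qa. (about 170 lines): finite sums over quotients.
qs_eq_sum: the map i -> class of r i is a bijection from the index type to A / (B.addSubgroupOf A) (injective: if r i and r j have the same class then both i and j satisfy the
 uniqueness for x = r i; surjective by existence). If q is the class of r i then q.out and r i differ by an element of B, so f (q.out) = f (r i) by hf. Use finsum_comp_equiv / finsum_eq_sum_of_fintype.
exists_sec: B.relIndex A = (B.addSubgroupOf A).index is nonzero so the quotient is finite; choose r = out composed with Fin n equiv quotient.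
qs_self: index type Unit, r = 0.
relIndex: B.relIndex C * C.relIndex A = B.relIndex A (AddSubgroup.relIndex_mul_relIndex), so both are nonzero.
qs_sub: sections r of A/C and s of C/B; r i + s j is a section of A/B, f (r i + s j) = f (r i).
qs_map: phi induces a bijection of A/B with A'/B' (well defined and injective by h2 applied to differences, surjective by h3), finsum over an equivalence; f (phi (q.out)) = f (out of the image) by hf.
-/

set_option autoImplicit false

open WithZero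

namespace H38RT

variable {V V' : Type*} [AddCommGroup V] [AddCommGroup V']

theorem Qa_mk {A B : AddSubgroup V} (x y : A) :
    (QuotientAddGroup.mk x : A ⧸ B.addSubgroupOf A) = QuotientAddGroup.mk y ↔
      (y : V) - (x : V) ∈ B := by
  rw [QuotientAddGroup.eq, AddSubgroup.mem_addSubgroupOf, AddSubgroup.coe_add,
    AddSubgroup.coe_neg, neg_add_eq_sub]

theorem Qa_out {A B : AddSubgroup V} (q : A ⧸ B.addSubgroupOf A) (x : A)
    (h : QuotientAddGroup.mk x = q) : (x : V) - ((q.out : A) : V) ∈ B := by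
  rw [← Qa_mk, h, QuotientAddGroup.out_eq']

theorem Qa_inv {A B : AddSubgroup V} {f : V → ℂ} (hf : Inva A B f) {x y : V} (hx : x ∈ A)
    (h : y - x ∈ B) : f y = f x := by
  have h1 := hf x hx (y - x) h
  rwa [add_sub_cancel] at h1

theorem Qa_bij {A B : AddSubgroup V} {ι : Type*} (r : ι → V) (hr : ∀ i, r i ∈ A)
    (hu : ∀ x ∈ A, ∃! i, x - r i ∈ B) :
    Function.Bijective (fun i => (QuotientAddGroup.mk ⟨r i, hr i⟩ : A ⧸ B.addSubgroupOf A)) := by
  constructor
  · intro i j hij
    have h1 : r j - r i ∈ B := (Qa_mk _ _).1 hij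
    obtain ⟨k, -, hk⟩ := hu (r j) (hr j)
    rw [hk i h1, hk j (by
      show r j - r j ∈ B
      rw [sub_self]
      exact B.zero_mem)]
  · intro q
    obtain ⟨x, rfl⟩ := QuotientAddGroup.mk_surjective q
    obtain ⟨i, hi, -⟩ := hu (x : V) x.2
    exact ⟨i, (Qa_mk _ _).2 hi⟩

theorem qs_eq_sum {A B : AddSubgroup V} {f : V → ℂ} (hf : Inva A B f) {ι : Type*} [Fintype ι]
    (r : ι → V) (hr : ∀ i, r i ∈ A) (hu : ∀ x ∈ A, ∃! i, x - r i ∈ B) :
    qs A B f = ∑ i, f (r i) := by
  unfold qs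
  rw [← finsum_comp_equiv (Equiv.ofBijective _ (Qa_bij r hr hu)), finsum_eq_sum_of_fintype]
  refine Finset.sum_congr rfl fun i _ => ?_
  exact (Qa_inv hf (SetLike.coe_mem _) (Qa_out _ ⟨r i, hr i⟩ rfl)).symm

theorem exists_sec {A B : AddSubgroup V} (h : B.relIndex A ≠ 0) :
    ∃ r : Fin (B.relIndex A) → V, (∀ i, r i ∈ A) ∧ ∀ x ∈ A, ∃! i, x - r i ∈ B := by
  have hfin : Finite (A ⧸ B.addSubgroupOf A) := Nat.finite_of_card_ne_zero h
  have e : (A ⧸ B.addSubgroupOf A) ≃ Fin (B.relIndex A) := Finite.equivFin _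
  refine ⟨fun i => (((e.symm i).out : A) : V), fun i => SetLike.coe_mem _, fun x hx => ?_⟩
  refine ⟨e (QuotientAddGroup.mk ⟨x, hx⟩), ?_, ?_⟩
  · show x - (((e.symm (e (QuotientAddGroup.mk ⟨x, hx⟩))).out : A) : V) ∈ B
    rw [Equiv.symm_apply_apply]
    exact Qa_out _ ⟨x, hx⟩ rfl
  · intro i hi
    have h1 : (QuotientAddGroup.mk (e.symm i).out : A ⧸ B.addSubgroupOf A) =
        QuotientAddGroup.mk ⟨x, hx⟩ := (Qa_mk _ _).2 hi
    rw [QuotientAddGroup.out_eq'] at h1
    rw [← h1, Equiv.apply_symm_apply]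

theorem relIndex_of_sec {A B : AddSubgroup V} {ι : Type*} [Fintype ι]
    (r : ι → V) (hr : ∀ i, r i ∈ A) (hu : ∀ x ∈ A, ∃! i, x - r i ∈ B) :
    B.relIndex A = Fintype.card ι := by
  rw [← Nat.card_eq_fintype_card]
  exact (Nat.card_congr (Equiv.ofBijective _ (Qa_bij r hr hu))).symm

theorem qs_self {A : AddSubgroup V} {f : V → ℂ} (hf : Inva A A f) : qs A A f = f 0 := by
  rw [qs_eq_sum hf (fun _ : Unit => (0 : V)) (fun _ => A.zero_mem) (fun x hx =>
    ⟨(), by
      show x - 0 ∈ A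
      rwa [sub_zero], fun _ _ => rfl⟩)]
  simp

theorem qs_congr {A B : AddSubgroup V} {f g : V → ℂ} (h : ∀ x ∈ A, f x = g x) :
    qs A B f = qs A B g := by
  unfold qs
  exact finsum_congr fun q => h _ (SetLike.coe_mem _)

theorem qs_sub {A B C : AddSubgroup V} (hBC : B ≤ C) (hCA : C ≤ A) (h : B.relIndex A ≠ 0)
    {f : V → ℂ} (hf : Inva A C f) : qs A B f = (B.relIndex C : ℂ) * qs A C f := by
  have h1 : B.relIndex C * C.relIndex A = B.relIndex A :=
    AddSubgroup.relIndex_mul_relIndex B C A hBC hCA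
  rw [← h1] at h
  obtain ⟨r, hr, hru⟩ := exists_sec (right_ne_zero_of_mul h)
  obtain ⟨s, hs, hsu⟩ := exists_sec (left_ne_zero_of_mul h)
  have hfB : Inva A B f := fun x hx b hb => hf x hx b (hBC hb)
  rw [qs_eq_sum hf r hr hru, qs_eq_sum hfB (fun k : Fin (C.relIndex A) × Fin (B.relIndex C) =>
    r k.1 + s k.2) (fun k => A.add_mem (hr _) (hCA (hs _))) ?_]
  · rw [Fintype.sum_prod_type, Finset.mul_sum]
    refine Finset.sum_congr rfl fun i _ => ?_
    rw [Finset.sum_congr rfl fun j _ => hf (r i) (hr i) (s j) (hs j), Finset.sum_const,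
      Finset.card_univ, Fintype.card_fin, nsmul_eq_mul]
  · intro x hx
    obtain ⟨i, hi, hiu⟩ := hru x hx
    obtain ⟨j, hj, hju⟩ := hsu (x - r i) hi
    refine ⟨(i, j), ?_, ?_⟩
    · show x - (r i + s j) ∈ B
      rwa [← sub_sub]
    · rintro ⟨i', j'⟩ hij
      have h2 : x - (r i' + s j') ∈ B := hij
      have h3 : x - r i' ∈ C := by
        have h4 : x - r i' = x - (r i' + s j') + s j' := by abel
        rw [h4]
        exact C.add_mem (hBC h2) (hs j')
      have h5 : i' = i := hiu i' h3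
      subst h5
      rw [← sub_sub] at h2
      rw [hju j' h2]

theorem qs_map (φ : V →+ V') {A B : AddSubgroup V} {A' B' : AddSubgroup V'}
    (h1 : ∀ x ∈ A, φ x ∈ A') (h2 : ∀ x ∈ A, (φ x ∈ B' ↔ x ∈ B))
    (h3 : ∀ y ∈ A', ∃ x ∈ A, y - φ x ∈ B') {f : V' → ℂ} (hf : Inva A' B' f) :
    qs A B (fun x => f (φ x)) = qs A' B' f ∧ B.relIndex A = B'.relIndex A' := by
  have hbij : Function.Bijective (fun q : A ⧸ B.addSubgroupOf A =>
      (QuotientAddGroup.mk ⟨φ ((q.out : A) : V), h1 _ (SetLike.coe_mem _)⟩ :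
        A' ⧸ B'.addSubgroupOf A')) := by
    constructor
    · intro q q' hq
      have h4 : φ ((q'.out : A) : V) - φ ((q.out : A) : V) ∈ B' := (Qa_mk _ _).1 hq
      rw [← map_sub, h2 _ (A.sub_mem (SetLike.coe_mem _) (SetLike.coe_mem _))] at h4
      rw [← QuotientAddGroup.out_eq' q, ← QuotientAddGroup.out_eq' q']
      exact (Qa_mk _ _).2 h4
    · intro q
      obtain ⟨y, rfl⟩ := QuotientAddGroup.mk_surjective q
      obtain ⟨x, hx, hxy⟩ := h3 (y : V') y.2
      refine ⟨QuotientAddGroup.mk ⟨x, hx⟩, (Qa_mk _ _).2 ?_⟩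
      obtain ⟨z, hz⟩ : ∃ z : A, z =
        (QuotientAddGroup.mk ⟨x, hx⟩ : A ⧸ B.addSubgroupOf A).out := ⟨_, rfl⟩
      rw [← hz]
      show (y : V') - φ (z : V) ∈ B'
      have h5 : x - (z : V) ∈ B := by
        rw [hz]
        exact Qa_out _ ⟨x, hx⟩ rfl
      have h6 : φ (x - (z : V)) ∈ B' := (h2 _ (A.sub_mem hx z.2)).2 h5
      have h7 : (y : V') - φ (z : V) = ((y : V') - φ x) + φ (x - (z : V)) := by
        rw [map_sub]
        abel
      rw [h7]
      exact B'.add_mem hxy h6
  constructor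
  · unfold qs
    rw [← finsum_comp_equiv (Equiv.ofBijective _ hbij)]
    refine finsum_congr fun q => ?_
    exact Qa_inv hf (SetLike.coe_mem _)
      (Qa_out _ ⟨φ ((q.out : A) : V), h1 _ (SetLike.coe_mem _)⟩ rfl)
  · exact Nat.card_congr (Equiv.ofBijective _ hbij)

end H38RT
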