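import Pool.Agent.H38.RT.Ba

/-!
Row Rf. (about 110 lines): the residue field.
 Take F = IsLocalRing.ResidueField V.valuationSubring (a field), r x = residue of x if V x <= 1 and 0 otherwise. V x <= 1 iff x in V.valuationSubring; residue x = 0 iff x is not a unit iff V x < 1 (Valuation.mem_maximalIdeal_iff or
 V.isUnit_iff). F is finite with q elements: the additive quotient (ball 0) / (ball 1) is in bijection with F: V x < 1 iff V x <= exp (-1) (discreteness: WithZero.lt_exp_iff or log; x <> 0: V x = exp n, n < 0 iff n <= -1);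
 h.card, h.pos: Nat.card of the quotient = relIndex = q <> 0 so finite.
-/

set_option autoImplicit false

open WithZero

namespace H38RT

variable {K : Type*} [Field K] {V : Valuation K (WithZero (Multiplicative ℤ))} {π : K} {q : ℕ}
  {d : ℤ} {ψ : AddChar K Circle}

lemma Rf_lt {x : K} : V x < 1 ↔ V x ≤ exp (-1 : ℤ) := by
  by_cases hx : V x = 0
  · rw [hx]
    exact ⟨fun _ => zero_le, fun _ => zero_lt_one⟩
  · rw [← exp_log hx, ← exp_zero, exp_lt_exp, exp_le_exp]
    omega

/-- the residue map on the ball of radius zero -/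
noncomputable def rfHom (V : Valuation K (WithZero (Multiplicative ℤ))) :
    ball V 0 →+ IsLocalRing.ResidueField V.valuationSubring where
  toFun x := IsLocalRing.residue V.valuationSubring ⟨x.1, by
    have h := x.2
    rw [mem_ball, neg_zero, exp_zero] at h
    exact h⟩
  map_zero' := map_zero (IsLocalRing.residue V.valuationSubring)
  map_add' x y := by
    rw [← map_add]
    rfl

lemma Rf_residue {x : V.valuationSubring} :
    IsLocalRing.residue V.valuationSubring x = 0 ↔ V x < 1 := by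
  rw [IsLocalRing.residue_eq_zero_iff, Valuation.mem_maximalIdeal_iff]

lemma Rf_card (h : Loc V π q d ψ) :
    Nat.card (IsLocalRing.ResidueField V.valuationSubring) = q := by
  have h1 : (rfHom V).ker = (ball V 1).addSubgroupOf (ball V 0) := by
    ext x
    rw [AddMonoidHom.mem_ker, AddSubgroup.mem_addSubgroupOf, mem_ball, ← Rf_lt]
    exact Rf_residue
  have h2 : (rfHom V).range = ⊤ := by
    rw [AddMonoidHom.range_eq_top]
    intro a
    obtain ⟨y, rfl⟩ := IsLocalRing.residue_surjective a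
    refine ⟨⟨y.1, ?_⟩, rfl⟩
    rw [mem_ball, neg_zero, exp_zero]
    exact y.2
  have h3 := AddSubgroup.index_ker (rfHom V)
  rw [h1, h2, AddSubgroup.card_top] at h3
  rw [← h3]
  exact h.card

lemma Rf_base : ∃ r : K → IsLocalRing.ResidueField V.valuationSubring,
    r 1 = 1 ∧
    (∀ x y, V x ≤ 1 → V y ≤ 1 → r (x + y) = r x + r y ∧ r (x * y) = r x * r y) ∧
    (∀ x, V x ≤ 1 → (r x = 0 ↔ V x < 1)) ∧
    (∀ a : IsLocalRing.ResidueField V.valuationSubring, ∃ x, V x ≤ 1 ∧ r x = a) := by
  classical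
  have hr : ∀ x (hx : V x ≤ 1), (fun x => if hx : V x ≤ 1 then
      IsLocalRing.residue V.valuationSubring ⟨x, hx⟩ else 0) x =
      IsLocalRing.residue V.valuationSubring ⟨x, hx⟩ := fun x hx => dif_pos hx
  refine ⟨fun x => if hx : V x ≤ 1 then IsLocalRing.residue V.valuationSubring ⟨x, hx⟩ else 0,
    ?_, ?_, ?_, ?_⟩
  · rw [hr 1 (map_one V).le]
    exact map_one (IsLocalRing.residue V.valuationSubring)
  · intro x y hx hy
    have hxy : V (x + y) ≤ 1 := (V.map_add x y).trans (max_le hx hy)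
    have hxy' : V (x * y) ≤ 1 := by
      rw [map_mul]
      exact mul_le_one' hx hy
    rw [hr x hx, hr y hy, hr _ hxy, hr _ hxy', ← map_add, ← map_mul]
    exact ⟨rfl, rfl⟩
  · intro x hx
    rw [hr x hx]
    exact Rf_residue
  · intro a
    obtain ⟨y, rfl⟩ := IsLocalRing.residue_surjective a
    exact ⟨y.1, y.2, hr y.1 y.2⟩

lemma Rf_small.{v, u} (α : Type u) [Field α] [Finite α] :
    ∃ (F : Type v) (_ : Field F), Nonempty (F ≃+* α) := by
  have : Small.{v} α := Countable.toSmall α
  exact ⟨Shrink.{v} α, inferInstance, ⟨Shrink.ringEquiv α⟩⟩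

theorem exists_res (h : Loc V π q d ψ) : ∃ (F : Type _) (_ : Field F) (_ : Fintype F) (r : K → F),
    Fintype.card F = q ∧ r 1 = 1 ∧
    (∀ x y, V x ≤ 1 → V y ≤ 1 → r (x + y) = r x + r y ∧ r (x * y) = r x * r y) ∧
    (∀ x, V x ≤ 1 → (r x = 0 ↔ V x < 1)) ∧ (∀ a : F, ∃ x, V x ≤ 1 ∧ r x = a) := by
  have hcard := Rf_card h
  have hfin : Finite (IsLocalRing.ResidueField V.valuationSubring) := by
    apply Nat.finite_of_card_ne_zero
    rw [hcard]
    exact h.pos
  obtain ⟨r, h1, h2, h3, h4⟩ := Rf_base (V := V)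
  obtain ⟨F, hF, ⟨e⟩⟩ := Rf_small (IsLocalRing.ResidueField V.valuationSubring)
  have hfin2 : Finite F := Finite.of_equiv _ e.symm.toEquiv
  have hFt : Fintype F := Fintype.ofFinite F
  obtain ⟨r', hr'⟩ : ∃ r' : K → F, ∀ x, r' x = e.symm (r x) := ⟨_, fun _ => rfl⟩
  refine ⟨F, hF, hFt, r', ?_, ?_, ?_, ?_, ?_⟩
  · rw [← Nat.card_eq_fintype_card, Nat.card_congr e.toEquiv, hcard]
  · rw [hr', h1, map_one]
  · intro x y hx hy
    obtain ⟨k1, k2⟩ := h2 x y hx hy
    rw [hr', hr', hr', hr', k1, k2, map_add, map_mul]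
    exact ⟨rfl, rfl⟩
  · intro x hx
    rw [← h3 x hx, hr']
    exact map_eq_zero_iff e.symm e.symm.injective
  · intro a
    obtain ⟨x, hx, hxa⟩ := h4 (e a)
    exact ⟨x, hx, by rw [hr', hxa, e.symm_apply_apply]⟩

end H38RT
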