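import Pool.Agent.H38.RT.Ba
import Pool.Agent.H38.RT.Qb
import Pool.Agent.H38.RT.Qc
import Pool.Agent.H38.RT.Rf
import Pool.Agent.H38.RT.Fe

/-!
Row Tw. (about 220 lines): the local factor at a place above two: V 2 < 1, V z = 1, V c0 <= 1. s := ord u + 2 j + d >= 0, B j := (ball j) x (ball j), P j := perp psi (nb u z c0) (B j) = (ball (j - s))^2 (perp_nb_two, -d - j - ord u = j - s).
 gs_two: strong induction on s. s >= 2: qs_red with A = P j, B = B j, C = B (j-1): C <= A, psi (u nf) = 1 on C as V (u nf) <= exp (-ord u - 2 (j-1)) <= exp d; A inf perp C = perp C; relIndex of B j in B (j-1) is q^2 (qs_prod second part, or AddSubgroup.relIndex_prod,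
  ball_index). So the sum for j is q^2 times the sum for j - 1, and (+-q)^s = q^2 (+-q)^(s-2). s = 0: P j = B j, qs_self. s = 1: P j = B (j-1). Residue field F, r (exists_res), q = card F, CharP F 2 (r 2 = 0 = r 1 + r 1). x0 = pi^(j-1), c1 = u x0^2 has ord = -d-1,
  rho a := psi (c1 a') (a' a lift of a) a nontrivial additive character of F as in the file Ub; the section (x0 a', x0 b') of B (j-1) / B j over F x F gives the sum of rho (a^2 + r(z) a b + r(c0) b^2), r z <> 0: gs_bin.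
  The condition exists t, V (t^2 + z t + c0) < 1 is equivalent to a root in F of T^2 + r(z) T + r(c0).
 gs_two_ratio: j = 0. GS psi 1 = (+-q)^d, GS psi u = (+-q)^(ord u + d): the ratio is (+-1)^(ord u) q^(ord u), sign = sgn2 (ord u * kap).
-/

set_option autoImplicit false

open WithZero

namespace H38RT

variable {K : Type*} [Field K] {V : Valuation K (WithZero (Multiplicative ℤ))} {π : K} {q : ℕ}
  {d : ℤ} {ψ : AddChar K Circle}

theorem Tw_cond (h : Loc V π q d ψ) {x : K} (hx : V x ≤ exp d) : ψ x = 1 := by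
  have := (h.cond x).2 hx 1 (by rw [map_one])
  rwa [one_mul] at this

theorem Tw_nf {z c₀ : K} (hz : V z = 1) (hc : V c₀ ≤ 1) {j : ℤ} {x : K × K}
    (hx : x ∈ (ball V j).prod (ball V j)) : V (nf z c₀ x) ≤ exp (-(2 * j)) := by
  obtain ⟨h1, h2⟩ := AddSubgroup.mem_prod.1 hx
  rw [mem_ball] at h1 h2
  have e : (exp (-(2 * j)) : WithZero (Multiplicative ℤ)) = exp (-j) * exp (-j) := by
    rw [← exp_add]; congr 1; ring
  unfold nf
  rw [e]
  refine (V.map_add _ _).trans (max_le ((V.map_add _ _).trans (max_le ?_ ?_)) ?_)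
  · rw [map_pow, pow_two]
    exact mul_le_mul' h1 h1
  · rw [map_mul, map_mul, hz, one_mul]
    exact mul_le_mul' h1 h2
  · rw [map_mul, map_pow, pow_two]
    exact (mul_le_of_le_one_left' hc).trans (mul_le_mul' h2 h2)

theorem Tw_psi (h : Loc V π q d ψ) {u z c₀ : K} (hu : u ≠ 0) (hz : V z = 1)
    (hc : V c₀ ≤ 1) {j : ℤ} (hs : 0 ≤ ord V u + 2 * j + d) {x : K × K}
    (hx : x ∈ (ball V j).prod (ball V j)) : ψ (u * nf z c₀ x) = 1 := by
  refine Tw_cond h ?_
  rw [map_mul, V_eq hu]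
  refine (mul_le_mul_right (Tw_nf hz hc hx) _).trans ?_
  rw [← exp_add, exp_le_exp]
  omega

theorem Tw_inva (h : Loc V π q d ψ) {u z c₀ : K} (hu : u ≠ 0) (hz : V z = 1)
    (hc : V c₀ ≤ 1) {j : ℤ} (hs : 0 ≤ ord V u + 2 * j + d) :
    Inva (perp ψ (nb u z c₀) ((ball V j).prod (ball V j))) ((ball V j).prod (ball V j))
        (fun x => (ψ (u * nf z c₀ x) : ℂ)) := by
  intro x hx b hb
  have h1 : ψ (u * nf z c₀ (x + b)) = ψ (u * nf z c₀ x) := by
    rw [nf_add, AddChar.map_add_eq_mul, AddChar.map_add_eq_mul, Tw_psi h hu hz hc hs hb,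
      mem_perp.1 hx b hb, mul_one, mul_one]
  simp only [h1]

theorem Tw_index (h : Loc V π q d ψ) (n : ℕ) {i j : ℤ} (hij : j = i + n) :
    ((ball V j).prod (ball V j)).relIndex ((ball V i).prod (ball V i)) = q ^ n * q ^ n := by
  have h1 : (ball V j).relIndex (ball V i) = q ^ n := by
    rw [hij]; exact ball_index h n i
  have h0 : (ball V j).relIndex (ball V i) ≠ 0 := by
    rw [h1]; exact pow_ne_zero _ h.pos
  have h2 := (qs_prod (f := fun _ : K => (1 : ℂ)) (g := fun _ : K => (1 : ℂ)) h0 h0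
    (fun _ _ _ _ => rfl) (fun _ _ _ _ => rfl)).2
  rw [h2, h1]

theorem Tw_relne (h : Loc V π q d ψ) (h2 : V 2 < 1) {u z c₀ : K} (hu : u ≠ 0) (hz : V z = 1)
    (hc : V c₀ ≤ 1) {j : ℤ} (hs : 0 ≤ ord V u + 2 * j + d) :
    ((ball V j).prod (ball V j)).relIndex
      (perp ψ (nb u z c₀) ((ball V j).prod (ball V j))) ≠ 0 := by
  rw [perp_nb_two h h2 hu hz hc, Tw_index h (ord V u + 2 * j + d).toNat (by omega)]
  exact mul_ne_zero (pow_ne_zero _ h.pos) (pow_ne_zero _ h.pos)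

open scoped Classical in
theorem Tw_zero (h : Loc V π q d ψ) (h2 : V 2 < 1) {u z c₀ : K} (hu : u ≠ 0) (hz : V z = 1)
    (hc : V c₀ ≤ 1) {j : ℤ} (hs : ord V u + 2 * j + d = 0) :
    qs (perp ψ (nb u z c₀) ((ball V j).prod (ball V j))) ((ball V j).prod (ball V j))
        (fun x => (ψ (u * nf z c₀ x) : ℂ)) = 1 := by
  have hI := Tw_inva h hu hz hc (j := j) hs.ge
  have e : -d - j - ord V u = j := by omega
  rw [perp_nb_two h h2 hu hz hc, e] at hI ⊢
  rw [qs_self hI]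
  have e0 : u * nf z c₀ (0 : K × K) = 0 := by
    unfold nf
    simp
  rw [e0, AddChar.map_zero_eq_one]
  rfl

open scoped Classical in
theorem Tw_aux.{w} (h : Loc V π q d ψ) (h2 : V 2 < 1) {u z c₀ : K} (hu : u ≠ 0) (hz : V z = 1)
    (hc : V c₀ ≤ 1) {j : ℤ} (hs : ord V u + 2 * j + d = 1)
    (hres : ∃ (F : Type w) (_ : Field F) (_ : Fintype F) (r : K → F),
      Fintype.card F = q ∧ r 1 = 1 ∧
      (∀ x y, V x ≤ 1 → V y ≤ 1 → r (x + y) = r x + r y ∧ r (x * y) = r x * r y) ∧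
      (∀ x, V x ≤ 1 → (r x = 0 ↔ V x < 1)) ∧ (∀ a : F, ∃ x, V x ≤ 1 ∧ r x = a)) :
    qs (perp ψ (nb u z c₀) ((ball V j).prod (ball V j))) ((ball V j).prod (ball V j))
        (fun x => (ψ (u * nf z c₀ x) : ℂ)) =
      (if ∃ t : K, V (t ^ 2 + z * t + c₀) < 1 then (q : ℂ) else -(q : ℂ)) := by
  have hI := Tw_inva h hu hz hc (j := j) (by omega)
  have e : -d - j - ord V u = j - 1 := by omega
  rw [perp_nb_two h h2 hu hz hc, e] at hI ⊢
  obtain ⟨F, iF, iFt, r, hcard, r1, rh, rz, rs⟩ := hres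
  -- the residue map
  have V0 : V (0 : K) < 1 := by rw [map_zero]; exact one_pos
  have r0 : r 0 = 0 := (rz 0 V0.le).2 V0
  have rneg : ∀ x, V x ≤ 1 → r (-x) = - r x := by
    intro x hx
    have h1 := (rh x (-x) hx (by rwa [Valuation.map_neg])).1
    rw [add_neg_cancel, r0] at h1
    exact eq_neg_of_add_eq_zero_right h1.symm
  have rsub : ∀ x y, V x ≤ 1 → V y ≤ 1 → r (x - y) = r x - r y := by
    intro x y hx hy
    rw [sub_eq_add_neg, (rh x (-y) hx (by rwa [Valuation.map_neg])).1, rneg y hy, sub_eq_add_neg]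
  have req : ∀ x y, V x ≤ 1 → V y ≤ 1 → (r x = r y ↔ V (x - y) < 1) := by
    intro x y hx hy
    rw [← rz (x - y) ((V.map_sub x y).trans (max_le hx hy)), rsub x y hx hy, sub_eq_zero]
  have hlt : ∀ x : K, V x < 1 ↔ V x ≤ exp (-1) := by
    intro x
    by_cases hx : x = 0
    · rw [hx, map_zero]
      simp
    · rw [V_eq hx, ← exp_zero, exp_lt_exp, exp_le_exp]
      omega
  have : CharP F 2 := by
    have h20 : ((2 : ℕ) : F) = 0 := by
      have h3 := (rh 1 1 (map_one V).le (map_one V).le).1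
      rw [one_add_one_eq_two, (rz 2 h2.le).2 h2, r1, one_add_one_eq_two] at h3
      exact_mod_cast h3.symm
    exact ringChar.of_eq (CharP.ringChar_of_prime_eq_zero Nat.prime_two h20)
  choose lf hl1 hl2 using rs
  obtain ⟨ox, x0ne⟩ := ord_pi h (j - 1)
  have hVx : V (π ^ (j - 1)) = exp (-(j - 1)) := by rw [V_eq x0ne, ox]
  have hVc : V (u * (π ^ (j - 1)) ^ 2) = exp (d + 1) := by
    rw [map_mul, map_pow, hVx, V_eq hu, pow_two, ← exp_add, ← exp_add]
    congr 1
    omega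
  have hψs : ∀ x, V x < 1 → ψ (u * (π ^ (j - 1)) ^ 2 * x) = 1 := by
    intro x hx
    refine Tw_cond h ?_
    rw [map_mul, hVc]
    refine (mul_le_mul_right ((hlt x).1 hx) _).trans ?_
    rw [← exp_add, exp_le_exp]
    omega
  have hψe : ∀ x y, V x ≤ 1 → V y ≤ 1 → r x = r y →
      ψ (u * (π ^ (j - 1)) ^ 2 * x) = ψ (u * (π ^ (j - 1)) ^ 2 * y) := by
    intro x y hx hy hxy
    have h1 := hψs (x - y) ((req x y hx hy).1 hxy)
    have h3 : u * (π ^ (j - 1)) ^ 2 * x = u * (π ^ (j - 1)) ^ 2 * (x - y) +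
      u * (π ^ (j - 1)) ^ 2 * y := by ring
    rw [h3, AddChar.map_add_eq_mul, h1, one_mul]
  let ρ : AddChar F Circle :=
    { toFun := fun a => ψ (u * (π ^ (j - 1)) ^ 2 * lf a)
      map_zero_eq_one' := hψs _ ((rz _ (hl1 0)).1 (hl2 0))
      map_add_eq_mul' := by
        intro a b
        rw [← AddChar.map_add_eq_mul, ← mul_add]
        have hab : V (lf a + lf b) ≤ 1 := (V.map_add _ _).trans (max_le (hl1 a) (hl1 b))
        refine hψe _ _ (hl1 _) hab ?_
        rw [hl2, (rh _ _ (hl1 a) (hl1 b)).1, hl2, hl2] }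
  have hρ : ∀ x, V x ≤ 1 → ψ (u * (π ^ (j - 1)) ^ 2 * x) = ρ (r x) := by
    intro x hx
    exact hψe _ _ hx (hl1 _) (hl2 _).symm
  have hρ1 : ρ ≠ 1 := by
    intro h1
    have h3 : ¬ V (u * (π ^ (j - 1)) ^ 2) ≤ exp d := by
      rw [hVc, exp_le_exp]; omega
    apply h3
    rw [← h.cond]
    intro t ht
    rw [mul_comm, hρ t ht, h1, AddChar.one_apply]
  have hcoord : ∀ x, x ∈ ball V (j - 1) → ∀ a : F,
      (x - π ^ (j - 1) * lf a ∈ ball V j ↔ a = r (x / π ^ (j - 1))) := by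
    intro x hx a
    have hy : V (x / π ^ (j - 1)) ≤ 1 := by
      rw [map_div₀, hVx]
      refine (div_le_iff₀ (by rw [zero_lt_iff]; exact exp_ne_zero)).2 ?_
      rw [one_mul]
      exact hx
    have e1 : x - π ^ (j - 1) * lf a = π ^ (j - 1) * (x / π ^ (j - 1) - lf a) := by
      field_simp
    have e2 : j = -1 + (2 + (j - 1)) := by ring
    have e3 : x - π ^ (j - 1) * lf a ∈ ball V j ↔ x / π ^ (j - 1) - lf a ∈ ball V 1 := by
      have e4 := ball_scale (V := V) x0ne 1 (x / π ^ (j - 1) - lf a)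
      rw [ox] at e4
      rw [e1, ← e4]
      have e5 : 1 + (j - 1) = j := by ring
      rw [e5]
    rw [e3, mem_ball, ← hlt, ← req _ _ hy (hl1 a), hl2]
    exact eq_comm
  have hmem : ∀ a : F, π ^ (j - 1) * lf a ∈ ball V (j - 1) := by
    intro a
    rw [mem_ball, map_mul, hVx]
    exact mul_le_of_le_one_right' (hl1 a)
  have hsum := qs_eq_sum hI (ι := F × F)
    (fun i => (π ^ (j - 1) * lf i.1, π ^ (j - 1) * lf i.2))
    (fun i => AddSubgroup.mem_prod.2 ⟨hmem _, hmem _⟩)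
    (by
      intro x hx
      obtain ⟨hx1, hx2⟩ := AddSubgroup.mem_prod.1 hx
      refine ⟨(r (x.1 / π ^ (j - 1)), r (x.2 / π ^ (j - 1))), ?_, ?_⟩
      · exact AddSubgroup.mem_prod.2 ⟨(hcoord _ hx1 _).2 rfl, (hcoord _ hx2 _).2 rfl⟩
      · rintro ⟨a, b⟩ hab
        obtain ⟨ha, hb⟩ := AddSubgroup.mem_prod.1 hab
        exact Prod.ext ((hcoord _ hx1 _).1 ha) ((hcoord _ hx2 _).1 hb))
  rw [hsum]
  have hrz : r z ≠ 0 := by
    intro h0
    have := (rz z hz.le).1 h0
    rw [hz] at this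
    exact lt_irrefl _ this
  have hterm : ∀ i : F × F,
      (ψ (u * nf z c₀ (π ^ (j - 1) * lf i.1, π ^ (j - 1) * lf i.2)) : ℂ) =
      (ρ (i.1 ^ 2 + r z * i.1 * i.2 + r c₀ * i.2 ^ 2) : ℂ) := by
    rintro ⟨a, b⟩
    have e1 : u * nf z c₀ (π ^ (j - 1) * lf a, π ^ (j - 1) * lf b) =
        u * (π ^ (j - 1)) ^ 2 * (lf a * lf a + z * (lf a * lf b) + c₀ * (lf b * lf b)) := by
      unfold nf
      ring
    have v1 : V (lf a * lf a) ≤ 1 := by rw [map_mul]; exact mul_le_one' (hl1 a) (hl1 a)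
    have v2 : V (lf a * lf b) ≤ 1 := by rw [map_mul]; exact mul_le_one' (hl1 a) (hl1 b)
    have v3 : V (lf b * lf b) ≤ 1 := by rw [map_mul]; exact mul_le_one' (hl1 b) (hl1 b)
    have v4 : V (z * (lf a * lf b)) ≤ 1 := by rw [map_mul]; exact mul_le_one' hz.le v2
    have v5 : V (c₀ * (lf b * lf b)) ≤ 1 := by rw [map_mul]; exact mul_le_one' hc v3
    have v6 : V (lf a * lf a + z * (lf a * lf b)) ≤ 1 := (V.map_add _ _).trans (max_le v1 v4)
    have v7 : V (lf a * lf a + z * (lf a * lf b) + c₀ * (lf b * lf b)) ≤ 1 :=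
      (V.map_add _ _).trans (max_le v6 v5)
    have e2 : r (lf a * lf a + z * (lf a * lf b) + c₀ * (lf b * lf b)) =
        a ^ 2 + r z * a * b + r c₀ * b ^ 2 := by
      rw [(rh _ _ v6 v5).1, (rh _ _ v1 v4).1, (rh _ _ (hl1 a) (hl1 a)).2, (rh _ _ hz.le v2).2,
        (rh _ _ (hl1 a) (hl1 b)).2, (rh _ _ hc v3).2, (rh _ _ (hl1 b) (hl1 b)).2, hl2, hl2]
      ring
    simp only
    rw [e1, hρ _ v7, e2]
  rw [Finset.sum_congr rfl fun i _ => hterm i, gs_bin ρ hρ1 hrz, hcard]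
  have hiff : (∃ t : F, t ^ 2 + r z * t + r c₀ = 0) ↔ ∃ t : K, V (t ^ 2 + z * t + c₀) < 1 := by
    constructor
    · rintro ⟨t, ht⟩
      refine ⟨lf t, ?_⟩
      have v1 : V (lf t * lf t) ≤ 1 := by rw [map_mul]; exact mul_le_one' (hl1 t) (hl1 t)
      have v2 : V (z * lf t) ≤ 1 := by rw [map_mul]; exact mul_le_one' hz.le (hl1 t)
      have v3 : V (lf t * lf t + z * lf t) ≤ 1 := (V.map_add _ _).trans (max_le v1 v2)
      have v4 : V (lf t * lf t + z * lf t + c₀) ≤ 1 := (V.map_add _ _).trans (max_le v3 hc)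
      rw [pow_two, ← rz _ v4, (rh _ _ v3 hc).1, (rh _ _ v1 v2).1, (rh _ _ (hl1 t) (hl1 t)).2,
        (rh _ _ hz.le (hl1 t)).2, hl2, ← pow_two]
      exact ht
    · rintro ⟨t, ht⟩
      have vt : V t ≤ 1 := by
        by_contra hcon
        rw [not_le] at hcon
        have ht0 : t ≠ 0 := by
          rintro rfl
          rw [map_zero] at hcon
          exact absurd hcon (not_lt.2 zero_le)
        have w1 : V (z * t + c₀) ≤ V t := by
          refine (V.map_add _ _).trans (max_le ?_ (hc.trans hcon.le))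
          rw [map_mul, hz, one_mul]
        have w2 : V t < V (t ^ 2) := by
          rw [map_pow, pow_two]
          calc V t = 1 * V t := (one_mul _).symm
            _ < V t * V t := mul_lt_mul_of_pos_right hcon (lt_trans one_pos hcon)
        have w3 : V (t ^ 2 + (z * t + c₀)) = V (t ^ 2) :=
          Valuation.map_add_eq_of_lt_left V (w1.trans_lt w2)
        rw [add_assoc, w3] at ht
        exact absurd ((hcon.trans w2).trans ht) (lt_irrefl _)
      refine ⟨r t, ?_⟩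
      have v1 : V (t * t) ≤ 1 := by rw [map_mul]; exact mul_le_one' vt vt
      have v2 : V (z * t) ≤ 1 := by rw [map_mul]; exact mul_le_one' hz.le vt
      have v3 : V (t * t + z * t) ≤ 1 := (V.map_add _ _).trans (max_le v1 v2)
      have v4 : V (t * t + z * t + c₀) ≤ 1 := (V.map_add _ _).trans (max_le v3 hc)
      rw [pow_two, ← rz _ v4, (rh _ _ v3 hc).1, (rh _ _ v1 v2).1, (rh _ _ vt vt).2,
        (rh _ _ hz.le vt).2, ← pow_two] at ht
      exact ht
  by_cases hex : ∃ t : K, V (t ^ 2 + z * t + c₀) < 1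
  · rw [if_pos hex, if_pos (hiff.2 hex)]
  · rw [if_neg hex, if_neg (fun hh => hex (hiff.1 hh))]

open scoped Classical in
theorem Tw_one (h : Loc V π q d ψ) (h2 : V 2 < 1) {u z c₀ : K} (hu : u ≠ 0) (hz : V z = 1)
    (hc : V c₀ ≤ 1) {j : ℤ} (hs : ord V u + 2 * j + d = 1) :
    qs (perp ψ (nb u z c₀) ((ball V j).prod (ball V j))) ((ball V j).prod (ball V j))
        (fun x => (ψ (u * nf z c₀ x) : ℂ)) =
      (if ∃ t : K, V (t ^ 2 + z * t + c₀) < 1 then (q : ℂ) else -(q : ℂ)) := by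
  first
    | exact Tw_aux h h2 hu hz hc hs (exists_res.{_, 0} h)
    | exact Tw_aux h h2 hu hz hc hs (exists_res h)

open scoped Classical in
theorem Tw_nat (h : Loc V π q d ψ) (h2 : V 2 < 1) {u z c₀ : K} (hu : u ≠ 0) (hz : V z = 1)
    (hc : V c₀ ≤ 1) (n : ℕ) : ∀ j : ℤ, ord V u + 2 * j + d = n →
    qs (perp ψ (nb u z c₀) ((ball V j).prod (ball V j))) ((ball V j).prod (ball V j))
        (fun x => (ψ (u * nf z c₀ x) : ℂ)) =
      (if ∃ t : K, V (t ^ 2 + z * t + c₀) < 1 then (q : ℂ) else -(q : ℂ)) ^ n := by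
  induction n using Nat.strong_induction_on with
  | _ n ih =>
    intro j hj
    match n, hj, ih with
    | 0, hj, _ =>
      rw [pow_zero]
      exact Tw_zero h h2 hu hz hc (by exact_mod_cast hj)
    | 1, hj, _ =>
      rw [pow_one]
      exact Tw_one h h2 hu hz hc (by exact_mod_cast hj)
    | m + 2, hj, ih =>
      push_cast at hj
      have hBC : (ball V j).prod (ball V j) ≤ (ball V (j - 1)).prod (ball V (j - 1)) :=
        AddSubgroup.prod_mono (ball_anti (by omega)) (ball_anti (by omega))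
      have hPj := perp_nb_two h h2 hu hz hc j
      have hPj1 := perp_nb_two h h2 hu hz hc (j - 1)
      have hCA : (ball V (j - 1)).prod (ball V (j - 1)) ≤
          perp ψ (nb u z c₀) ((ball V j).prod (ball V j)) := by
        rw [hPj]
        exact AddSubgroup.prod_mono (ball_anti (by omega)) (ball_anti (by omega))
      have hle : perp ψ (nb u z c₀) ((ball V (j - 1)).prod (ball V (j - 1))) ≤
          perp ψ (nb u z c₀) ((ball V j).prod (ball V j)) := by
        rw [hPj, hPj1]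
        exact AddSubgroup.prod_mono (ball_anti (by omega)) (ball_anti (by omega))
      have hred := qs_red ψ (fun x => u * nf z c₀ x) (nb u z c₀) (fun x y => nf_add u z c₀ x y)
        hBC hCA (Tw_relne h h2 hu hz hc (by omega))
        (fun c hc' => Tw_psi h hu hz hc (j := j - 1) (by omega) hc')
        (fun x hx c hc' => mem_perp.1 hx c hc')
      rw [hred, inf_eq_right.2 hle, ih m (by omega) (j - 1) (by omega),
        Tw_index h 1 (i := j - 1) (by push_cast; ring), pow_one]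
      split_ifs <;> · push_cast; ring

open scoped Classical in
theorem gs_two (h : Loc V π q d ψ) (h2 : V 2 < 1) {u z c₀ : K} (hu : u ≠ 0) (hz : V z = 1)
    (hc : V c₀ ≤ 1) {j : ℤ} (hs : 0 ≤ ord V u + 2 * j + d) :
    qs (perp ψ (nb u z c₀) ((ball V j).prod (ball V j))) ((ball V j).prod (ball V j))
        (fun x => (ψ (u * nf z c₀ x) : ℂ)) =
      (if ∃ t : K, V (t ^ 2 + z * t + c₀) < 1 then (q : ℂ) else -(q : ℂ)) ^
        (ord V u + 2 * j + d).toNat ∧
      ((ball V j).prod (ball V j)).relIndex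
        (perp ψ (nb u z c₀) ((ball V j).prod (ball V j))) ≠ 0 :=
  ⟨Tw_nat h h2 hu hz hc _ j (by omega), Tw_relne h h2 hu hz hc hs⟩

theorem Tw_sgn (n : ℕ) : sgn2 (n : ZMod 2) = (-1) ^ n := by
  unfold sgn2
  rcases Nat.even_or_odd n with hn | hn
  · have h0 : (n : ZMod 2) = 0 := (ZMod.natCast_eq_zero_iff_even).2 hn
    rw [if_pos h0, hn.neg_one_pow]
  · have h0 : (n : ZMod 2) ≠ 0 := by
      rw [Ne, ZMod.natCast_eq_zero_iff_even]
      exact Nat.not_even_iff_odd.2 hn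
    rw [if_neg h0, hn.neg_one_pow]

theorem gs_two_ratio (h : Loc V π q d ψ) (h2 : V 2 < 1) (hd : 0 ≤ d) {u z c₀ : K} (hu : u ≠ 0)
    (hu1 : V u ≤ 1) (hz : V z = 1) (hc : V c₀ ≤ 1) :
    GS ψ 1 z c₀ (ball V 0) ≠ 0 ∧ ∃ r : ℝ, 0 < r ∧ GS ψ u z c₀ (ball V 0) =
      r * sgn2 ((ord V u : ZMod 2) * kap V z c₀) * GS ψ 1 z c₀ (ball V 0) := by
  classical
  have ho : 0 ≤ ord V u := by
    rw [V_eq hu, ← exp_zero, exp_le_exp] at hu1
    omega
  have ho1 : ord V (1 : K) = 0 := by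
    unfold ord
    rw [map_one, log_one, neg_zero]
  obtain ⟨k, hk⟩ := Int.eq_ofNat_of_zero_le ho
  obtain ⟨m, hm⟩ := Int.eq_ofNat_of_zero_le hd
  have hqC : (q : ℂ) ≠ 0 := Nat.cast_ne_zero.2 h.pos
  have hqR : (0 : ℝ) < q := Nat.cast_pos.2 (Nat.pos_of_ne_zero h.pos)
  have e1 : GS ψ 1 z c₀ (ball V 0) =
      (if ∃ t : K, V (t ^ 2 + z * t + c₀) < 1 then (q : ℂ) else -(q : ℂ)) ^ m :=
    Tw_nat h h2 one_ne_zero hz hc m 0 (by rw [ho1, hm]; ring)
  have e2 : GS ψ u z c₀ (ball V 0) =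
      (if ∃ t : K, V (t ^ 2 + z * t + c₀) < 1 then (q : ℂ) else -(q : ℂ)) ^ (k + m) :=
    Tw_nat h h2 hu hz hc (k + m) 0 (by rw [hk, hm]; push_cast; ring)
  refine ⟨?_, (q : ℝ) ^ k, pow_pos hqR k, ?_⟩
  · rw [e1]
    refine pow_ne_zero _ ?_
    split_ifs
    · exact hqC
    · exact neg_ne_zero.2 hqC
  · rw [e1, e2, pow_add]
    congr 1
    unfold kap
    rw [hk]
    split_ifs
    · rw [mul_zero]
      unfold sgn2
      rw [if_pos rfl]
      push_cast
      ring
    · rw [mul_one]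
      have e3 : (((k : ℤ)) : ZMod 2) = ((k : ℕ) : ZMod 2) := by push_cast; rfl
      rw [e3, Tw_sgn, neg_pow]
      push_cast
      ring

end H38RT
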