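import Pool.Agent.H38.RT.Od
import Pool.Agent.H38.RT.Tw
import Pool.Agent.H38.RT.Dc
import Pool.Agent.H38.RT.Gl

/-!
Assembly (helper38): reciprocity in integral form.
-/

set_option autoImplicit false
open scoped Classical

open WithZero NumberField IsDedekindDomain

namespace H38RT

/-- The sign of `x` at the real place `w`: one if it is negative. -/
noncomputable def sw {K : Type} [Field K] (w : K →+* ℝ) (x : K) : ZMod 2 := if w x < 0 then 1 else 0

lemma sgn2_add (a b : ZMod 2) : sgn2 (a + b) = sgn2 a * sgn2 b := by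
  unfold sgn2
  have ha : a = 0 ∨ a = 1 := by revert a; decide
  have hb : b = 0 ∨ b = 1 := by revert b; decide
  have h11 : (1 : ZMod 2) + 1 = 0 := by decide
  rcases ha with rfl | rfl <;> rcases hb with rfl | rfl <;> simp [h11]

lemma sgn2_sum {ι : Type*} (T : Finset ι) (f : ι → ZMod 2) :
    sgn2 (∑ i ∈ T, f i) = ∏ i ∈ T, sgn2 (f i) := by
  induction T using Finset.induction_on with
  | empty => simp [sgn2]
  | insert a s ha ih => rw [Finset.sum_insert ha, Finset.prod_insert ha, sgn2_add, ih]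

lemma sgn2_ne (a : ZMod 2) : sgn2 a ≠ 0 := by
  unfold sgn2
  split_ifs <;> norm_num

lemma sgn2_pos {a b : ZMod 2} {r : ℝ} (hr : 0 < r) (h : sgn2 a = r * sgn2 b) : a = b := by
  have h01 : ∀ x : ZMod 2, x = 0 ∨ x = 1 := by decide
  unfold sgn2 at h
  rcases h01 a with rfl | rfl <;> rcases h01 b with rfl | rfl
  · rfl
  · exfalso
    rw [if_pos rfl, if_neg (by decide)] at h
    have h2 : ((1 : ℝ) : ℂ) = ((r * (-1) : ℝ) : ℂ) := by push_cast; exact h
    have := Complex.ofReal_injective h2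
    linarith
  · exfalso
    rw [if_neg (by decide), if_pos rfl] at h
    have h2 : ((-1 : ℝ) : ℂ) = ((r * 1 : ℝ) : ℂ) := by push_cast; exact h
    have := Complex.ofReal_injective h2
    linarith
  · rfl

lemma ee_add (s t : ℝ) : ee (s + t) = ee s * ee t := by
  unfold ee
  rw [mul_add, Circle.exp_add]

lemma ee_half : (ee (1 / 2) : ℂ) = -1 := by
  unfold ee
  rw [Circle.coe_exp]
  have : ((2 * Real.pi * (1 / 2) : ℝ) : ℂ) = Real.pi := by
    push_cast
    ring
  rw [this, Complex.exp_pi_mul_I]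

lemma ee_zero : (ee 0 : ℂ) = 1 := by
  unfold ee
  simp

/-- The contribution of one real place. -/
lemma place {K : Type} [Field K] (w : K →+* ℝ) {u D : K} (hu : u ≠ 0) (hD : D ≠ 0) :
    (ee ((SignType.sign (w u) : ℝ) / 8) : ℂ) * (ee ((SignType.sign (w (-(u * D))) : ℝ) / 8) : ℂ) =
      sgn2 (sw w u * sw w D) *
      ((ee ((SignType.sign (w 1) : ℝ) / 8) : ℂ) *
        (ee ((SignType.sign (w (-(1 * D))) : ℝ) / 8) : ℂ)) := by
  have hu' : w u ≠ 0 := (map_ne_zero w).mpr hu
  have hD' : w D ≠ 0 := (map_ne_zero w).mpr hD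
  have key : ∀ s t : ℝ, (ee s : ℂ) * (ee t : ℂ) = (ee (s + t) : ℂ) := by
    intro s t
    rw [ee_add]
    rfl
  rw [key, key]
  have h1 : SignType.sign (w 1) = 1 := by
    rw [map_one]
    exact sign_one
  have hneg : SignType.sign (w (-(1 * D))) = - SignType.sign (w D) := by
    rw [one_mul, map_neg, Left.sign_neg]
  have hneg2 : SignType.sign (w (-(u * D))) = - (SignType.sign (w u) * SignType.sign (w D)) := by
    rw [map_neg, Left.sign_neg, map_mul, sign_mul]
  rw [h1, hneg, hneg2]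
  unfold sw
  rcases lt_or_gt_of_ne hu' with h | h <;> rcases lt_or_gt_of_ne hD' with h' | h'
  · rw [if_pos h, if_pos h', sign_neg h, sign_neg h']
    have : sgn2 (1 * 1) = (ee (1 / 2) : ℂ) := by
      rw [ee_half]
      unfold sgn2
      rw [if_neg (by decide)]
    rw [this, key]
    have e2 : (ee 1 : ℂ) = 1 := by
      have : (ee 1 : ℂ) = (ee (1/2) : ℂ) * (ee (1/2) : ℂ) := by
        rw [key]; norm_num
      rw [this, ee_half]; norm_num
    have e3 : ∀ t : ℝ, (ee (t + 1) : ℂ) = (ee t : ℂ) := by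
      intro t
      rw [← key, e2, mul_one]
    rw [← e3]
    congr 2
    simp
    norm_num
  · rw [if_pos h, if_neg (not_lt.mpr h'.le), sign_neg h, sign_pos h']
    have : sgn2 (1 * 0) = 1 := by unfold sgn2; rw [if_pos (by decide)]
    rw [this, one_mul]
    congr 2
    simp
    ring
  · rw [if_neg (not_lt.mpr h.le), if_pos h', sign_pos h, sign_neg h']
    have : sgn2 (0 * 1) = 1 := by unfold sgn2; rw [if_pos (by decide)]
    rw [this, one_mul]
    simp
  · rw [if_neg (not_lt.mpr h.le), if_neg (not_lt.mpr h'.le), sign_pos h, sign_pos h']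
    have : sgn2 (0 * 0) = 1 := by unfold sgn2; rw [if_pos (by decide)]
    rw [this, one_mul, one_mul]

theorem recip_int (K : Type) [Field K] [NumberField K] [IsTotallyReal K] {u z c₀ : 𝓞 K}
    (hu : u ≠ 0) (hD : z ^ 2 - 4 * c₀ ≠ 0)
    (h2 : ∀ v : HeightOneSpectrum (𝓞 K), v.valuation K 2 < 1 → v.valuation K (z : K) = 1)
    (π : HeightOneSpectrum (𝓞 K) → K)
    (hπ : ∀ v : HeightOneSpectrum (𝓞 K), v.valuation K (π v) = exp (-1))
    (T : Finset (HeightOneSpectrum (𝓞 K))) (hT : ∀ v, v ∉ T → v.valuation K (u : K) = 1 ∧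
      v.valuation K ((z : K) ^ 2 - 4 * c₀) = 1 ∧ v.valuation K 2 = 1) :
    ∑ v ∈ T, (if v.valuation K 2 < 1 then
        (ord (v.valuation K) (u : K) : ZMod 2) * kap (v.valuation K) (z : K) c₀
      else tm (v.valuation K) (π v) (u : K) ((z : K) ^ 2 - 4 * c₀)) +
      ∑ w : K →+* ℝ, sw w (u : K) * sw w ((z : K) ^ 2 - 4 * c₀) = 0 := by
  obtain ⟨ψ, d, hψ⟩ := exists_psi K
  have hD' : (z : K) ^ 2 - 4 * c₀ ≠ 0 := by
    intro h0
    apply hD
    apply FaithfulSMul.algebraMap_injective (𝓞 K) K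
    rw [map_sub, map_pow, map_mul, map_ofNat, map_zero]
    exact h0
  have hu' : (u : K) ≠ 0 := by
    intro h0
    apply hu
    apply FaithfulSMul.algebraMap_injective (𝓞 K) K
    simpa using h0
  have hone : (1 : 𝓞 K) ≠ 0 := one_ne_zero
  have hle : ∀ (v : HeightOneSpectrum (𝓞 K)) (x : 𝓞 K), v.valuation K (x : K) ≤ 1 :=
    fun v x => v.valuation_le_one x
  -- the local factors
  have hloc : ∀ v : HeightOneSpectrum (𝓞 K), ∀ u' : 𝓞 K, u' ≠ 0 →
      (((ball (v.valuation K) 0).prod (ball (v.valuation K) 0)).relIndex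
        (perp (ψ v) (nb (u' : K) (z : K) (c₀ : K))
          ((ball (v.valuation K) 0).prod (ball (v.valuation K) 0))) ≠ 0) := by
    intro v u' hu0
    have hl := exists_loc hψ v (hπ v)
    have hu1 : (u' : K) ≠ 0 := by
      intro h0
      apply hu0
      apply FaithfulSMul.algebraMap_injective (𝓞 K) K
      simpa using h0
    have ht2 : v.valuation K 2 ≤ 1 := by
      have h5 := hle v 2
      have h6 : ((2 : 𝓞 K) : K) = 2 := map_ofNat (algebraMap (𝓞 K) K) 2
      rwa [h6] at h5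
    rcases lt_or_eq_of_le ht2 with h | h
    · have hord : 0 ≤ ord (v.valuation K) (u' : K) := by
        have h3 := V_eq (V := v.valuation K) hu1
        have h4 := hle v u'
        rw [h3, ← exp_zero, exp_le_exp] at h4
        linarith
      refine (gs_two hl h hu1 (h2 v h) (hle v c₀) (j := 0) ?_).2
      have := hψ.nonneg v
      linarith
    · exact (gs_odd hl h (hψ.nonneg v) hu1 (hle v u') (hle v z) (hle v c₀) hD').2
  have hratio : ∀ v : HeightOneSpectrum (𝓞 K),
      GS (ψ v) 1 (z : K) (c₀ : K) (ball (v.valuation K) 0) ≠ 0 ∧ ∃ r : ℝ, 0 < r ∧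
        GS (ψ v) (u : K) (z : K) (c₀ : K) (ball (v.valuation K) 0) =
        r * sgn2 (if v.valuation K 2 < 1 then
          (ord (v.valuation K) (u : K) : ZMod 2) * kap (v.valuation K) (z : K) c₀
          else tm (v.valuation K) (π v) (u : K) ((z : K) ^ 2 - 4 * c₀)) *
        GS (ψ v) 1 (z : K) (c₀ : K) (ball (v.valuation K) 0) := by
    intro v
    have hl := exists_loc hψ v (hπ v)
    have ht2 : v.valuation K 2 ≤ 1 := by
      have h5 := hle v 2
      have h6 : ((2 : 𝓞 K) : K) = 2 := map_ofNat (algebraMap (𝓞 K) K) 2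
      rwa [h6] at h5
    rcases lt_or_eq_of_le ht2 with h | h
    · rw [if_pos h]
      exact gs_two_ratio hl h (hψ.nonneg v) hu' (hle v u) (h2 v h) (hle v c₀)
    · rw [if_neg (by rw [h]; exact lt_irrefl 1)]
      exact gs_odd_ratio hl h (hψ.nonneg v) hu' (hle v u) (hle v z) (hle v c₀) hD'
  -- a larger set of places
  set T' : Finset (HeightOneSpectrum (𝓞 K)) := T ∪ hψ.fin.toFinset with hT'
  have hT1 : ∀ v, v ∉ T' → v.valuation K (u : K) = 1 ∧
      v.valuation K ((z : K) ^ 2 - 4 * c₀) = 1 ∧ d v = 0 := by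
    intro v hv
    rw [hT', Finset.mem_union, not_or] at hv
    have h3 := hT v hv.1
    refine ⟨h3.1, h3.2.1, ?_⟩
    by_contra h4
    exact hv.2 (by simpa using h4)
  have hdu := decomp hψ hu hD T' hT1 (fun v _ => hloc v u hu)
  have hd1 := decomp hψ (u := 1) hone hD T' (by
    intro v hv
    refine ⟨by simp, (hT1 v hv).2⟩) (fun v _ => hloc v 1 hone)
  have hone' : ((1 : 𝓞 K) : K) = 1 := by simp
  rw [hone'] at hd1
  -- product of the ratios
  choose hne r hr hrat using hratio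
  have hprod : GS (gch K) (u : K) (z : K) (c₀ : K) (OK K) =
      ((∏ v ∈ T', r v : ℝ) : ℂ) * sgn2 (∑ v ∈ T', (if v.valuation K 2 < 1 then
          (ord (v.valuation K) (u : K) : ZMod 2) * kap (v.valuation K) (z : K) c₀
          else tm (v.valuation K) (π v) (u : K) ((z : K) ^ 2 - 4 * c₀))) *
        GS (gch K) 1 (z : K) (c₀ : K) (OK K) := by
    rw [hdu, hd1, sgn2_sum, Complex.ofReal_prod, ← Finset.prod_mul_distrib,
      ← Finset.prod_mul_distrib]
    exact Finset.prod_congr rfl fun v _ => hrat v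
  have h1ne : GS (gch K) 1 (z : K) (c₀ : K) (OK K) ≠ 0 := by
    rw [hd1]
    exact Finset.prod_ne_zero_iff.mpr fun v _ => hne v
  -- the global sums
  obtain ⟨ρ, hρ, hgu⟩ := glob K hu hD
  obtain ⟨ρ', hρ', hg1⟩ := glob K hone hD
  rw [hone'] at hg1
  have hinf : ((∏ w : K →+* ℝ, (ee ((SignType.sign (w (u : K)) : ℝ) / 8) : ℂ)) *
        ∏ w : K →+* ℝ, (ee ((SignType.sign (w (-((u : K) * ((z : K) ^ 2 - 4 * c₀)))) : ℝ) / 8) :
          ℂ)) = sgn2 (∑ w : K →+* ℝ, sw w (u : K) * sw w ((z : K) ^ 2 - 4 * c₀)) *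
      ((∏ w : K →+* ℝ, (ee ((SignType.sign (w (1 : K)) : ℝ) / 8) : ℂ)) *
        ∏ w : K →+* ℝ, (ee ((SignType.sign (w (-((1 : K) * ((z : K) ^ 2 - 4 * c₀)))) : ℝ) / 8) :
          ℂ)) := by
    rw [sgn2_sum, ← Finset.prod_mul_distrib, ← Finset.prod_mul_distrib, ← Finset.prod_mul_distrib]
    exact Finset.prod_congr rfl fun w _ => place w hu' hD'
  set S1 := ∑ v ∈ T', (if v.valuation K 2 < 1 then
          (ord (v.valuation K) (u : K) : ZMod 2) * kap (v.valuation K) (z : K) c₀
          else tm (v.valuation K) (π v) (u : K) ((z : K) ^ 2 - 4 * c₀)) with hS1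
  set S2 := ∑ w : K →+* ℝ, sw w (u : K) * sw w ((z : K) ^ 2 - 4 * c₀) with hS2
  set G1 := GS (gch K) 1 (z : K) (c₀ : K) (OK K) with hG1
  set R := (∏ v ∈ T', r v : ℝ) with hR
  have hRpos : 0 < R := Finset.prod_pos fun v _ => hr v
  have key : (R : ℂ) * sgn2 S1 * G1 = (ρ / ρ' : ℝ) * sgn2 S2 * G1 := by
    rw [← hprod, hgu, hinf, hg1]
    have : (ρ' : ℂ) ≠ 0 := by exact_mod_cast hρ'.ne'
    push_cast
    field_simp
  have key2 : (R : ℂ) * sgn2 S1 = (ρ / ρ' : ℝ) * sgn2 S2 := mul_right_cancel₀ h1ne key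
  have hRc : (R : ℂ) ≠ 0 := by exact_mod_cast hRpos.ne'
  have key3 : S1 = S2 := by
    apply sgn2_pos (r := ρ / ρ' / R) (by positivity)
    have : sgn2 S1 = (R : ℂ)⁻¹ * ((R : ℂ) * sgn2 S1) := by field_simp
    rw [this, key2]
    push_cast
    field_simp
  have hsum : ∑ v ∈ T, (if v.valuation K 2 < 1 then
        (ord (v.valuation K) (u : K) : ZMod 2) * kap (v.valuation K) (z : K) c₀
      else tm (v.valuation K) (π v) (u : K) ((z : K) ^ 2 - 4 * c₀)) = S1 := by
    rw [hS1]
    apply Finset.sum_subset (by rw [hT']; exact Finset.subset_union_left)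
    intro v _ hv
    obtain ⟨a1, a2, a3⟩ := hT v hv
    rw [if_neg (by rw [a3]; exact lt_irrefl 1), tm_unit a1]
    have : ord (v.valuation K) ((z : K) ^ 2 - 4 * c₀) = 0 := by
      unfold ord
      rw [a2, log_one, neg_zero]
    rw [this, Int.cast_zero, zero_mul]
  rw [hsum, key3]
  exact CharTwo.add_self_eq_zero S2

end H38RT
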