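import Pool.Agent.H38.RT.Re
import Pool.Agent.H38.RT.Pr
import Pool.Agent.H38.RT.Kq

/-!
Theorem R (helper38): reciprocity over totally real fields.
-/

set_option autoImplicit false
open scoped Classical

open WithZero NumberField IsDedekindDomain

namespace H38RT

/-- One local term. -/
noncomputable def lt {K : Type} [Field K] [NumberField K] (π : HeightOneSpectrum (𝓞 K) → K)
    (v : HeightOneSpectrum (𝓞 K)) (u y : K) : ZMod 2 :=
  if v.valuation K 2 < 1 then (ord (v.valuation K) u : ZMod 2) * kp (v.valuation K) y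
  else tm (v.valuation K) (π v) u y

lemma val_two_le {K : Type} [Field K] [NumberField K] (v : HeightOneSpectrum (𝓞 K)) :
    v.valuation K 2 ≤ 1 := by
  have h5 : v.valuation K ((2 : 𝓞 K) : K) ≤ 1 := v.valuation_le_one 2
  have h6 : ((2 : 𝓞 K) : K) = 2 := map_ofNat (algebraMap (𝓞 K) K) 2
  rwa [h6] at h5

lemma fin_bad {K : Type} [Field K] [NumberField K] {x : K} (hx : x ≠ 0) :
    {v : HeightOneSpectrum (𝓞 K) | v.valuation K x ≠ 1}.Finite := by
  obtain ⟨a, b, hb, hab⟩ := IsFractionRing.div_surjective (A := 𝓞 K) x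
  have hb0 : b ≠ 0 := nonZeroDivisors.ne_zero hb
  have ha0 : a ≠ 0 := by
    rintro rfl
    rw [map_zero, zero_div] at hab
    exact hx hab.symm
  have key : ∀ c : 𝓞 K, c ≠ 0 →
      {v : HeightOneSpectrum (𝓞 K) | v.valuation K (c : K) ≠ 1}.Finite := by
    intro c hc
    have h1 := Ideal.finite_factors (I := Ideal.span {c}) (by
      rw [Ne, Ideal.zero_eq_bot, Ideal.span_singleton_eq_bot]
      exact hc)
    refine h1.subset fun v hv => ?_
    have h2 : v.valuation K (c : K) < 1 := lt_of_le_of_ne (v.valuation_le_one c) hv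
    have h3 := (v.valuation_lt_one_iff_mem c).mp h2
    change v.asIdeal ∣ Ideal.span {c}
    rw [Ideal.dvd_span_singleton]
    exact h3
  refine ((key a ha0).union (key b hb0)).subset fun v hv => ?_
  by_contra h
  rw [Set.mem_union, not_or] at h
  have h1 : v.valuation K (a : K) = 1 := by
    by_contra h'
    exact h.1 h'
  have h2 : v.valuation K (b : K) = 1 := by
    by_contra h'
    exact h.2 h'
  apply hv
  rw [← hab, map_div₀, h1, h2, div_one]

theorem recip (K : Type) [Field K] [NumberField K] [IsTotallyReal K]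
    (π : HeightOneSpectrum (𝓞 K) → K)
    (hπ : ∀ v : HeightOneSpectrum (𝓞 K), v.valuation K (π v) = exp (-1)) {u y : K} (hu : u ≠ 0)
    (hy : y ≠ 0)
    (hp : ∀ v : HeightOneSpectrum (𝓞 K), v.valuation K 2 < 1 → Prm (v.valuation K) y)
    (T : Finset (HeightOneSpectrum (𝓞 K))) (hT : ∀ v, v ∉ T → v.valuation K u = 1 ∧
      v.valuation K y = 1 ∧ v.valuation K 2 = 1) :
    ∑ v ∈ T, lt π v u y + ∑ w : K →+* ℝ, sw w u * sw w y = 0 := by
  obtain ⟨ψ, d, hψ⟩ := exists_psi K
  obtain ⟨s, z, c₀, hs, hsy, hz⟩ := exists_int_form hy hp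
  -- make `u` integral
  obtain ⟨a, b, hb, hab⟩ := IsFractionRing.div_surjective (A := 𝓞 K) u
  have hb0 : b ≠ 0 := nonZeroDivisors.ne_zero hb
  have hbK : (b : K) ≠ 0 := by
    intro h0
    apply hb0
    apply FaithfulSMul.algebraMap_injective (𝓞 K) K
    rw [map_zero]
    exact h0
  have ha0 : a ≠ 0 := by
    rintro rfl
    rw [map_zero, zero_div] at hab
    exact hu hab.symm
  have hab' : ((a * b : 𝓞 K) : K) = (b : K) ^ 2 * u := by
    rw [← hab]
    push_cast
    have : (algebraMap (𝓞 K) K) b = (b : K) := rfl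
    field_simp
  have hD0 : z ^ 2 - 4 * c₀ ≠ 0 := by
    intro h0
    have h1 : (z : K) ^ 2 - 4 * c₀ = 0 := by
      have h2 := congrArg (algebraMap (𝓞 K) K) h0
      rw [map_sub, map_pow, map_mul, map_ofNat, map_zero] at h2
      exact h2
    rw [← hsy] at h1
    exact mul_ne_zero (pow_ne_zero 2 hs) hy h1
  -- the set of places
  set T' : Finset (HeightOneSpectrum (𝓞 K)) :=
    T ∪ ((fin_bad hs).toFinset ∪ (fin_bad hbK).toFinset) with hT'
  have hmem : ∀ v, v ∉ T' → v ∉ T ∧ v.valuation K s = 1 ∧ v.valuation K (b : K) = 1 := by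
    intro v hv
    rw [hT', Finset.mem_union, Finset.mem_union, not_or, not_or] at hv
    refine ⟨hv.1, ?_, ?_⟩
    · by_contra h
      exact hv.2.1 (by simpa using h)
    · by_contra h
      exact hv.2.2 (by simpa using h)
  have h20 : (2 : K) ≠ 0 := two_ne_zero
  have hmain := recip_int K (u := a * b) (z := z) (c₀ := c₀) (mul_ne_zero ha0 hb0) hD0
    (fun v hv => hz v hv) π hπ T' (by
      intro v hv
      obtain ⟨h1, h2, h3⟩ := hmem v hv
      obtain ⟨g1, g2, g3⟩ := hT v h1
      refine ⟨?_, ?_, g3⟩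
      · rw [hab', map_mul, map_pow, h3, g1, one_pow, one_mul]
      · rw [← hsy, map_mul, map_pow, h2, g2, one_pow, one_mul])
  rw [hab', ← hsy] at hmain
  -- rewrite the terms
  have hterm : ∀ v : HeightOneSpectrum (𝓞 K), (if v.valuation K 2 < 1 then
        (ord (v.valuation K) ((b : K) ^ 2 * u) : ZMod 2) * kap (v.valuation K) (z : K) c₀
      else tm (v.valuation K) (π v) ((b : K) ^ 2 * u) (s ^ 2 * y)) = lt π v u y := by
    intro v
    have hl := exists_loc hψ v (hπ v)
    unfold lt
    split_ifs with h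
    · have h1 : ord (v.valuation K) ((b : K) ^ 2 * u) =
          2 * ord (v.valuation K) (b : K) + ord (v.valuation K) u := by
        rw [ord_mul (pow_ne_zero 2 hbK) hu, sq, ord_mul hbK hbK]
        ring
      have h2 : kp (v.valuation K) y = kap (v.valuation K) (z : K) c₀ := by
        refine kp_eq hl h h20 (t := s⁻¹) (inv_ne_zero hs) (hz v h) (v.valuation_le_one c₀) ?_
        rw [← hsy]
        field_simp
      rw [h1, h2]
      push_cast
      have : (2 : ZMod 2) = 0 := by decide
      rw [this, zero_mul, zero_add]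
    · have h2' : v.valuation K 2 = 1 := le_antisymm (val_two_le v) (not_lt.mp h)
      rw [tm_mul_left hl h2' (pow_ne_zero 2 hbK) hu, tm_sq hl h2' hbK, zero_add, tm_comm,
        tm_mul_left hl h2' (pow_ne_zero 2 hs) hy, tm_sq hl h2' hs, zero_add, tm_comm]
  rw [Finset.sum_congr rfl fun v _ => hterm v] at hmain
  have hsub : ∑ v ∈ T, lt π v u y = ∑ v ∈ T', lt π v u y := by
    apply Finset.sum_subset (by rw [hT']; exact Finset.subset_union_left)
    intro v _ hv
    obtain ⟨a1, a2, a3⟩ := hT v hv
    unfold lt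
    rw [if_neg (by rw [a3]; exact lt_irrefl 1), tm_unit a1]
    have : ord (v.valuation K) y = 0 := by
      unfold ord
      rw [a2, log_one, neg_zero]
    rw [this, Int.cast_zero, zero_mul]
  have hsw : ∑ w : K →+* ℝ, sw w u * sw w y =
      ∑ w : K →+* ℝ, sw w ((b : K) ^ 2 * u) * sw w (s ^ 2 * y) := by
    apply Finset.sum_congr rfl
    intro w _
    have key : ∀ t x : K, t ≠ 0 → sw w (t ^ 2 * x) = sw w x := by
      intro t x ht
      unfold sw
      have h1 : 0 < (w t) ^ 2 := by
        have := (map_ne_zero w).mpr ht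
        positivity
      have h2 : w (t ^ 2 * x) < 0 ↔ w x < 0 := by
        rw [map_mul, map_pow]
        constructor
        · intro h3
          by_contra h4
          exact absurd (mul_nonneg h1.le (not_lt.mp h4)) (not_le.mpr h3)
        · intro h3
          exact mul_neg_of_pos_of_neg h1 h3
      simp only [h2]
    rw [key _ _ hbK, key _ _ hs]
  rw [hsub, hsw]
  exact hmain

end H38RT
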