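import Pool.Agent.H38.RT.Ba
import Pool.Agent.H38.RT.Qb

/-!
Row Ua. (about 150 lines): unary local Gauss sums, V 2 = 1. s := ord V c + 2 j + d. By perp_ub the sum gU V psi c j is over ball (-d - j - ord c) / ball j, finite (ball_index with n = s.toNat as -d - j - ord c = j - s).
 gU_red (s >= 2): qs_red with Q x = c x^2, b = ub c, A = perp (ball j), B = ball j, C = ball (j - 1). C <= A as s >= 1; psi (c x^2) = 1 on C since V (c x^2) <= exp (-ord c - 2(j-1)) <= exp d as s >= 2 (use h.cond with t = 1);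
   hB from mem_perp. A inf perp psi b C = perp psi b C (= ball (-d-(j-1)-ord c), contained in A, ball_anti). B.relIndex C = q (ball_index with n = 1).
 gU_zero (s = 0): perp (ball j) = ball j, qs_self, psi 0 = 1.
 gU_neg: perp psi (ub (-c)) L = perp psi (ub c) L (psi (-x) = (psi x)^-1), psi (-(c x^2)) = conj (psi (c x^2)) (a point of the circle); conj of a finsum over a finite quotient.
 gU_sq: qs_map with multiplication by t: A = perp psi (ub (c t^2)) (ball j), B = ball j, A' = perp psi (ub c) (ball (j + ord t)), B' = ball (j + ord t); 2 c t^2 x y = 2 c (t x)(t y) and ball_scale.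
-/

set_option autoImplicit false

open WithZero

namespace H38RT

variable {K : Type*} [Field K] {V : Valuation K (WithZero (Multiplicative ℤ))} {π : K} {q : ℕ}
  {d : ℤ} {ψ : AddChar K Circle}

theorem gU_inva (c : K) (j : ℤ) (hj : ∀ x ∈ ball V j, ψ (c * x ^ 2) = 1) :
    Inva (perp ψ (ub c) (ball V j)) (ball V j) (fun x => (ψ (c * x ^ 2) : ℂ)) := by
  intro x hx b hb
  have h1 := hx b hb
  rw [ub_apply] at h1
  have h2 : c * (x + b) ^ 2 = c * x ^ 2 + c * b ^ 2 + 2 * c * x * b := by ring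
  simp only [h2, AddChar.map_add_eq_mul, hj b hb, h1, mul_one]

theorem triv_of (h : Loc V π q d ψ) {c : K} {j : ℤ} (hc : c ≠ 0) (hs : 0 ≤ ord V c + 2 * j + d) :
    ∀ x ∈ ball V j, ψ (c * x ^ 2) = 1 := by
  intro x hx
  rw [mem_ball] at hx
  have h3 : V (c * x ^ 2) ≤ exp d := by
    rw [map_mul, map_pow, V_eq hc]
    calc exp (-ord V c) * V x ^ 2 ≤ exp (-ord V c) * (exp (-j)) ^ 2 :=
          mul_le_mul' le_rfl (pow_le_pow_left₀ zero_le hx 2)
      _ = exp (-ord V c - 2 * j) := by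
          rw [sq, ← exp_add, ← exp_add]
          congr 1
          ring
      _ ≤ exp d := exp_le_exp.2 (by omega)
  have h4 := (h.cond _).2 h3 1 (by simp)
  rwa [one_mul] at h4

theorem fin_perp (h : Loc V π q d ψ) (h2 : V 2 = 1) {c : K} (hc : c ≠ 0) {j : ℤ}
    (hs : 0 ≤ ord V c + 2 * j + d) : (ball V j).relIndex (perp ψ (ub c) (ball V j)) ≠ 0 := by
  rw [perp_ub h h2 hc]
  have h1 := ball_index h (ord V c + 2 * j + d).toNat (-d - j - ord V c)
  have h3 : -d - j - ord V c + ((ord V c + 2 * j + d).toNat : ℤ) = j := by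
    rw [Int.toNat_of_nonneg hs]
    ring
  rw [h3] at h1
  rw [h1]
  exact pow_ne_zero _ h.pos

theorem gU_red (h : Loc V π q d ψ) (h2 : V 2 = 1) {c : K} (hc : c ≠ 0) {j : ℤ}
    (hs : 2 ≤ ord V c + 2 * j + d) : gU V ψ c j = (q : ℂ) * gU V ψ c (j - 1) := by
  have h1 := qs_red ψ (fun x : K => c * x ^ 2) (ub c) (by
      intro x y
      rw [ub_apply]
      ring) (A := perp ψ (ub c) (ball V j)) (B := ball V j) (C := ball V (j - 1))
    (ball_anti (by omega)) (by
      rw [perp_ub h h2 hc]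
      exact ball_anti (by omega))
    (fin_perp h h2 hc (by omega)) (triv_of h hc (by omega)) (fun x hx b hb => hx b hb)
  have h3 : perp ψ (ub c) (ball V j) ⊓ perp ψ (ub c) (ball V (j - 1)) =
      perp ψ (ub c) (ball V (j - 1)) := by
    apply inf_eq_right.2
    intro x hx b hb
    exact hx b (ball_anti (by omega : j - 1 ≤ j) hb)
  have h4 : (ball V j).relIndex (ball V (j - 1)) = q := by
    have h5 := ball_index h 1 (j - 1)
    have h6 : j - 1 + ((1 : ℕ) : ℤ) = j := by push_cast; ring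
    rw [h6, pow_one] at h5
    exact h5
  rw [h3, h4] at h1
  exact h1

theorem gU_zero (h : Loc V π q d ψ) (h2 : V 2 = 1) {c : K} (hc : c ≠ 0) {j : ℤ}
    (hs : ord V c + 2 * j + d = 0) : gU V ψ c j = 1 := by
  have h1 := gU_inva c j (triv_of h hc (by omega))
  have h3 : perp ψ (ub c) (ball V j) = ball V j := by
    rw [perp_ub h h2 hc]
    congr 1
    omega
  unfold gU
  rw [h3] at h1 ⊢
  rw [qs_self h1]
  simp

theorem Ua_perp_neg (c : K) (L : AddSubgroup K) : perp ψ (ub (-c)) L = perp ψ (ub c) L := by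
  ext x
  rw [mem_perp, mem_perp]
  refine forall₂_congr fun y _ => ?_
  rw [ub_apply, ub_apply]
  have h1 : 2 * -c * x * y = -(2 * c * x * y) := by ring
  rw [h1, AddChar.map_neg_eq_inv, inv_eq_one]

theorem gU_neg (h : Loc V π q d ψ) (h2 : V 2 = 1) {c : K} (hc : c ≠ 0) {j : ℤ}
    (hs : 0 ≤ ord V c + 2 * j + d) : gU V ψ (-c) j = (starRingEnd ℂ) (gU V ψ c j) := by
  have hI := gU_inva c j (triv_of h hc hs)
  have hconj : ∀ x : K, (ψ (-c * x ^ 2) : ℂ) = (starRingEnd ℂ) (ψ (c * x ^ 2) : ℂ) := by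
    intro x
    have h1 : -c * x ^ 2 = -(c * x ^ 2) := by ring
    rw [h1, AddChar.map_neg_eq_inv, Circle.coe_inv_eq_conj]
  have hI' : Inva (perp ψ (ub c) (ball V j)) (ball V j) (fun x => (ψ (-c * x ^ 2) : ℂ)) := by
    intro x hx b hb
    simp only [hconj]
    congr 1
    exact hI x hx b hb
  obtain ⟨r, hr, hu⟩ := exists_sec (fin_perp h h2 hc hs)
  unfold gU
  rw [Ua_perp_neg, qs_eq_sum hI r hr hu, qs_eq_sum hI' r hr hu, map_sum]
  exact Finset.sum_congr rfl fun i _ => hconj _

theorem gU_sq (h : Loc V π q d ψ) {c t : K} (hc : c ≠ 0) (ht : t ≠ 0) {j : ℤ}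
    (hs : 0 ≤ ord V c + 2 * (j + ord V t) + d) :
    gU V ψ (c * t ^ 2) j = gU V ψ c (j + ord V t) := by
  have hI := gU_inva c (j + ord V t) (triv_of h hc hs)
  have hA : ∀ x : K, x ∈ perp ψ (ub (c * t ^ 2)) (ball V j) ↔
      t * x ∈ perp ψ (ub c) (ball V (j + ord V t)) := by
    intro x
    rw [mem_perp, mem_perp]
    constructor
    · intro hx y hy
      have h1 : t * (t⁻¹ * y) = y := by rw [← mul_assoc, mul_inv_cancel₀ ht, one_mul]
      have h3 : t⁻¹ * y ∈ ball V j := by
        rw [← ball_scale ht, h1]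
        exact hy
      have h4 := hx _ h3
      rw [ub_apply] at h4 ⊢
      rw [← h4]
      congr 1
      nth_rewrite 1 [← h1]
      ring
    · intro hx y hy
      have h4 := hx (t * y) ((ball_scale ht j y).2 hy)
      rw [ub_apply] at h4 ⊢
      rw [← h4]
      congr 1
      ring
  have h1 := (qs_map (AddMonoidHom.mulLeft t) (A := perp ψ (ub (c * t ^ 2)) (ball V j))
    (B := ball V j) (A' := perp ψ (ub c) (ball V (j + ord V t))) (B' := ball V (j + ord V t))
    (fun x hx => (hA x).1 hx) (fun x _ => ball_scale ht j x) (by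
      intro y hy
      have h1 : t * (t⁻¹ * y) = y := by rw [← mul_assoc, mul_inv_cancel₀ ht, one_mul]
      refine ⟨t⁻¹ * y, ?_, ?_⟩
      · rw [hA, h1]
        exact hy
      · change y - t * (t⁻¹ * y) ∈ _
        rw [h1, sub_self]
        exact AddSubgroup.zero_mem _) hI).1
  unfold gU
  rw [← h1]
  congr 1
  funext x
  congr 2
  change c * t ^ 2 * x ^ 2 = c * (t * x) ^ 2
  ring

end H38RT
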