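import Pool.Agent.H38.RT.Ua
import Pool.Agent.H38.RT.Rf
import Pool.Agent.H38.RT.Fo

/-!
Row Ub. (about 150 lines): unary local Gauss sums with s = ord V c + 2 j + d = 1.
 perp (ball j) = ball (j - 1) (perp_ub). Put x0 = pi^(j-1), c0 = c x0^2, ord c0 = -d - 1. Let F, r be the residue field (exists_res), 2 <> 0 in F (r 2 = r 1 + r 1, V 2 = 1), rho a := psi (c0 * a') for any a' with V a' <= 1, r a' = a: well defined
 (V (a' - a'') < 1 gives V (c0 (a' - a'')) <= exp (d+1-1) = exp d, h.cond), an additive character of F, nontrivial (h.cond: not V c0 <= exp d so some t with V t <= 1, psi (t c0) <> 1).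
 The elements x0 * a', a in F (a' chosen), form a section of ball (j-1) / ball j, so for every unit e: gU V psi (e c) j = sum_a rho (r(e) a^2) (qs_eq_sum, gU_inva; use perp psi (ub (e c)) = the same ball).
 Sq V e iff r e is a square in F (r e <> 0; if r e = t^2 lift t). Apply gs_sq, gs_nsq, gs_ne.
-/

set_option autoImplicit false

open WithZero

namespace H38RT

variable {K : Type*} [Field K] {V : Valuation K (WithZero (Multiplicative ℤ))} {π : K} {q : ℕ}
  {d : ℤ} {ψ : AddChar K Circle}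

theorem Ub_lt {x : K} (hx : V x < 1) : V x ≤ exp (-1) := by
  rcases eq_or_ne (V x) 0 with h0 | h0
  · rw [h0]
    exact zero_le
  · have h1 : V x < exp 0 := by rwa [exp_zero]
    rw [← log_lt_iff_lt_exp h0] at h1
    rw [← log_le_iff_le_exp h0]
    omega

theorem gU_one (h : Loc V π q d ψ) (h2 : V 2 = 1) {c : K} (hc : c ≠ 0) {j : ℤ}
    (hs : ord V c + 2 * j + d = 1) : gU V ψ c j ≠ 0 ∧ ∀ e : K, V e = 1 →
      (Sq V e → gU V ψ (e * c) j = gU V ψ c j) ∧ (¬ Sq V e → gU V ψ (e * c) j = - gU V ψ c j) := by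
  classical
  obtain ⟨hox, hx0⟩ := ord_pi h (j - 1)
  set x0 : K := π ^ (j - 1) with hx0d
  have hVx0 : V x0 = exp (-(j - 1)) := by rw [V_eq (V := V) hx0, hox]
  have hc00 : c * x0 ^ 2 ≠ 0 := mul_ne_zero hc (pow_ne_zero 2 hx0)
  have hoc0 : ord V (c * x0 ^ 2) = -d - 1 := by
    rw [pow_two, ord_mul hc (mul_ne_zero hx0 hx0), ord_mul hx0 hx0, hox]
    omega
  have hVc0 : V (c * x0 ^ 2) = exp (d + 1) := by
    rw [V_eq (V := V) hc00, hoc0]
    congr 1
    ring
  obtain ⟨F, _, _, r, hFq, hr1, hradd, hr0, hrs⟩ := exists_res.{_, 0} h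
  choose s hs1 hs2 using hrs
  -- psi (c0 x) = 1 for x in the maximal ideal
  have hk1 : ∀ x, V x < 1 → ψ (c * x0 ^ 2 * x) = 1 := by
    intro x hx
    have h1 := (h.cond (c * x0 ^ 2 * x)).mpr (by
      rw [map_mul, hVc0]
      calc exp (d + 1) * V x ≤ exp (d + 1) * exp (-1) := mul_le_mul_right (Ub_lt hx) _
        _ = exp d := by rw [← exp_add]; congr 1; ring) 1 (by rw [map_one])
    rwa [one_mul] at h1
  have hrsub : ∀ x y, V x ≤ 1 → V y ≤ 1 → (r x = r y ↔ V (x - y) < 1) := by
    intro x y hx hy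
    have hxy : V (x - y) ≤ 1 := (V.map_sub x y).trans (max_le hx hy)
    rw [← hr0 _ hxy]
    have h1 := (hradd (x - y) y hxy hy).1
    rw [sub_add_cancel] at h1
    constructor
    · intro h3
      rw [h3] at h1
      exact left_eq_add.mp (h1.trans (add_comm _ _))
    · intro h3
      rw [h1, h3, zero_add]
  have hk2 : ∀ x y, V x ≤ 1 → V y ≤ 1 → r x = r y → ψ (c * x0 ^ 2 * x) = ψ (c * x0 ^ 2 * y) := by
    intro x y hx hy hxy
    have h1 := hk1 _ ((hrsub x y hx hy).mp hxy)
    have e1 : c * x0 ^ 2 * x = c * x0 ^ 2 * (x - y) + c * x0 ^ 2 * y := by ring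
    rw [e1, AddChar.map_add_eq_mul, h1, one_mul]
  have hr00 : r 0 = 0 := by
    rw [hr0 0 (by rw [map_zero]; exact zero_le)]
    rw [map_zero]
    exact zero_lt_one
  let ρ : AddChar F Circle :=
    { toFun := fun a => ψ (c * x0 ^ 2 * s a)
      map_zero_eq_one' := by
        apply hk1
        rw [← hr0 _ (hs1 0), hs2]
      map_add_eq_mul' := by
        intro a b
        rw [← AddChar.map_add_eq_mul, ← mul_add]
        apply hk2 _ _ (hs1 _) ((V.map_add _ _).trans (max_le (hs1 _) (hs1 _)))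
        rw [hs2, (hradd _ _ (hs1 a) (hs1 b)).1, hs2, hs2] }
  have hρr : ∀ x, V x ≤ 1 → ρ (r x) = ψ (c * x0 ^ 2 * x) := by
    intro x hx
    change ψ (c * x0 ^ 2 * s (r x)) = _
    exact hk2 _ _ (hs1 _) hx (hs2 _)
  have hρ : ρ ≠ 1 := by
    intro h1
    have h3 := (h.cond (c * x0 ^ 2)).mp (by
      intro t ht
      rw [mul_comm, ← hρr t ht, h1, AddChar.one_apply])
    rw [hVc0, exp_le_exp] at h3
    omega
  have hV1 : V (1 : K) = 1 := map_one V
  have hF2 : (2 : F) ≠ 0 := by
    have h1 := (hradd 1 1 hV1.le hV1.le).1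
    rw [one_add_one_eq_two, hr1, one_add_one_eq_two] at h1
    rw [← h1]
    intro h3
    have h4 := (hr0 2 h2.le).mp h3
    rw [h2] at h4
    exact lt_irrefl _ h4
  -- the sum
  have hsum : ∀ e : K, V e = 1 → gU V ψ (e * c) j = ∑ a : F, (ρ (r e * a ^ 2) : ℂ) := by
    intro e he
    have he0 : e ≠ 0 := by
      rintro rfl
      rw [map_zero] at he
      exact zero_ne_one he
    have hoe : ord V e = 0 := by
      unfold ord
      rw [he, log_one, neg_zero]
    have hec : e * c ≠ 0 := mul_ne_zero he0 hc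
    have hoec : ord V (e * c) = ord V c := by rw [ord_mul he0 hc, hoe, zero_add]
    have hperp : perp ψ (ub (e * c)) (ball V j) = ball V (j - 1) := by
      rw [perp_ub h h2 hec j, hoec]
      congr 1
      omega
    have hinv := gU_inva (V := V) (ψ := ψ) (e * c) j (triv_of h hec (by rw [hoec]; omega))
    unfold gU
    rw [hperp] at hinv ⊢
    rw [qs_eq_sum hinv (fun a : F => x0 * s a) ?_ ?_]
    · refine Finset.sum_congr rfl fun a _ => ?_
      have h3 : V (e * s a ^ 2) ≤ 1 := by
        rw [map_mul, he, one_mul, map_pow]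
        exact pow_le_one₀ zero_le (hs1 a)
      have h4 : r (e * s a ^ 2) = r e * a ^ 2 := by
        have h5 : V (s a ^ 2) ≤ 1 := by
          rw [map_pow]
          exact pow_le_one₀ zero_le (hs1 a)
        rw [(hradd e (s a ^ 2) he.le h5).2, pow_two, (hradd _ _ (hs1 a) (hs1 a)).2, hs2, ← pow_two]
      rw [← h4, hρr _ h3]
      congr 2
      ring
    · intro a
      rw [mem_ball, map_mul, hVx0]
      exact mul_le_of_le_one_right' (hs1 a)
    · intro x hx
      have hVy : V (x / x0) ≤ 1 := by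
        rw [map_div₀, hVx0]
        exact div_le_one_of_le₀ hx zero_le
      have hkey : ∀ a : F, x - x0 * s a ∈ ball V j ↔ r (x / x0) = a := by
        intro a
        have e1 : x - x0 * s a = x0 * (x / x0 - s a) := by
          field_simp
        have e2 : j = 1 + ord V x0 := by rw [hox]; ring
        rw [e1]
        have h6 := ball_scale (V := V) hx0 1 (x / x0 - s a)
        rw [← e2] at h6
        rw [h6, mem_ball]
        have h7 := hrsub (x / x0) (s a) hVy (hs1 a)
        rw [hs2] at h7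
        rw [h7]
        constructor
        · intro h8
          refine lt_of_le_of_lt h8 ?_
          rw [← exp_zero, exp_lt_exp]
          omega
        · intro h8
          exact Ub_lt h8
      exact ⟨r (x / x0), (hkey _).mpr rfl, fun b hb => ((hkey b).mp hb).symm⟩
  have hsum1 : gU V ψ c j = ∑ a : F, (ρ (a ^ 2) : ℂ) := by
    have h3 := hsum 1 hV1
    rw [one_mul, hr1] at h3
    simpa using h3
  refine ⟨by rw [hsum1]; exact gs_ne hF2 ρ hρ, fun e he => ⟨?_, ?_⟩⟩
  · rintro ⟨t, ht⟩
    have hVt : V (t ^ 2) = 1 := by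
      have e1 : t ^ 2 = e - (e - t ^ 2) := by ring
      rw [e1, Valuation.map_sub_eq_of_lt_left]
      · exact he
      · rwa [he]
    have hVt1 : V t = 1 := by
      rw [map_pow] at hVt
      exact (pow_eq_one_iff_of_nonneg zero_le (by norm_num)).mp hVt
    have hre : r e = r t ^ 2 := by
      have h3 := (hrsub e (t ^ 2) he.le hVt.le).mpr ht
      rw [h3, pow_two, (hradd t t hVt1.le hVt1.le).2, ← pow_two]
    have hrt : r t ≠ 0 := by
      intro h3
      have h4 := (hr0 t hVt1.le).mp h3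
      rw [hVt1] at h4
      exact lt_irrefl _ h4
    rw [hsum e he, hsum1]
    exact gs_sq ρ hrt hre
  · intro hns
    rw [hsum e he, hsum1]
    apply gs_nsq hF2 ρ hρ
    rintro ⟨b, hb⟩
    apply hns
    refine ⟨s b, ?_⟩
    have h5 : V (s b ^ 2) ≤ 1 := by
      rw [map_pow]
      exact pow_le_one₀ zero_le (hs1 b)
    rw [← hrsub e (s b ^ 2) he.le h5, pow_two, (hradd _ _ (hs1 b) (hs1 b)).2, hs2, hb]

end H38RT
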