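import Pool.Agent.H38.RT.Ub

/-!
Row Uc. (about 100 lines): unary local Gauss sums, summary. s = ord V c + 2 j + d >= 0. Strong induction on s (as a natural number) with gU_red (s >= 2 reduces j to j - 1 and s to s - 2, same parity; ord V (e c) = ord V c),
 base cases gU_zero (s = 0) and gU_one (s = 1). gU_pos: induction on j' - j with gU_red (every j'' with j < j'' <= j' has s'' >= 2), r = q^(j'-j) > 0.
-/

set_option autoImplicit false

open WithZero

namespace H38RT

variable {K : Type*} [Field K] {V : Valuation K (WithZero (Multiplicative ℤ))} {π : K} {q : ℕ}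
  {d : ℤ} {ψ : AddChar K Circle}

theorem ord_mul_one {c e : K} (he : V e = 1) : ord V (e * c) = ord V c := by
  unfold ord
  rw [map_mul, he, one_mul]

theorem gU_ne (h : Loc V π q d ψ) (h2 : V 2 = 1) {c : K} (hc : c ≠ 0) {j : ℤ}
    (hs : 0 ≤ ord V c + 2 * j + d) : gU V ψ c j ≠ 0 := by
  have key : ∀ n : ℕ, ∀ j : ℤ, ord V c + 2 * j + d = n → gU V ψ c j ≠ 0 := by
    intro n
    induction n using Nat.strong_induction_on with
    | _ n ih =>
      intro j hj
      rcases n with _ | _ | n
      · rw [gU_zero h h2 hc (by simpa using hj)]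
        exact one_ne_zero
      · exact (gU_one h h2 hc (by simpa using hj)).1
      · rw [gU_red h h2 hc (by rw [hj]; push_cast; omega)]
        refine mul_ne_zero (Nat.cast_ne_zero.mpr h.pos) ?_
        refine ih n (by omega) (j - 1) ?_
        push_cast at hj
        omega
  obtain ⟨n, hn⟩ := Int.eq_ofNat_of_zero_le hs
  exact key n j hn

theorem gU_twist (h : Loc V π q d ψ) (h2 : V 2 = 1) {c : K} (hc : c ≠ 0) {j : ℤ}
    (hs : 0 ≤ ord V c + 2 * j + d) {e : K} (he : V e = 1) :
    (Sq V e → gU V ψ (e * c) j = gU V ψ c j) ∧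
      (¬ Sq V e → gU V ψ (e * c) j = (-1) ^ (ord V c + 2 * j + d).toNat * gU V ψ c j) := by
  have he0 : e ≠ 0 := by
    rintro rfl
    rw [map_zero] at he
    exact zero_ne_one he
  have hec : e * c ≠ 0 := mul_ne_zero he0 hc
  have ho : ord V (e * c) = ord V c := ord_mul_one he
  have key : ∀ n : ℕ, ∀ j : ℤ, ord V c + 2 * j + d = n →
      (Sq V e → gU V ψ (e * c) j = gU V ψ c j) ∧
      (¬ Sq V e → gU V ψ (e * c) j = (-1) ^ n * gU V ψ c j) := by
    intro n
    induction n using Nat.strong_induction_on with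
    | _ n ih =>
      intro j hj
      rcases n with _ | _ | n
      · rw [gU_zero h h2 hc (by simpa using hj), gU_zero h h2 hec (by rw [ho]; simpa using hj)]
        simp
      · have h1 := (gU_one h h2 hc (by simpa using hj)).2 e he
        refine ⟨h1.1, fun hh => ?_⟩
        rw [h1.2 hh]
        simp
      · have hj' : ord V c + 2 * (j - 1) + d = n := by
          push_cast at hj
          omega
        have h1 := ih n (by omega) (j - 1) hj'
        rw [gU_red h h2 hc (by rw [hj]; push_cast; omega),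
          gU_red h h2 hec (by rw [ho, hj]; push_cast; omega)]
        refine ⟨fun hh => by rw [h1.1 hh], fun hh => ?_⟩
        rw [h1.2 hh]
        ring
  obtain ⟨n, hn⟩ := Int.eq_ofNat_of_zero_le hs
  have h1 := key n j hn
  rw [hn]
  simpa using h1

theorem gU_pos (h : Loc V π q d ψ) (h2 : V 2 = 1) {c : K} (hc : c ≠ 0) {j j' : ℤ}
    (hs : 0 ≤ ord V c + 2 * j + d) (hj : j ≤ j') :
    ∃ r : ℝ, 0 < r ∧ gU V ψ c j' = r * gU V ψ c j := by
  have hq : (0 : ℝ) < q := Nat.cast_pos.mpr (Nat.pos_of_ne_zero h.pos)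
  obtain ⟨k, hk⟩ := Int.eq_ofNat_of_zero_le (sub_nonneg.mpr hj)
  have hk' : j' = j + (k : ℤ) := by
    have : j' - j = (k : ℤ) := hk
    omega
  subst hk'
  clear hk hj
  induction k with
  | zero => exact ⟨1, one_pos, by simp⟩
  | succ k ih =>
    obtain ⟨r, hr, e⟩ := ih
    refine ⟨q * r, mul_pos hq hr, ?_⟩
    rw [gU_red h h2 hc (by push_cast; omega)]
    have : j + ((k + 1 : ℕ) : ℤ) - 1 = j + (k : ℤ) := by push_cast; ring
    rw [this, e]
    push_cast
    ring

end H38RT
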